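import Pool.Agent.H222R3.EW.Tree

set_option autoImplicit false

namespace Pool.Agent.H222R3.EW

/-- root tree for the class (0, 0). -/
def ta00 : Tr := (.sy 0 8192 (.cv (.q 128 32)) (.sy 0 12288 (.sx 0 8192 (.sy 0 10240 (.sx 0 4096 (.cv (.q 129 32)) (.cv (.q 127 32))) (.sx 0 4096 (.sy 0 11264 (.sx 0 2048 (.cv (.q 130 33)) (.sy 0 10752 (.sx 0 3072 (.sy 0 10496 (.cv (.q 129 32)) (.cv (.q 130 33))) (.sy 0 10496 (.cv (.q 134 34)) (.cv (.q 122 34)))) (.cv (.q 130 33)))) (.sx 0 2048 (.cv (.q 126 32)) (.cv (.q 130 33)))) (.sy 0 11264 (.sx 0 6144 (.sy 0 10752 (.sx 0 5120 (.sy 0 10496 (.cv (.q 122 34)) (.cv (.q 134 34))) (.sy 0 10496 (.cv (.q 127 32)) (.cv (.q 126 33)))) (.cv (.q 126 33))) (.cv (.q 126 33))) (.sx 0 6144 (.cv (.q 130 33)) (.cv (.q 130 32)))))) (.sy 0 10240 (.sx 0 12288 (.sy 0 9216 (.cv (.q 129 32)) (.cv (.q 127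 32))) (.sy 0 9216 (.cv (.q 128 32)) (.cv (.q 130 32)))) (.sx 0 12288 (.sy 0 11264 (.cv (.q 130 32)) (.sx 0 10240 (.cv (.q 130 32)) (.sy 0 11776 (.cv (.q 130 32)) (.sx 0 11264 (.cv (.q 130 32)) (.sy 0 12032 (.cv (.q 130 32)) (.sx 0 11776 (.cv (.q 134 31)) (.sy 0 12160 (.cv (.q 134 31)) (.sx 0 12032 (.cv (.q 134 31)) (.sy 0 12224 (.cv (.q 134 31)) (.lf 0 1)))))))))) (.sy 0 11264 (.cv (.q 130 32)) (.sx 0 14336 (.sy 0 11776 (.cv (.q 127 32)) (.sx 0 13312 (.sy 0 12032 (.cv (.q 127 32)) (.sx 0 12800 (.sy 0 12160 (.cv (.q 123 31)) (.sx 0 12544 (.sy 0 12224 (.cv (.q 123 31)) (.lf 0 1)) (.cv (.q 123 31)))) (.cv (.q 123 31)))) (.cv (.q 127 32)))) (.cv (.q 127 32))))))) (.sx 0 8192 (.sy 0 14336 (.sx 0 4096 (.sy 0 13312 (.sx 0 2048 (.cv (.q 126 33)) (.cv (.q 130 32))) (.sx 0 2048 (.cv (.q 130 32)) (.sy 0 13824 (.cv (.q 130 32))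 (.sx 0 3072 (.sy 0 14080 (.cv (.q 130 32)) (.cv (.q 129 33))) (.sy 0 14080 (.cv (.q 122 31)) (.cv (.q 134 31))))))) (.sy 0 13312 (.sx 0 6144 (.cv (.q 130 32)) (.cv (.q 130 33))) (.sx 0 6144 (.sy 0 13824 (.cv (.q 126 32)) (.sx 0 5120 (.sy 0 14080 (.cv (.q 134 31)) (.cv (.q 122 31))) (.sy 0 14080 (.cv (.q 126 32)) (.cv (.q 127 33))))) (.cv (.q 126 32))))) (.sx 0 4096 (.cv (.q 129 33)) (.cv (.q 127 33)))) (.sy 0 14336 (.sx 0 12288 (.sy 0 13312 (.sx 0 10240 (.cv (.q 130 33)) (.sy 0 12800 (.sx 0 11264 (.cv (.q 130 33)) (.sy 0 12544 (.sx 0 11776 (.cv (.q 134 34)) (.sy 0 12416 (.sx 0 12032 (.cv (.q 134 34)) (.sy 0 12352 (.lf 0 1) (.cv (.q 134 34)))) (.cv (.q 134 34)))) (.cv (.q 130 33)))) (.cv (.q 130 33)))) (.cv (.q 130 33))) (.sy 0 13312 (.sx 0 14336 (.sy 0 12800 (.sx 0 13312 (.sy 0 12544 (.sx 0 12800 (.sy 0 12416 (.sx 0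 12544 (.sy 0 12352 (.lf 0 1) (.cv (.q 123 34))) (.cv (.q 123 34))) (.cv (.q 123 34))) (.cv (.q 123 34))) (.cv (.q 127 33))) (.cv (.q 127 33))) (.cv (.q 127 33))) (.cv (.q 127 33))) (.cv (.q 130 33)))) (.sx 0 12288 (.sy 0 15360 (.cv (.q 127 33)) (.cv (.q 129 33))) (.sy 0 15360 (.cv (.q 130 33)) (.cv (.q 128 33))))))))

end Pool.Agent.H222R3.EW
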