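import Pool.Agent.H222R3.EW.Main
import Pool.Agent.H222R3.EW.DataA

/-! The core theorem for arbitrary denominators, threshold `1.118`. -/

set_option autoImplicit false

namespace Pool.Agent.H222R3.EW

/-- static check. -/
def chkS (T : Nat) : Tr → Nat → Nat → Nat → Nat → Bool
  | .cv (.q Q0 Q1), a0, a1, b0, b1 =>
      tst (far (a0 + 128 * U) (a1 + 128 * U) (U * Q0 + U / 4))
          (near (a0 + 128 * U) (a1 + 128 * U) (U * Q0 + U / 4))
          (far (b0 + 32 * U) (b1 + 32 * U) (U * Q1 + U / 4))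
          (near (b0 + 32 * U) (b1 + 32 * U) (U * Q1 + U / 4)) T
  | .cv (.s _ _), _, _, _, _ => false
  | .lf _ _, a0, a1, b0, b1 =>
      Nat.ble 12032 a0 && (Nat.ble a1 12544 && (Nat.ble 12224 b0 && Nat.ble b1 12352))
  | .sx _ mid l r, a0, a1, b0, b1 => chkS T l a0 mid b0 b1 && chkS T r mid a1 b0 b1
  | .sy _ mid l r, a0, a1, b0, b1 => chkS T l a0 a1 b0 mid && chkS T r a0 a1 mid b1

theorem chkA : chkS 300110839 ta00 0 U 0 U = true := by decide +kernel

lemma chkS_sound (T : ℕ) (n A B : ℤ) (hn : 0 < n) (hbad : Bad (fun _ _ => T) n A B) :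
    ∀ (t : Tr) (a0 a1 b0 b1 : ℕ), chkS T t a0 a1 b0 b1 = true → Box n A B a0 a1 b0 b1 →
      32 * |2 * A - n| ≤ n ∧ 128 * |2 * B - n| ≤ n := by
  intro t
  induction t with
  | cv c =>
    intro a0 a1 b0 b1 h hb
    cases c with
    | q Q0 Q1 =>
      exfalso
      have h1 := qcover n A B hn a0 a1 b0 b1 Q0 Q1 _ hb h
      have h2 := hbad ((Q0 : ℤ) - 128) ((Q1 : ℤ) - 32)
      simp only at h2
      linarith
    | s l r => exact absurd h (by simp [chkS])
  | lf rk co =>
    intro a0 a1 b0 b1 h hb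
    obtain ⟨x0, x1, y0, y1⟩ := hb
    have hU : (U : ℤ) = 16384 := rfl
    rw [hU] at x0 x1 y0 y1
    simp only [chkS, Bool.and_eq_true] at h
    obtain ⟨h1, h2, h3, h4⟩ := h
    have h1 := Nat.le_of_ble_eq_true h1
    have h2 := Nat.le_of_ble_eq_true h2
    have h3 := Nat.le_of_ble_eq_true h3
    have h4 := Nat.le_of_ble_eq_true h4
    have h1 : (12032 : ℤ) ≤ a0 := by exact_mod_cast h1
    have h2 : (a1 : ℤ) ≤ 12544 := by exact_mod_cast h2
    have h3 : (12224 : ℤ) ≤ b0 := by exact_mod_cast h3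
    have h4 : (b1 : ℤ) ≤ 12352 := by exact_mod_cast h4
    constructor
    · have k : |32 * (2 * A - n)| ≤ n := by
        rw [abs_le]; constructor <;> nlinarith
      rw [abs_mul] at k
      norm_num at k
      exact k
    · have k : |128 * (2 * B - n)| ≤ n := by
        rw [abs_le]; constructor <;> nlinarith
      rw [abs_mul] at k
      norm_num at k
      exact k
  | sx m mid l r ihl ihr =>
    intro a0 a1 b0 b1 h hb
    simp only [chkS, Bool.and_eq_true] at h
    obtain ⟨x0, x1, y0, y1⟩ := hb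
    rcases le_total ((U : ℤ) * (4 * A + n)) ((mid : ℤ) * (4 * n)) with hm | hm
    · exact ihl a0 mid b0 b1 h.1 ⟨x0, hm, y0, y1⟩
    · exact ihr mid a1 b0 b1 h.2 ⟨hm, x1, y0, y1⟩
  | sy m mid l r ihl ihr =>
    intro a0 a1 b0 b1 h hb
    simp only [chkS, Bool.and_eq_true] at h
    obtain ⟨x0, x1, y0, y1⟩ := hb
    rcases le_total ((U : ℤ) * (4 * B + n)) ((mid : ℤ) * (4 * n)) with hm | hm
    · exact ihl a0 a1 b0 mid h.1 ⟨x0, x1, y0, hm⟩
    · exact ihr a0 a1 mid b1 h.2 ⟨x0, x1, hm, y1⟩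

lemma core1A (n : ℤ) (hn : 0 < n) (P : ℤ × ℤ)
    (h : ∀ k : ℕ, 32 * |2 * ((nxt n)^[k] P).1 - n| ≤ n ∧ 128 * |2 * ((nxt n)^[k] P).2 - n| ≤ n) :
    2 * P.1 = n ∧ 2 * P.2 = n := by
  set x : ℕ → ℤ := fun k => 2 * ((nxt n)^[k] P).1 - n with hx
  set y : ℕ → ℤ := fun k => 2 * ((nxt n)^[k] P).2 - n with hy
  have hbx : ∀ k, 32 * |x k| ≤ n := fun k => (h k).1
  have hby : ∀ k, 128 * |y k| ≤ n := fun k => (h k).2
  have hstep : ∀ k, x (k + 1) = 15 * x k + 56 * y k ∧ y (k + 1) = 4 * x k + 15 * y k := by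
    intro k
    have e : (nxt n)^[k + 1] P = nxt n ((nxt n)^[k] P) := Function.iterate_succ_apply' _ _ _
    set R := (nxt n)^[k] P with hR
    have b0 := hbx k; have b1 := hby k; have b2 := hbx (k + 1); have b3 := hby (k + 1)
    have x1 : x (k + 1) = 15 * x k + 56 * y k + n * (70 - 2 * ((60 * R.1 + 224 * R.2 + n) / (4 * n))) := by
      simp only [hx, hy, e, ← hR, nxt]
      ring
    have y1 : y (k + 1) = 4 * x k + 15 * y k + n * (18 - 2 * ((16 * R.1 + 60 * R.2 + n) / (4 * n))) := by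
      simp only [hx, hy, e, ← hR, nxt]
      ring
    generalize (60 * R.1 + 224 * R.2 + n) / (4 * n) = s at x1
    generalize (16 * R.1 + 60 * R.2 + n) / (4 * n) = t at y1
    have c0 := abs_le.1 (show |x k| ≤ |x k| from le_rfl)
    have c1 := abs_le.1 (show |y k| ≤ |y k| from le_rfl)
    have c2 := abs_le.1 (show |x (k + 1)| ≤ |x (k + 1)| from le_rfl)
    have c3 := abs_le.1 (show |y (k + 1)| ≤ |y (k + 1)| from le_rfl)
    have hs : s = 35 := by
      by_contra hne
      rcases lt_or_gt_of_ne hne with hlt | hgt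
      · have : 2 ≤ 70 - 2 * s := by omega
        nlinarith
      · have : 70 - 2 * s ≤ -2 := by omega
        nlinarith
    have ht : t = 9 := by
      by_contra hne
      rcases lt_or_gt_of_ne hne with hlt | hgt
      · have : 2 ≤ 18 - 2 * t := by omega
        nlinarith
      · have : 18 - 2 * t ≤ -2 := by omega
        nlinarith
    rw [hs] at x1; rw [ht] at y1
    constructor
    · rw [x1]; ring
    · rw [y1]; ring
  have hz := bounded_zero (|x 0|).toNat x y (fun k => (hstep k).1) (fun k => (hstep k).2)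
    ⟨n, fun k => by have := hbx k; have := abs_nonneg (x k); linarith⟩
    (by rw [Int.toNat_of_nonneg (abs_nonneg _)])
  have h1 : 2 * P.1 - n = 0 := hz.1
  have h2 : 2 * P.2 - n = 0 := hz.2
  exact ⟨by linarith, by linarith⟩

/-- A point all of whose translates have norm at least `1.118` is congruent to
`(1 + √14)/2`. -/
theorem coreA (n : ℤ) (hn : 0 < n) (A B : ℤ) (hbad : Bad (fun _ _ => 300110839) n A B) :
    ∃ a b : ℤ, 2 * A = n * (2 * a + 1) ∧ 2 * B = n * (2 * b + 1) := by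
  have hI : Inv (fun _ _ => 300110839) := fun _ _ => rfl
  have hnxt : ∀ P : ℤ × ℤ, Bad (fun _ _ => 300110839) n P.1 P.2 →
      Bad (fun _ _ => 300110839) n (nxt n P).1 (nxt n P).2 := fun P hP =>
    bad_step hI n P.1 P.2 _ _ hP
  have hcore : ∀ P : ℤ × ℤ, Dom n P.1 P.2 → Bad (fun _ _ => 300110839) n P.1 P.2 →
      32 * |2 * P.1 - n| ≤ n ∧ 128 * |2 * P.2 - n| ≤ n := by
    intro P hD hP
    apply chkS_sound _ n P.1 P.2 hn hP ta00 0 U 0 U chkA
    obtain ⟨d0, d1, d2, d3⟩ := hD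
    have hU : (U : ℤ) = 16384 := rfl
    unfold Box
    rw [hU]
    refine ⟨?_, ?_, ?_, ?_⟩ <;> push_cast <;> linarith
  have all : ∀ k : ℕ, Dom n ((nxt n)^[k] (nxt n (A, B))).1 ((nxt n)^[k] (nxt n (A, B))).2 ∧
      Bad (fun _ _ => 300110839) n ((nxt n)^[k] (nxt n (A, B))).1 ((nxt n)^[k] (nxt n (A, B))).2 := by
    intro k
    induction k with
    | zero => exact ⟨nxt_dom n hn (A, B), hnxt (A, B) hbad⟩
    | succ k ih =>
      rw [Function.iterate_succ_apply']
      exact ⟨nxt_dom n hn _, hnxt _ ih.2⟩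
  obtain ⟨h1, h2⟩ := core1A n hn (nxt n (A, B)) (fun k => hcore _ (all k).1 (all k).2)
  unfold nxt at h1 h2
  simp only at h1 h2
  generalize (60 * A + 224 * B + n) / (4 * n) = s at h1
  generalize (16 * A + 60 * B + n) / (4 * n) = t at h2
  refine ⟨15 * s - 56 * t - 21, -4 * s + 15 * t + 5, ?_, ?_⟩
  · linear_combination 15 * h1 - 56 * h2
  · linear_combination -4 * h1 + 15 * h2

end Pool.Agent.H222R3.EW
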