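import Pool.Agent.H222R3.EW.DataB

/-! Kernel evaluation of the certificate for `γ = 28/25`. -/

set_option autoImplicit false

namespace Pool.Agent.H222R3.EW

/-- thresholds `⌊U² (25/28)^w⌋`. -/
def thB (j da db : Nat) : Nat :=
  bif Nat.beq (da % 2) 1 then 268435456
  else bif Nat.beq (db % 2) 1 then 239674514
  else bif Nat.beq (da % 4) 2 then 213995102
  else bif Nat.ble 4 j && Nat.beq (db % 4) 2 then 191067055
  else bif Nat.ble 5 j && Nat.beq (da % 8) 4 then 170595585
  else 0

/-- root trees -/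
def rtB (i k : Nat) : Tr :=
  bif Nat.beq k 0 then
    (bif Nat.beq i 0 then tb00 else bif Nat.beq i 1 then tb10 else bif Nat.beq i 2 then tb20 else tb30)
  else
    (bif Nat.beq i 0 then tb01 else bif Nat.beq i 1 then tb11 else bif Nat.beq i 2 then tb21 else tb31)


theorem chkB :
    (chk thB rtB 128 tb00 0 U 0 U 0 0 && (chk thB rtB 128 tb01 0 U 0 U 0 1 &&
    (chk thB rtB 128 tb10 0 U 0 U 1 0 && (chk thB rtB 128 tb11 0 U 0 U 1 1 &&
    (chk thB rtB 128 tb20 0 U 0 U 2 0 && (chk thB rtB 128 tb21 0 U 0 U 2 1 &&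
    (chk thB rtB 128 tb30 0 U 0 U 3 0 && chk thB rtB 128 tb31 0 U 0 U 3 1))))))) = true := by
  decide +kernel

theorem lokB :
    (lok tb00 && (lok tb01 && (lok tb10 && (lok tb11 && (lok tb20 && (lok tb21 &&
    (lok tb30 && lok tb31))))))) = true := by
  decide +kernel

end Pool.Agent.H222R3.EW
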