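import Pool.Agent.H222R3.EW.Main
import Pool.Agent.H222R3.EW.EvalB

/-! The core theorem for points with odd denominator. -/

set_option autoImplicit false

namespace Pool.Agent.H222R3.EW

/-- the thresholds `⌊U² (25/28)^w⌋` for `w = 0,…,4`, where `w` is the `2`-adic valuation of
`X² - 14 Y²`. -/
def THB (X Y : ℤ) : ℕ :=
  if X % 2 = 1 then 268435456
  else if Y % 2 = 1 then 239674514
  else if X % 4 = 2 then 213995102
  else if Y % 4 = 2 then 191067055
  else if X % 8 = 4 then 170595585
  else 0

lemma beq_t {a b : ℕ} (h : a = b) : Nat.beq a b = true := by subst h; exact Nat.beq_refl a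
lemma beq_f {a b : ℕ} (h : a ≠ b) : Nat.beq a b = false :=
  Bool.eq_false_iff.2 fun hh => h (Nat.eq_of_beq_eq_true hh)
lemma ble_t {a b : ℕ} (h : a ≤ b) : Nat.ble a b = true := Nat.ble_eq_true_of_le h
lemma ble_f {a b : ℕ} (h : ¬ a ≤ b) : Nat.ble a b = false :=
  Bool.eq_false_iff.2 fun hh => h (Nat.le_of_ble_eq_true hh)

lemma compB (n : ℤ) (hn : n % 8 = 1) : Comp thB THB n := by
  intro j r0 r1 Q0 Q1 A B hcl
  obtain ⟨m, hm⟩ : ∃ m, n = 8 * m + 1 := ⟨n / 8, by omega⟩
  obtain ⟨X, hX⟩ : ∃ X, X = A - n * ((Q0 : ℤ) - 128) := ⟨_, rfl⟩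
  obtain ⟨Y, hY⟩ : ∃ Y, Y = B - n * ((Q1 : ℤ) - 32) := ⟨_, rfl⟩
  rw [← hX, ← hY]
  obtain ⟨u, hu⟩ : ∃ u : ℤ, X = A - Q0 + 8 * u := ⟨-(m * ((Q0 : ℤ) - 128)) + 16, by
    rw [hX, hm]; ring⟩
  obtain ⟨v, hv⟩ : ∃ v : ℤ, Y = B - Q1 + 4 * v := ⟨-(2 * m * ((Q1 : ℤ) - 32)) + 8, by
    rw [hY, hm]; ring⟩
  obtain ⟨da, hda⟩ : ∃ da : ℕ, da = (r0 + 7 * Q0) % 8 := ⟨_, rfl⟩
  obtain ⟨db, hdb⟩ : ∃ db : ℕ, db = (r1 + 3 * Q1) % 4 := ⟨_, rfl⟩
  rw [← hda, ← hdb]
  have ha : (A - r0) % 4 = 0 := by
    rcases hcl with h | h | h <;> omega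
  have hb : (B - r1) % 2 = 0 := by
    rcases hcl with h | h | h <;> omega
  have fa : (X - da) % 4 = 0 := by omega
  have fb : (Y - db) % 2 = 0 := by omega
  unfold thB THB
  by_cases h0 : da % 2 = 1
  · rw [beq_t h0, cond_true, if_pos (by omega)]
  · rw [beq_f h0, cond_false]
    rw [if_neg (by omega)]
    by_cases h1 : db % 2 = 1
    · rw [beq_t h1, cond_true, if_pos (by omega)]
    · rw [beq_f h1, cond_false, if_neg (by omega)]
      by_cases h2 : da % 4 = 2
      · rw [beq_t h2, cond_true, if_pos (by omega)]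
      · rw [beq_f h2, cond_false, if_neg (by omega)]
        rcases hcl with ⟨hj, g1, g2⟩ | ⟨hj, g1, g2⟩ | ⟨hj, g1, g2⟩
        · subst hj
          have e1 : Nat.ble 4 3 = false := rfl
          have e2 : Nat.ble 5 3 = false := rfl
          rw [e1, e2, Bool.false_and, Bool.false_and, cond_false, cond_false]
          exact Nat.zero_le _
        · subst hj
          have e1 : Nat.ble 4 4 = true := rfl
          have e2 : Nat.ble 5 4 = false := rfl
          rw [e1, e2, Bool.true_and, Bool.false_and, cond_false]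
          by_cases h3 : db % 4 = 2
          · rw [beq_t h3, cond_true, if_pos (by omega)]
          · rw [beq_f h3, cond_false]
            exact Nat.zero_le _
        · subst hj
          have e1 : Nat.ble 4 5 = true := rfl
          have e2 : Nat.ble 5 5 = true := rfl
          rw [e1, e2, Bool.true_and, Bool.true_and]
          by_cases h3 : db % 4 = 2
          · rw [beq_t h3, cond_true, if_pos (by omega)]
          · rw [beq_f h3, cond_false, if_neg (by omega)]
            by_cases h4 : da % 8 = 4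
            · rw [beq_t h4, cond_true, if_pos (by omega)]
            · rw [beq_f h4, cond_false]
              exact Nat.zero_le _

lemma invB : Inv THB := by
  intro X Y
  unfold THB
  have h1 : (15 * X + 56 * Y) % 2 = X % 2 := by omega
  have h2 : (4 * X + 15 * Y) % 2 = Y % 2 := by omega
  by_cases a : X % 2 = 1
  · rw [if_pos (by omega), if_pos a]
  · rw [if_neg (by omega), if_neg a]
    by_cases b : Y % 2 = 1
    · rw [if_pos (by omega), if_pos b]
    · rw [if_neg (by omega), if_neg b]
      by_cases c : X % 4 = 2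
      · rw [if_pos (by omega), if_pos c]
      · rw [if_neg (by omega), if_neg c]
        by_cases d : Y % 4 = 2
        · rw [if_pos (by omega), if_pos d]
        · rw [if_neg (by omega), if_neg d]
          by_cases e : X % 8 = 4
          · rw [if_pos (by omega), if_pos e]
          · rw [if_neg (by omega), if_neg e]

theorem coreB (n : ℤ) (hn : 0 < n) (hn8 : n % 8 = 1) (A B : ℤ) (hbad : Bad THB n A B) :
    n ∣ A ∧ n ∣ B := by
  have hl := lokB
  have hk := chkB
  simp only [Bool.and_eq_true] at hl hk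
  obtain ⟨l1, l2, l3, l4, l5, l6, l7, l8⟩ := hl
  obtain ⟨k1, k2, k3, k4, k5, k6, k7, k8⟩ := hk
  refine main_orbit (rt := rtB) hn hn8 (compB n hn8) invB ?_ ?_ A B hbad
  · intro i k hi hk
    interval_cases i <;> interval_cases k
    · exact l1
    · exact l2
    · exact l3
    · exact l4
    · exact l5
    · exact l6
    · exact l7
    · exact l8
  · intro i k hi hk
    interval_cases i <;> interval_cases k
    · exact k1
    · exact k2
    · exact k3
    · exact k4
    · exact k5
    · exact k6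
    · exact k7
    · exact k8

end Pool.Agent.H222R3.EW
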