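import Pool.Agent.H222R3.EW.Tree

set_option autoImplicit false

namespace Pool.Agent.H222R3.EW

def tb00s_1 : Tr := (.sy 0 4096 (.sx 0 8192 (.sy 0 2048 (.sx 0 4096 (.cv (.q 127 32)) (.cv (.q 129 32))) (.sx 0 4096 (.sy 0 3072 (.cv (.q 127 32)) (.sx 0 2048 (.cv (.q 127 32)) (.sy 0 3584 (.cv (.q 127 32)) (.sx 0 3072 (.cv (.q 127 32)) (.sy 0 3840 (.cv (.q 127 32)) (.sx 0 3584 (.cv (.q 127 32)) (.sy 0 3968 (.cv (.q 127 32)) (.sx 0 3840 (.cv (.q 127 32)) (.sy 0 4032 (.cv (.q 127 32)) (.sx 0 3968 (.cv (.q 127 32)) (.lf 0 2))))))))))) (.sy 0 3072 (.cv (.q 129 32)) (.sx 0 6144 (.sy 0 3584 (.cv (.q 129 32)) (.sx 0 5120 (.sy 0 3840 (.cv (.q 129 32)) (.sx 0 4608 (.sy 0 3968 (.cv (.q 129 32)) (.sx 0 4352 (.sy 0 4032 (.cv (.q 129 32)) (.sx 0 4224 (.lf 0 2) (.cv (.q 129 32)))) (.cv (.q 129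 32)))) (.cv (.q 129 32)))) (.cv (.q 129 32)))) (.cv (.q 129 32)))))) (.cv (.q 129 32))) (.sx 0 8192 (.sy 0 6144 (.sx 0 4096 (.sy 0 5120 (.sx 0 2048 (.cv (.q 127 32)) (.sy 0 4608 (.sx 0 3072 (.cv (.q 127 32)) (.sy 0 4352 (.sx 0 3584 (.cv (.q 127 32)) (.sy 0 4224 (.sx 0 3840 (.cv (.q 127 32)) (.sy 0 4160 (.sx 0 3968 (.cv (.q 127 32)) (.lf 0 2)) (.cv (.q 127 32)))) (.cv (.q 127 32)))) (.cv (.q 127 32)))) (.cv (.q 127 32)))) (.cv (.q 127 32))) (.sy 0 5120 (.sx 0 6144 (.sy 0 4608 (.sx 0 5120 (.sy 0 4352 (.sx 0 4608 (.sy 0 4224 (.sx 0 4352 (.sy 0 4160 (.sx 0 4224 (.lf 0 2) (.cv (.q 129 32))) (.cv (.q 129 32))) (.cv (.q 129 32))) (.cv (.q 129 32))) (.cv (.q 129 32))) (.cv (.q 129 32))) (.cv (.q 129 32))) (.cv (.q 129 32))) (.cv (.q 129 32))) (.cv (.q 129 32)))) (.sx 0 4096 (.cv (.q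 127 32)) (.cv (.q 129 32)))) (.cv (.q 129 32))))

def tb00s_2 : Tr := (.sx 16 4096 (.sy 16 11264 (.sx 16 2048 (.sy 0 10752 (.sx 0 1024 (.cv (.q 129 32)) (.sy 0 10496 (.cv (.q 129 32)) (.cv (.q 130 33)))) (.cv (.q 130 33))) (.sy 16 10752 (.sx 16 3072 (.sy 16 10496 (.sx 0 2560 (.cv (.q 129 32)) (.cv (.q 119 30))) (.sx 16 2560 (.cv (.q 130 33)) (.sy 16 10624 (.lf 16 0) (.cv (.q 130 33))))) (.sy 13 10496 (.sx 13 3584 (.cv (.q 134 34)) (.sy 13 10368 (.sx 13 3840 (.cv (.q 134 34)) (.sy 13 10304 (.sx 13 3968 (.cv (.q 129 32)) (.sy 13 10272 (.cv (.q 129 32)) (.sx 13 4032 (.lf 13 0) (.sy 10 10288 (.cv (.q 129 32)) (.sx 10 4064 (.lf 10 0) (.sy 10 10296 (.lf 10 0) (.lf 4 0))))))) (.cv (.q 134 34)))) (.cv (.q 134 34)))) (.sx 0 3584 (.sy 0 10624 (.cv (.q 119 30)) (.cv (.q 122 34))) (.cv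 (.q 119 30))))) (.sx 0 3072 (.cv (.q 130 33)) (.sy 0 11008 (.sx 0 3584 (.cv (.q 130 33)) (.sy 0 10880 (.cv (.q 137 30)) (.cv (.q 130 33)))) (.cv (.q 130 33)))))) (.sx 0 2048 (.sy 0 11776 (.sx 0 1024 (.cv (.q 126 32)) (.cv (.q 130 33))) (.cv (.q 126 32))) (.sy 0 11776 (.cv (.q 130 33)) (.cv (.q 126 33))))) (.sy 1 11264 (.sx 1 6144 (.sy 1 10752 (.sx 1 5120 (.sy 1 10496 (.sx 1 4608 (.sy 1 10368 (.sx 1 4352 (.sy 1 10304 (.sx 1 4224 (.sy 1 10272 (.cv (.q 127 32)) (.sx 1 4160 (.sy 1 10288 (.cv (.q 127 32)) (.sx 1 4128 (.sy 1 10296 (.lf 1 0) (.lf 1 0)) (.lf 1 0))) (.lf 1 0))) (.cv (.q 127 32))) (.cv (.q 122 34))) (.cv (.q 122 34))) (.cv (.q 122 34))) (.cv (.q 122 34))) (.sx 0 4608 (.cv (.q 137 30)) (.sy 0 10624 (.cv (.q 137 30)) (.cv (.q 134 34))))) (.sy 0 10496 (.sx 0 5632 (.cv (.q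 137 30)) (.cv (.q 127 32))) (.sx 0 5632 (.sy 0 10624 (.lf 0 0) (.cv (.q 126 33))) (.cv (.q 126 33))))) (.sx 0 5120 (.sy 0 11008 (.sx 0 4608 (.sy 0 10880 (.cv (.q 119 30)) (.cv (.q 126 33))) (.cv (.q 126 33))) (.cv (.q 126 33))) (.cv (.q 126 33)))) (.sy 0 10752 (.sx 0 7168 (.sy 0 10496 (.cv (.q 127 32)) (.cv (.q 126 33))) (.cv (.q 127 32))) (.cv (.q 126 33)))) (.sx 0 6144 (.sy 0 11776 (.cv (.q 126 33)) (.cv (.q 130 33))) (.sy 0 11776 (.sx 0 7168 (.cv (.q 126 33)) (.cv (.q 130 32))) (.cv (.q 130 32))))))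

def tb00s_3 : Tr := (.sx 4 10240 (.sy 0 11776 (.cv (.q 130 32)) (.sx 0 9216 (.cv (.q 130 32)) (.sy 0 12032 (.cv (.q 130 32)) (.lf 0 0)))) (.sy 4 11776 (.sx 0 11264 (.cv (.q 130 32)) (.sy 0 11520 (.cv (.q 130 32)) (.cv (.q 123 31)))) (.sx 4 11264 (.sy 0 12032 (.sx 0 10752 (.cv (.q 130 32)) (.sy 0 11904 (.cv (.q 130 32)) (.cv (.q 134 31)))) (.cv (.q 134 31))) (.sy 4 12032 (.cv (.q 134 31)) (.sx 4 11776 (.sy 4 12160 (.cv (.q 134 31)) (.sx 4 11520 (.cv (.q 134 31)) (.sy 4 12224 (.cv (.q 134 31)) (.sx 4 11648 (.cv (.q 134 31)) (.sy 4 12256 (.cv (.q 134 31)) (.sx 4 11712 (.cv (.q 134 31)) (.sy 4 12272 (.cv (.q 134 31)) (.sx 4 11744 (.cv (.q 134 31)) (.sy 4 12280 (.cv (.q 134 31)) (.sx 4 11760 (.sy 4 12284 (.cv (.q 134 31)) (.sx 4 11752 (.cv (.q 134 31)) (.lf 4 0))) (.lf 4 0)))))))))))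 (.sy 4 12160 (.sx 2 12032 (.cv (.q 134 31)) (.sy 2 12096 (.cv (.q 134 31)) (.lf 2 0))) (.sx 4 12032 (.sy 4 12224 (.sx 2 11904 (.cv (.q 134 31)) (.sy 2 12192 (.cv (.q 134 31)) (.sx 2 11968 (.cv (.q 134 31)) (.sy 2 12208 (.cv (.q 134 31)) (.sx 2 12000 (.cv (.q 134 31)) (.sy 2 12216 (.sx 2 12016 (.cv (.q 134 31)) (.sy 2 12212 (.cv (.q 134 31)) (.lf 2 0))) (.sx 2 12016 (.sy 2 12220 (.lf 2 0) (.lf 2 0)) (.sy 2 12220 (.lf 2 0) (.lf 0 0))))))))) (.sx 4 11904 (.lf 4 0) (.lf 2 0))) (.sy 3 12224 (.sx 2 12160 (.sy 2 12192 (.lf 2 0) (.sx 2 12096 (.sy 2 12208 (.lf 2 0) (.sx 2 12064 (.sy 2 12216 (.sx 2 12048 (.sy 2 12212 (.lf 2 0) (.lf 2 0)) (.lf 2 0)) (.lf 0 0)) (.lf 0 0))) (.lf 2 0))) (.lf 2 1)) (.sx 3 12160 (.lf 0 0) (.lf 3 1))))))))))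

def tb00s_4 : Tr := (.sx 15 4096 (.sy 1 13312 (.sx 0 2048 (.cv (.q 126 33)) (.sy 0 12800 (.cv (.q 126 32)) (.cv (.q 130 32)))) (.sx 1 2048 (.sy 0 13824 (.cv (.q 130 32)) (.sx 0 1024 (.cv (.q 130 32)) (.sy 0 14080 (.cv (.q 130 32)) (.cv (.q 129 33))))) (.sy 1 13824 (.sx 1 3072 (.cv (.q 130 32)) (.sy 1 13568 (.cv (.q 130 32)) (.sx 1 3584 (.cv (.q 122 31)) (.sy 1 13696 (.lf 1 0) (.cv (.q 122 31)))))) (.sx 0 3072 (.sy 0 14080 (.sx 0 2560 (.sy 0 13952 (.cv (.q 130 32)) (.sx 0 2304 (.cv (.q 130 32)) (.sy 0 14016 (.cv (.q 130 32)) (.cv (.q 129 33))))) (.sy 0 13952 (.sx 0 2816 (.cv (.q 130 32)) (.cv (.q 122 31))) (.lf 0 0))) (.sx 0 2560 (.cv (.q 129 33)) (.cv (.q 134 31)))) (.sy 0 14080 (.sx 0 3584 (.sy 0 13952 (.cv (.q 122 31)) (.cv (.q 134 31))) (.cv (.q 134 31))) (.sx 0 3584 (.cv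 (.q 134 31)) (.sy 0 14208 (.cv (.q 134 31)) (.sx 0 3840 (.cv (.q 134 31)) (.sy 0 14272 (.cv (.q 134 31)) (.sx 0 3968 (.cv (.q 134 31)) (.sy 0 14304 (.cv (.q 134 31)) (.cv (.q 129 33))))))))))))) (.sy 15 13312 (.sx 0 6144 (.sy 0 12800 (.cv (.q 130 32)) (.cv (.q 126 32))) (.cv (.q 130 33))) (.sx 15 6144 (.sy 15 13824 (.sx 0 5120 (.sy 0 13568 (.cv (.q 126 32)) (.sx 0 4608 (.sy 0 13696 (.lf 0 0) (.cv (.q 134 31))) (.cv (.q 134 31)))) (.cv (.q 126 32))) (.sx 15 5120 (.sy 0 14080 (.sx 0 4608 (.cv (.q 134 31)) (.sy 0 13952 (.cv (.q 134 31)) (.cv (.q 122 31)))) (.sx 0 4608 (.sy 0 14208 (.cv (.q 122 31)) (.sx 0 4352 (.sy 0 14272 (.cv (.q 122 31)) (.sx 0 4224 (.sy 0 14304 (.cv (.q 122 31)) (.cv (.q 127 33))) (.cv (.q 122 31)))) (.cv (.q 122 31)))) (.cv (.q 122 31)))) (.sy 15 14080 (.sx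 15 5632 (.sy 15 13952 (.sx 0 5376 (.cv (.q 134 31)) (.cv (.q 126 32))) (.lf 15 0)) (.sy 0 13952 (.cv (.q 126 32)) (.sx 0 5888 (.sy 0 14016 (.cv (.q 126 32)) (.cv (.q 127 33))) (.cv (.q 126 32))))) (.sx 0 5632 (.cv (.q 122 31)) (.cv (.q 127 33)))))) (.sy 0 13824 (.cv (.q 126 32)) (.sx 0 7168 (.sy 0 14080 (.cv (.q 126 32)) (.cv (.q 127 33))) (.cv (.q 126 32)))))))

def tb00s_5 : Tr := (.sx 11 11776 (.sy 11 12416 (.sx 11 11520 (.cv (.q 134 34)) (.sy 11 12352 (.sx 11 11648 (.sy 0 12320 (.sx 0 11584 (.cv (.q 134 31)) (.sy 0 12304 (.cv (.q 134 31)) (.cv (.q 134 34)))) (.cv (.q 134 34))) (.sy 11 12320 (.sx 11 11712 (.sy 11 12304 (.sx 4 11680 (.cv (.q 134 31)) (.sy 4 12296 (.cv (.q 134 31)) (.lf 4 0))) (.sx 11 11680 (.sy 0 12312 (.sx 0 11664 (.cv (.q 134 31)) (.sy 0 12308 (.cv (.q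 134 31)) (.cv (.q 134 34)))) (.cv (.q 134 34))) (.sy 11 12312 (.sx 11 11696 (.sy 11 12308 (.sx 11 11688 (.sy 11 12306 (.cv (.q 134 31)) (.lf 11 0)) (.sy 9 12306 (.lf 9 0) (.lf 9 0))) (.sx 0 11688 (.cv (.q 134 34)) (.lf 0 0))) (.sy 2 12308 (.lf 2 0) (.lf 0 0))) (.lf 0 0)))) (.sy 4 12304 (.sx 4 11744 (.sy 4 12296 (.sx 4 11728 (.lf 4 0) (.sy 4 12292 (.sx 4 11736 (.cv (.q 134 31)) (.sy 4 12290 (.cv (.q 134 31)) (.lf 4 0))) (.lf 4 0))) (.lf 4 0)) (.sy 4 12296 (.sx 4 11760 (.sy 4 12292 (.sx 4 11752 (.sy 4 12290 (.sx 4 11748 (.cv (.q 134 31)) (.sy 4 12289 (.cv (.q 134 31)) (.lf 4 0))) (.sx 4 11748 (.sy 4 12291 (.lf 4 0) (.lf 4 0)) (.sy 2 12291 (.lf 2 0) (.lf 1 0)))) (.sy 4 12290 (.sx 4 11756 (.lf 4 0) (.lf 2 0)) (.lf 1 0))) (.lf 2 0)) (.lf 1 0)) (.lf 0 0))) (.lf 0 0))) (.lf 0 0)))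 (.cv (.q 134 34)))) (.cv (.q 134 34))) (.sy 4 12416 (.sx 4 12032 (.sy 4 12352 (.sx 2 11904 (.lf 0 0) (.lf 2 0)) (.sx 4 11904 (.sy 2 12384 (.lf 2 0) (.cv (.q 134 34))) (.sy 4 12384 (.sx 4 11968 (.sy 4 12368 (.lf 2 0) (.sx 4 11936 (.sy 2 12376 (.lf 2 0) (.cv (.q 134 34))) (.sy 4 12376 (.sx 4 11952 (.sy 4 12372 (.lf 2 0) (.lf 4 0)) (.lf 4 0)) (.sx 4 11952 (.sy 4 12380 (.lf 4 0) (.cv (.q 134 34))) (.sy 4 12380 (.lf 4 0) (.lf 4 0)))))) (.sy 4 12368 (.sx 4 12000 (.sy 4 12360 (.lf 2 0) (.lf 4 0)) (.sy 4 12360 (.sx 4 12016 (.sy 4 12356 (.lf 2 0) (.lf 4 0)) (.sy 4 12356 (.lf 4 0) (.lf 4 0))) (.sx 4 12016 (.sy 4 12364 (.lf 4 0) (.lf 4 0)) (.sy 4 12364 (.lf 4 0) (.lf 3 0))))) (.sx 4 12000 (.sy 4 12376 (.lf 4 0) (.sx 4 11984 (.sy 4 12380 (.lf 4 0) (.lf 0 0)) (.lf 0 0))) (.lf 3 0)))) (.sx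 0 11968 (.cv (.q 134 34)) (.lf 0 0))))) (.sy 4 12352 (.sx 4 12160 (.lf 4 0) (.lf 3 1)) (.sx 4 12160 (.sy 4 12384 (.sx 4 12096 (.sy 4 12368 (.sx 4 12064 (.sy 4 12360 (.lf 4 0) (.sx 3 12048 (.sy 3 12364 (.lf 3 0) (.lf 0 0)) (.lf 0 0))) (.lf 3 0)) (.lf 0 0)) (.lf 0 0)) (.lf 0 0)) (.lf 1 1)))) (.sx 1 12032 (.cv (.q 134 34)) (.lf 1 0))))

def tb00s_6 : Tr := (.sy 16 12288 (.sx 16 8192 (.sy 16 10240 (.sx 0 4096 (.cv (.q 129 32)) (.cv (.q 127 32))) tb00s_2) (.sy 4 10240 (.sx 0 12288 (.sy 0 9216 (.sx 0 10240 (.cv (.q 129 32)) (.sy 0 8704 (.cv (.q 129 32)) (.cv (.q 131 33)))) (.cv (.q 127 32))) (.sy 0 9216 (.sx 0 14336 (.sy 0 8704 (.cv (.q 129 32)) (.sx 0 13312 (.sy 0 8960 (.sx 0 12800 (.sy 0 8832 (.cv (.q 129 32)) (.cv (.q 131 33))) (.cv (.q 126 33))) (.cv (.q 131 33))) (.cv (.q 126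 33)))) (.sy 0 8704 (.sx 0 15360 (.sy 0 8448 (.cv (.q 129 32)) (.cv (.q 126 33))) (.cv (.q 126 33))) (.cv (.q 130 32)))) (.sx 0 14336 (.cv (.q 131 33)) (.cv (.q 130 32))))) (.sx 4 12288 (.sy 4 11264 (.sx 0 10240 (.sy 0 10752 (.cv (.q 127 32)) (.cv (.q 130 32))) (.cv (.q 130 32))) tb00s_3) (.sy 4 11264 (.sx 0 14336 (.cv (.q 130 32)) (.sy 0 10752 (.cv (.q 130 32)) (.cv (.q 127 32)))) (.sx 4 14336 (.sy 4 11776 (.cv (.q 127 32)) (.sx 4 13312 (.sy 4 12032 (.cv (.q 123 31)) (.sx 4 12800 (.sy 4 12160 (.cv (.q 123 31)) (.sx 4 12544 (.sy 4 12224 (.lf 4 0) (.sx 4 12416 (.lf 3 1) (.lf 4 0))) (.sy 3 12224 (.cv (.q 123 31)) (.lf 3 0)))) (.cv (.q 123 31)))) (.sy 0 12032 (.cv (.q 127 32)) (.cv (.q 123 31))))) (.cv (.q 127 32))))))) (.sx 15 8192 (.sy 15 14336 tb00s_4 (.sx 0 4096 (.cv (.q 129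 33)) (.cv (.q 127 33)))) (.sy 11 14336 (.sx 11 12288 (.sy 11 13312 (.sx 11 10240 (.cv (.q 130 33)) (.sy 11 12800 (.sx 11 11264 (.sy 0 12544 (.cv (.q 134 34)) (.cv (.q 130 33))) (.sy 11 12544 tb00s_5 (.cv (.q 134 34)))) (.cv (.q 130 33)))) (.sx 0 10240 (.sy 0 13824 (.cv (.q 130 33)) (.cv (.q 126 32))) (.cv (.q 130 33)))) (.sy 3 13312 (.sx 3 14336 (.sy 3 12800 (.sx 3 13312 (.sy 3 12544 (.sx 3 12800 (.sy 3 12416 (.sx 3 12544 (.sy 3 12352 (.sx 3 12416 (.lf 3 1) (.lf 1 0)) (.lf 1 0)) (.lf 1 0)) (.cv (.q 123 34))) (.cv (.q 123 34))) (.cv (.q 123 34))) (.sy 0 12544 (.cv (.q 123 34)) (.cv (.q 127 33)))) (.cv (.q 127 33))) (.cv (.q 127 33))) (.sx 0 14336 (.cv (.q 130 33)) (.sy 0 13824 (.cv (.q 127 33)) (.cv (.q 131 32)))))) (.sx 0 12288 (.sy 0 15360 (.cv (.q 127 33)) (.sx 0 10240 (.cv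 (.q 131 32)) (.sy 0 15872 (.cv (.q 131 32)) (.cv (.q 129 33))))) (.sy 0 15360 (.cv (.q 130 33)) (.sx 0 14336 (.sy 0 15872 (.sx 0 13312 (.sy 0 15616 (.cv (.q 131 32)) (.sx 0 12800 (.sy 0 15744 (.cv (.q 131 32)) (.cv (.q 129 33))) (.sy 0 15744 (.cv (.q 126 32)) (.cv (.q 135 31))))) (.cv (.q 126 32))) (.cv (.q 128 33))) (.sy 0 15872 (.cv (.q 130 33)) (.cv (.q 128 33)))))))))

/-- root tree for the class (0, 0). -/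
def tb00 : Tr := (.sy 16 8192 tb00s_1 tb00s_6)

def tb01s_1 : Tr := (.sx 15 4096 (.sy 15 11264 (.sx 15 2048 (.sy 0 10752 (.sx 0 1024 (.cv (.q 129 32)) (.sy 0 10496 (.cv (.q 129 32)) (.cv (.q 130 33)))) (.cv (.q 130 33))) (.sy 15 10752 (.sx 15 3072 (.sy 15 10496 (.sx 0 2560 (.cv (.q 129 32)) (.cv (.q 119 30))) (.sx 15 2560 (.sy 0 10624 (.sx 0 2304 (.cv (.q 129 32)) (.sy 0 10560 (.cv (.q 129 32)) (.cv (.q 130 33)))) (.cv (.q 130 33))) (.sy 15 10624 (.lf 15 0) (.sx 0 2816 (.cv (.q 130 33)) (.cv (.q 122 34)))))) (.sy 0 10496 (.sx 0 3584 (.cv (.q 134 34)) (.sy 0 10368 (.sx 0 3840 (.cv (.q 134 34)) (.sy 0 10304 (.sx 0 3968 (.cv (.q 129 32)) (.sy 0 10272 (.cv (.q 129 32)) (.cv (.q 134 34)))) (.cv (.q 134 34)))) (.cv (.q 134 34)))) (.sx 0 3584 (.sy 0 10624 (.cv (.q 119 30)) (.cv (.q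 122 34))) (.cv (.q 119 30))))) (.sx 0 3072 (.cv (.q 130 33)) (.sy 0 11008 (.sx 0 3584 (.cv (.q 122 34)) (.sy 0 10880 (.cv (.q 137 30)) (.lf 0 0))) (.cv (.q 130 33)))))) (.sx 0 2048 (.cv (.q 126 32)) (.sy 0 11776 (.cv (.q 130 33)) (.cv (.q 126 33))))) (.sy 1 11264 (.sx 1 6144 (.sy 1 10752 (.sx 0 5120 (.sy 0 10496 (.sx 0 4608 (.sy 0 10368 (.sx 0 4352 (.sy 0 10304 (.sx 0 4224 (.sy 0 10272 (.cv (.q 127 32)) (.cv (.q 122 34))) (.cv (.q 127 32))) (.cv (.q 122 34))) (.cv (.q 122 34))) (.cv (.q 122 34))) (.cv (.q 122 34))) (.sx 0 4608 (.cv (.q 137 30)) (.sy 0 10624 (.cv (.q 137 30)) (.cv (.q 134 34))))) (.sy 0 10496 (.sx 0 5632 (.cv (.q 137 30)) (.cv (.q 127 32))) (.sx 0 5632 (.sy 0 10624 (.lf 0 0) (.sx 0 5376 (.cv (.q 134 34)) (.cv (.q 126 33)))) (.sy 0 10624 (.sx 0 5888 (.sy 0 10560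 (.cv (.q 127 32)) (.cv (.q 126 33))) (.cv (.q 127 32))) (.cv (.q 126 33)))))) (.sx 1 5120 (.sy 1 11008 (.sx 1 4608 (.sy 1 10880 (.cv (.q 119 30)) (.lf 1 0)) (.cv (.q 134 34))) (.cv (.q 126 33))) (.cv (.q 126 33)))) (.sy 0 10752 (.sx 0 7168 (.sy 0 10496 (.cv (.q 127 32)) (.cv (.q 126 33))) (.cv (.q 127 32))) (.cv (.q 126 33)))) (.sx 0 6144 (.sy 0 11776 (.cv (.q 126 33)) (.cv (.q 130 33))) (.cv (.q 130 32)))))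

def tb01s_2 : Tr := (.sx 14 11776 (.sy 13 12160 (.cv (.q 134 31)) (.sx 13 11520 (.cv (.q 134 31)) (.sy 13 12224 (.cv (.q 134 31)) (.sx 13 11648 (.sy 0 12256 (.cv (.q 134 31)) (.sx 0 11584 (.cv (.q 134 31)) (.sy 0 12272 (.cv (.q 134 31)) (.cv (.q 134 34))))) (.sy 13 12256 (.lf 4 0) (.sx 13 11712 (.sy 4 12272 (.sx 4 11680 (.sy 0 12264 (.cv (.q 134 31)) (.sx 0 11664 (.cv (.q 134 31)) (.sy 0 12268 (.cv (.q 134 31)) (.cv (.q 134 34))))) (.sy 4 12264 (.lf 4 0) (.sx 4 11696 (.sy 4 12268 (.sx 4 11688 (.cv (.q 134 31)) (.lf 4 0)) (.sx 4 11688 (.sy 4 12270 (.lf 4 0) (.cv (.q 134 34))) (.sy 4 12270 (.lf 4 0) (.lf 1 0)))) (.sy 4 12268 (.lf 4 0) (.lf 1 0))))) (.sx 4 11680 (.cv (.q 134 34)) (.sy 4 12280 (.lf 4 0) (.cv (.q 134 34))))) (.sy 13 12272 (.lf 4 0) (.sx 13 11744 (.sy 1 12280 (.lf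 1 0) (.sx 1 11728 (.lf 1 0) (.sy 1 12284 (.lf 1 0) (.sx 1 11736 (.cv (.q 134 34)) (.sy 1 12286 (.lf 1 0) (.cv (.q 134 34))))))) (.sy 13 12280 (.lf 13 0) (.sx 13 11760 (.sy 13 12284 (.lf 13 0) (.sx 13 11752 (.sy 13 12286 (.sx 13 11748 (.sy 3 12285 (.lf 1 0) (.lf 3 0)) (.sy 13 12285 (.lf 12 0) (.lf 13 0))) (.sx 13 11748 (.cv (.q 134 34)) (.sy 13 12287 (.lf 13 0) (.cv (.q 134 34))))) (.sy 13 12286 (.lf 13 0) (.sx 11 11756 (.lf 11 0) (.lf 2 0))))) (.lf 13 0))))))))))) (.sy 14 12160 (.sx 13 12032 (.cv (.q 134 31)) (.lf 13 0)) (.sx 14 12032 (.sy 13 12224 (.sx 13 11904 (.sy 4 12192 (.cv (.q 134 31)) (.lf 4 0)) (.sy 13 12192 (.sx 4 11968 (.cv (.q 134 31)) (.lf 4 0)) (.sx 13 11968 (.sy 4 12208 (.sx 4 11936 (.sy 4 12200 (.cv (.q 134 31)) (.lf 4 0)) (.sy 4 12200 (.sx 4 11952 (.sy 4 12196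 (.cv (.q 134 31)) (.lf 4 0)) (.sy 4 12196 (.lf 4 0) (.lf 4 0))) (.sx 4 11952 (.sy 4 12204 (.lf 4 0) (.lf 1 0)) (.lf 1 0)))) (.lf 4 0)) (.sy 13 12208 (.sx 4 12000 (.sy 4 12200 (.sx 4 11984 (.sy 4 12196 (.lf 4 0) (.lf 1 0)) (.lf 1 0)) (.lf 1 0)) (.lf 1 0)) (.sx 13 12000 (.sy 13 12216 (.lf 1 0) (.lf 13 0)) (.sy 13 12216 (.sx 13 12016 (.sy 13 12212 (.lf 1 0) (.lf 13 0)) (.sy 13 12212 (.lf 13 0) (.lf 13 0))) (.sx 13 12016 (.sy 13 12220 (.lf 13 0) (.lf 11 0)) (.sy 11 12220 (.lf 11 0) (.lf 0 0))))))))) (.sx 13 11904 (.lf 13 0) (.lf 13 0))) (.sy 14 12224 (.sx 13 12160 (.sy 13 12192 (.lf 13 0) (.sx 13 12096 (.sy 13 12208 (.lf 13 0) (.sx 13 12064 (.sy 13 12216 (.sx 13 12048 (.sy 13 12212 (.lf 13 0) (.lf 5 0)) (.lf 2 0)) (.lf 0 0)) (.lf 0 0))) (.lf 13 0))) (.lf 13 1)) (.sx 14 12160 (.lf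 0 0) (.lf 14 1))))))

def tb01s_3 : Tr := (.sx 16 4096 (.sy 1 13312 (.sx 0 2048 (.sy 0 12800 (.cv (.q 126 32)) (.sx 0 1024 (.cv (.q 126 33)) (.cv (.q 130 32)))) (.sy 0 12800 (.cv (.q 126 32)) (.cv (.q 130 32)))) (.sx 1 2048 (.sy 0 13824 (.cv (.q 130 32)) (.sx 0 1024 (.cv (.q 130 32)) (.sy 0 14080 (.cv (.q 130 32)) (.cv (.q 129 33))))) (.sy 1 13824 (.sx 0 3072 (.cv (.q 130 32)) (.sy 0 13568 (.cv (.q 130 32)) (.sx 0 3584 (.cv (.q 130 32)) (.sy 0 13696 (.cv (.q 130 32)) (.cv (.q 122 31)))))) (.sx 1 3072 (.sy 0 14080 (.sx 0 2560 (.cv (.q 130 32)) (.sy 0 13952 (.cv (.q 130 32)) (.lf 0 0))) (.sx 0 2560 (.cv (.q 129 33)) (.cv (.q 119 35)))) (.sy 1 14080 (.sx 0 3584 (.sy 0 13952 (.cv (.q 122 31)) (.cv (.q 119 35))) (.cv (.q 122 31))) (.sx 1 3584 (.cv (.q 134 31)) (.sy 1 14208 (.cv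 (.q 134 31)) (.sx 1 3840 (.cv (.q 134 31)) (.sy 1 14272 (.cv (.q 134 31)) (.sx 1 3968 (.cv (.q 129 33)) (.sy 1 14304 (.sx 1 4032 (.lf 1 0) (.sy 1 14288 (.sx 1 4064 (.lf 1 0) (.sy 1 14280 (.lf 1 0) (.lf 1 0))) (.cv (.q 129 33)))) (.cv (.q 129 33))))))))))))) (.sy 16 13312 (.sx 0 6144 (.sy 0 12800 (.cv (.q 130 32)) (.cv (.q 126 32))) (.sy 0 12800 (.cv (.q 130 32)) (.sx 0 7168 (.cv (.q 126 32)) (.cv (.q 130 33))))) (.sx 16 6144 (.sy 16 13824 (.sx 0 5120 (.sy 0 13568 (.cv (.q 126 32)) (.sx 0 4608 (.sy 0 13696 (.cv (.q 126 32)) (.cv (.q 134 31))) (.cv (.q 126 32)))) (.cv (.q 126 32))) (.sx 16 5120 (.sy 13 14080 (.sx 0 4608 (.cv (.q 134 31)) (.sy 0 13952 (.cv (.q 134 31)) (.cv (.q 137 35)))) (.sx 13 4608 (.sy 13 14208 (.cv (.q 122 31)) (.sx 13 4352 (.sy 13 14272 (.cv (.q 122 31))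 (.sx 13 4224 (.sy 13 14304 (.sx 13 4160 (.sy 10 14288 (.sx 10 4128 (.sy 10 14280 (.lf 4 0) (.lf 10 0)) (.lf 10 0)) (.cv (.q 127 33))) (.lf 13 0)) (.cv (.q 127 33))) (.cv (.q 127 33)))) (.cv (.q 122 31)))) (.cv (.q 122 31)))) (.sy 16 14080 (.sx 16 5632 (.sy 16 13952 (.cv (.q 126 32)) (.lf 16 0)) (.cv (.q 126 32))) (.sx 0 5632 (.cv (.q 137 35)) (.cv (.q 127 33)))))) (.sy 0 13824 (.cv (.q 126 32)) (.sx 0 7168 (.sy 0 14080 (.cv (.q 126 32)) (.cv (.q 127 33))) (.cv (.q 126 32)))))))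

def tb01s_4 : Tr := (.sx 15 10240 (.sy 0 12800 (.sx 0 9216 (.cv (.q 130 33)) (.sy 0 12544 (.lf 0 0) (.cv (.q 130 33)))) (.cv (.q 130 33))) (.sy 15 12800 (.sx 15 11264 (.sy 0 12544 (.cv (.q 134 34)) (.sx 0 10752 (.cv (.q 130 33)) (.sy 0 12672 (.cv (.q 119 30)) (.cv (.q 130 33))))) (.sy 15 12544 (.sx 15 11776 (.sy 2 12416 (.sx 2 11520 (.cv (.q 134 34)) (.sy 2 12352 (.sx 2 11648 (.cv (.q 134 34)) (.sy 2 12320 (.sx 2 11712 (.cv (.q 134 34)) (.sy 2 12304 (.sx 2 11744 (.cv (.q 134 34)) (.sy 2 12296 (.sx 2 11760 (.sy 2 12292 (.sx 2 11752 (.cv (.q 134 34)) (.lf 2 0)) (.cv (.q 134 34))) (.lf 2 0)) (.cv (.q 134 34)))) (.cv (.q 134 34)))) (.cv (.q 134 34)))) (.cv (.q 134 34)))) (.cv (.q 134 34))) (.sy 15 12416 (.sx 15 12032 (.sy 15 12352 (.sx 2 11904 (.lf 0 0) (.lf 2 0)) (.sx 15 11904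 (.cv (.q 134 34)) (.sy 15 12384 (.sx 15 11968 (.cv (.q 134 34)) (.sy 15 12368 (.sx 15 12000 (.cv (.q 134 34)) (.sy 15 12360 (.sx 15 12016 (.sy 15 12356 (.lf 0 0) (.lf 15 0)) (.sy 15 12356 (.lf 15 0) (.lf 15 0))) (.sx 15 12016 (.cv (.q 134 34)) (.sy 15 12364 (.lf 15 0) (.cv (.q 134 34)))))) (.cv (.q 134 34)))) (.cv (.q 134 34))))) (.sy 15 12352 (.sx 15 12160 (.lf 15 0) (.lf 14 1)) (.sx 15 12160 (.sy 15 12384 (.sx 15 12096 (.sy 15 12368 (.sx 15 12064 (.sy 15 12360 (.lf 15 0) (.sx 14 12048 (.sy 14 12364 (.lf 14 0) (.lf 0 0)) (.lf 0 0))) (.lf 14 0)) (.lf 0 0)) (.lf 0 0)) (.lf 0 0)) (.lf 1 1)))) (.sx 1 12032 (.cv (.q 134 34)) (.sy 1 12480 (.lf 1 0) (.cv (.q 134 34)))))) (.cv (.q 134 34)))) (.sx 0 11264 (.cv (.q 130 33)) (.sy 0 13056 (.cv (.q 123 34)) (.cv (.q 130 33))))))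

def tb01s_5 : Tr := (.sy 16 12288 (.sx 15 8192 (.sy 15 10240 (.sx 0 4096 (.cv (.q 129 32)) (.cv (.q 127 32))) tb01s_1) (.sy 15 10240 (.sx 0 12288 (.sy 0 9216 (.sx 0 10240 (.cv (.q 129 32)) (.sy 0 8704 (.cv (.q 129 32)) (.cv (.q 131 33)))) (.cv (.q 127 32))) (.sy 0 9216 (.sx 0 14336 (.sy 0 8704 (.cv (.q 128 32)) (.sx 0 13312 (.sy 0 8960 (.sx 0 12800 (.sy 0 8832 (.cv (.q 129 32)) (.cv (.q 131 33))) (.sy 0 8832 (.cv (.q 128 32)) (.cv (.q 126 33)))) (.cv (.q 131 33))) (.cv (.q 126 33)))) (.sy 0 8704 (.cv (.q 128 32)) (.cv (.q 130 32)))) (.cv (.q 130 32)))) (.sx 15 12288 (.sy 14 11264 (.sx 0 10240 (.sy 0 10752 (.cv (.q 127 32)) (.cv (.q 130 32))) (.cv (.q 130 32))) (.sx 14 10240 (.cv (.q 130 32)) (.sy 14 11776 (.cv (.q 130 32)) (.sx 14 11264 (.sy 0 12032 (.cv (.q 130 32)) (.cv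 (.q 134 31))) (.sy 14 12032 (.cv (.q 134 31)) tb01s_2))))) (.sy 15 11264 (.sx 0 14336 (.cv (.q 130 32)) (.sy 0 10752 (.cv (.q 130 32)) (.cv (.q 127 32)))) (.sx 15 14336 (.sy 15 11776 (.cv (.q 127 32)) (.sx 15 13312 (.sy 15 12032 (.cv (.q 123 31)) (.sx 15 12800 (.sy 15 12160 (.cv (.q 123 31)) (.sx 15 12544 (.sy 15 12224 (.lf 15 0) (.sx 15 12416 (.lf 14 1) (.lf 15 0))) (.lf 15 0))) (.cv (.q 123 31)))) (.sy 0 12032 (.cv (.q 127 32)) (.cv (.q 123 31))))) (.cv (.q 127 32))))))) (.sx 16 8192 (.sy 16 14336 tb01s_3 (.sx 0 4096 (.cv (.q 129 33)) (.cv (.q 127 33)))) (.sy 15 14336 (.sx 15 12288 (.sy 15 13312 tb01s_4 (.sx 0 10240 (.sy 0 13824 (.cv (.q 130 33)) (.cv (.q 126 32))) (.cv (.q 130 33)))) (.sy 14 13312 (.sx 14 14336 (.sy 14 12800 (.sx 14 13312 (.sy 14 12544 (.sx 14 12800 (.sy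 14 12416 (.sx 14 12544 (.sy 14 12352 (.sx 14 12416 (.lf 14 1) (.lf 1 0)) (.lf 1 0)) (.sy 1 12352 (.lf 1 0) (.cv (.q 123 34)))) (.cv (.q 123 34))) (.cv (.q 123 34))) (.cv (.q 123 34))) (.sy 0 12544 (.cv (.q 123 34)) (.cv (.q 127 33)))) (.cv (.q 127 33))) (.cv (.q 127 33))) (.sx 0 14336 (.cv (.q 130 33)) (.sy 0 13824 (.cv (.q 127 33)) (.cv (.q 131 32)))))) (.sx 0 12288 (.sy 0 15360 (.cv (.q 127 33)) (.sx 0 10240 (.cv (.q 131 32)) (.sy 0 15872 (.cv (.q 131 32)) (.cv (.q 129 33))))) (.sy 0 15360 (.sx 0 14336 (.cv (.q 131 32)) (.cv (.q 130 33))) (.sx 0 14336 (.sy 0 15872 (.sx 0 13312 (.sy 0 15616 (.cv (.q 131 32)) (.sx 0 12800 (.sy 0 15744 (.cv (.q 131 32)) (.cv (.q 129 33))) (.cv (.q 126 32)))) (.cv (.q 126 32))) (.cv (.q 129 33))) (.sy 0 15872 (.cv (.q 130 33)) (.sx 0 15360 (.sy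 0 16128 (.cv (.q 126 32)) (.cv (.q 129 33))) (.cv (.q 126 32))))))))))

/-- root tree for the class (0, 1). -/
def tb01 : Tr := (.sy 16 8192 (.cv (.q 128 32)) tb01s_5)

def tb10s_1 : Tr := (.sx 9 1536 (.sy 3 9600 (.sx 3 1280 (.sy 0 9536 (.lf 0 0) (.cv (.q 134 34))) (.sy 3 9536 (.sx 3 1408 (.cv (.q 159 24)) (.sy 3 9504 (.cv (.q 159 24)) (.sx 3 1472 (.sy 3 9520 (.cv (.q 159 24)) (.sx 3 1440 (.sy 3 9528 (.cv (.q 159 24)) (.lf 3 0)) (.sy 3 9528 (.lf 3 0) (.lf 3 0)))) (.sy 3 9520 (.lf 3 0) (.sx 3 1504 (.lf 3 0) (.lf 1 0)))))) (.sx 3 1408 (.cv (.q 134 34)) (.sy 3 9568 (.sx 3 1472 (.sy 3 9552 (.sx 3 1440 (.cv (.q 134 34)) (.sy 3 9544 (.lf 3 0) (.cv (.q 134 34)))) (.cv (.q 134 34))) (.lf 1 0)) (.cv (.q 134 34)))))) (.cv (.q 134 34))) (.sy 9 9600 (.sx 9 1792 (.sy 9 9536 (.sx 3 1664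 (.lf 3 0) (.sy 0 9504 (.sx 0 1728 (.sy 0 9488 (.cv (.q 127 32)) (.cv (.q 179 46))) (.cv (.q 127 32))) (.cv (.q 179 46)))) (.sx 9 1664 (.lf 0 0) (.sy 9 9568 (.cv (.q 174 20)) (.sx 9 1728 (.sy 9 9584 (.cv (.q 174 20)) (.sx 9 1696 (.cv (.q 174 20)) (.sy 9 9592 (.cv (.q 174 20)) (.lf 9 0)))) (.lf 9 0))))) (.sy 9 9536 (.sx 0 1920 (.lf 0 0) (.cv (.q 127 32))) (.sx 9 1920 (.lf 9 0) (.sy 9 9568 (.sx 9 1984 (.sy 9 9552 (.sx 9 1952 (.lf 9 0) (.cv (.q 127 32))) (.lf 7 0)) (.sy 0 9552 (.cv (.q 127 32)) (.cv (.q 73 47)))) (.cv (.q 73 47)))))) (.sx 9 1792 (.sy 9 9664 (.sx 9 1664 (.cv (.q 134 34)) (.sy 9 9632 (.sx 9 1728 (.sy 9 9616 (.sx 9 1696 (.cv (.q 134 34)) (.sy 9 9608 (.lf 9 0) (.cv (.q 134 34)))) (.cv (.q 134 34))) (.sy 9 9616 (.sx 9 1760 (.sy 9 9608 (.lf 9 0) (.lf 1 0)) (.lf 1 0))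 (.lf 1 0))) (.cv (.q 134 34)))) (.cv (.q 134 34))) (.sy 3 9664 (.sx 3 1920 (.sy 1 9632 (.lf 1 0) (.sx 1 1856 (.lf 1 0) (.lf 1 0))) (.sy 3 9632 (.lf 1 0) (.sx 3 1984 (.lf 1 0) (.lf 3 0)))) (.sx 3 1920 (.cv (.q 134 34)) (.sy 3 9696 (.sx 3 1984 (.sy 3 9680 (.sx 3 1952 (.cv (.q 134 34)) (.lf 3 0)) (.cv (.q 134 34))) (.sy 3 9680 (.sx 3 2016 (.lf 3 0) (.lf 3 0)) (.cv (.q 88 43)))) (.cv (.q 134 34))))))))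

def tb10s_2 : Tr := (.sy 12 9728 (.sx 3 3072 (.sy 3 9472 (.cv (.q 127 32)) (.sx 3 2560 (.sy 3 9600 (.sx 1 2304 (.sy 1 9536 (.cv (.q 127 32)) (.sx 1 2176 (.sy 1 9568 (.cv (.q 127 32)) (.sx 1 2112 (.lf 1 0) (.lf 1 0))) (.sy 1 9568 (.cv (.q 127 32)) (.sx 1 2240 (.lf 1 0) (.cv (.q 127 32)))))) (.cv (.q 127 32))) (.sx 3 2304 (.sy 3 9664 (.sx 3 2176 (.lf 3 0) (.sy 3 9632 (.sx 3 2240 (.sy 3 9616 (.sx 3 2208 (.lf 3 0) (.sy 3 9608 (.sx 3 2224 (.lf 0 0) (.sy 3 9604 (.lf 0 0) (.sx 3 2232 (.sy 3 9606 (.lf 0 0) (.lf 3 0)) (.sy 3 9606 (.lf 3 0) (.lf 3 0))))) (.lf 3 0))) (.lf 3 0)) (.sy 3 9616 (.sx 3 2272 (.sy 3 9608 (.sx 3 2256 (.sy 3 9604 (.cv (.q 127 32)) (.sx 3 2248 (.sy 3 9606 (.cv (.q 127 32)) (.lf 3 0)) (.lf 3 0))) (.cv (.q 127 32))) (.lf 3 0)) (.sy 0 9608 (.cv (.q 127 32)) (.cv (.q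 88 43)))) (.cv (.q 88 43)))) (.cv (.q 88 43)))) (.sx 0 2176 (.cv (.q 88 43)) (.lf 0 0))) (.lf 0 0))) (.sy 0 9600 (.cv (.q 127 32)) (.sx 0 2816 (.lf 0 0) (.cv (.q 133 31)))))) (.cv (.q 127 32))) (.sx 12 3072 (.sy 0 9984 (.sx 0 2560 (.sy 0 9856 (.sx 0 2304 (.lf 0 0) (.cv (.q 133 31))) (.cv (.q 133 31))) (.cv (.q 133 31))) (.cv (.q 133 31))) (.sy 12 9984 (.cv (.q 133 31)) (.sx 12 3584 (.sy 0 10112 (.cv (.q 133 31)) (.cv (.q 134 34))) (.sy 12 10112 (.sx 12 3840 (.lf 0 0) (.sy 12 10048 (.lf 0 0) (.sx 12 3968 (.lf 0 0) (.sy 12 10080 (.cv (.q 178 19)) (.sx 12 4032 (.sy 11 10096 (.cv (.q 178 19)) (.lf 11 0)) (.sy 12 10096 (.sx 11 4064 (.cv (.q 178 19)) (.sy 11 10088 (.cv (.q 178 19)) (.sx 11 4080 (.lf 0 0) (.sy 11 10092 (.lf 0 0) (.lf 11 0))))) (.sx 12 4064 (.lf 12 0) (.sy 12 10104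 (.sx 12 4080 (.sy 12 10100 (.sx 11 4072 (.lf 0 0) (.sy 11 10098 (.lf 2 0) (.sx 11 4076 (.lf 2 0) (.sy 11 10099 (.lf 2 0) (.lf 11 0))))) (.lf 12 0)) (.sy 12 10100 (.sx 12 4088 (.sy 11 10098 (.lf 11 0) (.sx 11 4084 (.sy 11 10099 (.lf 11 0) (.lf 11 0)) (.lf 11 0))) (.lf 12 0)) (.sx 12 4088 (.sy 12 10102 (.sx 12 4084 (.sy 12 10101 (.lf 11 0) (.lf 12 0)) (.sy 12 10101 (.lf 12 0) (.lf 12 0))) (.lf 12 0)) (.sy 12 10102 (.sx 12 4092 (.sy 12 10101 (.lf 12 0) (.lf 3 0)) (.lf 3 0)) (.lf 3 0))))) (.lf 12 0))))))))) (.sx 12 3840 (.sy 12 10176 (.sx 12 3712 (.lf 0 0) (.sy 12 10144 (.cv (.q 178 19)) (.sx 12 3776 (.lf 0 0) (.lf 12 0)))) (.cv (.q 134 34))) (.sy 12 10176 (.sx 12 3968 (.sy 12 10144 (.lf 12 0) (.sx 12 3904 (.lf 12 0) (.lf 12 0))) (.lf 12 0)) (.sx 10 3968 (.sy 10 10208 (.sx 10 3904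 (.lf 10 0) (.lf 10 0)) (.cv (.q 134 34))) (.sy 1 10208 (.sx 1 4032 (.lf 1 0) (.lf 0 0)) (.lf 1 0))))))))))

def tb10s_3 : Tr := (.sy 12 9216 (.cv (.q 127 32)) (.sx 12 6144 (.sy 12 9728 (.cv (.q 127 32)) (.sx 12 5120 (.sy 12 9984 (.cv (.q 123 31)) (.sx 12 4608 (.sy 12 10112 (.sx 12 4352 (.sy 12 10048 (.lf 12 0) (.sx 12 4224 (.sy 12 10080 (.cv (.q 78 19)) (.sx 12 4160 (.sy 12 10096 (.lf 12 0) (.sx 12 4128 (.sy 12 10104 (.sx 12 4112 (.sy 12 10100 (.lf 12 0) (.lf 3 0)) (.lf 3 0)) (.lf 3 0)) (.lf 3 0))) (.lf 12 0))) (.lf 12 0))) (.lf 12 0)) (.sx 10 4352 (.sy 10 10176 (.sx 10 4224 (.sy 10 10144 (.sx 10 4160 (.sy 10 10128 (.sx 10 4128 (.sy 10 10120 (.lf 1 0) (.lf 10 0)) (.sy 10 10120 (.sx 10 4144 (.sy 8 10116 (.lf 1 0) (.sx 8 4136 (.lf 1 0) (.sy 8 10118 (.lf 1 0) (.lf 8 0)))) (.sy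 10 10116 (.sx 8 4152 (.lf 1 0) (.lf 8 0)) (.sx 10 4152 (.sy 8 10118 (.lf 8 0) (.lf 8 0)) (.sy 10 10118 (.lf 8 0) (.sx 10 4156 (.lf 2 0) (.sy 10 10119 (.lf 3 0) (.lf 10 0))))))) (.sx 10 4144 (.lf 10 0) (.sy 10 10124 (.sx 10 4152 (.lf 10 0) (.sy 10 10122 (.sx 10 4156 (.lf 10 0) (.sy 10 10121 (.lf 10 0) (.lf 1 0))) (.lf 4 0))) (.lf 4 0))))) (.lf 10 0)) (.sy 10 10128 (.sx 10 4192 (.sy 10 10120 (.sx 10 4176 (.sy 10 10116 (.lf 10 0) (.lf 10 0)) (.sy 10 10116 (.lf 10 0) (.lf 4 0))) (.lf 4 0)) (.sy 4 10120 (.lf 4 0) (.lf 1 0))) (.lf 1 0))) (.lf 1 0)) (.sy 1 10144 (.lf 1 0) (.lf 1 0))) (.sx 1 4224 (.sy 1 10208 (.lf 1 0) (.lf 1 0)) (.lf 1 0))) (.sy 1 10176 (.sx 1 4480 (.sy 1 10144 (.cv (.q 78 19)) (.lf 1 0)) (.lf 1 0)) (.cv (.q 122 34))))) (.sy 0 10112 (.cv (.q 123 31)) (.cv (.q 122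 34))))) (.sy 0 9984 (.cv (.q 127 32)) (.cv (.q 123 31))))) (.cv (.q 127 32))))

def tb10s_4 : Tr := (.sy 12 10240 (.sx 12 4096 (.sy 12 9216 (.sx 0 2048 (.sy 0 8704 (.cv (.q 127 32)) (.sx 0 1024 (.sy 0 8960 (.cv (.q 127 32)) (.sx 0 512 (.sy 0 9088 (.cv (.q 127 32)) (.sx 0 256 (.sy 0 9152 (.cv (.q 127 32)) (.sx 0 128 (.sy 0 9184 (.cv (.q 127 32)) (.cv (.q 134 34))) (.cv (.q 127 32)))) (.cv (.q 127 32)))) (.cv (.q 127 32)))) (.cv (.q 127 32)))) (.cv (.q 127 32))) (.sx 12 2048 (.sy 9 9728 (.sx 9 1024 (.sy 0 9472 (.sx 0 512 (.sy 0 9344 (.sx 0 256 (.cv (.q 134 34)) (.cv (.q 114 36))) (.cv (.q 134 34))) (.sy 0 9344 (.lf 0 0) (.lf 0 0))) (.cv (.q 134 34))) (.sy 9 9472 (.sx 0 1536 (.sy 0 9344 (.cv (.q 127 32)) (.lf 0 0)) (.cv (.q 127 32))) tb10s_1)) (.sx 3 1024 (.sy 3 9984 (.sx 3 512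 (.sy 3 9856 (.lf 3 0) (.cv (.q 130 33))) (.cv (.q 134 34))) (.cv (.q 130 33))) (.sy 0 9984 (.cv (.q 134 34)) (.sx 0 1536 (.sy 0 10112 (.cv (.q 119 30)) (.cv (.q 133 31))) (.cv (.q 133 31)))))) tb10s_2)) tb10s_3) (.sx 0 4096 (.sy 0 11264 (.sx 0 2048 (.cv (.q 130 33)) (.sy 0 10752 (.sx 0 3072 (.sy 0 10496 (.sx 0 2560 (.sy 0 10368 (.cv (.q 133 31)) (.cv (.q 130 33))) (.cv (.q 134 34))) (.cv (.q 130 33))) (.sy 0 10496 (.cv (.q 134 34)) (.sx 0 3584 (.sy 0 10624 (.cv (.q 119 30)) (.cv (.q 130 33))) (.cv (.q 134 34))))) (.cv (.q 130 33)))) (.sx 0 2048 (.cv (.q 126 32)) (.cv (.q 126 33)))) (.sy 0 11264 (.sx 0 6144 (.sy 0 10752 (.sx 0 5120 (.sy 0 10496 (.cv (.q 122 34)) (.sx 0 4608 (.cv (.q 134 34)) (.sy 0 10624 (.cv (.q 122 34)) (.cv (.q 126 33))))) (.sy 0 10496 (.sx 0 5632 (.cv (.q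 122 34)) (.sy 0 10368 (.cv (.q 123 31)) (.cv (.q 126 33)))) (.cv (.q 126 33)))) (.cv (.q 126 33))) (.cv (.q 126 33))) (.sx 0 6144 (.cv (.q 130 33)) (.cv (.q 130 32))))))

def tb10s_5 : Tr := (.sx 15 14336 (.sy 15 11776 (.sx 0 13312 (.sy 0 11520 (.cv (.q 130 32)) (.cv (.q 134 31))) (.cv (.q 127 32))) (.sx 15 13312 (.sy 15 12032 (.cv (.q 123 31)) (.sx 15 12800 (.sy 15 12160 (.sx 1 12544 (.sy 1 12096 (.cv (.q 134 31)) (.lf 1 0)) (.cv (.q 123 31))) (.sx 15 12544 (.sy 15 12224 (.sx 15 12416 (.lf 1 1) (.sy 15 12192 (.lf 0 0) (.sx 15 12480 (.lf 0 0) (.sy 15 12208 (.lf 0 0) (.sx 15 12512 (.lf 14 0) (.sy 15 12216 (.sx 14 12528 (.lf 0 0) (.sy 14 12212 (.lf 0 0) (.lf 14 0))) (.lf 15 0))))))) (.sx 15 12416 (.lf 14 1) (.lf 15 0))) (.sy 15 12224 (.sx 15 12672 (.sy 15 12192 (.cv (.q 123 31))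 (.sx 15 12608 (.sy 15 12208 (.cv (.q 123 31)) (.sx 15 12576 (.sy 15 12216 (.sx 15 12560 (.sy 15 12212 (.cv (.q 123 31)) (.lf 15 0)) (.cv (.q 123 31))) (.sx 15 12560 (.sy 15 12220 (.lf 15 0) (.lf 15 0)) (.sy 15 12220 (.lf 15 0) (.lf 0 0)))) (.cv (.q 123 31)))) (.cv (.q 123 31)))) (.cv (.q 123 31))) (.sx 2 12672 (.lf 2 0) (.lf 0 0))))) (.sy 2 12160 (.cv (.q 123 31)) (.sx 2 13056 (.sy 2 12224 (.cv (.q 123 31)) (.sx 2 12928 (.sy 2 12256 (.cv (.q 123 31)) (.sx 2 12864 (.sy 2 12272 (.cv (.q 123 31)) (.sx 2 12832 (.sy 2 12280 (.cv (.q 123 31)) (.sx 2 12816 (.lf 2 0) (.sy 2 12284 (.cv (.q 123 31)) (.sx 2 12824 (.lf 2 0) (.cv (.q 123 31)))))) (.cv (.q 123 31)))) (.cv (.q 123 31)))) (.cv (.q 123 31)))) (.cv (.q 123 31)))))) (.sy 0 12032 (.sx 0 13824 (.sy 0 11904 (.cv (.q 127 32)) (.cv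 (.q 123 31))) (.cv (.q 127 32))) (.cv (.q 123 31))))) (.sy 0 11776 (.cv (.q 127 32)) (.sx 0 15360 (.sy 0 12032 (.cv (.q 127 32)) (.lf 0 0)) (.cv (.q 127 32)))))

def tb10s_6 : Tr := (.sx 16 4096 (.sy 1 15360 (.sx 1 2048 (.cv (.q 129 33)) (.sy 1 14848 (.sx 1 3072 (.cv (.q 129 33)) (.sy 1 14592 (.sx 1 3584 (.sy 0 14464 (.cv (.q 134 31)) (.cv (.q 129 33))) (.sy 1 14464 (.sx 1 3840 (.sy 1 14400 (.cv (.q 134 31)) (.sx 1 3712 (.cv (.q 129 33)) (.sy 1 14432 (.lf 1 0) (.cv (.q 129 33))))) (.sy 1 14400 (.sx 1 3968 (.sy 1 14368 (.cv (.q 134 31)) (.lf 1 0)) (.sy 1 14368 (.lf 1 0) (.lf 1 0))) (.sx 1 3968 (.sy 1 14432 (.lf 1 0) (.cv (.q 129 33))) (.lf 0 0)))) (.cv (.q 129 33)))) (.cv (.q 129 33)))) (.cv (.q 129 33)))) (.cv (.q 127 33))) (.sy 16 15360 (.sx 16 6144 (.sy 16 14848 (.sx 16 5120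 (.sy 16 14592 (.sx 16 4608 (.sy 16 14464 (.sx 16 4352 (.sy 16 14400 (.sx 1 4224 (.sy 1 14368 (.lf 1 0) (.lf 0 0)) (.sy 0 14368 (.cv (.q 122 31)) (.lf 0 0))) (.sx 16 4224 (.sy 16 14432 (.lf 0 0) (.lf 16 0)) (.sy 16 14432 (.sx 16 4288 (.sy 16 14416 (.lf 0 0) (.sx 16 4256 (.sy 14 14424 (.lf 0 0) (.lf 14 0)) (.sy 16 14424 (.sx 5 4272 (.sy 0 14420 (.lf 0 0) (.lf 0 0)) (.sy 5 14420 (.sx 5 4280 (.lf 0 0) (.sy 5 14418 (.lf 0 0) (.lf 5 0))) (.sx 0 4280 (.sy 0 14422 (.lf 0 0) (.cv (.q 127 33))) (.cv (.q 127 33))))) (.sx 16 4272 (.lf 16 0) (.cv (.q 127 33)))))) (.sy 16 14416 (.sx 16 4320 (.sy 14 14408 (.lf 0 0) (.sx 14 4304 (.sy 5 14412 (.lf 0 0) (.sx 5 4296 (.lf 0 0) (.lf 5 0))) (.lf 14 0))) (.lf 16 0)) (.sx 14 4320 (.sy 14 14424 (.sx 14 4304 (.sy 14 14420 (.sx 14 4296 (.sy 14 14418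 (.lf 5 0) (.lf 14 0)) (.sy 5 14418 (.sx 5 4300 (.sy 5 14417 (.lf 5 0) (.cv (.q 127 33))) (.cv (.q 127 33))) (.cv (.q 127 33)))) (.cv (.q 127 33))) (.cv (.q 127 33))) (.cv (.q 127 33))) (.cv (.q 127 33))))) (.cv (.q 127 33))))) (.sy 16 14400 (.cv (.q 122 31)) (.sx 16 4480 (.sy 16 14432 (.sx 16 4416 (.sy 16 14416 (.lf 16 0) (.cv (.q 127 33))) (.cv (.q 127 33))) (.cv (.q 127 33))) (.cv (.q 127 33))))) (.cv (.q 127 33))) (.sy 0 14464 (.cv (.q 122 31)) (.cv (.q 127 33)))) (.cv (.q 127 33))) (.cv (.q 127 33))) (.cv (.q 129 33))) (.cv (.q 127 33))) (.cv (.q 129 33))))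

def tb10s_7 : Tr := (.sx 14 12800 (.sy 14 12416 (.sx 14 12544 (.sy 14 12352 (.sx 14 12416 (.lf 14 1) (.lf 0 0)) (.sx 13 12416 (.lf 13 1) (.sy 13 12384 (.sx 13 12480 (.lf 13 0) (.sy 13 12368 (.sx 13 12512 (.lf 0 0) (.sy 13 12360 (.lf 0 0) (.sx 13 12528 (.lf 2 0) (.sy 13 12364 (.lf 5 0) (.lf 13 0))))) (.lf 13 0))) (.lf 13 0)))) (.sy 13 12352 (.sx 13 12672 (.lf 13 0) (.lf 13 0)) (.sx 13 12672 (.sy 13 12384 (.sx 13 12608 (.sy 13 12368 (.sx 13 12576 (.sy 13 12360 (.sx 13 12560 (.sy 11 12356 (.lf 0 0) (.lf 11 0)) (.sy 13 12356 (.lf 11 0) (.lf 13 0))) (.sx 13 12560 (.sy 13 12364 (.lf 13 0) (.lf 13 0)) (.sy 13 12364 (.lf 13 0) (.lf 1 0)))) (.sy 13 12360 (.lf 13 0) (.lf 1 0))) (.sx 4 12576 (.lf 1 0) (.sy 4 12376 (.lf 1 0) (.sx 4 12592 (.lf 1 0) (.sy 4 12380 (.lf 1 0) (.lf 4 0))))))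 (.sy 4 12368 (.lf 4 0) (.sx 4 12640 (.sy 4 12376 (.sx 4 12624 (.lf 1 0) (.sy 4 12372 (.lf 1 0) (.lf 4 0))) (.sx 4 12624 (.sy 4 12380 (.lf 4 0) (.lf 4 0)) (.sy 4 12380 (.lf 4 0) (.cv (.q 123 34))))) (.sy 4 12376 (.lf 4 0) (.cv (.q 123 34)))))) (.sx 4 12608 (.lf 4 0) (.cv (.q 123 34)))) (.sy 4 12384 (.lf 4 0) (.cv (.q 123 34)))))) (.sx 13 12544 (.lf 13 0) (.cv (.q 123 34)))) (.sy 13 12416 (.sx 13 13056 (.sy 13 12352 (.sx 13 12928 (.sy 13 12320 (.sx 13 12864 (.sy 13 12304 (.sx 13 12832 (.sy 13 12296 (.sx 13 12816 (.lf 13 0) (.sy 13 12292 (.sx 13 12824 (.sy 13 12290 (.sx 11 12820 (.lf 2 0) (.lf 11 0)) (.lf 13 0)) (.sy 13 12290 (.sx 13 12828 (.sy 13 12289 (.cv (.q 123 31)) (.lf 13 0)) (.cv (.q 123 31))) (.sx 13 12828 (.sy 13 12291 (.lf 13 0) (.lf 12 0)) (.sy 3 12291 (.lf 3 0) (.lf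 1 0))))) (.lf 13 0))) (.lf 13 0)) (.sy 1 12296 (.sx 1 12848 (.sy 1 12292 (.sx 1 12840 (.sy 1 12290 (.cv (.q 123 31)) (.lf 1 0)) (.cv (.q 123 31))) (.lf 1 0)) (.lf 1 0)) (.lf 1 0))) (.lf 4 0)) (.sy 4 12304 (.sx 4 12896 (.sy 4 12296 (.cv (.q 123 31)) (.lf 4 0)) (.cv (.q 123 31))) (.sx 4 12896 (.sy 4 12312 (.sx 4 12880 (.sy 4 12308 (.lf 1 0) (.lf 4 0)) (.sy 4 12308 (.sx 4 12888 (.sy 4 12306 (.lf 1 0) (.lf 4 0)) (.sy 4 12306 (.cv (.q 123 31)) (.lf 4 0))) (.sx 4 12888 (.lf 4 0) (.cv (.q 123 34))))) (.lf 4 0)) (.sy 0 12312 (.sx 0 12912 (.sy 0 12308 (.cv (.q 123 31)) (.cv (.q 123 34))) (.cv (.q 123 31))) (.cv (.q 123 34)))))) (.lf 4 0)) (.sy 0 12320 (.sx 0 12992 (.sy 0 12304 (.cv (.q 123 31)) (.cv (.q 123 34))) (.cv (.q 123 31))) (.cv (.q 123 34)))) (.cv (.q 123 34))) (.cv (.q 123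 34))) (.cv (.q 123 34))))

def tb10s_8 : Tr := (.sx 16 8192 (.sy 16 14336 (.sx 0 4096 (.sy 0 13312 (.sx 0 2048 (.cv (.q 126 33)) (.cv (.q 126 32))) (.sx 0 2048 (.cv (.q 130 32)) (.sy 0 13824 (.cv (.q 130 32)) (.sx 0 3072 (.sy 0 14080 (.cv (.q 130 32)) (.sx 0 2560 (.sy 0 14208 (.cv (.q 130 32)) (.cv (.q 134 31))) (.cv (.q 134 31)))) (.sy 0 14080 (.sx 0 3584 (.sy 0 13952 (.cv (.q 130 32)) (.cv (.q 134 31))) (.cv (.q 134 31))) (.cv (.q 134 31))))))) (.sy 0 13312 (.sx 0 6144 (.cv (.q 130 32)) (.cv (.q 130 33))) (.sx 0 6144 (.sy 0 13824 (.cv (.q 126 32)) (.sx 0 5120 (.sy 0 14080 (.sx 0 4608 (.cv (.q 134 31)) (.sy 0 13952 (.cv (.q 126 32)) (.cv (.q 122 31)))) (.cv (.q 122 31))) (.sy 0 14080 (.cv (.q 126 32)) (.sx 0 5632 (.cv (.q 122 31)) (.sy 0 14208 (.cv (.q 126 32)) (.cv (.q 122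 31))))))) (.cv (.q 126 32))))) tb10s_6) (.sy 15 14336 (.sx 15 12288 (.sy 15 13312 (.sx 15 10240 (.cv (.q 130 33)) (.sy 15 12800 (.sx 15 11264 (.sy 0 12544 (.cv (.q 134 34)) (.cv (.q 130 33))) (.sy 15 12544 (.sx 15 11776 (.cv (.q 134 34)) (.sy 15 12416 (.sx 15 12032 (.lf 15 0) (.sy 15 12352 (.sx 15 12160 (.lf 15 0) (.lf 14 1)) (.lf 15 0))) (.cv (.q 134 34)))) (.cv (.q 134 34)))) (.cv (.q 130 33)))) (.sx 0 10240 (.sy 0 13824 (.cv (.q 130 33)) (.cv (.q 126 32))) (.cv (.q 130 33)))) (.sy 14 13312 (.sx 14 14336 (.sy 14 12800 (.sx 14 13312 (.sy 14 12544 tb10s_7 (.cv (.q 123 34))) (.sy 0 12544 (.cv (.q 123 34)) (.cv (.q 127 33)))) (.cv (.q 127 33))) (.cv (.q 127 33))) (.sx 0 14336 (.cv (.q 130 33)) (.sy 0 13824 (.cv (.q 127 33)) (.cv (.q 131 32)))))) (.sx 0 12288 (.sy 0 15360 (.cv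 (.q 127 33)) (.sx 0 10240 (.sy 0 15872 (.cv (.q 127 33)) (.cv (.q 129 33))) (.sy 0 15872 (.sx 0 11264 (.cv (.q 131 32)) (.sy 0 15616 (.cv (.q 131 32)) (.sx 0 11776 (.sy 0 15744 (.cv (.q 131 32)) (.cv (.q 122 31))) (.sy 0 15744 (.cv (.q 126 32)) (.cv (.q 128 33)))))) (.cv (.q 128 33))))) (.sy 0 15360 (.cv (.q 130 33)) (.sx 0 14336 (.sy 0 15872 (.cv (.q 126 32)) (.cv (.q 128 33))) (.cv (.q 126 32)))))))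

/-- root tree for the class (1, 0). -/
def tb10 : Tr := (.sy 16 8192 (.cv (.q 128 32)) (.sy 16 12288 (.sx 15 8192 tb10s_4 (.sy 15 10240 (.sx 0 12288 (.sy 0 9216 (.sx 0 10240 (.sy 0 8704 (.sx 0 9216 (.cv (.q 131 33)) (.sy 0 8448 (.cv (.q 128 32)) (.cv (.q 131 33)))) (.cv (.q 127 32))) (.sy 0 8704 (.cv (.q 128 32)) (.sx 0 11264 (.cv (.q 131 33)) (.sy 0 8960 (.sx 0 11776 (.cv (.q 131 33)) (.sy 0 8832 (.cv (.q 128 32)) (.cv (.q 131 33)))) (.cv (.q 131 33)))))) (.sx 0 10240 (.cv (.q 127 32)) (.cv (.q 126 33)))) (.sy 0 9216 (.sx 0 14336 (.sy 0 8704 (.cv (.q 128 32)) (.cv (.q 126 33))) (.cv (.q 128 32))) (.cv (.q 130 32)))) (.sx 15 12288 (.sy 14 11264 (.sx 0 10240 (.sy 0 10752 (.cv (.q 127 32)) (.cv (.q 130 32))) (.cv (.q 130 32))) (.sx 14 10240 (.cv (.q 130 32)) (.sy 14 11776 (.cv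 (.q 130 32)) (.sx 14 11264 (.sy 0 12032 (.cv (.q 130 32)) (.cv (.q 134 31))) (.sy 14 12032 (.cv (.q 134 31)) (.sx 14 11776 (.cv (.q 134 31)) (.sy 14 12160 (.cv (.q 134 31)) (.sx 14 12032 (.sy 1 12224 (.cv (.q 134 31)) (.lf 1 0)) (.sy 14 12224 (.lf 1 0) (.sx 14 12160 (.lf 1 0) (.lf 14 1))))))))))) (.sy 15 11264 (.sx 0 14336 (.cv (.q 130 32)) (.sy 0 10752 (.cv (.q 130 32)) (.cv (.q 127 32)))) tb10s_5)))) tb10s_8))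

def tb11s_1 : Tr := (.sx 14 4096 (.sy 14 9216 (.cv (.q 127 32)) (.sx 14 2048 (.cv (.q 129 32)) (.sy 14 9728 (.cv (.q 129 32)) (.sx 14 3072 (.cv (.q 129 32)) (.sy 14 9984 (.cv (.q 129 32)) (.sx 14 3584 (.sy 0 10112 (.cv (.q 129 32)) (.cv (.q 134 34))) (.sy 14 10112 (.cv (.q 129 32)) (.sx 14 3840 (.sy 9 10176 (.sx 9 3712 (.cv (.q 129 32)) (.sy 9 10144 (.cv (.q 129 32)) (.lf 9 0))) (.cv (.q 134 34))) (.sy 14 10176 (.sx 9 3968 (.sy 9 10144 (.cv (.q 129 32)) (.lf 9 0)) (.lf 9 0)) (.sx 14 3968 (.sy 1 10208 (.lf 1 0) (.cv (.q 134 34))) (.sy 14 10208 (.lf 14 0) (.lf 14 0)))))))))))) (.sy 14 9216 (.cv (.q 129 32)) (.sx 14 6144 (.sy 14 9728 (.cv (.q 129 32)) (.sx 14 5120 (.sy 14 9984 (.cv (.q 127 32)) (.sx 14 4608 (.sy 14 10112 (.cv (.q 127 32)) (.sx 14 4352 (.sy 14 10176 (.sx 14 4224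 (.sy 14 10144 (.lf 1 0) (.lf 14 0)) (.sy 14 10144 (.cv (.q 127 32)) (.sx 14 4288 (.sy 14 10160 (.sx 14 4256 (.sy 14 10152 (.lf 1 0) (.lf 14 0)) (.sy 14 10152 (.sx 1 4272 (.lf 1 0) (.cv (.q 127 32))) (.sx 14 4272 (.sy 14 10156 (.lf 14 0) (.lf 14 0)) (.sy 14 10156 (.sx 14 4280 (.sy 14 10154 (.cv (.q 127 32)) (.lf 14 0)) (.cv (.q 127 32))) (.sx 10 4280 (.lf 10 0) (.sy 10 10158 (.lf 10 0) (.lf 8 0))))))) (.lf 14 0)) (.sy 8 10160 (.sx 8 4320 (.sy 8 10152 (.cv (.q 127 32)) (.sx 8 4304 (.sy 8 10156 (.cv (.q 127 32)) (.sx 8 4296 (.sy 8 10158 (.lf 3 0) (.lf 8 0)) (.sy 1 10158 (.cv (.q 127 32)) (.sx 1 4300 (.sy 1 10159 (.cv (.q 127 32)) (.lf 1 0)) (.cv (.q 127 32)))))) (.cv (.q 127 32)))) (.cv (.q 127 32))) (.sx 8 4320 (.sy 8 10168 (.sx 8 4304 (.sy 8 10164 (.sx 8 4296 (.lf 8 0) (.lf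 1 0)) (.lf 1 0)) (.lf 1 0)) (.lf 1 0)) (.lf 1 0)))))) (.sx 14 4224 (.sy 14 10208 (.lf 14 0) (.lf 10 0)) (.sy 8 10208 (.lf 8 0) (.cv (.q 122 34))))) (.sy 0 10176 (.sx 0 4480 (.sy 0 10144 (.cv (.q 127 32)) (.sx 0 4416 (.sy 0 10160 (.cv (.q 127 32)) (.lf 0 0)) (.cv (.q 127 32)))) (.cv (.q 127 32))) (.cv (.q 122 34))))) (.sy 0 10112 (.cv (.q 127 32)) (.cv (.q 122 34))))) (.cv (.q 127 32)))) (.cv (.q 127 32)))))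

def tb11s_2 : Tr := (.sx 11 12800 (.sy 4 12160 (.sx 1 12544 (.lf 1 0) (.cv (.q 123 31))) (.sx 4 12544 (.sy 4 12224 (.sx 4 12416 (.lf 1 1) (.sy 4 12192 (.lf 0 0) (.sx 4 12480 (.lf 0 0) (.sy 4 12208 (.lf 0 0) (.sx 4 12512 (.lf 3 0) (.sy 4 12216 (.sx 3 12528 (.lf 0 0) (.sy 3 12212 (.lf 0 0) (.lf 3 0))) (.lf 4 0))))))) (.sx 4 12416 (.lf 3 1) (.lf 4 0))) (.sy 4 12224 (.sx 4 12672 (.sy 4 12192 (.sx 0 12608 (.lf 0 0) (.cv (.q 123 31))) (.sx 4 12608 (.sy 4 12208 (.sx 4 12576 (.lf 3 0) (.sy 4 12200 (.sx 4 12592 (.lf 0 0) (.sy 4 12196 (.lf 0 0) (.lf 4 0))) (.lf 4 0))) (.sx 4 12576 (.sy 4 12216 (.sx 4 12560 (.sy 4 12212 (.lf 3 0) (.lf 4 0)) (.sy 4 12212 (.lf 4 0) (.lf 4 0))) (.sx 4 12560 (.sy 4 12220 (.lf 4 0) (.lf 4 0)) (.sy 4 12220 (.lf 4 0) (.lf 2 0)))) (.sy 4 12216 (.lf 4 0) (.lf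 2 0)))) (.sy 4 12208 (.sx 4 12640 (.sy 4 12200 (.sx 4 12624 (.sy 4 12196 (.lf 4 0) (.lf 4 0)) (.sy 4 12196 (.cv (.q 123 31)) (.lf 4 0))) (.sx 4 12624 (.lf 4 0) (.sy 4 12204 (.lf 4 0) (.lf 2 0)))) (.sy 2 12200 (.cv (.q 123 31)) (.lf 2 0))) (.lf 2 0)))) (.sy 2 12192 (.cv (.q 123 31)) (.lf 2 0))) (.sx 2 12672 (.lf 2 0) (.lf 0 0))))) (.sy 11 12160 (.cv (.q 123 31)) (.sx 11 13056 (.sy 11 12224 (.cv (.q 123 31)) (.sx 11 12928 (.sy 11 12256 (.lf 0 0) (.sx 11 12864 (.sy 4 12272 (.lf 0 0) (.sx 4 12832 (.sy 4 12280 (.lf 0 0) (.sx 4 12816 (.lf 1 0) (.sy 4 12284 (.lf 2 0) (.sx 4 12824 (.sy 4 12286 (.lf 1 0) (.sx 4 12820 (.lf 2 0) (.lf 4 0))) (.sy 4 12286 (.sx 4 12828 (.sy 2 12285 (.lf 1 0) (.lf 2 0)) (.sy 4 12285 (.lf 4 0) (.lf 4 0))) (.sx 4 12828 (.sy 4 12287 (.lf 4 0) (.cv (.q 123 34)))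 (.cv (.q 123 34)))))))) (.sy 4 12280 (.lf 4 0) (.sx 4 12848 (.sy 4 12284 (.lf 4 0) (.sx 4 12840 (.sy 4 12286 (.lf 4 0) (.cv (.q 123 34))) (.cv (.q 123 34)))) (.lf 4 0))))) (.sy 11 12272 (.sx 11 12896 (.sy 11 12264 (.lf 0 0) (.sx 11 12880 (.sy 2 12268 (.lf 0 0) (.lf 2 0)) (.sy 11 12268 (.sx 0 12888 (.lf 0 0) (.cv (.q 123 31))) (.sx 11 12888 (.sy 9 12270 (.lf 9 0) (.lf 9 0)) (.sy 11 12270 (.lf 11 0) (.cv (.q 123 34))))))) (.sy 0 12264 (.cv (.q 123 31)) (.sx 0 12912 (.sy 0 12268 (.cv (.q 123 31)) (.cv (.q 123 34))) (.cv (.q 123 31))))) (.sx 4 12896 (.sy 4 12280 (.lf 4 0) (.cv (.q 123 34))) (.cv (.q 123 34)))))) (.sy 0 12256 (.cv (.q 123 31)) (.sx 0 12992 (.sy 0 12272 (.cv (.q 123 31)) (.cv (.q 123 34))) (.cv (.q 123 31)))))) (.cv (.q 123 31)))))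

def tb11s_3 : Tr := (.sx 14 8192 (.sy 14 10240 tb11s_1 (.sx 0 4096 (.sy 0 11264 (.sx 0 2048 (.cv (.q 130 33)) (.sy 0 10752 (.sx 0 3072 (.sy 0 10496 (.sx 0 2560 (.sy 0 10368 (.cv (.q 129 32)) (.cv (.q 130 33))) (.cv (.q 134 34))) (.cv (.q 130 33))) (.sy 0 10496 (.cv (.q 134 34)) (.sx 0 3584 (.sy 0 10624 (.cv (.q 119 30)) (.cv (.q 130 33))) (.cv (.q 134 34))))) (.cv (.q 130 33)))) (.sx 0 2048 (.cv (.q 126 32)) (.cv (.q 126 33)))) (.sy 0 11264 (.sx 0 6144 (.sy 0 10752 (.sx 0 5120 (.sy 0 10496 (.cv (.q 122 34)) (.sx 0 4608 (.cv (.q 134 34)) (.sy 0 10624 (.cv (.q 137 30)) (.cv (.q 126 33))))) (.sy 0 10496 (.sx 0 5632 (.cv (.q 122 34)) (.sy 0 10368 (.cv (.q 127 32)) (.cv (.q 126 33)))) (.cv (.q 126 33)))) (.cv (.q 126 33))) (.cv (.q 126 33))) (.sx 0 6144 (.cv (.q 130 33)) (.cv (.q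 130 32)))))) (.sy 11 10240 (.sx 0 12288 (.sy 0 9216 (.sx 0 10240 (.sy 0 8704 (.cv (.q 129 32)) (.cv (.q 127 32))) (.sy 0 8704 (.cv (.q 128 32)) (.sx 0 11264 (.cv (.q 131 33)) (.sy 0 8960 (.sx 0 11776 (.sy 0 8832 (.cv (.q 128 32)) (.cv (.q 131 33))) (.sy 0 8832 (.cv (.q 128 32)) (.cv (.q 126 33)))) (.cv (.q 131 33)))))) (.cv (.q 127 32))) (.sy 0 9216 (.sx 0 14336 (.sy 0 8704 (.cv (.q 128 32)) (.cv (.q 126 33))) (.cv (.q 128 32))) (.cv (.q 130 32)))) (.sx 11 12288 (.sy 3 11264 (.sx 0 10240 (.sy 0 10752 (.cv (.q 127 32)) (.cv (.q 130 32))) (.cv (.q 130 32))) (.sx 3 10240 (.cv (.q 130 32)) (.sy 3 11776 (.cv (.q 130 32)) (.sx 3 11264 (.sy 0 12032 (.cv (.q 130 32)) (.cv (.q 134 31))) (.sy 3 12032 (.cv (.q 134 31)) (.sx 3 11776 (.cv (.q 134 31)) (.sy 3 12160 (.cv (.q 134 31)) (.sx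 3 12032 (.lf 1 0) (.sy 3 12224 (.lf 1 0) (.sx 3 12160 (.lf 1 0) (.lf 3 1))))))))))) (.sy 11 11264 (.sx 0 14336 (.cv (.q 130 32)) (.sy 0 10752 (.cv (.q 130 32)) (.cv (.q 127 32)))) (.sx 11 14336 (.sy 11 11776 (.cv (.q 127 32)) (.sx 11 13312 (.sy 11 12032 (.cv (.q 123 31)) tb11s_2) (.sy 0 12032 (.cv (.q 127 32)) (.cv (.q 123 31))))) (.cv (.q 127 32)))))))

def tb11s_4 : Tr := (.sx 14 1536 (.sy 14 14976 (.cv (.q 134 31)) (.sx 14 1280 (.sy 14 15040 (.cv (.q 134 31)) (.lf 14 0)) (.sy 2 15040 (.sx 2 1408 (.cv (.q 134 31)) (.sy 2 15008 (.cv (.q 134 31)) (.sx 2 1472 (.sy 2 15024 (.cv (.q 134 31)) (.sx 2 1440 (.cv (.q 134 31)) (.sy 2 15032 (.cv (.q 134 31)) (.lf 2 0)))) (.lf 2 0)))) (.sx 2 1408 (.cv (.q 159 41)) (.sy 2 15072 (.sx 2 1472 (.sy 2 15056 (.sx 2 1440 (.sy 2 15048 (.lf 2 0)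 (.cv (.q 159 41))) (.sy 2 15048 (.lf 2 0) (.lf 2 0))) (.cv (.q 159 41))) (.sy 2 15056 (.sx 2 1504 (.lf 2 0) (.lf 1 0)) (.lf 1 0))) (.cv (.q 159 41))))))) (.sy 5 14976 (.sx 2 1792 (.sy 2 14912 (.cv (.q 134 31)) (.sx 2 1664 (.cv (.q 134 31)) (.sy 2 14944 (.cv (.q 134 31)) (.sx 2 1728 (.sy 2 14960 (.cv (.q 134 31)) (.sx 2 1696 (.cv (.q 134 31)) (.sy 2 14968 (.cv (.q 134 31)) (.lf 2 0)))) (.sy 2 14960 (.lf 2 0) (.sx 2 1760 (.sy 2 14968 (.lf 2 0) (.lf 2 0)) (.lf 2 0))))))) (.sy 2 14912 (.sx 2 1920 (.cv (.q 134 31)) (.sy 2 14880 (.cv (.q 134 31)) (.sx 2 1984 (.sy 2 14896 (.cv (.q 134 31)) (.sx 2 1952 (.cv (.q 134 31)) (.lf 2 0))) (.sy 2 14896 (.cv (.q 88 22)) (.sx 2 2016 (.lf 2 0) (.lf 1 0)))))) (.sx 2 1920 (.sy 2 14944 (.sx 2 1856 (.lf 2 0) (.lf 2 0)) (.lf 2 0)) (.sy 2 14944 (.sx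 2 1984 (.lf 2 0) (.lf 1 0)) (.lf 0 0))))) (.sx 5 1792 (.sy 2 15040 (.sx 2 1664 (.lf 2 0) (.sy 2 15008 (.sx 2 1728 (.sy 2 14992 (.sx 2 1696 (.cv (.q 174 45)) (.sy 2 14984 (.lf 2 0) (.cv (.q 174 45)))) (.cv (.q 174 45))) (.lf 1 0)) (.cv (.q 174 45)))) (.sx 1 1664 (.lf 1 0) (.sy 0 15072 (.cv (.q 179 19)) (.sx 0 1728 (.sy 0 15088 (.cv (.q 179 19)) (.cv (.q 127 33))) (.cv (.q 127 33)))))) (.sy 5 15040 (.sx 1 1920 (.lf 1 0) (.sy 0 15008 (.cv (.q 73 18)) (.sx 0 1984 (.sy 0 15024 (.lf 0 0) (.sx 0 1952 (.lf 0 0) (.cv (.q 127 33)))) (.sy 0 15024 (.cv (.q 73 18)) (.cv (.q 127 33)))))) (.sx 5 1920 (.lf 5 0) (.cv (.q 127 33)))))))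

def tb11s_5 : Tr := (.sy 12 14848 (.sx 5 3072 (.sy 2 14592 (.cv (.q 134 31)) (.sx 2 2560 (.sy 2 14720 (.cv (.q 134 31)) (.sx 2 2304 (.lf 2 0) (.cv (.q 118 30)))) (.cv (.q 133 34)))) (.sy 5 14592 (.sx 5 3584 (.sy 0 14464 (.cv (.q 134 31)) (.cv (.q 133 34))) (.sy 5 14464 (.sx 2 3840 (.sy 2 14400 (.cv (.q 134 31)) (.sx 2 3712 (.lf 2 0) (.sy 2 14432 (.sx 2 3776 (.lf 2 0) (.lf 2 0)) (.cv (.q 178 46))))) (.sy 2 14400 (.sx 2 3968 (.sy 2 14368 (.cv (.q 134 31)) (.sx 2 3904 (.lf 2 0) (.lf 2 0))) (.sy 2 14368 (.lf 2 0) (.sx 2 4032 (.lf 2 0) (.lf 1 0)))) (.sx 2 3968 (.sy 2 14432 (.sx 2 3904 (.lf 2 0) (.lf 1 0)) (.lf 0 0)) (.lf 0 0)))) (.sx 5 3840 (.lf 5 0) (.sy 5 14528 (.sx 5 3968 (.lf 5 0) (.sy 5 14496 (.sx 5 4032 (.sy 0 14480 (.lf 0 0) (.cv (.q 178 46))) (.sy 5 14480 (.sx 5 4064 (.lf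 0 0) (.sy 5 14472 (.lf 0 0) (.sx 5 4080 (.sy 5 14476 (.lf 0 0) (.sx 5 4072 (.lf 5 0) (.sy 5 14478 (.sx 5 4076 (.lf 5 0) (.sy 5 14477 (.lf 5 0) (.lf 5 0))) (.lf 5 0)))) (.sy 5 14476 (.sx 5 4088 (.sy 5 14474 (.lf 0 0) (.sx 5 4084 (.sy 5 14475 (.lf 0 0) (.lf 5 0)) (.sy 5 14475 (.lf 5 0) (.lf 5 0)))) (.sy 5 14474 (.lf 5 0) (.sx 5 4092 (.sy 5 14475 (.lf 5 0) (.lf 3 0)) (.lf 3 0)))) (.sx 5 4088 (.sy 5 14478 (.sx 5 4084 (.sy 5 14477 (.lf 5 0) (.lf 3 0)) (.lf 3 0)) (.lf 5 0)) (.lf 5 0)))))) (.sx 5 4064 (.cv (.q 178 46)) (.sy 5 14488 (.sx 5 4080 (.lf 5 0) (.sy 5 14484 (.lf 5 0) (.lf 2 0))) (.cv (.q 178 46)))))) (.cv (.q 178 46)))) (.lf 5 0))))) (.cv (.q 133 34)))) (.sx 12 3072 (.sy 12 15104 (.sx 12 2560 (.sy 12 14976 (.sx 12 2304 (.sy 12 14912 (.sx 2 2176 (.cv (.q 88 22)) (.lf 2 0))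 (.sx 12 2176 (.lf 0 0) (.sy 12 14944 (.cv (.q 88 22)) (.sx 12 2240 (.sy 12 14960 (.lf 0 0) (.sx 12 2208 (.lf 0 0) (.sy 12 14968 (.lf 0 0) (.sx 12 2224 (.lf 12 0) (.sy 12 14972 (.sx 12 2232 (.sy 12 14970 (.lf 0 0) (.lf 12 0)) (.sy 12 14970 (.lf 12 0) (.lf 12 0))) (.lf 12 0)))))) (.sy 12 14960 (.cv (.q 88 22)) (.sx 12 2272 (.sy 12 14968 (.lf 12 0) (.sx 12 2256 (.sy 12 14972 (.sx 12 2248 (.sy 12 14970 (.lf 12 0) (.cv (.q 127 33))) (.lf 5 0)) (.cv (.q 127 33))) (.cv (.q 127 33)))) (.sy 0 14968 (.cv (.q 88 22)) (.cv (.q 127 33))))))))) (.lf 10 0)) (.sx 12 2304 (.sy 12 15040 (.sx 12 2176 (.sy 12 15008 (.sx 12 2112 (.lf 12 0) (.lf 12 0)) (.cv (.q 127 33))) (.sy 12 15008 (.sx 12 2240 (.lf 12 0) (.cv (.q 127 33))) (.cv (.q 127 33)))) (.cv (.q 127 33))) (.cv (.q 127 33)))) (.sy 5 14976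 (.sx 5 2816 (.lf 5 0) (.cv (.q 118 30))) (.cv (.q 127 33)))) (.cv (.q 127 33))) (.cv (.q 127 33))))

def tb11s_6 : Tr := (.sx 14 4096 (.sy 14 15360 (.sx 14 2048 (.sy 14 14848 (.sx 0 1024 (.sy 0 14592 (.cv (.q 130 32)) (.sx 0 512 (.sy 0 14720 (.cv (.q 130 32)) (.lf 0 0)) (.cv (.q 134 31)))) (.sy 0 14592 (.sx 0 1536 (.sy 0 14464 (.cv (.q 130 32)) (.cv (.q 134 31))) (.cv (.q 134 31))) (.cv (.q 134 31)))) (.sx 14 1024 (.sy 14 15104 (.cv (.q 134 31)) (.sx 14 512 (.sy 0 15232 (.cv (.q 134 31)) (.sx 0 256 (.cv (.q 134 31)) (.cv (.q 114 29)))) (.sy 14 15232 (.lf 14 0) (.lf 14 0)))) (.sy 14 15104 tb11s_4 (.sx 14 1536 (.sy 14 15232 (.lf 14 0) (.cv (.q 127 33))) (.cv (.q 127 33)))))) tb11s_5) (.sx 0 2048 (.sy 0 15872 (.sx 0 1024 (.sy 0 15616 (.sx 0 512 (.sy 0 15488 (.sx 0 256 (.sy 0 15424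 (.sx 0 128 (.sy 0 15392 (.cv (.q 134 31)) (.cv (.q 127 33))) (.cv (.q 127 33))) (.cv (.q 127 33))) (.cv (.q 127 33))) (.cv (.q 127 33))) (.cv (.q 127 33))) (.cv (.q 127 33))) (.cv (.q 127 33))) (.cv (.q 127 33))) (.cv (.q 127 33)))) (.sy 5 15360 (.sx 5 6144 (.sy 5 14848 (.sx 5 5120 (.sy 5 14592 (.sx 5 4608 (.sy 5 14464 (.sx 5 4352 (.sy 5 14400 (.sx 2 4224 (.sy 2 14368 (.lf 2 0) (.lf 0 0)) (.lf 0 0)) (.sx 5 4224 (.sy 5 14432 (.lf 0 0) (.sx 5 4160 (.sy 5 14448 (.lf 0 0) (.sx 5 4128 (.sy 0 14456 (.lf 0 0) (.lf 0 0)) (.sy 5 14456 (.sx 5 4144 (.lf 0 0) (.sy 5 14452 (.lf 0 0) (.sx 5 4152 (.lf 0 0) (.sy 5 14454 (.lf 0 0) (.sx 5 4156 (.lf 0 0) (.sy 5 14455 (.lf 0 0) (.lf 5 0))))))) (.sx 5 4144 (.sy 5 14460 (.sx 5 4136 (.lf 0 0) (.sy 5 14458 (.lf 0 0) (.lf 5 0))) (.lf 5 0)) (.sy 5 14460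 (.sx 5 4152 (.sy 5 14458 (.lf 5 0) (.lf 5 0)) (.sy 5 14458 (.sx 5 4156 (.lf 5 0) (.sy 5 14457 (.lf 5 0) (.lf 2 0))) (.lf 5 0))) (.sx 5 4152 (.lf 5 0) (.lf 5 0))))))) (.sy 5 14448 (.lf 5 0) (.sx 5 4192 (.sy 5 14456 (.lf 5 0) (.sx 5 4176 (.sy 5 14460 (.lf 5 0) (.lf 5 0)) (.sy 5 14460 (.lf 5 0) (.lf 2 0)))) (.sy 5 14456 (.lf 5 0) (.lf 2 0)))))) (.sy 5 14432 (.lf 5 0) (.lf 5 0)))) (.sy 5 14400 (.cv (.q 122 31)) (.sx 5 4480 (.sy 5 14432 (.lf 5 0) (.cv (.q 78 46))) (.lf 0 0)))) (.sx 5 4352 (.sy 5 14528 (.sx 5 4224 (.sy 5 14496 (.sx 5 4160 (.sy 5 14480 (.sx 5 4128 (.sy 5 14472 (.lf 5 0) (.sx 5 4112 (.sy 5 14476 (.lf 5 0) (.lf 5 0)) (.lf 5 0))) (.lf 5 0)) (.lf 2 0)) (.lf 2 0)) (.cv (.q 78 46))) (.lf 0 0)) (.lf 0 0)) (.lf 0 0))) (.sy 0 14464 (.cv (.q 122 31)) (.cv (.q 123 34)))) (.cv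 (.q 123 34))) (.sy 0 14592 (.cv (.q 122 31)) (.cv (.q 127 33)))) (.cv (.q 127 33))) (.cv (.q 127 33))) (.cv (.q 127 33))))

def tb11s_7 : Tr := (.sx 4 14336 (.sy 4 12800 (.sx 4 13312 (.sy 4 12544 (.sx 4 12800 (.sy 4 12416 (.sx 4 12544 (.sy 3 12352 (.sx 3 12416 (.lf 3 1) (.lf 0 0)) (.sx 2 12416 (.lf 2 1) (.sy 2 12384 (.sx 2 12480 (.lf 2 0) (.sy 2 12368 (.sx 2 12512 (.lf 0 0) (.sy 2 12360 (.lf 0 0) (.sx 2 12528 (.lf 2 0) (.sy 2 12364 (.lf 2 0) (.lf 2 0))))) (.lf 2 0))) (.lf 2 0)))) (.sy 4 12352 (.sx 4 12672 (.lf 2 0) (.lf 4 0)) (.sx 2 12672 (.sy 2 12384 (.sx 2 12608 (.sy 2 12368 (.sx 2 12576 (.sy 2 12360 (.sx 2 12560 (.sy 2 12356 (.lf 0 0) (.lf 2 0)) (.sy 2 12356 (.lf 2 0) (.lf 2 0))) (.sx 2 12560 (.sy 2 12364 (.lf 2 0) (.cv (.q 123 34))) (.cv (.q 123 34)))) (.cv (.q 123 34)))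 (.cv (.q 123 34))) (.cv (.q 123 34))) (.cv (.q 123 34))) (.cv (.q 123 34))))) (.sx 2 12544 (.sy 2 12480 (.lf 2 0) (.cv (.q 134 34))) (.cv (.q 123 34)))) (.sy 4 12416 (.sx 4 13056 (.sy 4 12352 (.sx 4 12928 (.sy 4 12320 (.sx 4 12864 (.sy 4 12304 (.sx 4 12832 (.sy 4 12296 (.sx 4 12816 (.lf 4 0) (.sy 4 12292 (.sx 4 12824 (.lf 4 0) (.cv (.q 123 34))) (.cv (.q 123 34)))) (.cv (.q 123 34))) (.cv (.q 123 34))) (.cv (.q 123 34))) (.cv (.q 123 34))) (.cv (.q 123 34))) (.cv (.q 123 34))) (.cv (.q 123 34))) (.cv (.q 123 34))) (.cv (.q 123 34)))) (.cv (.q 123 34))) (.sy 0 12544 (.cv (.q 123 34)) (.sx 0 13824 (.sy 0 12672 (.cv (.q 138 30)) (.cv (.q 127 33))) (.cv (.q 127 33))))) (.sx 0 13312 (.sy 0 13056 (.cv (.q 134 34)) (.cv (.q 130 33))) (.cv (.q 127 33)))) (.sy 0 12800 (.sx 0 15360 (.sy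 0 12544 (.lf 0 0) (.cv (.q 127 33))) (.cv (.q 127 33))) (.cv (.q 127 33))))

def tb11s_8 : Tr := (.sx 14 8192 (.sy 14 14336 (.sx 0 4096 (.sy 0 13312 (.sx 0 2048 (.cv (.q 126 33)) (.cv (.q 126 32))) (.sx 0 2048 (.cv (.q 130 32)) (.sy 0 13824 (.cv (.q 130 32)) (.sx 0 3072 (.sy 0 14080 (.cv (.q 130 32)) (.sx 0 2560 (.sy 0 14208 (.cv (.q 130 32)) (.cv (.q 134 31))) (.cv (.q 134 31)))) (.sy 0 14080 (.sx 0 3584 (.sy 0 13952 (.cv (.q 130 32)) (.cv (.q 134 31))) (.cv (.q 134 31))) (.cv (.q 134 31))))))) (.sy 0 13312 (.sx 0 6144 (.cv (.q 130 32)) (.cv (.q 130 33))) (.sx 0 6144 (.sy 0 13824 (.cv (.q 126 32)) (.sx 0 5120 (.sy 0 14080 (.sx 0 4608 (.cv (.q 134 31)) (.sy 0 13952 (.cv (.q 126 32)) (.cv (.q 122 31)))) (.cv (.q 122 31))) (.sy 0 14080 (.cv (.q 126 32)) (.sx 0 5632 (.cv (.q 122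 31)) (.sy 0 14208 (.cv (.q 126 32)) (.cv (.q 122 31))))))) (.cv (.q 126 32))))) tb11s_6) (.sy 4 14336 (.sx 4 12288 (.sy 4 13312 (.sx 4 10240 (.cv (.q 130 33)) (.sy 4 12800 (.sx 4 11264 (.sy 0 12544 (.cv (.q 134 34)) (.cv (.q 130 33))) (.sy 4 12544 (.sx 4 11776 (.cv (.q 134 34)) (.sy 4 12416 (.sx 4 12032 (.sy 3 12352 (.lf 3 0) (.cv (.q 134 34))) (.sy 4 12352 (.sx 4 12160 (.lf 4 0) (.lf 3 1)) (.lf 4 0))) (.cv (.q 134 34)))) (.cv (.q 134 34)))) (.cv (.q 130 33)))) (.sx 0 10240 (.sy 0 13824 (.cv (.q 130 33)) (.cv (.q 126 32))) (.cv (.q 130 33)))) (.sy 4 13312 tb11s_7 (.sx 0 14336 (.cv (.q 130 33)) (.sy 0 13824 (.cv (.q 127 33)) (.cv (.q 131 32)))))) (.sx 0 12288 (.sy 0 15360 (.sx 0 10240 (.cv (.q 127 33)) (.cv (.q 126 32))) (.sx 0 10240 (.sy 0 15872 (.cv (.q 127 33)) (.sx 0 9216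 (.cv (.q 131 32)) (.sy 0 16128 (.cv (.q 131 32)) (.cv (.q 128 33))))) (.sy 0 15872 (.sx 0 11264 (.cv (.q 131 32)) (.sy 0 15616 (.cv (.q 131 32)) (.sx 0 11776 (.cv (.q 131 32)) (.sy 0 15744 (.cv (.q 131 32)) (.cv (.q 128 33)))))) (.cv (.q 128 33))))) (.sy 0 15360 (.cv (.q 130 33)) (.sx 0 14336 (.sy 0 15872 (.cv (.q 126 32)) (.cv (.q 128 33))) (.cv (.q 126 32)))))))

/-- root tree for the class (1, 1). -/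
def tb11 : Tr := (.sy 14 8192 (.cv (.q 128 32)) (.sy 14 12288 tb11s_3 tb11s_8))

def tb20s_1 : Tr := (.sx 15 4096 (.sy 15 11264 (.sx 15 2048 (.sy 0 10752 (.sx 0 1024 (.cv (.q 129 32)) (.sy 0 10496 (.cv (.q 129 32)) (.cv (.q 130 33)))) (.cv (.q 130 33))) (.sy 15 10752 (.sx 15 3072 (.sy 15 10496 (.sx 0 2560 (.cv (.q 129 32)) (.cv (.q 119 30))) (.sx 15 2560 (.cv (.q 130 33)) (.sy 15 10624 (.lf 15 0) (.cv (.q 130 33))))) (.sy 15 10496 (.sx 15 3584 (.lf 15 0) (.sy 15 10368 (.sx 15 3840 (.lf 15 0) (.sy 6 10304 (.sx 0 3968 (.cv (.q 129 32)) (.sy 0 10272 (.cv (.q 129 32)) (.cv (.q 164 42)))) (.lf 6 0))) (.lf 6 0))) (.sx 0 3584 (.sy 0 10624 (.cv (.q 119 30)) (.lf 0 0)) (.cv (.q 119 30))))) (.sx 0 3072 (.cv (.q 130 33)) (.sy 0 11008 (.sx 0 3584 (.cv (.q 130 33)) (.sy 0 10880 (.cv (.q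 137 30)) (.cv (.q 130 33)))) (.cv (.q 130 33)))))) (.sx 0 2048 (.sy 0 11776 (.sx 0 1024 (.sy 0 11520 (.cv (.q 130 33)) (.sx 0 512 (.cv (.s (.q 122 34) (.q 126 32))) (.cv (.q 137 30)))) (.cv (.q 130 33))) (.cv (.q 126 33))) (.sy 0 11776 (.cv (.q 130 33)) (.cv (.q 126 33))))) (.sy 0 11264 (.sx 0 6144 (.sy 0 10752 (.sx 0 5120 (.sy 0 10496 (.sx 0 4608 (.sy 0 10368 (.sx 0 4352 (.sy 0 10304 (.sx 0 4224 (.sy 0 10272 (.cv (.q 127 32)) (.cv (.q 92 42))) (.cv (.q 127 32))) (.lf 0 0)) (.lf 0 0)) (.lf 0 0)) (.lf 0 0)) (.sx 0 4608 (.cv (.q 137 30)) (.sy 0 10624 (.cv (.q 137 30)) (.lf 0 0)))) (.sy 0 10496 (.sx 0 5632 (.cv (.q 137 30)) (.cv (.q 127 32))) (.sx 0 5632 (.sy 0 10624 (.lf 0 0) (.cv (.q 126 33))) (.cv (.q 126 33))))) (.sx 0 5120 (.sy 0 11008 (.sx 0 4608 (.sy 0 10880 (.cv (.q 119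 30)) (.cv (.q 126 33))) (.cv (.q 126 33))) (.cv (.q 126 33))) (.cv (.q 126 33)))) (.sy 0 10752 (.sx 0 7168 (.sy 0 10496 (.cv (.q 127 32)) (.cv (.q 126 33))) (.cv (.q 127 32))) (.cv (.q 126 33)))) (.sx 0 6144 (.sy 0 11776 (.cv (.q 126 33)) (.cv (.q 130 33))) (.sy 0 11776 (.sx 0 7168 (.cv (.q 126 33)) (.sy 0 11520 (.cv (.q 126 33)) (.sx 0 7680 (.cv (.q 119 30)) (.cv (.s (.q 134 34) (.q 130 32)))))) (.cv (.q 130 33))))))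

def tb20s_2 : Tr := (.sx 9 10112 (.sy 9 11744 (.lf 9 0) (.lf 9 0)) (.sy 9 11744 (.sx 9 10176 (.sy 9 11728 (.sx 9 10144 (.lf 2 0) (.sy 9 11720 (.lf 2 0) (.sx 9 10160 (.sy 9 11724 (.lf 2 0) (.lf 9 0)) (.sy 9 11724 (.sx 9 10168 (.sy 9 11722 (.lf 2 0) (.sx 9 10164 (.lf 2 0) (.sy 9 11723 (.lf 5 0) (.lf 9 0)))) (.sy 9 11722 (.sx 9 10172 (.lf 5 0) (.sy 9 11721 (.lf 8 0) (.lf 9 0))) (.sx 9 10172 (.sy 9 11723 (.lf 9 0) (.lf 9 0)) (.sy 9 11723 (.lf 9 0) (.lf 1 0))))) (.sx 9 10168 (.lf 9 0) (.sy 7 11726 (.sx 4 10172 (.lf 1 0) (.sy 4 11725 (.lf 1 0) (.lf 4 0))) (.lf 7 0))))))) (.lf 9 0)) (.sy 9 11728 (.sx 9 10208 (.sy 9 11720 (.sx 9 10192 (.sy 9 11716 (.lf 2 0) (.sx 9 10184 (.sy 9 11718 (.lf 2 0) (.sx 9 10180 (.sy 9 11719 (.lf 2 0) (.lf 9 0)) (.sy 9 11719 (.lf 9 0) (.lf 9 0)))) (.lf 9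 0))) (.lf 9 0)) (.sx 9 10192 (.sy 9 11724 (.sx 9 10184 (.sy 9 11722 (.sx 9 10180 (.sy 9 11721 (.lf 9 0) (.lf 9 0)) (.sy 9 11721 (.lf 9 0) (.lf 1 0))) (.sx 7 10180 (.lf 1 0) (.sy 7 11723 (.lf 1 0) (.lf 7 0)))) (.sy 7 11722 (.sx 7 10188 (.lf 1 0) (.sy 7 11721 (.lf 1 0) (.lf 7 0))) (.sx 7 10188 (.sy 7 11723 (.lf 7 0) (.lf 7 0)) (.sy 7 11723 (.lf 7 0) (.lf 2 0))))) (.sx 7 10184 (.sy 7 11726 (.sx 7 10180 (.sy 7 11725 (.lf 7 0) (.lf 7 0)) (.sy 7 11725 (.lf 7 0) (.lf 7 0))) (.sx 7 10180 (.lf 7 0) (.lf 1 0))) (.sy 7 11726 (.sx 7 10188 (.sy 7 11725 (.lf 7 0) (.lf 1 0)) (.lf 1 0)) (.lf 1 0)))) (.sy 7 11724 (.sx 7 10200 (.sy 7 11722 (.lf 7 0) (.lf 2 0)) (.lf 2 0)) (.lf 1 0)))) (.sy 9 11720 (.lf 9 0) (.lf 1 0))) (.lf 1 0))) (.sx 0 10176 (.cv (.q 179 46)) (.cv (.q 74 47)))))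

def tb20s_3 : Tr := (.sx 9 9216 (.sy 0 11520 (.sx 0 8704 (.sy 0 11392 (.sx 0 8448 (.cv (.q 126 33)) (.sy 0 11328 (.cv (.q 126 33)) (.lf 0 0))) (.sx 0 8448 (.sy 0 11456 (.cv (.q 126 33)) (.cv (.q 115 36))) (.cv (.q 115 36)))) (.sy 0 11392 (.sx 0 8960 (.sy 0 11328 (.lf 0 0) (.cv (.q 115 36))) (.cv (.q 115 36))) (.lf 0 0))) (.sx 0 8704 (.lf 0 0) (.lf 0 0))) (.sy 9 11520 (.sx 0 9728 (.lf 0 0) (.lf 0 0)) (.sx 9 9728 (.sy 3 11648 (.lf 0 0) (.sx 3 9472 (.sy 3 11712 (.lf 0 0) (.lf 3 0)) (.sy 3 11712 (.sx 3 9600 (.lf 0 0) (.sy 3 11680 (.cv (.q 160 24)) (.sx 3 9664 (.cv (.q 160 24)) (.lf 3 0)))) (.sx 3 9600 (.sy 0 11744 (.sx 0 9536 (.cv (.q 160 24)) (.sy 0 11728 (.cv (.q 160 24)) (.cv (.q 164 42)))) (.cv (.q 164 42))) (.sy 3 11744 (.sx 3 9664 (.sy 3 11728 (.sx 3 9632 (.sy 3 11720 (.cv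 (.q 160 24)) (.lf 3 0)) (.sy 3 11720 (.lf 3 0) (.lf 3 0))) (.sx 3 9632 (.lf 3 0) (.lf 0 0))) (.sy 3 11728 (.lf 3 0) (.lf 0 0))) (.lf 0 0)))))) (.sy 9 11648 (.sx 3 9984 (.sy 3 11584 (.lf 0 0) (.sx 3 9856 (.lf 0 0) (.sy 3 11616 (.cv (.q 160 24)) (.sx 3 9920 (.sy 3 11632 (.cv (.q 160 24)) (.sx 3 9888 (.cv (.q 160 24)) (.sy 3 11640 (.cv (.q 160 24)) (.lf 3 0)))) (.lf 3 0))))) (.sy 3 11584 (.cv (.q 123 31)) (.sx 3 10112 (.sy 3 11616 (.lf 3 0) (.cv (.q 78 19))) (.sy 0 11616 (.cv (.q 123 31)) (.lf 0 0))))) (.sx 9 9984 (.sy 9 11712 (.sx 3 9856 (.lf 3 0) (.sy 3 11680 (.sx 3 9920 (.sy 3 11664 (.sx 3 9888 (.sy 3 11656 (.lf 2 0) (.lf 3 0)) (.sy 3 11656 (.lf 3 0) (.lf 3 0))) (.lf 3 0)) (.sy 3 11664 (.sx 3 9952 (.sy 3 11656 (.lf 3 0) (.lf 0 0)) (.lf 0 0)) (.lf 0 0))) (.lf 0 0))) (.sx 9 9856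 (.lf 0 0) (.lf 9 0))) (.sy 9 11712 (.sx 9 10112 (.lf 0 0) (.sy 9 11680 (.cv (.q 175 20)) (.sx 9 10176 (.cv (.q 175 20)) (.lf 9 0)))) tb20s_2))))))

def tb20s_4 : Tr := (.sx 9 9984 (.sy 9 11840 (.sx 9 9856 (.sy 0 11808 (.sx 0 9792 (.cv (.q 164 42)) (.sy 0 11792 (.cv (.q 175 20)) (.cv (.q 164 42)))) (.cv (.q 164 42))) (.sy 9 11808 (.sx 9 9920 (.sy 9 11792 (.sx 9 9888 (.lf 0 0) (.sy 9 11784 (.lf 0 0) (.sx 9 9904 (.lf 2 0) (.lf 9 0)))) (.sx 9 9888 (.sy 9 11800 (.sx 9 9872 (.lf 2 0) (.sy 9 11796 (.lf 2 0) (.lf 9 0))) (.cv (.q 164 42))) (.sy 9 11800 (.sx 9 9904 (.sy 9 11796 (.sx 9 9896 (.sy 9 11794 (.lf 2 0) (.sx 9 9892 (.lf 2 0) (.sy 9 11795 (.lf 2 0) (.lf 9 0)))) (.sy 9 11794 (.lf 9 0) (.sx 9 9900 (.sy 9 11795 (.lf 9 0) (.lf 9 0)) (.sy 9 11795 (.lf 9 0) (.lf 9 0))))) (.sx 9 9896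 (.lf 9 0) (.sy 9 11798 (.sx 9 9900 (.lf 9 0) (.lf 1 0)) (.lf 7 0)))) (.sy 9 11796 (.lf 9 0) (.sx 7 9912 (.sy 7 11798 (.sx 7 9908 (.sy 7 11797 (.lf 1 0) (.lf 7 0)) (.sy 7 11797 (.lf 7 0) (.lf 7 0))) (.sx 7 9908 (.lf 7 0) (.lf 2 0))) (.sy 7 11798 (.lf 7 0) (.lf 1 0))))) (.sx 7 9904 (.lf 7 0) (.lf 1 0))))) (.sy 9 11792 (.lf 9 0) (.sx 7 9952 (.sy 7 11800 (.lf 7 0) (.lf 1 0)) (.lf 1 0)))) (.sx 0 9920 (.cv (.q 164 42)) (.cv (.q 74 47))))) (.lf 9 0)) (.sy 7 11840 (.sx 7 10112 (.sy 7 11808 (.lf 7 0) (.lf 1 0)) (.lf 1 0)) (.sx 7 10112 (.sy 1 11872 (.sx 1 10048 (.lf 1 0) (.lf 1 0)) (.cv (.q 164 42))) (.sy 7 11872 (.sx 7 10176 (.sy 7 11856 (.lf 1 0) (.sx 7 10144 (.sy 7 11864 (.lf 1 0) (.lf 7 0)) (.sy 7 11864 (.sx 7 10160 (.lf 0 0) (.lf 7 0)) (.sx 7 10160 (.sy 7 11868 (.sx 7 10152 (.lf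 0 0) (.sy 7 11866 (.lf 0 0) (.lf 7 0))) (.lf 7 0)) (.sy 7 11868 (.sx 7 10168 (.sy 7 11866 (.lf 7 0) (.lf 7 0)) (.sy 7 11866 (.lf 7 0) (.lf 3 0))) (.lf 3 0)))))) (.sy 7 11856 (.lf 7 0) (.sx 7 10208 (.sy 7 11864 (.lf 7 0) (.lf 3 0)) (.lf 1 0)))) (.sx 7 10176 (.lf 7 0) (.cv (.q 89 43)))))))

def tb20s_5 : Tr := (.sx 10 11264 (.sy 7 12032 (.sx 7 10752 (.sy 7 11904 (.sx 7 10496 (.sy 7 11840 (.sx 7 10368 (.sy 7 11808 (.sx 1 10304 (.cv (.q 179 46)) (.lf 1 0)) (.lf 7 0)) (.sy 7 11808 (.sx 7 10432 (.sy 7 11792 (.lf 1 0) (.sx 7 10400 (.lf 7 0) (.sy 7 11800 (.sx 7 10416 (.lf 7 0) (.sy 7 11796 (.sx 7 10424 (.lf 0 0) (.sy 7 11794 (.lf 7 0) (.lf 7 0))) (.lf 7 0))) (.lf 7 0)))) (.sy 7 11792 (.sx 7 10464 (.sy 7 11784 (.lf 1 0) (.sx 7 10448 (.sy 7 11788 (.lf 0 0) (.sx 7 10440 (.sy 7 11790 (.lf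 0 0) (.lf 7 0)) (.sy 7 11790 (.lf 7 0) (.lf 7 0)))) (.sy 7 11788 (.lf 7 0) (.sx 7 10456 (.sy 7 11790 (.lf 7 0) (.lf 3 0)) (.lf 3 0))))) (.lf 7 0)) (.sx 7 10464 (.sy 7 11800 (.sx 7 10448 (.sy 7 11796 (.sx 7 10440 (.sy 7 11794 (.lf 7 0) (.lf 7 0)) (.sy 7 11794 (.lf 7 0) (.lf 1 0))) (.lf 1 0)) (.lf 1 0)) (.cv (.q 89 43))) (.cv (.q 89 43))))) (.sx 0 10432 (.cv (.q 179 46)) (.cv (.q 89 43))))) (.sx 7 10368 (.sy 7 11872 (.lf 7 0) (.cv (.q 89 43))) (.lf 0 0))) (.sy 0 11840 (.sx 0 10624 (.sy 0 11808 (.sx 0 10560 (.sy 0 11792 (.cv (.q 78 19)) (.cv (.q 89 43))) (.cv (.q 89 43))) (.cv (.q 89 43))) (.lf 0 0)) (.lf 0 0))) (.sx 0 10496 (.sy 0 11968 (.lf 0 0) (.cv (.q 119 35))) (.cv (.q 119 35)))) (.sy 0 11904 (.sx 0 11008 (.sy 0 11840 (.lf 0 0) (.cv (.q 119 35))) (.cv (.q 119 35))) (.cv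 (.q 134 31)))) (.cv (.q 134 31))) (.sy 10 12032 (.cv (.q 134 31)) (.sx 10 11776 (.sy 2 12160 (.cv (.q 134 31)) (.sx 2 11520 (.cv (.q 134 31)) (.sy 2 12224 (.cv (.q 134 31)) (.sx 2 11648 (.cv (.q 134 31)) (.sy 2 12256 (.cv (.q 134 31)) (.lf 2 0)))))) (.sy 10 12160 (.sx 2 12032 (.cv (.q 134 31)) (.sy 2 12096 (.cv (.q 134 31)) (.sx 2 12160 (.cv (.q 134 31)) (.sy 2 12128 (.cv (.q 134 31)) (.lf 2 0))))) (.sx 10 12032 (.sy 2 12224 (.sx 2 11904 (.cv (.q 134 31)) (.sy 2 12192 (.cv (.q 134 31)) (.lf 2 0))) (.sx 2 11904 (.lf 2 0) (.sy 2 12256 (.lf 2 0) (.lf 0 0)))) (.sy 10 12224 (.sx 2 12160 (.sy 2 12192 (.lf 2 0) (.lf 2 0)) (.lf 2 1)) (.sx 10 12160 (.lf 0 0) (.lf 10 1))))))))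

def tb20s_6 : Tr := (.sx 16 12288 (.sy 16 11264 (.sx 0 10240 (.sy 0 10752 (.cv (.q 127 32)) (.sx 0 9216 (.sy 0 11008 (.cv (.q 127 32)) (.sx 0 8704 (.cv (.q 126 33)) (.sy 0 11136 (.cv (.q 127 32)) (.sx 0 8960 (.cv (.q 126 33)) (.cv (.q 127 32)))))) (.cv (.q 127 32)))) (.cv (.q 127 32))) (.sx 16 10240 (.sy 16 11776 tb20s_3 (.sx 16 9216 (.sy 9 12032 (.lf 9 0) (.cv (.q 130 33))) (.sy 16 12032 (.sx 16 9728 (.lf 16 0) (.sy 16 11904 tb20s_4 (.lf 16 0))) (.lf 16 0)))) (.sy 10 11776 (.sx 9 11264 (.sy 9 11520 (.cv (.q 127 32)) (.sx 9 10752 (.sy 9 11648 (.cv (.q 123 31)) (.sx 9 10496 (.sy 9 11712 (.sx 9 10368 (.sy 9 11680 (.lf 9 0) (.lf 9 0)) (.sy 1 11680 (.cv (.q 123 31)) (.lf 1 0))) (.sx 1 10368 (.sy 1 11744 (.lf 1 0) (.lf 1 0)) (.sy 1 11744 (.lf 1 0) (.sx 1 10432 (.lf 1 0) (.cv (.q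 78 19)))))) (.sy 7 11712 (.cv (.q 123 31)) (.sx 7 10624 (.sy 7 11744 (.lf 7 0) (.lf 7 0)) (.sy 3 11744 (.cv (.q 123 31)) (.lf 3 0)))))) (.cv (.q 123 31)))) (.sy 0 11520 (.cv (.q 127 32)) (.cv (.q 123 31)))) tb20s_5))) (.sy 11 11264 (.sx 0 14336 (.cv (.q 127 32)) (.sy 0 10752 (.cv (.q 131 33)) (.cv (.q 127 32)))) (.sx 11 14336 (.sy 11 11776 (.cv (.q 127 32)) (.sx 11 13312 (.sy 11 12032 (.cv (.q 123 31)) (.sx 11 12800 (.sy 11 12160 (.cv (.q 123 31)) (.sx 11 12544 (.sy 11 12224 (.sx 0 12416 (.lf 0 1) (.sy 0 12192 (.cv (.q 123 31)) (.sx 0 12480 (.cv (.q 179 19)) (.cv (.q 123 31))))) (.sx 11 12416 (.lf 10 1) (.sy 11 12256 (.sx 11 12480 (.sy 11 12240 (.sx 11 12448 (.lf 0 0) (.sy 11 12232 (.cv (.q 123 31)) (.lf 11 0))) (.lf 11 0)) (.sy 8 12240 (.cv (.q 123 31)) (.sx 8 12512 (.lf 3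 0) (.sy 8 12248 (.cv (.q 123 31)) (.lf 8 0))))) (.lf 11 0)))) (.sy 10 12224 (.cv (.q 123 31)) (.sx 10 12672 (.sy 10 12256 (.cv (.q 123 31)) (.sx 10 12608 (.sy 10 12272 (.sx 10 12576 (.sy 10 12264 (.lf 10 0) (.lf 1 0)) (.lf 1 0)) (.lf 1 0)) (.lf 1 0))) (.cv (.q 123 31)))))) (.cv (.q 123 31)))) (.sy 0 12032 (.cv (.q 127 32)) (.cv (.q 123 31))))) (.cv (.q 127 32)))))

def tb20s_7 : Tr := (.sy 13 13824 (.sx 13 1024 (.sy 0 13568 (.cv (.q 126 33)) (.sx 0 512 (.cv (.q 126 33)) (.lf 0 0))) (.sy 13 13568 (.sx 0 1536 (.sy 0 13440 (.cv (.q 122 31)) (.lf 0 0)) (.cv (.q 122 31))) (.sx 13 1536 (.lf 0 0) (.sy 13 13696 (.lf 0 0) (.sx 13 1792 (.sy 0 13760 (.lf 0 0) (.sx 0 1664 (.lf 0 0) (.sy 0 13792 (.cv (.q 160 24)) (.sx 0 1728 (.cv (.q 160 24)) (.cv (.q 77 19)))))) (.sy 13 13760 (.sx 0 1920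 (.lf 0 0) (.sy 0 13728 (.cv (.q 122 31)) (.sx 0 1984 (.cv (.q 160 24)) (.cv (.q 92 23))))) (.sx 13 1920 (.lf 13 0) (.sy 13 13792 (.sx 13 1984 (.sy 13 13776 (.sx 13 1952 (.lf 13 0) (.sy 13 13768 (.sx 13 1968 (.cv (.q 160 24)) (.sy 13 13764 (.cv (.q 160 24)) (.sx 13 1976 (.sy 13 13766 (.cv (.q 160 24)) (.lf 13 0)) (.sy 13 13766 (.lf 13 0) (.lf 13 0))))) (.lf 13 0))) (.lf 13 0)) (.sy 3 13776 (.sx 3 2016 (.sy 3 13768 (.sx 3 2000 (.sy 3 13764 (.cv (.q 92 23)) (.sx 3 1992 (.sy 3 13766 (.cv (.q 92 23)) (.lf 3 0)) (.cv (.q 92 23)))) (.cv (.q 92 23))) (.lf 3 0)) (.lf 3 0)) (.lf 0 0))) (.lf 0 0))))))))) (.sx 13 1024 (.cv (.q 129 33)) (.sy 13 14080 (.sx 13 1536 (.cv (.q 129 33)) (.sy 13 13952 (.sx 13 1792 (.sy 13 13888 (.sx 13 1664 (.cv (.q 129 33)) (.sy 13 13856 (.sx 13 1728 (.sy 0 13840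 (.sx 0 1696 (.cv (.q 129 33)) (.sy 0 13832 (.cv (.q 160 24)) (.cv (.q 129 33)))) (.cv (.q 129 33))) (.sy 13 13840 (.lf 13 0) (.cv (.q 129 33)))) (.cv (.q 129 33)))) (.cv (.q 129 33))) (.sy 9 13888 (.sx 0 1920 (.lf 0 0) (.lf 0 0)) (.sx 9 1920 (.cv (.q 129 33)) (.sy 9 13920 (.sx 9 1984 (.cv (.q 129 33)) (.sy 9 13904 (.lf 9 0) (.cv (.q 129 33)))) (.cv (.q 129 33)))))) (.cv (.q 129 33)))) (.cv (.q 129 33)))))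

def tb20s_8 : Tr := (.sx 9 2304 (.sy 9 13888 (.sx 9 2176 (.sy 9 13856 (.lf 2 0) (.lf 9 0)) (.sy 9 13856 (.sx 9 2240 (.sy 9 13840 (.lf 2 0) (.lf 9 0)) (.sy 9 13840 (.sx 9 2272 (.sy 9 13832 (.cv (.q 92 23)) (.sx 9 2256 (.sy 9 13836 (.lf 2 0) (.sx 9 2248 (.sy 9 13838 (.lf 2 0) (.lf 9 0)) (.sy 9 13838 (.lf 9 0) (.lf 9 0)))) (.sy 9 13836 (.cv (.q 92 23)) (.sx 9 2264 (.sy 9 13838 (.cv (.q 92 23)) (.lf 9 0)) (.cv (.q 92 23)))))) (.cv (.q 92 23))) (.sx 9 2272 (.sy 9 13848 (.sx 9 2256 (.sy 9 13844 (.sx 9 2248 (.lf 9 0) (.lf 9 0)) (.lf 7 0)) (.sy 7 13844 (.sx 7 2264 (.sy 7 13842 (.lf 7 0) (.lf 7 0)) (.sy 7 13842 (.lf 7 0) (.lf 1 0))) (.lf 1 0))) (.lf 2 0)) (.lf 1 0)))) (.lf 9 0))) (.sx 9 2176 (.sy 9 13920 (.lf 9 0) (.cv (.q 129 33))) (.lf 2 0))) (.sy 7 13888 (.sx 1 2432 (.sy 1 13856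 (.sx 1 2368 (.sy 1 13840 (.cv (.q 92 23)) (.lf 1 0)) (.cv (.q 92 23))) (.lf 1 0)) (.sy 0 13856 (.cv (.q 122 31)) (.sx 0 2496 (.sy 0 13872 (.cv (.q 92 23)) (.cv (.s (.s (.q 190 16) (.q 130 32)) (.q 130 32)))) (.cv (.q 92 23))))) (.sx 7 2432 (.sy 7 13920 (.sx 2 2368 (.lf 2 0) (.sy 2 13904 (.cv (.s (.s (.q 190 16) (.q 130 32)) (.q 130 32))) (.lf 2 0))) (.lf 7 0)) (.sy 7 13920 (.sx 7 2496 (.sy 7 13904 (.lf 2 0) (.sx 7 2464 (.lf 1 0) (.sy 7 13912 (.lf 1 0) (.lf 7 0)))) (.sy 7 13904 (.sx 1 2528 (.lf 1 0) (.cv (.q 92 23))) (.sx 7 2528 (.sy 7 13912 (.sx 7 2512 (.sy 7 13908 (.lf 0 0) (.sx 7 2504 (.lf 0 0) (.sy 7 13910 (.lf 0 0) (.lf 7 0)))) (.sy 7 13908 (.cv (.q 92 23)) (.sx 7 2520 (.sy 7 13910 (.sx 7 2516 (.sy 7 13909 (.lf 0 0) (.lf 7 0)) (.sy 7 13909 (.cv (.q 92 23)) (.lf 7 0))) (.sx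 7 2516 (.lf 7 0) (.lf 3 0))) (.sy 1 13910 (.cv (.q 92 23)) (.lf 1 0))))) (.sx 7 2512 (.lf 7 0) (.lf 1 0))) (.sy 0 13912 (.cv (.q 92 23)) (.cv (.q 89 43)))))) (.sx 7 2496 (.lf 7 0) (.cv (.q 89 43)))))))

def tb20s_9 : Tr := (.sy 16 13824 (.sx 16 3072 (.sy 0 13568 (.sx 0 2560 (.cv (.q 122 31)) (.sy 0 13440 (.lf 0 0) (.cv (.q 122 31)))) (.sx 0 2560 (.sy 0 13696 (.cv (.q 122 31)) (.sx 0 2304 (.sy 0 13760 (.cv (.q 122 31)) (.sx 0 2176 (.lf 0 0) (.sy 0 13792 (.cv (.q 122 31)) (.sx 0 2240 (.cv (.q 175 20)) (.cv (.q 92 23)))))) (.cv (.q 122 31)))) (.cv (.q 122 31)))) (.sy 16 13568 (.sx 16 3584 (.sy 13 13440 (.sx 13 3328 (.lf 13 0) (.sy 13 13376 (.sx 0 3456 (.sy 0 13344 (.cv (.q 160 24)) (.cv (.q 167 43))) (.sy 0 13344 (.cv (.s (.s (.q 126 32) (.q 130 32)) (.q 130 32))) (.sx 0 3520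 (.cv (.q 167 43)) (.cv (.s (.s (.q 126 32) (.q 130 32)) (.q 130 32)))))) (.lf 13 0))) (.lf 13 0)) (.sy 16 13440 (.sx 0 3840 (.sy 0 13376 (.cv (.s (.s (.q 126 32) (.q 130 32)) (.q 130 32))) (.sx 0 3712 (.lf 0 0) (.sy 0 13408 (.cv (.s (.s (.q 126 32) (.q 130 32)) (.q 130 32))) (.sx 0 3776 (.cv (.q 167 43)) (.cv (.s (.s (.q 126 32) (.q 130 32)) (.q 130 32))))))) (.cv (.s (.s (.q 126 32) (.q 130 32)) (.q 130 32)))) (.sx 16 3840 (.lf 16 0) (.sy 16 13504 (.sx 1 3968 (.sy 1 13472 (.lf 1 0) (.cv (.q 167 43))) (.sy 0 13472 (.cv (.s (.s (.q 126 32) (.q 130 32)) (.q 130 32))) (.sx 0 4032 (.sy 0 13488 (.cv (.s (.s (.q 126 32) (.q 130 32)) (.q 130 32))) (.cv (.q 167 43))) (.cv (.s (.s (.q 126 32) (.q 130 32)) (.q 130 32)))))) (.lf 16 0))))) (.sx 16 3584 (.cv (.q 122 31)) (.sy 16 13696 (.lf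 16 0) (.cv (.q 122 31)))))) (.sx 9 3072 (.sy 9 14080 (.sx 9 2560 (.sy 9 13952 tb20s_8 (.sx 0 2304 (.cv (.q 129 33)) (.sy 0 14016 (.sx 0 2432 (.sy 0 13984 (.cv (.q 77 19)) (.cv (.q 129 33))) (.lf 0 0)) (.cv (.q 129 33))))) (.sy 0 13952 (.sx 0 2816 (.sy 0 13888 (.cv (.q 122 31)) (.sx 0 2688 (.sy 0 13920 (.cv (.q 92 23)) (.cv (.q 89 43))) (.cv (.q 92 23)))) (.cv (.q 122 31))) (.lf 0 0))) (.sx 0 2560 (.cv (.q 129 33)) (.cv (.q 134 31)))) (.sy 0 14080 (.sx 0 3584 (.sy 0 13952 (.cv (.q 122 31)) (.cv (.q 134 31))) (.cv (.q 134 31))) (.sx 0 3584 (.cv (.q 134 31)) (.sy 0 14208 (.cv (.q 134 31)) (.sx 0 3840 (.cv (.q 134 31)) (.sy 0 14272 (.cv (.q 134 31)) (.sx 0 3968 (.cv (.q 134 31)) (.sy 0 14304 (.cv (.q 134 31)) (.cv (.q 129 33)))))))))))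

def tb20s_10 : Tr := (.sx 15 5888 (.sy 15 13888 (.sx 15 5760 (.sy 0 13856 (.cv (.q 134 31)) (.sx 0 5696 (.cv (.q 164 23)) (.sy 0 13872 (.cv (.q 164 23)) (.cv (.s (.s (.q 126 32) (.q 66 16)) (.q 126 32)))))) (.sy 15 13856 (.sx 15 5824 (.cv (.q 164 23)) (.sy 15 13840 (.cv (.q 164 23)) (.lf 15 0))) (.lf 15 0))) (.sx 15 5760 (.sy 15 13920 (.sx 15 5696 (.sy 15 13904 (.sx 15 5664 (.cv (.q 164 23)) (.lf 15 0)) (.sx 15 5664 (.sy 0 13912 (.cv (.q 164 23)) (.cv (.q 167 43))) (.sy 15 13912 (.sx 15 5680 (.sy 6 13908 (.cv (.q 164 23)) (.sx 6 5672 (.sy 6 13910 (.cv (.q 164 23)) (.lf 6 0)) (.sy 6 13910 (.sx 6 5676 (.sy 6 13909 (.cv (.q 164 23)) (.lf 6 0)) (.sy 6 13909 (.lf 6 0) (.lf 6 0))) (.sx 6 5676 (.lf 6 0) (.lf 2 0))))) (.sy 15 13908 (.lf 15 0) (.sx 6 5688 (.sy 6 13910 (.lf 6 0) (.lf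 2 0)) (.lf 2 0)))) (.sx 6 5680 (.lf 6 0) (.lf 2 0))))) (.sy 15 13904 (.lf 15 0) (.sx 6 5728 (.sy 6 13912 (.lf 6 0) (.lf 0 0)) (.lf 0 0)))) (.sx 0 5696 (.cv (.q 167 43)) (.lf 0 0))) (.sy 0 13920 (.sx 0 5824 (.sy 0 13904 (.cv (.s (.s (.q 126 32) (.q 66 16)) (.q 126 32))) (.lf 0 0)) (.lf 0 0)) (.lf 0 0)))) (.sy 15 13888 (.sx 15 6016 (.sy 15 13856 (.sx 15 5952 (.sy 15 13840 (.sx 6 5920 (.cv (.q 164 23)) (.sy 6 13832 (.cv (.q 164 23)) (.sx 6 5936 (.sy 6 13836 (.cv (.q 164 23)) (.sx 6 5928 (.cv (.q 164 23)) (.sy 6 13838 (.cv (.q 164 23)) (.lf 6 0)))) (.sy 6 13836 (.lf 6 0) (.sx 6 5944 (.sy 6 13838 (.lf 6 0) (.lf 6 0)) (.sy 6 13838 (.lf 6 0) (.lf 2 0))))))) (.sx 15 5920 (.lf 15 0) (.sy 15 13848 (.sx 15 5936 (.sy 15 13844 (.sx 15 5928 (.sy 15 13842 (.lf 6 0) (.lf 15 0)) (.sy 6 13842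 (.lf 6 0) (.lf 6 0))) (.lf 15 0)) (.sy 2 13844 (.sx 2 5944 (.lf 2 0) (.lf 2 0)) (.lf 2 0))) (.lf 2 0)))) (.sy 6 13840 (.lf 6 0) (.lf 2 0))) (.lf 2 0)) (.sy 2 13856 (.lf 2 0) (.lf 0 0))) (.sx 0 6016 (.lf 0 0) (.sy 0 13920 (.lf 0 0) (.cv (.q 127 33))))))

def tb20s_11 : Tr := (.sy 17 13824 (.sx 16 5120 (.sy 16 13568 (.sx 16 4608 (.sy 16 13440 (.sx 16 4352 (.cv (.s (.s (.q 126 32) (.q 130 32)) (.q 130 32))) (.sy 16 13376 (.cv (.s (.s (.q 126 32) (.q 130 32)) (.q 130 32))) (.sx 16 4480 (.sy 0 13408 (.cv (.s (.s (.q 126 32) (.q 130 32)) (.q 130 32))) (.sx 0 4416 (.cv (.s (.s (.q 126 32) (.q 130 32)) (.q 130 32))) (.cv (.q 89 43)))) (.lf 16 0)))) (.sx 16 4352 (.sy 16 13504 (.sx 16 4224 (.sy 0 13472 (.cv (.s (.s (.q 126 32) (.q 130 32)) (.q 130 32))) (.sx 0 4160 (.cv (.s (.s (.q 126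 32) (.q 130 32)) (.q 130 32))) (.sy 0 13488 (.cv (.s (.s (.q 126 32) (.q 130 32)) (.q 130 32))) (.cv (.q 89 43))))) (.sy 16 13472 (.lf 16 0) (.cv (.q 89 43)))) (.lf 0 0)) (.lf 0 0))) (.sy 0 13440 (.sx 0 4864 (.sy 0 13376 (.sx 0 4736 (.sy 0 13344 (.cv (.s (.s (.q 126 32) (.q 130 32)) (.q 130 32))) (.sx 0 4672 (.cv (.s (.s (.q 126 32) (.q 130 32)) (.q 130 32))) (.cv (.q 89 43)))) (.sy 0 13344 (.cv (.q 96 24)) (.cv (.q 89 43)))) (.lf 0 0)) (.lf 0 0)) (.lf 0 0))) (.sx 0 4608 (.sy 0 13696 (.lf 0 0) (.cv (.q 134 31))) (.cv (.q 134 31)))) (.sy 6 13568 (.sx 0 5632 (.sy 0 13440 (.lf 0 0) (.cv (.q 134 31))) (.cv (.q 134 31))) (.sx 6 5632 (.cv (.q 134 31)) (.sy 6 13696 (.cv (.q 134 31)) (.sx 6 5888 (.cv (.q 134 31)) (.sy 6 13760 (.cv (.q 134 31)) (.sx 6 6016 (.sy 0 13792 (.cv (.q 134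 31)) (.sx 0 5952 (.cv (.q 164 23)) (.cv (.q 81 20)))) (.lf 6 0)))))))) (.sx 17 5120 (.sy 0 14080 (.sx 0 4608 (.cv (.q 134 31)) (.sy 0 13952 (.cv (.q 134 31)) (.cv (.q 122 31)))) (.sx 0 4608 (.sy 0 14208 (.cv (.q 122 31)) (.sx 0 4352 (.sy 0 14272 (.cv (.q 122 31)) (.sx 0 4224 (.sy 0 14304 (.cv (.q 122 31)) (.cv (.q 127 33))) (.cv (.q 122 31)))) (.cv (.q 122 31)))) (.cv (.q 122 31)))) (.sy 17 14080 (.sx 17 5632 (.sy 17 13952 (.sx 0 5376 (.cv (.q 134 31)) (.sy 0 13888 (.cv (.q 134 31)) (.sx 0 5504 (.cv (.q 164 23)) (.sy 0 13920 (.cv (.q 164 23)) (.cv (.q 167 43)))))) (.lf 17 0)) (.sy 15 13952 tb20s_10 (.sx 0 5888 (.sy 0 14016 (.sx 0 5760 (.lf 0 0) (.sy 0 13984 (.cv (.q 179 19)) (.cv (.q 127 33)))) (.cv (.q 127 33))) (.cv (.q 127 33))))) (.sx 0 5632 (.cv (.q 122 31)) (.cv (.q 127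 33))))))

def tb20s_12 : Tr := (.sy 17 13824 (.sx 17 7168 (.sy 17 13568 (.sx 17 6656 (.cv (.q 134 31)) (.sy 17 13440 (.cv (.q 134 31)) (.lf 17 0))) (.sx 17 6656 (.sy 17 13696 (.lf 17 0) (.sx 17 6400 (.sy 17 13760 (.sx 17 6272 (.sy 0 13728 (.cv (.q 134 31)) (.sx 0 6208 (.cv (.q 164 23)) (.cv (.q 96 24)))) (.lf 17 0)) (.sx 2 6272 (.sy 2 13792 (.sx 2 6208 (.sy 2 13776 (.sx 2 6176 (.lf 1 0) (.sy 2 13768 (.sx 1 6192 (.cv (.q 164 23)) (.sy 1 13764 (.cv (.q 164 23)) (.sx 1 6200 (.cv (.q 164 23)) (.sy 1 13766 (.cv (.q 164 23)) (.lf 1 0))))) (.lf 2 0))) (.lf 2 0)) (.sy 2 13776 (.sx 2 6240 (.sy 2 13768 (.sx 2 6224 (.sy 2 13764 (.cv (.q 96 24)) (.sx 2 6216 (.sy 1 13766 (.lf 1 0) (.lf 1 0)) (.sy 2 13766 (.cv (.q 96 24)) (.lf 2 0)))) (.cv (.q 96 24))) (.lf 2 0)) (.lf 2 0)) (.lf 0 0))) (.lf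 0 0)) (.lf 0 0))) (.sy 17 13760 (.lf 17 0) (.sx 12 6528 (.sy 0 13792 (.cv (.q 96 24)) (.sx 0 6464 (.cv (.q 179 19)) (.cv (.q 96 24)))) (.lf 12 0))))) (.lf 17 0))) (.sy 12 13568 (.cv (.q 130 33)) (.sx 12 7680 (.lf 12 0) (.cv (.q 130 33))))) (.sx 12 7168 (.sy 12 14080 (.sx 12 6656 (.sy 12 13952 (.sx 12 6400 (.sy 12 13888 (.sx 12 6272 (.lf 0 0) (.lf 12 0)) (.sx 0 6272 (.sy 0 13920 (.sx 0 6208 (.sy 0 13904 (.lf 0 0) (.cv (.q 127 33))) (.cv (.q 127 33))) (.cv (.q 127 33))) (.cv (.q 127 33)))) (.sy 2 13888 (.sx 2 6528 (.sy 2 13856 (.sx 2 6464 (.sy 2 13840 (.lf 2 0) (.cv (.q 127 33))) (.sy 0 13840 (.sx 0 6496 (.sy 0 13832 (.cv (.q 96 24)) (.cv (.q 127 33))) (.cv (.q 127 33))) (.cv (.q 127 33)))) (.cv (.q 127 33))) (.cv (.q 127 33))) (.cv (.q 127 33)))) (.cv (.q 127 33))) (.cv (.q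 127 33))) (.cv (.q 127 33))) (.cv (.q 127 33))))

def tb20s_13 : Tr := (.sx 11 12032 (.sy 11 12352 (.sx 2 11904 (.lf 0 0) (.sy 2 12320 (.lf 0 0) (.lf 2 0))) (.sx 11 11904 (.lf 11 0) (.sy 11 12384 (.sx 11 11968 (.lf 11 0) (.sy 11 12368 (.sx 11 12000 (.sy 11 12360 (.lf 0 0) (.lf 11 0)) (.sy 11 12360 (.sx 11 12016 (.sy 11 12356 (.lf 0 0) (.sx 11 12008 (.lf 2 0) (.sy 11 12358 (.lf 2 0) (.sx 11 12012 (.sy 11 12359 (.lf 2 0) (.lf 11 0)) (.lf 11 0))))) (.lf 11 0)) (.sx 11 12016 (.sy 11 12364 (.sx 11 12008 (.lf 11 0) (.sy 11 12362 (.sx 11 12012 (.sy 11 12361 (.lf 11 0) (.lf 11 0)) (.sy 11 12361 (.lf 11 0) (.lf 11 0))) (.lf 11 0))) (.lf 11 0)) (.sy 11 12364 (.sx 11 12024 (.sy 11 12362 (.sx 11 12020 (.sy 11 12361 (.lf 11 0) (.lf 11 0)) (.lf 11 0)) (.sx 11 12020 (.sy 11 12363 (.lf 11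 0) (.lf 11 0)) (.sy 11 12363 (.lf 11 0) (.lf 3 0)))) (.sy 11 12362 (.lf 11 0) (.lf 3 0))) (.lf 3 0))))) (.lf 11 0))) (.cv (.q 164 42))))) (.sy 11 12352 (.sx 11 12160 (.lf 11 0) (.lf 10 1)) (.sx 11 12160 (.sy 11 12384 (.sx 11 12096 (.sy 11 12368 (.sx 11 12064 (.sy 11 12360 (.lf 11 0) (.lf 3 0)) (.lf 3 0)) (.sx 10 12064 (.sy 8 12376 (.lf 1 0) (.lf 8 0)) (.sy 10 12376 (.sx 8 12080 (.lf 1 0) (.lf 8 0)) (.sx 10 12080 (.sy 10 12380 (.sx 8 12072 (.sy 8 12378 (.lf 1 0) (.lf 8 0)) (.sy 8 12378 (.lf 8 0) (.lf 8 0))) (.lf 10 0)) (.sy 10 12380 (.sx 10 12088 (.sy 10 12378 (.lf 8 0) (.sx 10 12084 (.lf 3 0) (.sy 10 12379 (.lf 8 0) (.lf 10 0)))) (.lf 10 0)) (.sx 10 12088 (.sy 10 12382 (.sx 10 12084 (.lf 10 0) (.sy 10 12381 (.lf 10 0) (.lf 1 0))) (.lf 4 0)) (.lf 4 0))))))) (.sy 10 12368 (.lf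 10 0) (.sx 10 12128 (.sy 10 12376 (.lf 10 0) (.sx 10 12112 (.sy 10 12380 (.lf 10 0) (.lf 4 0)) (.lf 4 0))) (.lf 10 0)))) (.sx 10 12096 (.sy 10 12400 (.lf 10 0) (.cv (.q 164 42))) (.lf 1 0))) (.lf 10 1))))

def tb20s_14 : Tr := (.sy 17 14336 (.sx 17 12288 (.sy 17 13312 (.sx 17 10240 (.cv (.q 130 33)) (.sy 17 12800 (.sx 17 11264 (.sy 17 12544 (.lf 17 0) (.cv (.q 130 33))) (.sy 17 12544 (.sx 17 11776 (.sy 17 12416 (.sx 17 11520 (.lf 17 0) (.sy 2 12352 (.sx 2 11648 (.lf 2 0) (.sy 2 12320 (.lf 2 0) (.cv (.q 164 42)))) (.lf 2 0))) (.lf 17 0)) (.sy 11 12416 tb20s_13 (.sx 11 12032 (.lf 11 0) (.sy 1 12480 (.lf 1 0) (.cv (.q 123 34)))))) (.lf 11 0))) (.cv (.q 130 33)))) (.sx 0 10240 (.sy 0 13824 (.cv (.q 130 33)) (.cv (.q 127 33))) (.cv (.q 130 33)))) (.sy 10 13312 (.sx 10 14336 (.sy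 10 12800 (.sx 10 13312 (.sy 10 12544 (.sx 10 12800 (.sy 10 12416 (.sx 10 12544 (.sy 10 12352 (.sx 10 12416 (.lf 10 1) (.sy 1 12320 (.sx 1 12480 (.sy 1 12304 (.cv (.q 78 19)) (.lf 1 0)) (.cv (.q 78 19))) (.lf 1 0))) (.lf 1 0)) (.sy 1 12352 (.lf 1 0) (.cv (.q 123 34)))) (.cv (.q 123 34))) (.cv (.q 123 34))) (.cv (.q 123 34))) (.sy 0 12544 (.cv (.q 123 34)) (.cv (.q 127 33)))) (.cv (.q 127 33))) (.cv (.q 127 33))) (.sx 0 14336 (.cv (.q 130 33)) (.sy 0 13824 (.cv (.q 127 33)) (.cv (.q 131 32)))))) (.sx 0 12288 (.sy 0 15360 (.cv (.q 127 33)) (.sx 0 10240 (.cv (.q 131 32)) (.sy 0 15872 (.cv (.q 131 32)) (.cv (.q 129 33))))) (.sy 0 15360 (.cv (.q 130 33)) (.sx 0 14336 (.sy 0 15872 (.sx 0 13312 (.sy 0 15616 (.cv (.q 131 32)) (.sx 0 12800 (.sy 0 15744 (.cv (.q 131 32)) (.cv (.q 129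 33))) (.sy 0 15744 (.sx 0 13056 (.sy 0 15680 (.cv (.q 131 32)) (.cv (.q 129 33))) (.cv (.q 120 35))) (.cv (.q 135 31))))) (.sy 0 15616 (.cv (.q 130 33)) (.cv (.q 135 31)))) (.cv (.q 128 33))) (.sy 0 15872 (.cv (.q 130 33)) (.cv (.q 128 33)))))))

def tb20s_15 : Tr := (.sy 17 12288 (.sx 16 8192 (.sy 15 10240 (.sx 0 4096 (.cv (.q 129 32)) (.cv (.q 127 32))) tb20s_1) (.sy 16 10240 (.sx 1 12288 (.sy 0 9216 (.sx 0 10240 (.cv (.q 129 32)) (.sy 0 8704 (.cv (.q 129 32)) (.cv (.q 131 33)))) (.cv (.q 127 32))) (.sy 1 9216 (.sx 0 14336 (.sy 0 8704 (.cv (.q 129 32)) (.sx 0 13312 (.sy 0 8960 (.sx 0 12800 (.sy 0 8832 (.cv (.q 129 32)) (.cv (.q 131 33))) (.cv (.q 126 33))) (.cv (.q 131 33))) (.cv (.q 126 33)))) (.sy 0 8704 (.cv (.q 128 32)) (.sx 0 15360 (.cv (.q 126 33)) (.sy 0 8960 (.cv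 (.q 128 32)) (.sx 0 15872 (.cv (.q 126 33)) (.sy 0 9088 (.cv (.q 128 32)) (.sx 0 16128 (.cv (.q 126 33)) (.sy 0 9152 (.cv (.q 128 32)) (.cv (.q 135 34)))))))))) (.sx 1 14336 (.cv (.q 131 33)) (.sy 1 9728 (.sx 1 15360 (.sy 1 9472 (.sx 1 14848 (.cv (.q 126 33)) (.sy 1 9344 (.cv (.q 126 33)) (.lf 1 0))) (.cv (.q 131 33))) (.sy 1 9472 (.cv (.q 135 34)) (.sx 1 15872 (.sy 1 9600 (.lf 1 0) (.cv (.q 131 33))) (.lf 0 0)))) (.cv (.q 131 33)))))) tb20s_6)) (.sx 17 8192 (.sy 17 14336 (.sx 17 4096 (.sy 16 13312 (.sx 0 2048 (.cv (.q 126 33)) (.sy 0 12800 (.sx 0 3072 (.cv (.q 126 33)) (.sy 0 12544 (.cv (.q 126 33)) (.cv (.s (.s (.q 126 32) (.q 130 32)) (.q 130 32))))) (.sx 0 3072 (.sy 0 13056 (.cv (.q 126 33)) (.sx 0 2560 (.sy 0 13184 (.cv (.q 126 33)) (.lf 0 0)) (.lf 0 0))) (.sy 0 13056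 (.cv (.s (.s (.q 126 32) (.q 130 32)) (.q 130 32))) (.sx 0 3584 (.lf 0 0) (.cv (.s (.s (.q 126 32) (.q 130 32)) (.q 130 32)))))))) (.sx 16 2048 tb20s_7 tb20s_9)) (.sy 17 13312 (.sx 17 6144 (.sy 17 12800 (.sx 0 5120 (.sy 0 12544 (.cv (.q 130 33)) (.cv (.s (.s (.q 126 32) (.q 130 32)) (.q 130 32)))) (.cv (.q 130 33))) (.sx 17 5120 (.sy 16 13056 (.cv (.s (.s (.q 126 32) (.q 130 32)) (.q 130 32))) (.sx 16 4608 (.cv (.s (.s (.q 126 32) (.q 130 32)) (.q 130 32))) (.lf 16 0))) (.sy 17 13056 (.cv (.q 130 33)) (.sx 17 5632 (.lf 17 0) (.sy 0 13184 (.cv (.q 130 33)) (.lf 0 0)))))) (.cv (.q 130 33))) (.sx 17 6144 tb20s_11 tb20s_12))) (.sx 0 4096 (.cv (.q 129 33)) (.cv (.q 127 33)))) tb20s_14))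

/-- root tree for the class (2, 0). -/
def tb20 : Tr := (.sy 17 8192 (.sy 0 4096 (.sx 0 8192 (.sy 0 2048 (.sx 0 4096 (.cv (.q 127 32)) (.cv (.q 129 32))) (.cv (.q 128 32))) (.cv (.q 129 32))) (.sx 0 8192 (.sy 0 6144 (.cv (.q 128 32)) (.sx 0 4096 (.cv (.q 127 32)) (.cv (.q 129 32)))) (.cv (.q 129 32)))) tb20s_15)

def tb21s_1 : Tr := (.sy 17 10752 (.sx 12 1024 (.cv (.q 129 32)) (.sy 12 10496 (.cv (.q 129 32)) (.sx 12 1536 (.cv (.q 129 32)) (.sy 12 10624 (.cv (.q 129 32)) (.sx 12 1792 (.sy 2 10688 (.cv (.q 129 32)) (.sx 2 1664 (.cv (.q 129 32)) (.sy 2 10720 (.cv (.q 129 32)) (.sx 2 1728 (.sy 0 10736 (.cv (.q 129 32)) (.sx 0 1696 (.cv (.q 129 32)) (.sy 0 10744 (.cv (.q 129 32)) (.cv (.q 160 41))))) (.sy 2 10736 (.cv (.q 129 32)) (.lf 2 0)))))) (.sy 12 10688 (.sx 0 1920 (.cv (.q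 129 32)) (.sy 0 10656 (.cv (.q 129 32)) (.sx 0 1984 (.cv (.q 129 32)) (.sy 0 10672 (.cv (.q 129 32)) (.lf 0 0))))) (.sx 12 1920 (.lf 12 0) (.lf 0 0)))))))) (.sx 17 1024 (.sy 12 11008 (.sx 12 512 (.cv (.q 126 32)) (.lf 12 0)) (.cv (.q 126 32))) (.sy 17 11008 (.sx 17 1536 (.lf 17 0) (.sy 17 10880 (.sx 17 1792 (.sy 17 10816 (.sx 12 1664 (.lf 12 0) (.sy 0 10784 (.sx 0 1728 (.cv (.q 160 41)) (.cv (.q 77 46))) (.cv (.q 160 41)))) (.lf 17 0)) (.sy 17 10816 (.sx 2 1920 (.lf 0 0) (.sy 2 10784 (.lf 0 0) (.sx 2 1984 (.sy 2 10800 (.lf 0 0) (.sx 2 1952 (.lf 2 0) (.sy 2 10808 (.lf 2 0) (.sx 2 1968 (.cv (.q 160 41)) (.sy 2 10812 (.sx 2 1976 (.sy 2 10810 (.lf 2 0) (.cv (.q 160 41))) (.sy 1 10810 (.lf 1 0) (.lf 1 0))) (.cv (.q 160 41))))))) (.sy 2 10800 (.lf 2 0) (.sx 2 2016 (.sy 2 10808 (.lf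 2 0) (.sx 1 2000 (.sy 1 10812 (.sx 1 1992 (.sy 1 10810 (.lf 1 0) (.cv (.q 92 42))) (.cv (.q 92 42))) (.cv (.q 92 42))) (.cv (.q 92 42)))) (.lf 1 0)))))) (.sx 17 1920 (.lf 17 0) (.sy 0 10848 (.sx 0 1984 (.cv (.q 160 41)) (.cv (.q 92 42))) (.cv (.q 122 34)))))) (.lf 17 0))) (.sx 17 1536 (.sy 17 11136 (.lf 17 0) (.cv (.q 126 32))) (.cv (.q 122 34))))))

def tb21s_2 : Tr := (.sx 15 2304 (.sy 15 10688 (.sx 0 2176 (.sy 0 10656 (.cv (.q 129 32)) (.lf 0 0)) (.lf 0 0)) (.sx 15 2176 (.sy 2 10720 (.lf 0 0) (.lf 2 0)) (.sy 15 10720 (.lf 2 0) (.sx 15 2240 (.sy 6 10736 (.lf 2 0) (.lf 6 0)) (.sy 15 10736 (.sx 15 2272 (.sy 15 10728 (.lf 2 0) (.sx 15 2256 (.sy 2 10732 (.lf 2 0) (.sx 2 2248 (.lf 2 0) (.lf 2 0))) (.sy 15 10732 (.lf 15 0) (.sx 15 2264 (.sy 6 10734 (.lf 6 0) (.lf 6 0)) (.sy 15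 10734 (.lf 15 0) (.lf 6 0)))))) (.lf 15 0)) (.sx 6 2272 (.sy 6 10744 (.sx 6 2256 (.sy 6 10740 (.sx 6 2248 (.sy 6 10738 (.lf 2 0) (.lf 6 0)) (.sy 6 10738 (.lf 6 0) (.lf 6 0))) (.lf 6 0)) (.sy 6 10740 (.sx 6 2264 (.sy 6 10738 (.lf 6 0) (.cv (.q 92 42))) (.cv (.q 92 42))) (.cv (.q 92 42)))) (.cv (.q 92 42))) (.cv (.q 92 42)))))))) (.sy 15 10688 (.sx 15 2432 (.sy 2 10656 (.lf 0 0) (.sx 2 2368 (.lf 0 0) (.sy 2 10672 (.lf 0 0) (.lf 2 0)))) (.sy 15 10656 (.sx 0 2496 (.lf 0 0) (.cv (.q 89 22))) (.sx 15 2496 (.sy 15 10672 (.sx 6 2464 (.lf 0 0) (.sy 6 10664 (.lf 0 0) (.lf 6 0))) (.lf 15 0)) (.sy 15 10672 (.sx 15 2528 (.sy 15 10664 (.sx 6 2512 (.lf 2 0) (.lf 6 0)) (.sx 15 2512 (.sy 15 10668 (.sx 6 2504 (.lf 2 0) (.sy 6 10666 (.lf 2 0) (.lf 6 0))) (.lf 15 0)) (.sy 6 10668 (.sx 6 2520 (.sy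 6 10666 (.sx 6 2516 (.lf 2 0) (.lf 6 0)) (.sx 6 2516 (.sy 6 10667 (.lf 6 0) (.lf 6 0)) (.sy 6 10667 (.lf 6 0) (.cv (.q 92 42))))) (.sy 6 10666 (.lf 6 0) (.cv (.q 92 42)))) (.cv (.q 92 42))))) (.sy 0 10664 (.cv (.q 89 22)) (.cv (.q 92 42)))) (.sx 15 2528 (.lf 15 0) (.cv (.q 92 42))))))) (.sx 15 2432 (.sy 15 10720 (.lf 15 0) (.sx 15 2368 (.sy 15 10736 (.lf 15 0) (.cv (.q 92 42))) (.cv (.q 92 42)))) (.sy 15 10720 (.sx 15 2496 (.sy 15 10704 (.lf 15 0) (.cv (.q 92 42))) (.cv (.q 92 42))) (.cv (.q 122 34))))))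

def tb21s_3 : Tr := (.sy 17 10752 (.sx 17 3072 (.sy 17 10496 (.sx 0 2560 (.cv (.q 129 32)) (.cv (.q 119 30))) (.sx 17 2560 (.sy 15 10624 (.sx 0 2304 (.cv (.q 129 32)) (.sy 0 10560 (.cv (.q 129 32)) (.sx 0 2432 (.sy 0 10592 (.cv (.q 129 32)) (.cv (.q 77 46))) (.lf 0 0)))) tb21s_2) (.sy 17 10624 (.lf 17 0) (.sx 0 2816 (.sy 0 10688 (.sx 0 2688 (.sy 0 10656 (.cv (.q 89 22)) (.cv (.q 92 42))) (.cv (.q 92 42))) (.cv (.q 122 34))) (.cv (.q 122 34)))))) (.sy 0 10496 (.sx 0 3584 (.cv (.q 134 34)) (.sy 0 10368 (.sx 0 3840 (.cv (.q 134 34)) (.sy 0 10304 (.sx 0 3968 (.cv (.q 129 32)) (.sy 0 10272 (.cv (.q 129 32)) (.cv (.q 134 34)))) (.cv (.q 134 34)))) (.cv (.q 134 34)))) (.sx 0 3584 (.sy 0 10624 (.cv (.q 119 30)) (.cv (.q 122 34))) (.cv (.q 119 30))))) (.sx 16 3072 (.sy 6 11008 (.sx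 6 2560 (.sy 6 10880 (.sx 6 2304 (.sy 6 10816 (.sx 6 2176 (.lf 6 0) (.sy 0 10784 (.sx 0 2240 (.cv (.q 175 45)) (.cv (.q 92 42))) (.cv (.q 122 34)))) (.cv (.q 122 34))) (.cv (.q 122 34))) (.cv (.q 122 34))) (.cv (.q 122 34))) (.sx 0 2560 (.cv (.q 122 34)) (.sy 0 11136 (.cv (.q 137 30)) (.lf 0 0)))) (.sy 16 11008 (.sx 0 3584 (.cv (.q 122 34)) (.sy 0 10880 (.cv (.q 137 30)) (.lf 0 0))) (.sx 16 3584 (.sy 0 11136 (.lf 0 0) (.sx 0 3328 (.lf 0 0) (.sy 0 11200 (.lf 0 0) (.sx 0 3456 (.sy 0 11232 (.cv (.q 167 22)) (.cv (.q 160 41))) (.sy 0 11232 (.sx 0 3520 (.cv (.q 167 22)) (.cv (.s (.s (.q 126 33) (.q 130 33)) (.q 130 33)))) (.cv (.s (.s (.q 126 33) (.q 130 33)) (.q 130 33)))))))) (.sy 16 11136 (.sx 16 3840 (.lf 0 0) (.sy 16 11072 (.lf 0 0) (.sx 16 3968 (.sy 16 11104 (.cv (.q 167 22))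 (.lf 16 0)) (.sy 0 11104 (.sx 0 4032 (.sy 0 11088 (.cv (.q 167 22)) (.cv (.s (.s (.q 126 33) (.q 130 33)) (.q 130 33)))) (.cv (.s (.s (.q 126 33) (.q 130 33)) (.q 130 33)))) (.cv (.s (.s (.q 126 33) (.q 130 33)) (.q 130 33))))))) (.sx 16 3840 (.sy 16 11200 (.sx 16 3712 (.lf 16 0) (.sy 0 11168 (.sx 0 3776 (.cv (.q 167 22)) (.cv (.s (.s (.q 126 33) (.q 130 33)) (.q 130 33)))) (.cv (.s (.s (.q 126 33) (.q 130 33)) (.q 130 33))))) (.cv (.s (.s (.q 126 33) (.q 130 33)) (.q 130 33)))) (.cv (.s (.s (.q 126 33) (.q 130 33)) (.q 130 33)))))))))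

def tb21s_4 : Tr := (.sx 9 5888 (.sy 7 10688 (.sx 7 5760 (.sy 7 10656 (.sx 7 5696 (.cv (.q 167 22)) (.lf 7 0)) (.sx 7 5696 (.sy 7 10672 (.sx 7 5664 (.sy 0 10664 (.cv (.q 167 22)) (.cv (.q 164 42))) (.sy 7 10664 (.sx 7 5680 (.lf 1 0) (.lf 7 0)) (.sx 7 5680 (.sy 7 10668 (.sx 7 5672 (.sy 1 10666 (.lf 1 0) (.cv (.q 164 42))) (.sy 7 10666 (.sx 7 5676 (.lf 3 0) (.lf 7 0)) (.sx 7 5676 (.sy 7 10667 (.lf 7 0) (.cv (.q 164 42))) (.sy 7 10667 (.lf 7 0) (.lf 0 0))))) (.cv (.q 164 42))) (.sy 7 10668 (.sx 7 5688 (.sy 7 10666 (.lf 7 0) (.lf 0 0)) (.lf 0 0)) (.lf 0 0))))) (.sx 1 5664 (.cv (.q 164 42)) (.lf 1 0))) (.sy 7 10672 (.sx 7 5728 (.sy 7 10664 (.lf 7 0) (.lf 1 0)) (.lf 1 0)) (.lf 2 0)))) (.sy 7 10656 (.lf 7 0) (.sx 2 5824 (.sy 2 10672 (.lf 2 0) (.lf 2 0)) (.lf 2 0)))) (.sx 2 5760 (.sy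 2 10720 (.sx 2 5696 (.cv (.q 164 42)) (.sy 2 10704 (.lf 2 0) (.cv (.q 164 42)))) (.cv (.q 134 34))) (.sy 1 10720 (.lf 1 0) (.sx 1 5824 (.cv (.q 164 42)) (.sy 1 10736 (.lf 1 0) (.cv (.q 164 42))))))) (.sy 9 10688 (.sx 9 6016 (.lf 2 0) (.sy 9 10656 (.cv (.q 127 32)) (.lf 9 0))) (.sx 9 6016 (.sy 9 10720 (.lf 9 0) (.sx 9 5952 (.sy 9 10736 (.sx 9 5920 (.lf 1 0) (.sy 9 10728 (.lf 2 0) (.sx 9 5936 (.sy 7 10732 (.lf 1 0) (.sx 7 5928 (.sy 7 10734 (.lf 1 0) (.lf 7 0)) (.sy 7 10734 (.lf 7 0) (.lf 7 0)))) (.sy 9 10732 (.lf 7 0) (.sx 9 5944 (.lf 9 0) (.lf 9 0)))))) (.sx 9 5920 (.cv (.q 164 42)) (.sy 9 10744 (.sx 9 5936 (.sy 9 10740 (.sx 9 5928 (.cv (.q 164 42)) (.sy 9 10738 (.lf 9 0) (.cv (.q 164 42)))) (.cv (.q 164 42))) (.sy 9 10740 (.sx 9 5944 (.sy 9 10738 (.lf 9 0) (.lf 9 0)) (.sy 9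 10738 (.lf 9 0) (.lf 2 0))) (.lf 2 0))) (.cv (.q 164 42))))) (.sy 9 10736 (.lf 9 0) (.lf 2 0)))) (.sy 9 10720 (.lf 9 0) (.lf 2 0)))))

def tb21s_5 : Tr := (.sy 16 10752 (.sx 9 5120 (.sy 0 10496 (.sx 0 4608 (.sy 0 10368 (.sx 0 4352 (.sy 0 10304 (.sx 0 4224 (.sy 0 10272 (.cv (.q 127 32)) (.cv (.q 122 34))) (.cv (.q 127 32))) (.cv (.q 122 34))) (.cv (.q 122 34))) (.cv (.q 122 34))) (.cv (.q 122 34))) (.sx 0 4608 (.cv (.q 137 30)) (.sy 0 10624 (.cv (.q 137 30)) (.cv (.q 134 34))))) (.sy 9 10496 (.sx 0 5632 (.cv (.q 137 30)) (.cv (.q 127 32))) (.sx 9 5632 (.sy 0 10624 (.lf 0 0) (.sx 0 5376 (.cv (.q 134 34)) (.sy 0 10688 (.sx 0 5504 (.cv (.q 164 42)) (.sy 0 10656 (.cv (.q 167 22)) (.cv (.q 164 42)))) (.cv (.q 134 34))))) (.sy 9 10624 (.sx 0 5888 (.sy 0 10560 (.cv (.q 127 32)) (.sx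 0 5760 (.lf 0 0) (.sy 0 10592 (.cv (.q 127 32)) (.cv (.q 179 46))))) (.cv (.q 127 32))) tb21s_4)))) (.sx 16 5120 (.sy 16 11008 (.sx 16 4608 (.sy 16 10880 (.cv (.q 119 30)) (.lf 16 0)) (.cv (.q 134 34))) (.sx 16 4608 (.sy 16 11136 (.sx 16 4352 (.sy 16 11072 (.lf 16 0) (.sx 1 4224 (.sy 0 11104 (.sx 0 4160 (.cv (.s (.s (.q 126 33) (.q 130 33)) (.q 130 33))) (.sy 0 11088 (.cv (.q 89 22)) (.cv (.s (.s (.q 126 33) (.q 130 33)) (.q 130 33))))) (.cv (.s (.s (.q 126 33) (.q 130 33)) (.q 130 33)))) (.sy 1 11104 (.cv (.q 89 22)) (.lf 1 0)))) (.lf 16 0)) (.sx 0 4352 (.cv (.s (.s (.q 126 33) (.q 130 33)) (.q 130 33))) (.sy 0 11200 (.sx 0 4480 (.sy 0 11168 (.sx 0 4416 (.cv (.s (.s (.q 126 33) (.q 130 33)) (.q 130 33))) (.cv (.q 89 22))) (.cv (.s (.s (.q 126 33) (.q 130 33)) (.q 130 33))))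 (.lf 0 0)) (.cv (.s (.s (.q 126 33) (.q 130 33)) (.q 130 33)))))) (.sy 13 11136 (.lf 13 0) (.sx 13 4864 (.sy 13 11200 (.lf 13 0) (.sx 0 4736 (.sy 0 11232 (.sx 0 4672 (.cv (.s (.s (.q 126 33) (.q 130 33)) (.q 130 33))) (.cv (.q 89 22))) (.cv (.s (.s (.q 126 33) (.q 130 33)) (.q 130 33)))) (.sy 0 11232 (.cv (.q 89 22)) (.cv (.q 96 41))))) (.lf 13 0))))) (.sy 0 11008 (.sx 0 5632 (.cv (.q 134 34)) (.sy 0 10880 (.sx 0 5888 (.cv (.q 134 34)) (.sy 0 10816 (.sx 0 6016 (.sy 0 10784 (.sx 0 5952 (.cv (.q 164 42)) (.cv (.q 81 45))) (.cv (.q 134 34))) (.lf 0 0)) (.cv (.q 134 34)))) (.cv (.q 134 34)))) (.sx 0 5632 (.sy 0 11136 (.cv (.q 119 30)) (.lf 0 0)) (.cv (.q 134 34))))))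

def tb21s_6 : Tr := (.sy 13 10752 (.sx 13 7168 (.sy 13 10496 (.cv (.q 127 32)) (.sx 13 6656 (.sy 13 10624 (.cv (.q 127 32)) (.sx 13 6400 (.sy 9 10688 (.sx 9 6272 (.sy 9 10656 (.cv (.q 127 32)) (.sx 9 6208 (.sy 9 10672 (.cv (.q 127 32)) (.lf 9 0)) (.cv (.q 127 32)))) (.cv (.q 127 32))) (.sx 0 6272 (.lf 0 0) (.lf 0 0))) (.sy 13 10688 (.cv (.q 127 32)) (.sx 13 6528 (.sy 13 10720 (.cv (.q 127 32)) (.sx 13 6464 (.sy 13 10736 (.cv (.q 127 32)) (.lf 13 0)) (.sy 0 10736 (.cv (.q 127 32)) (.sx 0 6496 (.sy 0 10744 (.cv (.q 127 32)) (.cv (.q 96 41))) (.cv (.q 127 32)))))) (.cv (.q 127 32)))))) (.cv (.q 127 32)))) (.cv (.q 127 32))) (.sx 13 7168 (.sy 13 11008 (.sx 13 6656 (.sy 13 10880 (.sx 13 6400 (.sy 13 10816 (.sx 13 6272 (.sy 13 10784 (.lf 0 0) (.sx 13 6208 (.sy 3 10800 (.lf 0 0)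 (.sx 3 6176 (.lf 3 0) (.sy 3 10808 (.lf 3 0) (.sx 3 6192 (.cv (.q 164 42)) (.sy 3 10812 (.sx 3 6200 (.cv (.q 164 42)) (.sy 3 10810 (.lf 3 0) (.cv (.q 164 42)))) (.cv (.q 164 42))))))) (.sy 13 10800 (.lf 13 0) (.sx 13 6240 (.sy 13 10808 (.lf 13 0) (.sx 13 6224 (.sy 13 10812 (.sx 13 6216 (.sy 13 10810 (.lf 13 0) (.lf 13 0)) (.sy 13 10810 (.lf 13 0) (.cv (.q 96 41)))) (.cv (.q 96 41))) (.cv (.q 96 41)))) (.lf 13 0))))) (.lf 13 0)) (.sx 0 6272 (.sy 0 10848 (.sx 0 6208 (.cv (.q 164 42)) (.cv (.q 96 41))) (.cv (.q 134 34))) (.lf 0 0))) (.sy 0 10816 (.sx 0 6528 (.sy 0 10784 (.sx 0 6464 (.cv (.q 179 46)) (.cv (.q 96 41))) (.cv (.q 96 41))) (.lf 0 0)) (.lf 0 0))) (.lf 0 0)) (.lf 0 0)) (.sx 0 6656 (.cv (.q 134 34)) (.sy 0 11136 (.lf 0 0) (.cv (.q 130 32))))) (.sy 0 11008 (.sx 0 7680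 (.lf 0 0) (.cv (.q 130 32))) (.cv (.q 130 32)))))

def tb21s_7 : Tr := (.sx 7 12032 (.sy 6 12224 (.sx 6 11904 (.lf 0 0) (.sy 6 12192 (.cv (.q 164 23)) (.sx 6 11968 (.lf 1 0) (.sy 6 12208 (.lf 1 0) (.sx 6 12000 (.sy 6 12216 (.lf 1 0) (.lf 6 0)) (.sy 6 12216 (.sx 6 12016 (.sy 6 12212 (.lf 1 0) (.sx 6 12008 (.lf 3 0) (.sy 6 12214 (.lf 3 0) (.sx 6 12012 (.sy 6 12215 (.lf 3 0) (.lf 6 0)) (.sy 6 12215 (.lf 6 0) (.lf 6 0)))))) (.sy 6 12212 (.lf 6 0) (.sx 6 12024 (.sy 6 12214 (.sx 6 12020 (.sy 6 12213 (.lf 3 0) (.lf 6 0)) (.sy 6 12213 (.lf 6 0) (.lf 6 0))) (.sx 6 12020 (.sy 6 12215 (.lf 6 0) (.lf 1 0)) (.lf 3 0))) (.sy 6 12214 (.lf 6 0) (.lf 3 0))))) (.sx 6 12016 (.sy 6 12220 (.sx 6 12008 (.lf 6 0) (.sy 6 12218 (.sx 6 12012 (.sy 6 12217 (.lf 6 0) (.lf 1 0)) (.lf 3 0)) (.lf 3 0))) (.lf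 3 0)) (.lf 3 0)))))))) (.sx 6 11904 (.lf 6 0) (.sy 6 12256 (.lf 6 0) (.lf 0 0)))) (.sy 7 12224 (.sx 6 12160 (.sy 6 12192 (.sx 6 12096 (.sy 3 12176 (.cv (.q 164 23)) (.lf 3 0)) (.lf 6 0)) (.sx 6 12096 (.sy 6 12208 (.sx 6 12064 (.sy 6 12200 (.lf 1 0) (.lf 6 0)) (.sy 6 12200 (.sx 6 12080 (.sy 6 12196 (.lf 1 0) (.sx 6 12072 (.sy 6 12198 (.lf 1 0) (.lf 6 0)) (.sy 6 12198 (.lf 6 0) (.lf 6 0)))) (.sy 6 12196 (.sx 6 12088 (.sy 6 12194 (.lf 1 0) (.sx 6 12084 (.lf 3 0) (.sy 6 12195 (.lf 3 0) (.lf 6 0)))) (.lf 6 0)) (.sx 6 12088 (.sy 6 12198 (.sx 6 12084 (.lf 6 0) (.sy 6 12197 (.lf 6 0) (.lf 1 0))) (.lf 3 0)) (.lf 3 0)))) (.sx 6 12080 (.lf 6 0) (.lf 3 0)))) (.sx 6 12064 (.sy 6 12216 (.lf 6 0) (.lf 0 0)) (.lf 0 0))) (.sy 6 12208 (.sx 6 12128 (.sy 6 12200 (.sx 6 12112 (.sy 6 12196 (.lf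 6 0) (.lf 3 0)) (.lf 3 0)) (.lf 0 0)) (.lf 0 0)) (.lf 0 0)))) (.lf 6 1)) (.sx 7 12160 (.lf 0 0) (.lf 7 1))))

def tb21s_8 : Tr := (.sy 14 10240 (.sx 0 12288 (.sy 0 9216 (.sx 0 10240 (.cv (.q 129 32)) (.sy 0 8704 (.cv (.q 129 32)) (.cv (.q 131 33)))) (.cv (.q 127 32))) (.sy 0 9216 (.sx 0 14336 (.sy 0 8704 (.cv (.q 128 32)) (.sx 0 13312 (.sy 0 8960 (.sx 0 12800 (.sy 0 8832 (.cv (.q 129 32)) (.cv (.q 131 33))) (.sy 0 8832 (.cv (.q 128 32)) (.sx 0 13056 (.sy 0 8896 (.cv (.q 129 32)) (.cv (.q 131 33))) (.cv (.q 120 30))))) (.cv (.q 131 33))) (.sy 0 8960 (.cv (.q 135 34)) (.cv (.q 130 32))))) (.sy 0 8704 (.cv (.q 128 32)) (.cv (.q 130 32)))) (.cv (.q 130 32)))) (.sx 14 12288 (.sy 7 11264 (.sx 0 10240 (.sy 0 10752 (.cv (.q 127 32)) (.cv (.q 130 32))) (.cv (.q 130 32))) (.sx 7 10240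 (.cv (.q 130 32)) (.sy 7 11776 (.cv (.q 130 32)) (.sx 7 11264 (.sy 0 12032 (.cv (.q 130 32)) (.lf 0 0)) (.sy 7 12032 (.lf 0 0) (.sx 7 11776 (.sy 6 12160 (.lf 0 0) (.sx 6 11520 (.lf 0 0) (.sy 6 12224 (.lf 0 0) (.sx 6 11648 (.lf 0 0) (.sy 6 12256 (.cv (.q 164 23)) (.lf 6 0)))))) (.sy 7 12160 (.sx 6 12032 (.lf 0 0) (.sy 6 12096 (.cv (.q 123 31)) (.lf 6 0))) tb21s_7))))))) (.sy 14 11264 (.sx 0 14336 (.cv (.q 130 32)) (.sy 0 10752 (.cv (.q 130 32)) (.cv (.q 127 32)))) (.sx 14 14336 (.sy 14 11776 (.cv (.q 127 32)) (.sx 14 13312 (.sy 14 12032 (.cv (.q 123 31)) (.sx 14 12800 (.sy 14 12160 (.cv (.q 123 31)) (.sx 14 12544 (.sy 8 12224 (.lf 8 0) (.sx 8 12416 (.lf 7 1) (.sy 8 12256 (.lf 8 0) (.sx 8 12480 (.sy 8 12272 (.lf 8 0) (.cv (.q 78 46))) (.cv (.q 78 46)))))) (.sy 14 12224 (.cv (.q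 123 31)) (.lf 14 0)))) (.cv (.q 123 31)))) (.sy 0 12032 (.cv (.q 127 32)) (.cv (.q 123 31))))) (.cv (.q 127 32))))))

def tb21s_9 : Tr := (.sx 15 4096 (.sy 0 13312 (.sx 0 2048 (.sy 0 12800 (.cv (.q 126 32)) (.sx 0 1024 (.sy 0 13056 (.sx 0 512 (.cv (.s (.q 122 31) (.q 126 33))) (.cv (.q 137 35))) (.cv (.q 130 32))) (.cv (.q 130 32)))) (.sy 0 12800 (.cv (.q 126 32)) (.cv (.q 130 32)))) (.sx 0 2048 (.sy 0 13824 (.cv (.q 130 32)) (.sx 0 1024 (.cv (.q 130 32)) (.sy 0 14080 (.cv (.q 130 32)) (.cv (.q 129 33))))) (.sy 0 13824 (.sx 0 3072 (.cv (.q 130 32)) (.sy 0 13568 (.cv (.q 130 32)) (.sx 0 3584 (.cv (.q 130 32)) (.sy 0 13696 (.cv (.q 130 32)) (.cv (.q 137 35)))))) (.sx 0 3072 (.sy 0 14080 (.sx 0 2560 (.cv (.q 130 32)) (.sy 0 13952 (.cv (.q 130 32)) (.lf 0 0))) (.sx 0 2560 (.cv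 (.q 129 33)) (.cv (.q 119 35)))) (.sy 0 14080 (.sx 0 3584 (.sy 0 13952 (.lf 0 0) (.cv (.q 119 35))) (.cv (.q 119 35))) (.sx 0 3584 (.lf 0 0) (.sy 0 14208 (.lf 0 0) (.sx 0 3840 (.lf 0 0) (.sy 0 14272 (.lf 0 0) (.sx 0 3968 (.cv (.q 129 33)) (.sy 0 14304 (.cv (.q 164 23)) (.cv (.q 129 33))))))))))))) (.sy 15 13312 (.sx 0 6144 (.sy 0 12800 (.cv (.q 130 32)) (.cv (.q 126 32))) (.sy 0 12800 (.cv (.q 130 32)) (.sx 0 7168 (.cv (.q 126 32)) (.sy 0 13056 (.sx 0 7680 (.cv (.q 119 35)) (.cv (.s (.q 134 31) (.q 130 33)))) (.cv (.q 126 32)))))) (.sx 15 6144 (.sy 15 13824 (.sx 0 5120 (.sy 0 13568 (.cv (.q 126 32)) (.sx 0 4608 (.sy 0 13696 (.cv (.q 126 32)) (.cv (.q 119 35))) (.cv (.q 126 32)))) (.cv (.q 126 32))) (.sx 15 5120 (.sy 15 14080 (.sx 0 4608 (.cv (.q 137 35)) (.sy 0 13952 (.lf 0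 0) (.cv (.q 137 35)))) (.sx 15 4608 (.sy 15 14208 (.lf 6 0) (.sx 15 4352 (.sy 6 14272 (.lf 6 0) (.sx 0 4224 (.sy 0 14304 (.cv (.q 92 23)) (.cv (.q 127 33))) (.cv (.q 127 33)))) (.lf 15 0))) (.lf 15 0))) (.sy 15 14080 (.sx 15 5632 (.sy 15 13952 (.cv (.q 126 32)) (.lf 15 0)) (.cv (.q 126 32))) (.sx 0 5632 (.cv (.q 137 35)) (.cv (.q 127 33)))))) (.sy 0 13824 (.cv (.q 126 32)) (.sx 0 7168 (.sy 0 14080 (.cv (.q 126 32)) (.cv (.q 127 33))) (.cv (.q 126 32)))))))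

def tb21s_10 : Tr := (.sx 6 9984 (.sy 6 12736 (.lf 0 0) (.sx 6 9856 (.sy 0 12768 (.cv (.q 164 23)) (.sx 0 9792 (.cv (.q 164 23)) (.sy 0 12784 (.cv (.q 164 23)) (.cv (.q 175 45))))) (.sy 6 12768 (.sx 0 9920 (.cv (.q 164 23)) (.cv (.q 74 18))) (.sx 6 9920 (.sy 6 12784 (.sx 6 9888 (.sy 6 12776 (.cv (.q 164 23)) (.sx 6 9872 (.lf 1 0) (.sy 6 12780 (.lf 1 0) (.lf 6 0)))) (.sy 6 12776 (.sx 6 9904 (.lf 1 0) (.lf 6 0)) (.sx 6 9904 (.sy 6 12780 (.sx 6 9896 (.lf 1 0) (.sy 6 12778 (.lf 3 0) (.sx 6 9900 (.lf 6 0) (.lf 6 0)))) (.sx 6 9896 (.sy 6 12782 (.sx 6 9892 (.lf 3 0) (.sy 6 12781 (.lf 6 0) (.lf 6 0))) (.lf 6 0)) (.sy 6 12782 (.sx 6 9900 (.sy 6 12781 (.lf 6 0) (.lf 6 0)) (.sy 6 12781 (.lf 6 0) (.lf 1 0))) (.lf 3 0)))) (.sy 6 12780 (.sx 6 9912 (.sy 6 12778 (.sx 6 9908 (.lf 6 0) (.lf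 6 0)) (.sx 6 9908 (.sy 6 12779 (.lf 6 0) (.lf 6 0)) (.sy 6 12779 (.lf 6 0) (.lf 1 0)))) (.sy 6 12778 (.lf 6 0) (.lf 3 0))) (.lf 3 0))))) (.sx 6 9888 (.lf 6 0) (.sy 3 12792 (.sx 3 9904 (.lf 3 0) (.lf 3 0)) (.lf 0 0)))) (.sy 6 12784 (.sx 6 9952 (.sy 6 12776 (.lf 6 0) (.lf 3 0)) (.lf 3 0)) (.lf 0 0)))))) (.sy 6 12736 (.sx 6 10112 (.sy 6 12704 (.cv (.q 164 23)) (.sx 6 10048 (.lf 1 0) (.lf 6 0))) (.sy 6 12704 (.sx 1 10176 (.lf 1 0) (.cv (.q 89 22))) (.sx 6 10176 (.sy 6 12720 (.sx 6 10144 (.sy 6 12712 (.lf 1 0) (.lf 6 0)) (.sy 6 12712 (.sx 6 10160 (.sy 6 12708 (.lf 1 0) (.sx 6 10152 (.lf 3 0) (.sy 6 12710 (.lf 3 0) (.lf 6 0)))) (.sy 6 12708 (.lf 6 0) (.sx 6 10168 (.sy 6 12710 (.lf 6 0) (.lf 6 0)) (.sy 6 12710 (.lf 6 0) (.lf 3 0))))) (.sx 6 10160 (.lf 6 0) (.lf 3 0)))) (.lf 6 0))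 (.sy 6 12720 (.sx 6 10208 (.sy 6 12712 (.lf 6 0) (.lf 3 0)) (.lf 0 0)) (.lf 0 0))))) (.sx 6 10112 (.sy 6 12768 (.lf 6 0) (.lf 0 0)) (.lf 0 0))))

def tb21s_11 : Tr := (.sx 8 10112 (.sy 0 12832 (.lf 0 0) (.lf 0 0)) (.sy 8 12832 (.sx 0 10176 (.cv (.q 179 19)) (.cv (.q 74 18))) (.sx 8 10176 (.sy 8 12848 (.lf 0 0) (.sx 8 10144 (.lf 8 0) (.sy 8 12856 (.sx 8 10160 (.sy 8 12852 (.lf 0 0) (.lf 8 0)) (.sy 8 12852 (.sx 8 10168 (.lf 2 0) (.sy 8 12850 (.lf 2 0) (.sx 8 10172 (.lf 2 0) (.sy 8 12851 (.lf 2 0) (.lf 8 0))))) (.sx 8 10168 (.sy 8 12854 (.sx 8 10164 (.lf 2 0) (.sy 8 12853 (.lf 2 0) (.lf 8 0))) (.lf 8 0)) (.sy 8 12854 (.sx 8 10172 (.sy 8 12853 (.lf 8 0) (.lf 8 0)) (.sy 8 12853 (.lf 8 0) (.lf 8 0))) (.sx 8 10172 (.lf 8 0) (.sy 8 12855 (.lf 8 0) (.lf 8 0))))))) (.lf 8 0)))) (.sy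 8 12848 (.lf 8 0) (.sx 8 10208 (.sy 8 12856 (.sx 8 10192 (.sy 8 12852 (.sx 8 10184 (.sy 8 12850 (.sx 8 10180 (.lf 2 0) (.lf 8 0)) (.sx 8 10180 (.sy 8 12851 (.lf 8 0) (.lf 8 0)) (.sy 8 12851 (.lf 8 0) (.lf 8 0)))) (.sy 8 12850 (.lf 8 0) (.sx 8 10188 (.sy 8 12851 (.lf 8 0) (.lf 8 0)) (.lf 8 0)))) (.sx 8 10184 (.sy 8 12854 (.sx 8 10180 (.lf 8 0) (.sy 8 12853 (.lf 8 0) (.lf 8 0))) (.sx 8 10180 (.sy 8 12855 (.lf 8 0) (.lf 8 0)) (.sy 8 12855 (.lf 8 0) (.lf 7 0)))) (.sy 8 12854 (.sx 8 10188 (.sy 8 12853 (.lf 8 0) (.lf 8 0)) (.sy 8 12853 (.lf 8 0) (.lf 7 0))) (.sx 7 10188 (.lf 7 0) (.sy 7 12855 (.lf 7 0) (.lf 4 0)))))) (.sy 8 12852 (.lf 8 0) (.sx 7 10200 (.sy 7 12854 (.lf 7 0) (.lf 4 0)) (.lf 1 0)))) (.sx 7 10192 (.sy 7 12860 (.sx 7 10184 (.sy 7 12858 (.sx 7 10180 (.sy 7 12857 (.lf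 7 0) (.lf 7 0)) (.sy 7 12857 (.lf 7 0) (.lf 4 0))) (.lf 4 0)) (.lf 4 0)) (.lf 1 0)) (.lf 1 0))) (.sy 7 12856 (.lf 7 0) (.lf 1 0)))))))

def tb21s_12 : Tr := (.sx 9 9216 (.sy 9 13056 (.sx 6 8704 (.lf 0 0) (.lf 6 0)) (.sx 9 8704 (.sy 9 13184 (.sx 0 8448 (.sy 0 13120 (.cv (.q 115 29)) (.cv (.q 126 32))) (.cv (.q 115 29))) (.sx 9 8448 (.cv (.q 126 32)) (.sy 9 13248 (.lf 9 0) (.cv (.q 126 32))))) (.sy 9 13184 (.lf 9 0) (.sx 9 8960 (.sy 9 13248 (.cv (.q 115 29)) (.lf 9 0)) (.cv (.q 115 29)))))) (.sy 9 13056 (.sx 9 9728 (.sy 9 12928 (.sx 6 9472 (.sy 6 12864 (.lf 0 0) (.lf 6 0)) (.sy 6 12864 (.sx 6 9600 (.sy 0 12832 (.cv (.q 164 23)) (.sx 0 9536 (.cv (.q 164 23)) (.sy 0 12848 (.cv (.q 164 23)) (.cv (.q 160 41))))) (.sy 6 12832 (.lf 6 0) (.sx 6 9664 (.sy 6 12848 (.sx 6 9632 (.lf 1 0)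 (.lf 6 0)) (.sx 6 9632 (.sy 6 12856 (.lf 6 0) (.cv (.q 160 41))) (.sy 6 12856 (.lf 6 0) (.lf 3 0)))) (.sy 6 12848 (.lf 6 0) (.lf 3 0))))) (.sx 6 9600 (.lf 6 0) (.sy 0 12896 (.sx 0 9664 (.cv (.q 160 41)) (.lf 0 0)) (.cv (.q 160 41)))))) (.lf 9 0)) (.sy 8 12928 (.sx 8 9984 (.sy 8 12864 (.sx 6 9856 (.lf 6 0) (.lf 0 0)) (.sx 8 9856 (.lf 0 0) (.sy 8 12896 (.lf 0 0) (.sx 8 9920 (.sy 8 12912 (.lf 0 0) (.sx 8 9888 (.sy 2 12920 (.lf 0 0) (.lf 2 0)) (.sy 8 12920 (.lf 8 0) (.lf 8 0)))) (.sy 8 12912 (.lf 8 0) (.sx 8 9952 (.sy 8 12920 (.lf 8 0) (.lf 8 0)) (.lf 8 0))))))) (.sy 8 12864 tb21s_11 (.sx 8 10112 (.lf 8 0) (.sy 1 12896 (.sx 1 10176 (.cv (.q 175 45)) (.lf 1 0)) (.cv (.q 175 45)))))) (.sx 8 9984 (.sy 8 12992 (.sx 8 9856 (.lf 8 0) (.sy 8 12960 (.sx 8 9920 (.sy 8 12944 (.sx 8 9888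 (.cv (.q 160 41)) (.sy 8 12936 (.lf 8 0) (.cv (.q 160 41)))) (.cv (.q 160 41))) (.lf 1 0)) (.cv (.q 160 41)))) (.lf 1 0)) (.sy 1 12992 (.sx 1 10112 (.sy 1 12960 (.cv (.q 78 46)) (.lf 1 0)) (.sy 1 12960 (.lf 1 0) (.cv (.q 123 34)))) (.cv (.q 123 34)))))) (.sx 9 9728 (.lf 9 0) (.lf 1 0))))

def tb21s_13 : Tr := (.sx 8 11264 (.sy 8 12544 (.cv (.q 134 34)) (.sx 8 10752 (.sy 8 12672 (.sx 6 10496 (.sy 6 12608 (.cv (.q 119 30)) (.lf 6 0)) (.cv (.q 119 30))) (.sx 8 10496 (.sy 8 12736 (.sx 0 10368 (.sy 0 12704 (.cv (.q 89 22)) (.lf 0 0)) (.lf 0 0)) (.sx 8 10368 (.sy 8 12768 (.lf 0 0) (.sx 8 10304 (.cv (.q 179 19)) (.lf 8 0))) (.sy 8 12768 (.sx 0 10432 (.cv (.q 179 19)) (.cv (.q 89 22))) (.sx 8 10432 (.sy 8 12784 (.sx 8 10400 (.lf 0 0) (.sy 8 12776 (.lf 0 0) (.sx 8 10416 (.lf 0 0) (.sy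 8 12780 (.lf 0 0) (.sx 8 10424 (.lf 2 0) (.sy 8 12782 (.lf 2 0) (.lf 8 0))))))) (.lf 8 0)) (.sy 8 12784 (.sx 8 10464 (.sy 8 12776 (.cv (.q 89 22)) (.sx 8 10448 (.sy 8 12780 (.lf 8 0) (.sx 8 10440 (.sy 8 12782 (.lf 8 0) (.lf 8 0)) (.sy 8 12782 (.lf 8 0) (.lf 8 0)))) (.lf 8 0))) (.cv (.q 89 22))) (.sx 8 10464 (.sy 8 12792 (.sx 8 10448 (.sy 8 12788 (.sx 8 10440 (.sy 8 12786 (.lf 8 0) (.lf 8 0)) (.sy 8 12786 (.lf 8 0) (.lf 7 0))) (.lf 7 0)) (.sy 7 12788 (.sx 7 10456 (.sy 7 12786 (.lf 7 0) (.lf 1 0)) (.lf 1 0)) (.lf 1 0))) (.lf 1 0)) (.lf 1 0))))))) (.sy 8 12736 (.lf 8 0) (.sx 8 10624 (.sy 0 12768 (.cv (.q 89 22)) (.sx 0 10560 (.sy 0 12784 (.cv (.q 89 22)) (.cv (.q 78 46))) (.cv (.q 89 22)))) (.lf 8 0))))) (.sy 1 12672 (.cv (.q 119 30)) (.sx 1 11008 (.sy 1 12736 (.cv (.q 119 30))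 (.lf 1 0)) (.cv (.q 119 30)))))) (.sy 8 12544 (.sx 8 11776 (.sy 6 12416 (.sx 6 11520 (.cv (.q 134 34)) (.sy 6 12352 (.sx 6 11648 (.cv (.q 134 34)) (.sy 6 12320 (.lf 6 0) (.cv (.q 134 34)))) (.cv (.q 134 34)))) (.cv (.q 134 34))) (.sy 8 12416 (.sx 8 12032 (.sy 8 12352 (.sx 0 11904 (.lf 0 0) (.sy 0 12320 (.lf 0 0) (.lf 0 0))) (.sx 8 11904 (.cv (.q 134 34)) (.sy 8 12384 (.lf 8 0) (.cv (.q 134 34))))) (.sy 8 12352 (.sx 8 12160 (.lf 8 0) (.lf 7 1)) (.sx 8 12160 (.sy 8 12384 (.lf 8 0) (.lf 1 0)) (.lf 1 1)))) (.sx 1 12032 (.cv (.q 134 34)) (.sy 1 12480 (.sx 1 12160 (.cv (.q 134 34)) (.sy 1 12448 (.lf 1 0) (.cv (.q 134 34)))) (.cv (.q 134 34)))))) (.cv (.q 134 34))))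

def tb21s_14 : Tr := (.sx 9 12288 (.sy 9 13312 (.sx 9 10240 (.sy 9 12800 (.sx 6 9216 (.sy 0 12544 (.cv (.q 130 32)) (.lf 0 0)) (.sy 6 12544 (.lf 0 0) (.sx 6 9728 (.lf 0 0) (.sy 6 12672 (.lf 0 0) tb21s_10)))) tb21s_12) (.sy 8 12800 tb21s_13 (.sx 8 11264 (.sy 8 13056 (.sx 8 10752 (.sy 8 12928 (.sx 8 10496 (.sy 8 12864 (.sx 8 10368 (.sy 8 12832 (.lf 8 0) (.lf 8 0)) (.sy 8 12832 (.sx 8 10432 (.lf 8 0) (.cv (.q 78 46))) (.lf 1 0))) (.sx 1 10368 (.sy 1 12896 (.lf 1 0) (.lf 1 0)) (.sy 1 12896 (.lf 1 0) (.cv (.q 123 34))))) (.sy 1 12864 (.sx 1 10624 (.sy 1 12832 (.lf 1 0) (.lf 1 0)) (.sy 1 12832 (.lf 1 0) (.cv (.q 123 34)))) (.cv (.q 123 34)))) (.cv (.q 123 34))) (.cv (.q 123 34))) (.cv (.q 127 33))) (.sy 0 13056 (.cv (.q 123 34)) (.cv (.q 127 33)))))) (.sx 0 10240 (.sy 0 13824 (.sx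 0 9216 (.sy 0 13568 (.sx 0 8704 (.cv (.q 126 32)) (.sy 0 13440 (.sx 0 8960 (.cv (.q 126 32)) (.cv (.q 127 33))) (.cv (.q 126 32)))) (.cv (.q 126 32))) (.cv (.q 127 33))) (.cv (.q 126 32))) (.cv (.q 127 33)))) (.sy 7 13312 (.sx 7 14336 (.sy 7 12800 (.sx 7 13312 (.sy 7 12544 (.sx 7 12800 (.sy 7 12416 (.sx 7 12544 (.sy 7 12352 (.sx 7 12416 (.lf 7 1) (.sy 1 12320 (.lf 1 0) (.sx 1 12480 (.sy 1 12336 (.lf 1 0) (.sx 1 12448 (.lf 1 0) (.sy 1 12344 (.lf 1 0) (.cv (.q 123 34))))) (.sy 1 12336 (.sx 1 12512 (.lf 1 0) (.sy 1 12328 (.lf 1 0) (.cv (.q 123 34)))) (.cv (.q 123 34)))))) (.sx 1 12416 (.lf 1 1) (.sy 0 12384 (.sx 0 12480 (.cv (.q 179 46)) (.cv (.q 123 34))) (.cv (.q 123 34))))) (.sy 1 12352 (.sx 1 12672 (.sy 1 12320 (.sx 1 12608 (.sy 1 12304 (.lf 1 0) (.sx 1 12576 (.sy 1 12312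 (.lf 1 0) (.lf 1 0)) (.lf 1 0))) (.lf 1 0)) (.cv (.q 123 34))) (.cv (.q 123 34))) (.cv (.q 123 34)))) (.cv (.q 123 34))) (.cv (.q 123 34))) (.cv (.q 123 34))) (.sy 0 12544 (.cv (.q 123 34)) (.cv (.q 127 33)))) (.cv (.q 127 33))) (.cv (.q 127 33))) (.sx 0 14336 (.cv (.q 127 33)) (.sy 0 13824 (.cv (.q 127 33)) (.cv (.q 131 32))))))

def tb21s_15 : Tr := (.sy 17 12288 (.sx 17 8192 (.sy 17 10240 (.sx 0 4096 (.cv (.q 129 32)) (.cv (.q 127 32))) (.sx 17 4096 (.sy 17 11264 (.sx 17 2048 tb21s_1 tb21s_3) (.sx 17 2048 (.cv (.q 126 32)) (.sy 17 11776 (.sx 17 3072 (.sy 17 11520 (.sx 17 2560 (.sy 0 11392 (.lf 0 0) (.cv (.q 126 32))) (.lf 17 0)) (.cv (.q 126 32))) (.sy 16 11520 (.sx 16 3584 (.lf 16 0) (.cv (.s (.s (.q 126 33) (.q 130 33)) (.q 130 33)))) (.cv (.s (.s (.q 126 33) (.q 130 33))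 (.q 130 33))))) (.sx 0 3072 (.cv (.q 126 32)) (.sy 0 12032 (.cv (.s (.s (.q 126 33) (.q 130 33)) (.q 130 33))) (.cv (.q 126 32))))))) (.sy 16 11264 (.sx 16 6144 tb21s_5 tb21s_6) (.sx 0 6144 (.sy 0 11776 (.sx 0 5120 (.sy 0 11520 (.sx 0 4608 (.cv (.s (.s (.q 126 33) (.q 130 33)) (.q 130 33))) (.lf 0 0)) (.cv (.s (.s (.q 126 33) (.q 130 33)) (.q 130 33)))) (.sy 0 11520 (.sx 0 5632 (.lf 0 0) (.sy 0 11392 (.lf 0 0) (.cv (.q 130 32)))) (.cv (.q 130 32)))) (.sx 0 5120 (.sy 0 12032 (.cv (.s (.s (.q 126 33) (.q 130 33)) (.q 130 33))) (.cv (.q 130 32))) (.cv (.q 130 32)))) (.cv (.q 130 32)))))) tb21s_8) (.sx 15 8192 (.sy 15 14336 tb21s_9 (.sx 0 4096 (.cv (.q 129 33)) (.cv (.q 127 33)))) (.sy 9 14336 tb21s_14 (.sx 0 12288 (.sy 0 15360 (.cv (.q 127 33)) (.sx 0 10240 (.cv (.q 131 32)) (.sy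 0 15872 (.cv (.q 131 32)) (.cv (.q 129 33))))) (.sy 0 15360 (.sx 0 14336 (.cv (.q 131 32)) (.sy 0 14848 (.cv (.q 131 32)) (.sx 0 15360 (.sy 0 15104 (.cv (.q 131 32)) (.sx 0 14848 (.cv (.q 126 32)) (.sy 0 15232 (.lf 0 0) (.cv (.q 126 32))))) (.sy 0 15104 (.sx 0 15872 (.sy 0 14976 (.cv (.q 131 32)) (.lf 0 0)) (.lf 0 0)) (.cv (.q 135 31)))))) (.sx 0 14336 (.sy 0 15872 (.sx 0 13312 (.sy 0 15616 (.cv (.q 131 32)) (.sx 0 12800 (.sy 0 15744 (.cv (.q 131 32)) (.cv (.q 129 33))) (.cv (.q 126 32)))) (.cv (.q 126 32))) (.cv (.q 129 33))) (.sy 0 15872 (.sx 0 15360 (.cv (.q 126 32)) (.sy 0 15616 (.sx 0 15872 (.cv (.q 126 32)) (.sy 0 15488 (.sx 0 16128 (.cv (.q 126 32)) (.sy 0 15424 (.cv (.q 135 31)) (.cv (.q 126 32)))) (.cv (.q 126 32)))) (.cv (.q 126 32)))) (.cv (.q 128 33)))))))))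

/-- root tree for the class (2, 1). -/
def tb21 : Tr := (.sy 17 8192 (.cv (.q 128 32)) tb21s_15)

def tb30s_1 : Tr := (.sy 12 9728 (.sx 12 5120 (.cv (.q 129 32)) (.sy 12 9472 (.cv (.q 129 32)) (.sx 12 5632 (.sy 5 9600 (.cv (.q 129 32)) (.sx 5 5376 (.cv (.q 123 31)) (.lf 5 0))) (.sy 12 9600 (.sx 12 5888 (.cv (.q 129 32)) (.sy 12 9536 (.cv (.q 129 32)) (.sx 12 6016 (.sy 12 9568 (.cv (.q 129 32)) (.sx 12 5952 (.cv (.q 129 32)) (.lf 12 0))) (.sy 12 9568 (.cv (.q 129 32)) (.sx 12 6080 (.lf 12 0) (.lf 12 0)))))) (.sx 12 5888 (.lf 10 0) (.sy 12 9664 (.sx 12 6016 (.sy 12 9632 (.sx 12 5952 (.sy 12 9616 (.sx 12 5920 (.sy 0 9608 (.cv (.q 129 32)) (.cv (.q 168 43))) (.sy 12 9608 (.sx 12 5936 (.cv (.q 129 32)) (.sy 12 9604 (.cv (.q 129 32)) (.sx 12 5944 (.lf 5 0) (.sy 12 9606 (.cv (.q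 129 32)) (.lf 12 0))))) (.lf 12 0))) (.cv (.q 168 43))) (.sy 12 9616 (.sx 12 5984 (.sy 12 9608 (.sx 12 5968 (.sy 12 9604 (.lf 12 0) (.sx 12 5960 (.sy 12 9606 (.lf 12 0) (.lf 12 0)) (.sy 12 9606 (.lf 12 0) (.lf 0 0)))) (.lf 12 0)) (.lf 0 0)) (.lf 0 0)) (.lf 0 0))) (.cv (.q 168 43))) (.lf 0 0)) (.sx 2 6016 (.lf 2 0) (.cv (.q 168 43))))))))) (.sx 5 5120 (.sy 5 9984 (.cv (.q 123 31)) (.sx 5 4608 (.sy 5 10112 (.sx 5 4352 (.sy 5 10048 (.lf 5 0) (.sx 5 4224 (.sy 5 10080 (.cv (.q 78 19)) (.sx 5 4160 (.sy 5 10096 (.sx 5 4128 (.sy 5 10088 (.cv (.q 78 19)) (.sx 5 4112 (.sy 5 10092 (.lf 2 0) (.lf 5 0)) (.lf 5 0))) (.cv (.q 78 19))) (.sx 5 4128 (.sy 5 10104 (.sx 5 4112 (.sy 5 10100 (.sx 5 4104 (.lf 5 0) (.sy 5 10098 (.lf 5 0) (.sx 5 4108 (.lf 3 0) (.sy 5 10099 (.lf 3 0) (.lf 5 0))))) (.sx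 5 4104 (.sy 5 10102 (.sx 5 4100 (.lf 3 0) (.sy 5 10101 (.lf 3 0) (.lf 5 0))) (.lf 5 0)) (.sy 5 10102 (.sx 5 4108 (.sy 5 10101 (.lf 5 0) (.lf 5 0)) (.sy 5 10101 (.lf 5 0) (.lf 0 0))) (.lf 0 0)))) (.sy 5 10100 (.sx 5 4120 (.sy 5 10098 (.lf 5 0) (.sx 5 4116 (.sy 5 10099 (.lf 5 0) (.lf 5 0)) (.lf 5 0))) (.lf 5 0)) (.lf 0 0))) (.lf 0 0)) (.lf 0 0))) (.sy 0 10096 (.cv (.q 78 19)) (.lf 0 0)))) (.lf 5 0))) (.lf 5 0)) (.sx 2 4352 (.sy 2 10176 (.sx 2 4224 (.lf 0 0) (.sy 2 10144 (.lf 0 0) (.sx 2 4288 (.lf 1 0) (.lf 2 0)))) (.sx 2 4224 (.sy 2 10208 (.sx 2 4160 (.lf 1 0) (.lf 2 0)) (.lf 2 0)) (.sy 2 10208 (.sx 2 4288 (.lf 2 0) (.lf 2 0)) (.cv (.q 122 34))))) (.sy 2 10176 (.sx 2 4480 (.sy 2 10144 (.cv (.q 78 19)) (.sx 2 4416 (.lf 2 0) (.lf 2 0))) (.lf 2 0)) (.cv (.q 122 34))))) (.sy 0 10112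 (.cv (.q 123 31)) (.cv (.q 122 34))))) (.sy 2 9984 (.sx 2 5632 (.cv (.q 123 31)) (.sy 2 9856 (.sx 2 5888 (.cv (.q 123 31)) (.lf 2 0)) (.cv (.q 123 31)))) (.cv (.q 123 31)))))

def tb30s_2 : Tr := (.sx 14 6656 (.sy 5 9600 (.sx 5 6400 (.sy 5 9536 (.sx 5 6272 (.cv (.q 129 32)) (.lf 5 0)) (.sx 1 6272 (.sy 0 9568 (.sx 0 6208 (.sy 0 9552 (.cv (.q 129 32)) (.cv (.q 183 47))) (.sy 0 9552 (.sx 0 6240 (.cv (.q 129 32)) (.lf 0 0)) (.lf 0 0))) (.cv (.q 183 47))) (.lf 1 0))) (.sy 2 9536 (.sx 1 6528 (.sy 0 9504 (.sx 0 6464 (.cv (.q 129 32)) (.sy 0 9488 (.cv (.q 129 32)) (.cv (.q 77 46)))) (.cv (.q 77 46))) (.lf 1 0)) (.sx 2 6528 (.sy 2 9568 (.cv (.q 82 20)) (.sx 2 6464 (.lf 1 0) (.sy 2 9584 (.cv (.q 82 20)) (.sx 2 6496 (.sy 2 9592 (.cv (.q 82 20)) (.lf 2 0)) (.cv (.q 82 20)))))) (.lf 2 0))))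 (.sx 2 6400 (.sy 2 9664 (.sx 2 6272 (.sy 2 9632 (.lf 0 0) (.sx 2 6208 (.lf 1 0) (.lf 2 0))) (.sy 2 9632 (.lf 2 0) (.sx 2 6336 (.lf 2 0) (.lf 2 0)))) (.sx 2 6272 (.sy 2 9696 (.sx 2 6208 (.sy 2 9680 (.sx 2 6176 (.lf 1 0) (.lf 2 0)) (.cv (.q 168 43))) (.sy 2 9680 (.sx 2 6240 (.lf 2 0) (.cv (.q 122 34))) (.cv (.q 122 34)))) (.cv (.q 122 34))) (.cv (.q 122 34)))) (.sy 2 9664 (.sx 2 6528 (.sy 2 9632 (.sx 2 6464 (.sy 2 9616 (.sx 2 6432 (.lf 2 0) (.sy 2 9608 (.lf 2 0) (.lf 2 0))) (.lf 2 0)) (.sy 2 9616 (.sx 2 6496 (.sy 2 9608 (.lf 2 0) (.cv (.q 122 34))) (.cv (.q 122 34))) (.cv (.q 122 34)))) (.cv (.q 122 34))) (.cv (.q 122 34))) (.cv (.q 122 34))))) (.sy 14 9600 (.sx 14 6912 (.sy 2 9536 (.sx 2 6784 (.sy 2 9504 (.cv (.q 97 24)) (.sx 2 6720 (.sy 2 9520 (.lf 1 0) (.sx 2 6688 (.lf 1 0)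 (.lf 2 0))) (.sy 2 9520 (.cv (.q 97 24)) (.sx 2 6752 (.sy 2 9528 (.lf 2 0) (.lf 2 0)) (.sy 2 9528 (.cv (.q 97 24)) (.lf 2 0)))))) (.cv (.q 97 24))) (.sx 2 6784 (.sy 2 9568 (.sx 2 6720 (.lf 2 0) (.sy 2 9552 (.sx 2 6752 (.sy 2 9544 (.lf 2 0) (.cv (.q 122 34))) (.cv (.q 122 34))) (.cv (.q 122 34)))) (.cv (.q 122 34))) (.cv (.q 122 34)))) (.sy 14 9536 (.lf 14 0) (.cv (.q 122 34)))) (.cv (.q 122 34))))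

def tb30s_3 : Tr := (.sx 14 4096 (.sy 5 9216 (.cv (.q 129 32)) (.sx 5 2048 (.cv (.q 129 32)) (.sy 5 9728 (.cv (.q 129 32)) (.sx 5 3072 (.sy 0 9984 (.cv (.q 129 32)) (.cv (.q 133 31))) (.sy 5 9984 (.cv (.q 133 31)) (.sx 5 3584 (.sy 0 10112 (.cv (.q 133 31)) (.cv (.q 134 34))) (.sy 5 10112 (.sx 5 3840 (.lf 0 0) (.sy 5 10048 (.lf 0 0) (.sx 5 3968 (.lf 0 0) (.sy 5 10080 (.cv (.q 178 19)) (.sx 5 4032 (.lf 2 0) (.sy 5 10096 (.lf 2 0) (.sx 5 4064 (.lf 5 0) (.sy 5 10104 (.sx 5 4080 (.lf 5 0) (.sy 5 10100 (.lf 5 0) (.lf 5 0))) (.lf 5 0))))))))) (.sx 5 3840 (.sy 5 10176 (.sx 5 3712 (.lf 0 0) (.sy 5 10144 (.cv (.q 178 19)) (.lf 5 0))) (.cv (.q 134 34))) (.sy 5 10176 (.sx 5 3968 (.sy 5 10144 (.lf 5 0) (.lf 5 0)) (.sy 5 10144 (.sx 5 4032 (.sy 5 10128 (.sx 5 4000 (.sy 5 10120 (.lf 2 0)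 (.lf 5 0)) (.sy 5 10120 (.sx 5 4016 (.sy 5 10116 (.lf 2 0) (.lf 5 0)) (.sy 5 10116 (.lf 5 0) (.lf 5 0))) (.lf 5 0))) (.lf 5 0)) (.sy 5 10128 (.sx 5 4064 (.sy 5 10120 (.sx 5 4048 (.sy 5 10116 (.sx 5 4040 (.lf 5 0) (.lf 5 0)) (.sx 5 4040 (.sy 5 10118 (.lf 5 0) (.sx 5 4036 (.sy 5 10119 (.lf 2 0) (.lf 5 0)) (.lf 5 0))) (.sy 5 10118 (.lf 5 0) (.lf 5 0)))) (.sy 5 10116 (.lf 5 0) (.sx 5 4056 (.sy 5 10118 (.lf 5 0) (.lf 0 0)) (.lf 0 0)))) (.sx 5 4048 (.sy 5 10124 (.sx 5 4040 (.sy 5 10122 (.sx 5 4036 (.sy 5 10121 (.lf 5 0) (.lf 0 0)) (.lf 0 0)) (.lf 0 0)) (.lf 0 0)) (.lf 0 0)) (.lf 0 0))) (.sy 0 10120 (.lf 0 0) (.lf 0 0))) (.lf 0 0))) (.lf 0 0))) (.sx 2 3968 (.lf 0 0) (.sy 2 10208 (.lf 0 0) (.lf 2 0)))))))))))) (.sy 14 9216 (.sx 0 6144 (.cv (.q 129 32)) (.sy 0 8704 (.cv (.q 129 32))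 (.sx 0 7168 (.cv (.q 129 32)) (.sy 0 8960 (.cv (.q 129 32)) (.sx 0 7680 (.cv (.q 129 32)) (.sy 0 9088 (.cv (.q 129 32)) (.sx 0 7936 (.cv (.q 129 32)) (.sy 0 9152 (.cv (.q 129 32)) (.sx 0 8064 (.cv (.q 129 32)) (.sy 0 9184 (.cv (.q 129 32)) (.cv (.q 122 34)))))))))))) (.sx 14 6144 tb30s_1 (.sy 14 9728 (.sx 14 7168 (.sy 14 9472 (.sx 14 6656 (.cv (.q 129 32)) (.sy 14 9344 (.cv (.q 129 32)) (.lf 14 0))) tb30s_2) (.sy 14 9472 (.sx 14 7680 (.sy 14 9344 (.lf 14 0) (.lf 14 0)) (.sy 0 9344 (.sx 0 7936 (.cv (.q 142 36)) (.cv (.q 122 34))) (.cv (.q 122 34)))) (.cv (.q 122 34)))) (.sx 0 7168 (.sy 0 9984 (.cv (.q 122 34)) (.sx 0 6656 (.cv (.q 123 31)) (.sy 0 10112 (.cv (.q 137 30)) (.cv (.q 123 31))))) (.sy 0 9984 (.sx 0 7680 (.cv (.q 122 34)) (.sy 0 9856 (.lf 0 0) (.cv (.q 126 33)))) (.cv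 (.q 126 33))))))))

def tb30s_4 : Tr := (.sx 8 13312 (.sy 8 12032 (.cv (.q 123 31)) (.sx 8 12800 (.sy 8 12160 (.sx 1 12544 (.sy 1 12096 (.cv (.q 134 31)) (.sx 1 12416 (.sy 1 12128 (.cv (.q 134 31)) (.lf 1 0)) (.cv (.q 123 31)))) (.cv (.q 123 31))) (.sx 8 12544 (.sy 8 12224 (.sx 8 12416 (.lf 1 1) (.sy 8 12192 (.lf 1 0) (.lf 8 0))) (.sx 8 12416 (.lf 7 1) (.lf 8 0))) (.sy 8 12224 (.sx 8 12672 (.sy 8 12192 (.cv (.q 123 31)) (.lf 8 0)) (.cv (.q 123 31))) (.sx 0 12672 (.sy 0 12256 (.lf 0 0) (.lf 0 0)) (.lf 0 0))))) (.sy 6 12160 (.cv (.q 123 31)) (.sx 6 13056 (.sy 6 12224 (.cv (.q 123 31)) (.sx 6 12928 (.sy 6 12256 (.cv (.q 123 31)) (.lf 6 0)) (.cv (.q 123 31)))) (.cv (.q 123 31)))))) (.sy 8 12032 (.sx 8 13824 (.sy 1 11904 (.sx 1 13568 (.cv (.q 138 35)) (.sy 1 11840 (.lf 1 0) (.cv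 (.q 138 35)))) (.cv (.q 123 31))) (.sy 8 11904 (.sx 8 14080 (.sy 8 11840 (.sx 8 13952 (.lf 8 0) (.sy 0 11808 (.sx 0 14016 (.cv (.q 168 43)) (.sy 0 11792 (.cv (.q 179 19)) (.cv (.q 168 43)))) (.cv (.q 168 43)))) (.lf 8 0)) (.sy 8 11840 (.sx 8 14208 (.sy 8 11808 (.sx 8 14144 (.sy 8 11792 (.sx 8 14112 (.lf 1 0) (.sy 8 11784 (.lf 1 0) (.sx 8 14128 (.sy 7 11788 (.lf 1 0) (.sx 7 14120 (.lf 1 0) (.sy 7 11790 (.lf 1 0) (.lf 7 0)))) (.sy 8 11788 (.lf 7 0) (.sx 8 14136 (.sy 8 11790 (.lf 7 0) (.lf 8 0)) (.sy 8 11790 (.lf 8 0) (.lf 8 0))))))) (.sx 8 14112 (.cv (.q 168 43)) (.sy 8 11800 (.sx 8 14128 (.lf 8 0) (.sy 8 11796 (.sx 8 14136 (.sy 8 11794 (.lf 8 0) (.lf 8 0)) (.sy 8 11794 (.lf 8 0) (.lf 8 0))) (.lf 8 0))) (.cv (.q 168 43))))) (.sy 8 11792 (.lf 8 0) (.sx 8 14176 (.sy 8 11800 (.sx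 8 14160 (.sy 8 11796 (.sx 8 14152 (.sy 8 11794 (.lf 8 0) (.lf 2 0)) (.lf 2 0)) (.lf 0 0)) (.lf 0 0)) (.lf 0 0)) (.lf 0 0)))) (.sx 0 14144 (.cv (.q 168 43)) (.cv (.q 78 46)))) (.sy 8 11808 (.sx 8 14272 (.lf 8 0) (.cv (.q 78 46))) (.lf 0 0))) (.sx 0 14208 (.lf 0 0) (.sy 0 11872 (.lf 0 0) (.cv (.q 168 43)))))) (.sx 6 14080 (.cv (.q 138 35)) (.sy 6 11968 (.lf 6 0) (.cv (.q 138 35)))))) (.cv (.q 123 31))))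

def tb30s_5 : Tr := (.sx 8 14464 (.sy 8 11744 (.sx 8 14400 (.sy 8 11728 (.sx 8 14368 (.sy 7 11720 (.lf 1 0) (.lf 7 0)) (.sy 8 11720 (.sx 7 14384 (.lf 1 0) (.sy 7 11716 (.lf 1 0) (.sx 7 14392 (.lf 4 0) (.sy 7 11718 (.lf 4 0) (.sx 7 14396 (.sy 7 11719 (.lf 4 0) (.lf 7 0)) (.sy 7 11719 (.lf 7 0) (.lf 7 0))))))) (.sx 8 14384 (.sy 8 11724 (.sx 7 14376 (.lf 1 0) (.sy 7 11722 (.lf 4 0) (.lf 7 0))) (.lf 8 0)) (.sy 8 11724 (.sx 8 14392 (.sy 8 11722 (.sx 7 14388 (.sy 7 11721 (.lf 4 0) (.lf 7 0)) (.lf 7 0)) (.sx 8 14388 (.sy 8 11723 (.lf 7 0) (.lf 8 0)) (.sy 8 11723 (.lf 8 0) (.lf 8 0)))) (.sy 8 11722 (.sx 8 14396 (.sy 8 11721 (.lf 7 0) (.lf 8 0)) (.sy 8 11721 (.lf 8 0) (.lf 8 0))) (.sx 8 14396 (.sy 8 11723 (.lf 8 0) (.lf 8 0)) (.lf 8 0)))) (.sx 8 14392 (.sy 8 11726 (.sx 8 14388 (.lf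 8 0) (.sy 8 11725 (.lf 8 0) (.lf 8 0))) (.lf 8 0)) (.sy 8 11726 (.sx 8 14396 (.sy 8 11725 (.lf 8 0) (.lf 8 0)) (.sy 8 11725 (.lf 8 0) (.lf 8 0))) (.sx 8 14396 (.lf 8 0) (.lf 2 0)))))))) (.lf 8 0)) (.sy 8 11728 (.sx 8 14432 (.sy 8 11720 (.lf 8 0) (.sx 8 14416 (.sy 8 11724 (.sx 8 14408 (.sy 8 11722 (.sx 8 14404 (.sy 8 11721 (.lf 8 0) (.lf 8 0)) (.lf 8 0)) (.sx 8 14404 (.sy 8 11723 (.lf 8 0) (.lf 8 0)) (.sy 8 11723 (.lf 8 0) (.lf 8 0)))) (.sy 8 11722 (.lf 8 0) (.sx 8 14412 (.sy 8 11723 (.lf 8 0) (.lf 2 0)) (.lf 2 0)))) (.sx 8 14408 (.sy 8 11726 (.sx 8 14404 (.sy 8 11725 (.lf 8 0) (.lf 2 0)) (.lf 2 0)) (.lf 2 0)) (.lf 2 0))) (.sy 8 11724 (.lf 8 0) (.lf 0 0)))) (.lf 8 0)) (.lf 0 0))) (.sx 0 14400 (.cv (.q 183 47)) (.cv (.q 78 46)))) (.sy 0 11744 (.lf 0 0) (.lf 0 0)))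

def tb30s_6 : Tr := (.sx 9 15360 (.sy 9 11520 (.sx 9 14848 (.lf 1 0) (.lf 9 0)) (.sx 9 14848 (.sy 8 11648 (.sx 8 14592 (.sy 1 11584 (.cv (.q 134 31)) (.sx 1 14464 (.sy 1 11616 (.cv (.q 134 31)) (.lf 1 0)) (.sy 1 11616 (.lf 1 0) (.cv (.q 179 19))))) (.sy 8 11584 (.lf 1 0) (.sx 8 14720 (.sy 8 11616 (.cv (.q 97 24)) (.sx 8 14656 (.lf 1 0) (.sy 8 11632 (.cv (.q 97 24)) (.sx 8 14688 (.sy 8 11640 (.cv (.q 97 24)) (.lf 8 0)) (.cv (.q 97 24)))))) (.lf 8 0)))) (.sx 8 14592 (.sy 8 11712 (.sx 8 14464 (.sy 1 11680 (.cv (.q 82 20)) (.sx 1 14400 (.lf 1 0) (.cv (.q 82 20)))) (.lf 8 0)) tb30s_5) (.sy 8 11712 (.sx 8 14720 (.sy 8 11680 (.sx 8 14656 (.sy 8 11664 (.sx 8 14624 (.lf 8 0) (.sy 8 11656 (.lf 8 0) (.lf 8 0))) (.lf 8 0)) (.sy 8 11664 (.sx 8 14688 (.sy 8 11656 (.lf 8 0) (.lf 8 0)) (.sy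 2 11656 (.lf 2 0) (.lf 0 0))) (.lf 0 0))) (.lf 0 0)) (.lf 0 0)) (.sx 6 14720 (.lf 0 0) (.lf 6 0))))) (.sy 9 11648 (.lf 9 0) (.sx 6 15104 (.sy 6 11712 (.sx 6 14976 (.sy 0 11680 (.cv (.q 97 24)) (.sx 0 14912 (.lf 0 0) (.cv (.q 97 24)))) (.lf 6 0)) (.sx 6 14976 (.sy 6 11744 (.sx 6 14912 (.sy 6 11728 (.lf 3 0) (.lf 6 0)) (.sy 6 11728 (.sx 6 14944 (.sy 6 11720 (.lf 3 0) (.lf 6 0)) (.sy 6 11720 (.cv (.q 97 24)) (.lf 6 0))) (.sx 6 14944 (.lf 6 0) (.lf 1 0)))) (.lf 6 0)) (.sy 0 11744 (.sx 0 15040 (.sy 0 11728 (.cv (.q 97 24)) (.cv (.q 93 42))) (.cv (.q 97 24))) (.cv (.q 93 42))))) (.sy 6 11712 (.lf 6 0) (.lf 0 0)))))) (.sy 9 11520 (.sx 9 15872 (.sy 9 11392 (.sx 9 15616 (.cv (.q 142 36)) (.sy 9 11328 (.lf 9 0) (.cv (.q 142 36)))) (.lf 9 0)) (.sy 9 11392 (.sx 9 16128 (.sy 9 11328 (.cv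 (.q 131 33)) (.lf 9 0)) (.cv (.q 131 33))) (.sx 0 16128 (.cv (.q 142 36)) (.sy 0 11456 (.cv (.q 131 33)) (.cv (.q 142 36)))))) (.sx 6 15872 (.lf 6 0) (.lf 0 0))))

def tb30s_7 : Tr := (.sx 6 14592 (.sy 6 11840 (.sx 6 14464 (.lf 0 0) (.sy 6 11808 (.lf 0 0) (.lf 6 0))) (.sx 6 14464 (.sy 6 11872 (.sx 6 14400 (.sy 6 11856 (.lf 0 0) (.sx 6 14368 (.lf 0 0) (.sy 6 11864 (.lf 3 0) (.lf 6 0)))) (.sy 6 11856 (.lf 6 0) (.sx 6 14432 (.sy 6 11864 (.sx 6 14416 (.lf 3 0) (.lf 6 0)) (.sx 6 14416 (.sy 6 11868 (.sx 6 14408 (.sy 6 11866 (.lf 3 0) (.lf 6 0)) (.sy 6 11866 (.lf 6 0) (.lf 6 0))) (.lf 6 0)) (.sy 6 11868 (.sx 6 14424 (.sy 6 11866 (.lf 6 0) (.lf 3 0)) (.lf 3 0)) (.lf 1 0)))) (.sy 6 11864 (.lf 6 0) (.lf 1 0))))) (.sx 1 14400 (.cv (.q 168 43)) (.lf 1 0))) (.sy 6 11872 (.sx 6 14528 (.lf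 6 0) (.lf 1 0)) (.cv (.q 93 42))))) (.sy 6 11840 (.sx 6 14720 (.sy 6 11808 (.sx 6 14656 (.sy 6 11792 (.lf 0 0) (.sx 6 14624 (.lf 3 0) (.sy 6 11800 (.lf 3 0) (.lf 6 0)))) (.sy 6 11792 (.sx 6 14688 (.sy 3 11784 (.lf 0 0) (.sx 3 14672 (.lf 3 0) (.lf 3 0))) (.lf 6 0)) (.sx 6 14688 (.sy 6 11800 (.sx 6 14672 (.sy 6 11796 (.lf 3 0) (.sx 6 14664 (.sy 6 11798 (.lf 3 0) (.lf 6 0)) (.sy 6 11798 (.sx 6 14668 (.sy 6 11797 (.lf 1 0) (.lf 6 0)) (.sy 6 11797 (.lf 6 0) (.lf 6 0))) (.sx 6 14668 (.lf 6 0) (.lf 6 0))))) (.sy 6 11796 (.sx 6 14680 (.sy 6 11794 (.lf 3 0) (.sx 6 14676 (.sy 6 11795 (.lf 1 0) (.lf 6 0)) (.sy 6 11795 (.lf 6 0) (.lf 6 0)))) (.sy 6 11794 (.lf 6 0) (.sx 6 14684 (.sy 6 11795 (.lf 6 0) (.lf 6 0)) (.lf 3 0)))) (.sx 6 14680 (.sy 6 11798 (.sx 6 14676 (.lf 6 0) (.lf 6 0)) (.lf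 3 0)) (.lf 1 0)))) (.sx 6 14672 (.lf 6 0) (.lf 1 0))) (.sy 6 11800 (.sx 6 14704 (.sy 6 11796 (.lf 6 0) (.lf 1 0)) (.lf 1 0)) (.cv (.q 93 42)))))) (.sx 0 14656 (.cv (.q 183 47)) (.cv (.q 93 42)))) (.sy 0 11808 (.sx 0 14784 (.sy 0 11792 (.cv (.q 82 20)) (.cv (.q 93 42))) (.cv (.q 93 42))) (.cv (.q 93 42)))) (.lf 0 0)))

def tb30s_8 : Tr := (.sx 9 12288 (.sy 7 11264 (.sx 0 10240 (.sy 0 10752 (.cv (.q 126 33)) (.cv (.q 130 32))) (.cv (.q 130 32))) (.sx 7 10240 (.cv (.q 130 32)) (.sy 7 11776 (.cv (.q 130 32)) (.sx 7 11264 (.sy 0 12032 (.cv (.q 130 32)) (.cv (.q 134 31))) (.sy 7 12032 (.cv (.q 134 31)) (.sx 7 11776 (.cv (.q 134 31)) (.sy 7 12160 (.cv (.q 134 31)) (.sx 7 12032 (.sy 1 12224 (.cv (.q 134 31)) (.sx 1 11904 (.cv (.q 134 31)) (.sy 1 12256 (.cv (.q 134 31)) (.sx 1 11968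 (.lf 1 0) (.sy 1 12272 (.sx 1 12000 (.lf 1 0) (.sy 1 12264 (.lf 1 0) (.lf 1 0))) (.lf 1 0)))))) (.sy 7 12224 (.sx 1 12160 (.sy 0 12192 (.cv (.q 134 31)) (.sx 0 12096 (.cv (.q 134 31)) (.cv (.q 78 19)))) (.lf 1 1)) (.sx 7 12160 (.sy 1 12256 (.sx 1 12096 (.sy 1 12240 (.cv (.q 134 31)) (.sx 1 12064 (.sy 1 12248 (.cv (.q 134 31)) (.lf 1 0)) (.lf 1 0))) (.sy 1 12240 (.sx 1 12128 (.sy 1 12232 (.cv (.q 134 31)) (.lf 1 0)) (.lf 1 0)) (.lf 1 0))) (.lf 1 0)) (.lf 7 1))))))))))) (.sy 9 11264 (.sx 0 14336 (.cv (.q 130 32)) (.sy 0 10752 (.cv (.q 130 32)) (.sx 0 15360 (.cv (.q 130 32)) (.sy 0 11008 (.cv (.q 130 32)) (.sx 0 15872 (.sy 0 11136 (.cv (.q 130 32)) (.sx 0 15616 (.cv (.q 130 32)) (.cv (.q 131 33)))) (.cv (.q 131 33))))))) (.sx 9 14336 (.sy 8 11776 (.sx 8 13312 (.sy 0 11520 (.cv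 (.q 130 32)) (.cv (.q 134 31))) (.sy 8 11520 (.cv (.q 130 32)) (.sx 8 13824 (.cv (.q 134 31)) (.sy 8 11648 (.cv (.q 134 31)) (.sx 8 14080 (.sy 1 11712 (.cv (.q 134 31)) (.sx 1 13952 (.sy 1 11744 (.cv (.q 134 31)) (.lf 1 0)) (.sy 1 11744 (.lf 1 0) (.lf 1 0)))) (.sy 8 11712 (.sx 1 14208 (.sy 1 11680 (.cv (.q 134 31)) (.lf 1 0)) (.sy 1 11680 (.lf 1 0) (.lf 1 0))) (.sx 8 14208 (.sy 8 11744 (.lf 1 0) (.sx 8 14144 (.cv (.q 179 19)) (.lf 8 0))) (.sy 8 11744 (.lf 8 0) (.lf 8 0))))))))) tb30s_4) (.sy 9 11776 tb30s_6 (.sx 6 15360 (.sy 6 12032 (.sx 6 14848 (.sy 6 11904 tb30s_7 (.lf 0 0)) (.lf 0 0)) (.lf 0 0)) (.sy 0 12032 (.lf 0 0) (.cv (.q 127 33))))))))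

def tb30s_9 : Tr := (.sx 14 8192 (.sy 14 10240 tb30s_3 (.sx 0 4096 (.sy 0 11264 (.sx 0 2048 (.cv (.q 130 33)) (.sy 0 10752 (.sx 0 3072 (.sy 0 10496 (.sx 0 2560 (.sy 0 10368 (.cv (.q 133 31)) (.cv (.q 130 33))) (.cv (.q 134 34))) (.cv (.q 130 33))) (.sy 0 10496 (.cv (.q 134 34)) (.sx 0 3584 (.sy 0 10624 (.cv (.q 134 34)) (.cv (.q 130 33))) (.cv (.q 134 34))))) (.cv (.q 130 33)))) (.sx 0 2048 (.cv (.q 126 32)) (.cv (.q 126 33)))) (.sy 0 11264 (.sx 0 6144 (.sy 0 10752 (.sx 0 5120 (.sy 0 10496 (.cv (.q 122 34)) (.sx 0 4608 (.cv (.q 134 34)) (.sy 0 10624 (.cv (.q 137 30)) (.cv (.q 126 33))))) (.sy 0 10496 (.sx 0 5632 (.cv (.q 122 34)) (.sy 0 10368 (.cv (.q 123 31)) (.cv (.q 126 33)))) (.cv (.q 126 33)))) (.cv (.q 126 33))) (.cv (.q 126 33))) (.sx 0 6144 (.cv (.q 130 33)) (.cv (.q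 130 32)))))) (.sy 9 10240 (.sx 0 12288 (.sy 0 9216 (.sx 0 10240 (.sy 0 8704 (.cv (.q 129 32)) (.sx 0 9216 (.sy 0 8960 (.cv (.q 129 32)) (.sx 0 8704 (.sy 0 9088 (.cv (.q 129 32)) (.sx 0 8448 (.sy 0 9152 (.cv (.q 129 32)) (.cv (.q 122 34))) (.cv (.q 131 33)))) (.cv (.q 131 33)))) (.cv (.q 131 33)))) (.sy 0 8704 (.cv (.q 128 32)) (.sx 0 11264 (.cv (.q 131 33)) (.sy 0 8960 (.sx 0 11776 (.cv (.q 131 33)) (.sy 0 8832 (.cv (.q 128 32)) (.cv (.q 131 33)))) (.cv (.q 131 33)))))) (.sx 0 10240 (.sy 0 9728 (.sx 0 9216 (.sy 0 9472 (.cv (.q 122 34)) (.sx 0 8704 (.lf 0 0) (.sy 0 9600 (.lf 0 0) (.cv (.q 126 33))))) (.sy 0 9472 (.sx 0 9728 (.sy 0 9344 (.cv (.q 131 33)) (.lf 0 0)) (.cv (.q 131 33))) (.cv (.q 126 33)))) (.cv (.q 126 33))) (.cv (.q 126 33)))) (.sy 0 9216 (.sx 0 14336 (.sy 0 8704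 (.cv (.q 128 32)) (.cv (.q 126 33))) (.cv (.q 128 32))) (.cv (.q 130 32)))) tb30s_8))

def tb30s_10 : Tr := (.sx 14 4096 (.sy 14 15360 (.sx 14 2048 (.cv (.q 129 33)) (.sy 14 14848 (.sx 14 3072 (.cv (.q 129 33)) (.sy 14 14592 (.sx 14 3584 (.sy 0 14464 (.cv (.q 134 31)) (.cv (.q 129 33))) (.sy 14 14464 (.sx 14 3840 (.sy 0 14400 (.cv (.q 134 31)) (.sx 0 3712 (.cv (.q 129 33)) (.sy 0 14432 (.sx 0 3776 (.cv (.q 129 33)) (.sy 0 14416 (.lf 0 0) (.cv (.q 129 33)))) (.cv (.q 129 33))))) (.sy 14 14400 (.sx 14 3968 (.sy 8 14368 (.cv (.q 134 31)) (.lf 8 0)) (.sy 14 14368 (.lf 10 0) (.lf 14 0))) (.sx 14 3968 (.sy 14 14432 (.sx 14 3904 (.sy 8 14416 (.sx 8 3872 (.lf 1 0) (.sy 8 14408 (.lf 1 0) (.sx 8 3888 (.lf 1 0) (.sy 8 14412 (.lf 1 0) (.sx 8 3896 (.lf 1 0) (.lf 8 0)))))) (.sx 8 3872 (.cv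 (.q 129 33)) (.sy 8 14424 (.sx 8 3888 (.cv (.q 129 33)) (.sy 8 14420 (.sx 8 3896 (.sy 1 14418 (.sx 1 3892 (.cv (.q 129 33)) (.sy 1 14417 (.lf 1 0) (.cv (.q 129 33)))) (.cv (.q 129 33))) (.sy 8 14418 (.lf 8 0) (.lf 3 0))) (.cv (.q 129 33)))) (.cv (.q 129 33))))) (.sy 14 14416 (.lf 14 0) (.sx 14 3936 (.sy 14 14424 (.sx 14 3920 (.sy 14 14420 (.sx 10 3912 (.sy 10 14418 (.lf 8 0) (.lf 10 0)) (.lf 10 0)) (.sx 14 3912 (.cv (.q 129 33)) (.sy 14 14422 (.lf 14 0) (.cv (.q 129 33))))) (.sy 14 14420 (.lf 14 0) (.lf 14 0))) (.sx 1 3920 (.cv (.q 129 33)) (.lf 1 0))) (.sy 14 14424 (.lf 14 0) (.lf 1 0))))) (.cv (.q 129 33))) (.sy 14 14432 (.lf 14 0) (.lf 1 0))))) (.cv (.q 129 33)))) (.cv (.q 129 33)))) (.cv (.q 129 33)))) (.cv (.q 127 33))) (.sy 14 15360 (.sx 14 6144 (.sy 14 14848 (.sx 14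 5120 (.sy 14 14592 (.sx 14 4608 (.sy 14 14464 (.sx 14 4352 (.sy 14 14400 (.sx 14 4224 (.sy 14 14368 (.lf 14 0) (.lf 14 0)) (.sy 1 14368 (.cv (.q 122 31)) (.lf 1 0))) (.sx 9 4224 (.lf 9 0) (.sy 9 14432 (.lf 9 0) (.cv (.q 127 33))))) (.sy 9 14400 (.cv (.q 122 31)) (.sx 9 4480 (.sy 9 14432 (.lf 9 0) (.cv (.q 127 33))) (.cv (.q 127 33))))) (.cv (.q 127 33))) (.sy 0 14464 (.cv (.q 122 31)) (.cv (.q 127 33)))) (.cv (.q 127 33))) (.cv (.q 127 33))) (.cv (.q 129 33))) (.cv (.q 127 33))) (.cv (.q 129 33))))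

def tb30s_11 : Tr := (.sx 7 12544 (.sy 7 12352 (.sx 7 12416 (.lf 7 1) (.lf 0 0)) (.sx 6 12416 (.lf 6 1) (.sy 6 12384 (.sx 6 12480 (.sy 6 12368 (.lf 0 0) (.sx 6 12448 (.lf 0 0) (.sy 6 12376 (.lf 0 0) (.sx 6 12464 (.lf 3 0) (.sy 6 12380 (.lf 3 0) (.lf 6 0)))))) (.sy 6 12368 (.sx 6 12512 (.lf 0 0) (.sy 6 12360 (.lf 0 0) (.lf 6 0))) (.sx 6 12512 (.sy 6 12376 (.sx 6 12496 (.lf 3 0) (.lf 6 0)) (.sx 6 12496 (.sy 6 12380 (.sx 6 12488 (.lf 3 0) (.sy 6 12378 (.lf 3 0) (.sx 6 12492 (.sy 6 12379 (.lf 1 0) (.lf 6 0)) (.lf 6 0)))) (.sx 6 12488 (.lf 6 0) (.sy 6 12382 (.sx 6 12492 (.sy 6 12381 (.lf 6 0) (.lf 3 0)) (.lf 3 0)) (.lf 1 0)))) (.sy 6 12380 (.sx 6 12504 (.sy 6 12378 (.lf 6 0) (.lf 6 0)) (.sy 6 12378 (.lf 6 0) (.lf 1 0))) (.lf 1 0)))) (.sy 6 12376 (.lf 6 0) (.lf 1 0))))) (.sx 6 12480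 (.lf 6 0) (.sy 3 12400 (.lf 3 0) (.cv (.q 93 42))))))) (.sy 6 12352 (.sx 6 12672 (.sy 6 12320 (.lf 0 0) (.lf 6 0)) (.lf 6 0)) (.sx 6 12672 (.sy 6 12384 (.sx 6 12608 (.sy 6 12368 (.sx 6 12576 (.sy 6 12360 (.sx 6 12560 (.lf 3 0) (.sy 6 12356 (.lf 3 0) (.sx 6 12568 (.sy 6 12358 (.lf 3 0) (.sx 6 12564 (.lf 3 0) (.sy 6 12359 (.lf 1 0) (.lf 6 0)))) (.lf 6 0)))) (.sx 6 12560 (.sy 6 12364 (.sx 6 12552 (.sy 6 12362 (.lf 3 0) (.lf 6 0)) (.sy 6 12362 (.sx 6 12556 (.lf 3 0) (.sy 6 12361 (.lf 1 0) (.lf 6 0))) (.sx 6 12556 (.sy 6 12363 (.lf 6 0) (.lf 6 0)) (.sy 6 12363 (.lf 6 0) (.lf 3 0))))) (.lf 6 0)) (.sy 6 12364 (.sx 6 12568 (.sy 6 12362 (.sx 6 12564 (.sy 6 12361 (.lf 6 0) (.lf 6 0)) (.sy 6 12361 (.lf 6 0) (.lf 3 0))) (.lf 3 0)) (.lf 3 0)) (.lf 1 0)))) (.sy 6 12360 (.lf 6 0) (.lf 1 0)))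 (.lf 1 0)) (.lf 1 0)) (.cv (.q 93 42))) (.lf 0 0))))

def tb30s_12 : Tr := (.sy 14 14336 (.sx 14 12288 (.sy 14 13312 (.sx 14 10240 (.cv (.q 130 33)) (.sy 14 12800 (.sx 14 11264 (.sy 0 12544 (.cv (.q 134 34)) (.cv (.q 130 33))) (.sy 14 12544 (.sx 14 11776 (.cv (.q 134 34)) (.sy 14 12416 (.sx 14 12032 (.sy 14 12352 (.lf 14 0) (.cv (.q 134 34))) (.sy 8 12352 (.sx 8 12160 (.sy 8 12320 (.sx 8 12096 (.cv (.q 179 19)) (.sy 8 12304 (.cv (.q 179 19)) (.lf 8 0))) (.lf 8 0)) (.lf 7 1)) (.lf 8 0))) (.cv (.q 134 34)))) (.cv (.q 134 34)))) (.cv (.q 130 33)))) (.sx 0 10240 (.sy 0 13824 (.cv (.q 130 33)) (.cv (.q 126 32))) (.cv (.q 130 33)))) (.sy 7 13312 (.sx 7 14336 (.sy 7 12800 (.sx 7 13312 (.sy 7 12544 (.sx 7 12800 (.sy 7 12416 tb30s_11 (.sx 6 12544 (.sy 6 12480 (.lf 6 0) (.cv (.q 134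 34))) (.lf 0 0))) (.sy 6 12416 (.sx 6 13056 (.sy 6 12352 (.sx 6 12928 (.sy 6 12320 (.lf 6 0) (.cv (.q 93 42))) (.lf 0 0)) (.lf 0 0)) (.lf 0 0)) (.lf 0 0))) (.lf 0 0)) (.sy 0 12544 (.lf 0 0) (.cv (.q 127 33)))) (.cv (.q 127 33))) (.cv (.q 127 33))) (.sx 0 14336 (.cv (.q 130 33)) (.sy 0 13824 (.cv (.q 127 33)) (.cv (.q 130 33)))))) (.sx 0 12288 (.sy 0 15360 (.cv (.q 127 33)) (.sx 0 10240 (.sy 0 15872 (.cv (.q 127 33)) (.cv (.q 129 33))) (.sy 0 15872 (.sx 0 11264 (.sy 0 15616 (.cv (.q 127 33)) (.cv (.q 122 31))) (.sy 0 15616 (.cv (.q 126 32)) (.sx 0 11776 (.sy 0 15744 (.sx 0 11520 (.cv (.q 137 35)) (.sy 0 15680 (.cv (.q 126 32)) (.cv (.q 128 33)))) (.cv (.q 122 31))) (.sy 0 15744 (.cv (.q 126 32)) (.cv (.q 128 33)))))) (.cv (.q 128 33))))) (.sy 0 15360 (.cv (.q 130 33)) (.sx 0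 14336 (.sy 0 15872 (.cv (.q 126 32)) (.cv (.q 128 33))) (.cv (.q 126 32))))))

/-- root tree for the class (3, 0). -/
def tb30 : Tr := (.sy 14 8192 (.cv (.q 128 32)) (.sy 14 12288 tb30s_9 (.sx 14 8192 (.sy 14 14336 (.sx 0 4096 (.sy 0 13312 (.sx 0 2048 (.cv (.q 126 33)) (.cv (.q 126 32))) (.sx 0 2048 (.cv (.q 130 32)) (.sy 0 13824 (.cv (.q 130 32)) (.sx 0 3072 (.sy 0 14080 (.cv (.q 130 32)) (.sx 0 2560 (.sy 0 14208 (.cv (.q 130 32)) (.cv (.q 134 31))) (.cv (.q 134 31)))) (.sy 0 14080 (.sx 0 3584 (.sy 0 13952 (.cv (.q 130 32)) (.cv (.q 134 31))) (.cv (.q 134 31))) (.cv (.q 134 31))))))) (.sy 0 13312 (.sx 0 6144 (.cv (.q 130 32)) (.cv (.q 130 33))) (.sx 0 6144 (.sy 0 13824 (.cv (.q 126 32)) (.sx 0 5120 (.sy 0 14080 (.sx 0 4608 (.cv (.q 134 31)) (.sy 0 13952 (.cv (.q 126 32)) (.cv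 (.q 122 31)))) (.cv (.q 122 31))) (.sy 0 14080 (.cv (.q 126 32)) (.sx 0 5632 (.cv (.q 122 31)) (.sy 0 14208 (.cv (.q 126 32)) (.cv (.q 122 31))))))) (.cv (.q 126 32))))) tb30s_10) tb30s_12)))

def tb31s_1 : Tr := (.sx 16 4096 (.sy 16 9216 (.cv (.q 127 32)) (.sx 16 2048 (.cv (.q 129 32)) (.sy 16 9728 (.cv (.q 129 32)) (.sx 16 3072 (.cv (.q 129 32)) (.sy 16 9984 (.cv (.q 129 32)) (.sx 16 3584 (.sy 0 10112 (.cv (.q 129 32)) (.cv (.q 134 34))) (.sy 16 10112 (.cv (.q 129 32)) (.sx 16 3840 (.sy 16 10176 (.sx 16 3712 (.cv (.q 129 32)) (.sy 16 10144 (.cv (.q 129 32)) (.sx 16 3776 (.cv (.q 129 32)) (.sy 16 10160 (.cv (.q 129 32)) (.lf 16 0))))) (.cv (.q 134 34))) (.sy 16 10176 (.sx 16 3968 (.sy 16 10144 (.cv (.q 129 32)) (.sx 16 3904 (.sy 16 10160 (.sx 14 3872 (.cv (.q 129 32)) (.sy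 14 10152 (.cv (.q 129 32)) (.sx 14 3888 (.cv (.q 129 32)) (.sy 14 10156 (.cv (.q 129 32)) (.sx 14 3896 (.sy 5 10158 (.cv (.q 129 32)) (.sx 5 3892 (.cv (.q 129 32)) (.sy 5 10159 (.cv (.q 129 32)) (.lf 5 0)))) (.sy 14 10158 (.lf 14 0) (.lf 5 0))))))) (.sx 16 3872 (.lf 16 0) (.sy 14 10168 (.sx 14 3888 (.lf 14 0) (.sy 5 10164 (.sx 5 3896 (.lf 5 0) (.lf 0 0)) (.lf 0 0))) (.lf 0 0)))) (.sy 16 10160 (.sx 16 3936 (.sy 16 10152 (.sx 16 3920 (.cv (.q 129 32)) (.lf 16 0)) (.sx 5 3920 (.sy 5 10156 (.sx 0 3912 (.cv (.q 129 32)) (.sy 0 10154 (.cv (.q 129 32)) (.lf 0 0))) (.sx 5 3912 (.sy 5 10158 (.lf 5 0) (.lf 0 0)) (.lf 0 0))) (.sy 0 10156 (.lf 0 0) (.lf 0 0)))) (.sy 14 10152 (.lf 14 0) (.lf 0 0))) (.lf 0 0)))) (.sy 16 10144 (.lf 16 0) (.lf 0 0))) (.sx 1 3968 (.sy 0 10208 (.lf 0 0) (.cv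 (.q 134 34))) (.sy 1 10208 (.lf 0 0) (.lf 1 0)))))))))))) (.sy 1 9216 (.cv (.q 129 32)) (.sx 1 6144 (.sy 1 9728 (.cv (.q 129 32)) (.sx 1 5120 (.sy 1 9984 (.cv (.q 127 32)) (.sx 1 4608 (.sy 1 10112 (.cv (.q 127 32)) (.sx 1 4352 (.sy 1 10176 (.sx 1 4224 (.lf 0 0) (.sy 1 10144 (.cv (.q 127 32)) (.lf 1 0))) (.sx 1 4224 (.sy 1 10208 (.lf 1 0) (.lf 1 0)) (.sy 1 10208 (.lf 1 0) (.cv (.q 122 34))))) (.sy 1 10176 (.sx 1 4480 (.sy 1 10144 (.cv (.q 127 32)) (.lf 1 0)) (.cv (.q 127 32))) (.cv (.q 122 34))))) (.sy 0 10112 (.cv (.q 127 32)) (.cv (.q 122 34))))) (.cv (.q 127 32)))) (.cv (.q 127 32)))))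

def tb31s_2 : Tr := (.sx 11 12544 (.sy 11 12224 (.sx 11 12416 (.lf 10 1) (.sy 11 12192 (.sx 10 12480 (.lf 1 0) (.sy 10 12176 (.cv (.q 93 23)) (.lf 10 0))) (.sx 11 12480 (.sy 10 12208 (.sx 10 12448 (.lf 10 0) (.sy 10 12200 (.sx 10 12464 (.lf 4 0) (.sy 10 12196 (.lf 4 0) (.lf 10 0))) (.lf 10 0))) (.lf 10 0)) (.sy 11 12208 (.sx 10 12512 (.sy 10 12200 (.sx 10 12496 (.sy 10 12196 (.sx 10 12488 (.lf 4 0) (.sy 10 12194 (.lf 4 0) (.sx 10 12492 (.sy 10 12195 (.lf 1 0) (.lf 10 0)) (.lf 10 0)))) (.sx 10 12488 (.lf 10 0) (.sy 10 12198 (.sx 10 12492 (.sy 10 12197 (.lf 10 0) (.lf 8 0)) (.lf 3 0)) (.lf 8 0)))) (.sy 10 12196 (.lf 10 0) (.sx 8 12504 (.sy 8 12198 (.lf 8 0) (.lf 8 0)) (.sy 8 12198 (.lf 8 0) (.lf 1 0))))) (.sx 8 12496 (.lf 8 0) (.lf 1 0))) (.sy 8 12200 (.lf 8 0) (.lf 1 0))) (.sx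 11 12512 (.lf 3 0) (.sy 11 12216 (.lf 3 0) (.lf 11 0))))))) (.sx 11 12416 (.lf 10 1) (.lf 11 0))) (.sy 11 12224 (.sx 11 12672 (.sy 11 12192 (.cv (.q 93 23)) (.sx 11 12608 (.sy 11 12208 (.lf 11 0) (.sx 11 12576 (.sy 11 12216 (.sx 11 12560 (.sy 11 12212 (.lf 3 0) (.sx 11 12552 (.sy 11 12214 (.lf 3 0) (.lf 11 0)) (.sy 11 12214 (.sx 11 12556 (.sy 11 12213 (.lf 3 0) (.lf 11 0)) (.sy 11 12213 (.lf 11 0) (.lf 11 0))) (.sx 11 12556 (.lf 11 0) (.sy 11 12215 (.lf 11 0) (.lf 11 0)))))) (.sy 11 12212 (.lf 11 0) (.sx 11 12568 (.sy 11 12214 (.lf 11 0) (.sx 11 12564 (.sy 11 12215 (.lf 11 0) (.lf 11 0)) (.sy 11 12215 (.lf 11 0) (.lf 11 0)))) (.lf 11 0)))) (.sx 11 12560 (.lf 11 0) (.sy 11 12220 (.sx 11 12568 (.sy 11 12218 (.sx 11 12564 (.lf 11 0) (.sy 11 12217 (.lf 11 0) (.lf 2 0))) (.lf 2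 0)) (.lf 2 0)) (.lf 0 0)))) (.sy 11 12216 (.lf 11 0) (.lf 0 0)))) (.lf 11 0))) (.lf 11 0)) (.sx 2 12672 (.sy 2 12256 (.lf 2 0) (.lf 0 0)) (.lf 0 0))))

def tb31s_3 : Tr := (.sy 17 10240 (.sx 0 12288 (.sy 0 9216 (.sx 0 10240 (.sy 0 8704 (.cv (.q 129 32)) (.cv (.q 127 32))) (.sy 0 8704 (.cv (.q 128 32)) (.sx 0 11264 (.sy 0 8960 (.cv (.q 122 34)) (.cv (.q 127 32))) (.sy 0 8960 (.sx 0 11776 (.sy 0 8832 (.cv (.q 128 32)) (.sx 0 11520 (.cv (.q 137 30)) (.sy 0 8896 (.cv (.q 128 32)) (.cv (.q 126 33))))) (.sy 0 8832 (.cv (.q 128 32)) (.cv (.q 126 33)))) (.cv (.q 126 33)))))) (.cv (.q 127 32))) (.sy 0 9216 (.sx 0 14336 (.sy 0 8704 (.cv (.q 128 32)) (.cv (.q 126 33))) (.cv (.q 128 32))) (.cv (.q 130 32)))) (.sx 17 12288 (.sy 10 11264 (.sx 0 10240 (.sy 0 10752 (.cv (.q 127 32)) (.cv (.q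 130 32))) (.cv (.q 130 32))) (.sx 10 10240 (.cv (.q 130 32)) (.sy 10 11776 (.cv (.q 130 32)) (.sx 10 11264 (.sy 0 12032 (.cv (.q 130 32)) (.cv (.q 134 31))) (.sy 10 12032 (.cv (.q 134 31)) (.sx 10 11776 (.cv (.q 134 31)) (.sy 10 12160 (.cv (.q 134 31)) (.sx 10 12032 (.sy 1 12224 (.cv (.q 134 31)) (.lf 1 0)) (.sy 10 12224 (.lf 1 0) (.sx 10 12160 (.sy 1 12256 (.lf 1 0) (.sx 1 12096 (.cv (.q 179 46)) (.sy 1 12272 (.lf 1 0) (.cv (.q 179 46))))) (.lf 10 1))))))))))) (.sy 17 11264 (.sx 0 14336 (.cv (.q 130 32)) (.sy 0 10752 (.cv (.q 130 32)) (.cv (.q 127 32)))) (.sx 17 14336 (.sy 17 11776 (.cv (.q 127 32)) (.sx 17 13312 (.sy 17 12032 (.lf 11 0) (.sx 17 12800 (.sy 11 12160 (.sx 11 12544 (.sy 1 12096 (.cv (.q 134 31)) (.lf 1 0)) (.lf 11 0)) tb31s_2) (.sy 17 12160 (.lf 17 0) (.sx 17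 13056 (.sy 2 12224 (.lf 2 0) (.sx 2 12928 (.sy 2 12256 (.cv (.q 93 23)) (.lf 2 0)) (.lf 2 0))) (.lf 17 0))))) (.sy 17 12032 (.cv (.q 127 32)) (.lf 17 0)))) (.cv (.q 127 32))))))

def tb31s_4 : Tr := (.sy 12 15360 (.sx 12 2048 (.cv (.q 129 33)) (.sy 12 14848 (.sx 12 3072 (.sy 0 14592 (.cv (.q 134 31)) (.cv (.q 129 33))) (.sy 12 14592 (.sx 12 3584 (.sy 0 14464 (.cv (.q 134 31)) (.cv (.q 133 34))) (.sy 12 14464 (.sx 10 3840 (.sy 1 14400 (.cv (.q 134 31)) (.sx 1 3712 (.lf 1 0) (.sy 1 14432 (.lf 1 0) (.cv (.q 178 46))))) (.sy 10 14400 (.sx 1 3968 (.lf 1 0) (.sy 1 14368 (.lf 1 0) (.lf 1 0))) (.sx 10 3968 (.sy 1 14432 (.lf 1 0) (.lf 1 0)) (.sy 10 14432 (.lf 1 0) (.sx 10 4032 (.sy 10 14448 (.lf 1 0) (.sx 10 4000 (.sy 4 14456 (.lf 1 0) (.lf 4 0)) (.sy 10 14456 (.lf 4 0) (.sx 10 4016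 (.sy 10 14460 (.lf 4 0) (.lf 10 0)) (.sy 10 14460 (.lf 10 0) (.lf 10 0)))))) (.sy 10 14448 (.lf 10 0) (.sx 10 4064 (.sy 10 14456 (.sx 10 4048 (.sy 10 14452 (.lf 4 0) (.sx 10 4040 (.sy 10 14454 (.lf 4 0) (.sx 10 4036 (.sy 10 14455 (.lf 1 0) (.lf 10 0)) (.lf 10 0))) (.lf 10 0))) (.lf 10 0)) (.sx 10 4048 (.sy 10 14460 (.sx 10 4040 (.sy 10 14458 (.sx 10 4036 (.sy 10 14457 (.lf 10 0) (.lf 3 0)) (.lf 2 0)) (.lf 8 0)) (.sy 8 14458 (.lf 8 0) (.lf 8 0))) (.sx 8 4040 (.lf 8 0) (.lf 1 0))) (.sy 8 14460 (.sx 8 4056 (.sy 8 14458 (.lf 8 0) (.lf 1 0)) (.lf 1 0)) (.lf 1 0)))) (.sy 10 14456 (.lf 10 0) (.lf 1 0))))))))) (.sx 12 3840 (.lf 12 0) (.sy 12 14528 (.sx 12 3968 (.lf 12 0) (.sy 12 14496 (.sx 12 4032 (.lf 12 0) (.sy 12 14480 (.sx 12 4064 (.lf 3 0) (.sy 12 14472 (.lf 3 0) (.sx 12 4080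 (.lf 3 0) (.sy 12 14476 (.lf 3 0) (.lf 12 0))))) (.lf 12 0))) (.cv (.q 178 46)))) (.lf 12 0))))) (.cv (.q 133 34)))) (.cv (.q 129 33)))) (.cv (.q 129 33)))

def tb31s_5 : Tr := (.sy 12 14848 (.sx 12 5120 (.sy 12 14592 (.sx 12 4608 (.sy 12 14464 (.sx 12 4352 (.sy 12 14400 (.sx 10 4224 (.sy 1 14368 (.lf 1 0) (.sx 1 4160 (.lf 0 0) (.lf 1 0))) (.sy 10 14368 (.cv (.q 122 31)) (.sx 10 4288 (.lf 10 0) (.lf 10 0)))) (.sx 12 4224 (.lf 12 0) (.sy 12 14432 (.sx 12 4288 (.lf 12 0) (.lf 12 0)) (.lf 12 0)))) (.sy 12 14400 (.cv (.q 122 31)) (.sx 12 4480 (.sy 12 14432 (.sx 12 4416 (.lf 12 0) (.lf 0 0)) (.cv (.q 78 46))) (.lf 0 0)))) (.sx 12 4352 (.sy 12 14528 (.sx 12 4224 (.sy 12 14496 (.sx 12 4160 (.sy 12 14480 (.sx 12 4128 (.sy 12 14472 (.lf 12 0) (.sx 12 4112 (.sy 12 14476 (.sx 12 4104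 (.sy 12 14474 (.lf 3 0) (.sx 12 4100 (.lf 3 0) (.sy 12 14475 (.lf 3 0) (.lf 12 0)))) (.sy 12 14474 (.lf 12 0) (.sx 12 4108 (.sy 12 14475 (.lf 12 0) (.lf 12 0)) (.sy 12 14475 (.lf 12 0) (.lf 11 0))))) (.sx 12 4104 (.lf 12 0) (.sy 11 14478 (.sx 11 4108 (.lf 11 0) (.sy 11 14477 (.lf 11 0) (.lf 11 0))) (.lf 11 0)))) (.sy 12 14476 (.lf 12 0) (.sx 11 4120 (.sy 11 14478 (.sx 11 4116 (.sy 11 14477 (.lf 11 0) (.lf 2 0)) (.lf 2 0)) (.lf 2 0)) (.lf 0 0))))) (.lf 12 0)) (.sx 11 4128 (.sy 11 14488 (.sx 11 4112 (.sy 11 14484 (.lf 11 0) (.lf 0 0)) (.lf 0 0)) (.cv (.q 78 46))) (.cv (.q 78 46)))) (.sy 11 14480 (.lf 11 0) (.cv (.q 78 46)))) (.cv (.q 78 46))) (.lf 0 0)) (.lf 0 0)) (.lf 0 0))) (.sy 0 14464 (.cv (.q 122 31)) (.cv (.q 123 34)))) (.cv (.q 123 34))) (.sy 0 14592 (.cv (.q 122 31))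 (.sx 0 5632 (.cv (.q 123 34)) (.sy 0 14720 (.cv (.q 122 31)) (.sx 0 5888 (.cv (.q 138 30)) (.lf 0 0)))))) (.sx 3 5120 (.cv (.q 129 33)) (.sy 3 15104 (.sx 3 5632 (.sy 0 14976 (.sx 0 5376 (.cv (.q 138 30)) (.lf 0 0)) (.cv (.q 129 33))) (.sy 3 14976 (.sx 3 5888 (.lf 0 0) (.sy 3 14912 (.sx 0 6016 (.lf 0 0) (.cv (.q 168 22))) (.sx 3 6016 (.sy 3 14944 (.cv (.q 168 22)) (.sx 3 5952 (.sy 3 14960 (.cv (.q 168 22)) (.sx 3 5920 (.sy 0 14968 (.cv (.q 168 22)) (.cv (.q 129 33))) (.sy 3 14968 (.lf 3 0) (.sx 3 5936 (.cv (.q 129 33)) (.sy 3 14972 (.sx 3 5944 (.lf 3 0) (.sy 3 14970 (.lf 3 0) (.cv (.q 129 33)))) (.cv (.q 129 33))))))) (.sy 3 14960 (.lf 3 0) (.sx 3 5984 (.sy 3 14968 (.lf 3 0) (.sx 3 5968 (.sy 3 14972 (.sx 3 5960 (.sy 3 14970 (.lf 3 0) (.lf 3 0)) (.sy 3 14970 (.lf 3 0) (.lf 0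 0))) (.lf 0 0)) (.lf 0 0))) (.lf 3 0))))) (.lf 3 0)))) (.sx 1 5888 (.cv (.q 129 33)) (.sy 1 15040 (.sx 1 6016 (.sy 1 15008 (.sx 1 5952 (.cv (.q 129 33)) (.lf 1 0)) (.cv (.q 129 33))) (.sy 1 15008 (.sx 1 6080 (.lf 1 0) (.lf 1 0)) (.cv (.q 129 33)))) (.cv (.q 129 33)))))) (.cv (.q 129 33)))))

def tb31s_6 : Tr := (.sx 9 6656 (.sy 9 14976 (.sx 9 6400 (.sy 3 14912 (.sx 3 6272 (.sy 3 14880 (.cv (.q 122 31)) (.sx 3 6208 (.sy 3 14896 (.cv (.q 168 22)) (.sx 3 6176 (.lf 3 0) (.lf 3 0))) (.sy 3 14896 (.cv (.q 122 31)) (.sx 3 6240 (.lf 3 0) (.cv (.q 122 31)))))) (.cv (.q 122 31))) (.sx 3 6272 (.sy 3 14944 (.sx 3 6208 (.lf 3 0) (.lf 1 0)) (.lf 1 0)) (.sy 1 14944 (.sx 1 6336 (.lf 1 0) (.lf 1 0)) (.lf 1 0)))) (.sy 9 14912 (.cv (.q 122 31)) (.sx 9 6528 (.sy 9 14944 (.cv (.q 122 31)) (.sx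 9 6464 (.sy 9 14960 (.lf 1 0) (.sx 9 6432 (.lf 1 0) (.sy 9 14968 (.lf 1 0) (.lf 9 0)))) (.sy 9 14960 (.cv (.q 122 31)) (.sx 9 6496 (.sy 9 14968 (.cv (.q 122 31)) (.lf 9 0)) (.cv (.q 122 31)))))) (.cv (.q 122 31))))) (.sx 9 6400 (.sy 9 15040 (.sx 9 6272 (.sy 9 15008 (.cv (.q 183 18)) (.sx 9 6208 (.sy 0 15024 (.cv (.q 183 18)) (.cv (.q 129 33))) (.sy 9 15024 (.lf 7 0) (.sx 9 6240 (.cv (.q 129 33)) (.lf 9 0))))) (.lf 9 0)) (.sx 0 6272 (.cv (.q 129 33)) (.lf 0 0))) (.sy 9 15040 (.sx 9 6528 (.sy 9 15008 (.sx 9 6464 (.lf 9 0) (.sy 9 14992 (.sx 9 6496 (.sy 9 14984 (.lf 9 0) (.cv (.q 82 45))) (.cv (.q 82 45))) (.cv (.q 82 45)))) (.cv (.q 82 45))) (.lf 0 0)) (.sx 3 6528 (.sy 0 15072 (.cv (.q 77 19)) (.sx 0 6464 (.cv (.q 129 33)) (.sy 0 15088 (.cv (.q 77 19)) (.cv (.q 129 33))))) (.lf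 3 0))))) (.sy 3 14976 (.cv (.q 122 31)) (.sx 3 6912 (.sy 3 15040 (.sx 3 6784 (.sy 3 15008 (.cv (.q 122 31)) (.sx 3 6720 (.lf 1 0) (.sy 3 15024 (.cv (.q 122 31)) (.sx 3 6752 (.sy 3 15032 (.cv (.q 122 31)) (.lf 3 0)) (.cv (.q 122 31)))))) (.cv (.q 122 31))) (.sx 3 6784 (.sy 3 15072 (.sx 3 6720 (.sy 3 15056 (.sx 3 6688 (.lf 1 0) (.lf 3 0)) (.lf 3 0)) (.sy 3 15056 (.sx 3 6752 (.sy 3 15048 (.lf 3 0) (.lf 3 0)) (.sy 3 15048 (.lf 3 0) (.cv (.q 97 41)))) (.cv (.q 97 41)))) (.cv (.q 97 41))) (.cv (.q 97 41)))) (.sy 0 15040 (.cv (.q 122 31)) (.lf 0 0)))))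

def tb31s_7 : Tr := (.sy 12 14336 (.sx 0 4096 (.sy 0 13312 (.sx 0 2048 (.cv (.q 126 33)) (.cv (.q 126 32))) (.sx 0 2048 (.cv (.q 130 32)) (.sy 0 13824 (.cv (.q 130 32)) (.sx 0 3072 (.sy 0 14080 (.cv (.q 130 32)) (.sx 0 2560 (.sy 0 14208 (.cv (.q 130 32)) (.cv (.q 134 31))) (.cv (.q 134 31)))) (.sy 0 14080 (.sx 0 3584 (.sy 0 13952 (.cv (.q 130 32)) (.cv (.q 134 31))) (.cv (.q 134 31))) (.cv (.q 134 31))))))) (.sy 0 13312 (.sx 0 6144 (.cv (.q 130 32)) (.cv (.q 130 33))) (.sx 0 6144 (.sy 0 13824 (.cv (.q 126 32)) (.sx 0 5120 (.sy 0 14080 (.sx 0 4608 (.cv (.q 134 31)) (.sy 0 13952 (.cv (.q 126 32)) (.cv (.q 122 31)))) (.cv (.q 122 31))) (.sy 0 14080 (.cv (.q 126 32)) (.sx 0 5632 (.cv (.q 122 31)) (.sy 0 14208 (.cv (.q 126 32)) (.cv (.q 122 31))))))) (.cv (.q 126 32))))) (.sx 12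 4096 tb31s_4 (.sy 12 15360 (.sx 12 6144 tb31s_5 (.sy 9 14848 (.sx 3 7168 (.sy 0 14592 (.sx 0 6656 (.cv (.q 122 31)) (.sy 0 14464 (.cv (.q 126 32)) (.cv (.q 122 31)))) (.cv (.q 122 31))) (.sy 3 14592 (.cv (.q 126 32)) (.sx 3 7680 (.cv (.q 122 31)) (.sy 3 14720 (.cv (.q 126 32)) (.lf 3 0))))) (.sx 9 7168 (.sy 9 15104 tb31s_6 (.sx 0 6656 (.cv (.q 129 33)) (.sy 0 15232 (.lf 0 0) (.cv (.q 129 33))))) (.sy 0 15104 (.cv (.q 122 31)) (.sx 0 7680 (.sy 0 15232 (.lf 0 0) (.lf 0 0)) (.sy 0 15232 (.cv (.q 122 31)) (.sx 0 7936 (.cv (.q 142 29)) (.cv (.q 122 31))))))))) (.sx 0 6144 (.cv (.q 129 33)) (.sy 0 15872 (.sx 0 7168 (.cv (.q 129 33)) (.sy 0 15616 (.sx 0 7680 (.cv (.q 129 33)) (.sy 0 15488 (.sx 0 7936 (.cv (.q 129 33)) (.sy 0 15424 (.sx 0 8064 (.cv (.q 129 33)) (.sy 0 15392 (.cv (.q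 122 31)) (.cv (.q 129 33)))) (.cv (.q 129 33)))) (.cv (.q 129 33)))) (.cv (.q 129 33)))) (.cv (.q 129 33)))))))

def tb31s_8 : Tr := (.sx 10 13312 (.sy 10 12544 (.sx 10 12800 (.sy 10 12416 (.sx 10 12544 (.sy 10 12352 (.sx 10 12416 (.lf 10 1) (.lf 0 0)) (.sx 2 12416 (.lf 2 1) (.sy 2 12384 (.lf 2 0) (.lf 2 0)))) (.sy 2 12352 (.sx 2 12672 (.sy 2 12320 (.lf 0 0) (.lf 2 0)) (.lf 2 0)) (.sx 2 12672 (.sy 2 12384 (.lf 2 0) (.cv (.q 123 34))) (.cv (.q 123 34))))) (.sx 2 12544 (.sy 2 12480 (.sx 2 12416 (.sy 2 12448 (.lf 2 0) (.cv (.q 134 34))) (.cv (.q 123 34))) (.cv (.q 134 34))) (.cv (.q 123 34)))) (.sy 2 12416 (.sx 2 13056 (.sy 2 12352 (.sx 2 12928 (.sy 2 12320 (.lf 2 0) (.cv (.q 123 34))) (.cv (.q 123 34))) (.cv (.q 123 34))) (.cv (.q 123 34))) (.cv (.q 123 34)))) (.cv (.q 123 34)))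 (.sy 7 12544 (.cv (.q 123 34)) (.sx 7 13824 (.sy 0 12672 (.cv (.q 138 30)) (.sx 0 13568 (.cv (.q 138 30)) (.sy 0 12736 (.cv (.q 138 30)) (.lf 0 0)))) (.sy 7 12672 (.sx 0 14080 (.cv (.q 138 30)) (.sy 0 12608 (.cv (.q 138 30)) (.lf 0 0))) (.sx 7 14080 (.sy 0 12736 (.lf 0 0) (.sx 0 13952 (.lf 0 0) (.sy 0 12768 (.cv (.q 168 22)) (.sx 0 14016 (.cv (.q 168 22)) (.sy 0 12784 (.cv (.q 168 22)) (.cv (.q 179 46))))))) (.sy 7 12736 (.sx 7 14208 (.lf 0 0) (.sy 7 12704 (.cv (.q 168 22)) (.lf 7 0))) (.sx 7 14208 (.sy 7 12768 (.sx 0 14144 (.cv (.q 168 22)) (.cv (.q 78 19))) (.sx 7 14144 (.sy 7 12784 (.sx 7 14112 (.cv (.q 168 22)) (.sy 7 12776 (.cv (.q 168 22)) (.sx 7 14128 (.lf 1 0) (.sy 7 12780 (.lf 1 0) (.sx 7 14136 (.sy 7 12782 (.lf 1 0) (.lf 7 0)) (.sy 7 12782 (.lf 7 0) (.lf 7 0)))))))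 (.sx 7 14112 (.lf 7 0) (.sy 7 12792 (.sx 7 14128 (.sy 7 12788 (.sx 7 14120 (.lf 3 0) (.sy 7 12786 (.lf 3 0) (.lf 7 0))) (.lf 7 0)) (.sy 7 12788 (.sx 7 14136 (.sy 7 12786 (.lf 7 0) (.lf 7 0)) (.sy 7 12786 (.lf 7 0) (.lf 0 0))) (.lf 0 0))) (.lf 1 0)))) (.sy 7 12784 (.sx 7 14176 (.sy 7 12776 (.lf 7 0) (.sx 7 14160 (.sy 7 12780 (.lf 7 0) (.sx 7 14152 (.sy 7 12782 (.lf 7 0) (.lf 7 0)) (.lf 0 0))) (.lf 7 0))) (.lf 7 0)) (.lf 1 0)))) (.sy 7 12768 (.lf 7 0) (.sx 1 14272 (.lf 1 0) (.cv (.q 78 19)))))))))))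

def tb31s_9 : Tr := (.sx 9 14592 (.sy 7 12736 (.sx 7 14464 (.sy 7 12704 (.sx 7 14400 (.cv (.q 168 22)) (.lf 7 0)) (.sx 7 14400 (.sy 7 12720 (.sx 7 14368 (.lf 1 0) (.sy 7 12712 (.lf 3 0) (.lf 7 0))) (.lf 7 0)) (.sy 7 12720 (.sx 7 14432 (.sy 7 12712 (.sx 7 14416 (.sy 7 12708 (.lf 3 0) (.sx 7 14408 (.sy 7 12710 (.lf 3 0) (.lf 7 0)) (.sy 7 12710 (.lf 7 0) (.lf 7 0)))) (.sy 7 12708 (.lf 7 0) (.sx 7 14424 (.sy 7 12710 (.lf 7 0) (.lf 0 0)) (.lf 0 0)))) (.sx 7 14416 (.lf 7 0) (.lf 0 0))) (.sy 7 12712 (.lf 7 0) (.lf 1 0))) (.lf 1 0)))) (.sy 1 12704 (.cv (.q 93 23)) (.sx 1 14528 (.lf 1 0) (.lf 1 0)))) (.sx 7 14464 (.lf 1 0) (.sy 7 12768 (.lf 1 0) (.lf 7 0)))) (.sy 9 12736 (.lf 9 0) (.sx 9 14720 (.sy 9 12768 (.sx 0 14656 (.cv (.q 183 18)) (.cv (.q 93 23))) (.sx 9 14656 (.sy 9 12784 (.sx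 7 14624 (.lf 1 0) (.sy 7 12776 (.lf 1 0) (.lf 7 0))) (.lf 9 0)) (.sy 9 12784 (.sx 9 14688 (.sy 9 12776 (.sx 7 14672 (.lf 1 0) (.lf 7 0)) (.sx 9 14672 (.sy 9 12780 (.sx 7 14664 (.sy 7 12778 (.lf 1 0) (.lf 7 0)) (.sy 7 12778 (.sx 7 14668 (.lf 2 0) (.lf 7 0)) (.sx 7 14668 (.sy 7 12779 (.lf 7 0) (.lf 7 0)) (.sy 7 12779 (.lf 7 0) (.lf 1 0))))) (.lf 9 0)) (.sy 9 12780 (.sx 9 14680 (.sy 9 12778 (.lf 7 0) (.sx 9 14676 (.lf 1 0) (.lf 9 0))) (.lf 9 0)) (.sx 9 14680 (.sy 9 12782 (.sx 9 14676 (.sy 9 12781 (.lf 9 0) (.lf 9 0)) (.sy 9 12781 (.lf 9 0) (.lf 9 0))) (.lf 9 0)) (.sy 9 12782 (.sx 9 14684 (.sy 9 12781 (.lf 9 0) (.lf 2 0)) (.lf 2 0)) (.lf 2 0)))))) (.sy 9 12776 (.cv (.q 93 23)) (.sx 9 14704 (.sy 9 12780 (.lf 9 0) (.lf 2 0)) (.lf 2 0)))) (.sx 9 14688 (.sy 9 12792 (.sx 9 14672 (.lf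 9 0) (.lf 2 0)) (.lf 0 0)) (.lf 0 0))))) (.sy 0 12768 (.cv (.q 93 23)) (.sx 0 14784 (.sy 0 12784 (.cv (.q 93 23)) (.cv (.q 82 45))) (.cv (.q 93 23)))))))

def tb31s_10 : Tr := (.sx 9 14464 (.sy 9 12832 (.sx 0 14400 (.cv (.q 183 18)) (.cv (.q 78 19))) (.sx 9 14400 (.sy 9 12848 (.lf 1 0) (.sx 9 14368 (.sy 9 12856 (.lf 1 0) (.lf 9 0)) (.sy 9 12856 (.sx 9 14384 (.sy 7 12852 (.lf 1 0) (.sx 7 14376 (.lf 2 0) (.sy 7 12854 (.lf 2 0) (.lf 7 0)))) (.sy 9 12852 (.sx 7 14392 (.sy 7 12850 (.lf 1 0) (.sx 7 14388 (.lf 1 0) (.sy 7 12851 (.lf 1 0) (.lf 7 0)))) (.sy 7 12850 (.sx 7 14396 (.lf 1 0) (.lf 7 0)) (.sx 7 14396 (.sy 7 12851 (.lf 7 0) (.lf 7 0)) (.sy 7 12851 (.lf 7 0) (.lf 7 0))))) (.sx 9 14392 (.sy 7 12854 (.sx 7 14388 (.sy 7 12853 (.lf 2 0) (.lf 7 0)) (.sy 7 12853 (.lf 7 0) (.lf 7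 0))) (.sx 7 14388 (.sy 7 12855 (.lf 7 0) (.lf 1 0)) (.lf 1 0))) (.sy 9 12854 (.sx 7 14396 (.sy 7 12853 (.lf 7 0) (.lf 1 0)) (.lf 1 0)) (.sx 9 14396 (.sy 9 12855 (.lf 1 0) (.lf 9 0)) (.sy 9 12855 (.lf 9 0) (.lf 9 0))))))) (.sx 9 14384 (.lf 9 0) (.sy 9 12860 (.sx 9 14392 (.lf 9 0) (.sy 9 12858 (.sx 9 14396 (.sy 9 12857 (.lf 9 0) (.lf 9 0)) (.sy 9 12857 (.lf 9 0) (.lf 2 0))) (.lf 2 0))) (.lf 2 0)))))) (.sy 9 12848 (.lf 9 0) (.sx 9 14432 (.sy 9 12856 (.sx 9 14416 (.sy 9 12852 (.sx 9 14408 (.sy 7 12850 (.lf 7 0) (.sx 4 14404 (.sy 4 12851 (.lf 4 0) (.lf 1 0)) (.lf 1 0))) (.lf 9 0)) (.sx 9 14408 (.sy 9 12854 (.sx 9 14404 (.sy 9 12853 (.lf 1 0) (.lf 9 0)) (.sy 9 12853 (.lf 9 0) (.lf 9 0))) (.sx 9 14404 (.sy 9 12855 (.lf 9 0) (.lf 8 0)) (.lf 5 0))) (.sy 9 12854 (.sx 9 14412 (.sy 9 12853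 (.lf 9 0) (.lf 5 0)) (.lf 2 0)) (.lf 2 0)))) (.sy 9 12852 (.lf 9 0) (.lf 2 0))) (.lf 2 0)) (.lf 2 0))))) (.sy 9 12832 (.lf 9 0) (.lf 9 0)))

def tb31s_11 : Tr := (.sx 9 15360 (.sy 9 13056 (.sx 9 14848 (.sy 9 12928 (.sx 9 14592 (.sy 9 12864 tb31s_10 (.sx 9 14464 (.sy 9 12896 (.sx 9 14400 (.lf 9 0) (.cv (.q 82 45))) (.cv (.q 82 45))) (.lf 0 0))) (.sy 9 12864 (.sx 9 14720 (.lf 9 0) (.lf 0 0)) (.sx 3 14720 (.sy 3 12896 (.lf 0 0) (.sx 3 14656 (.sy 3 12912 (.lf 0 0) (.sx 3 14624 (.lf 0 0) (.sy 3 12920 (.lf 0 0) (.lf 3 0)))) (.sy 3 12912 (.lf 3 0) (.sx 3 14688 (.sy 3 12920 (.lf 3 0) (.lf 3 0)) (.sy 3 12920 (.lf 3 0) (.lf 2 0)))))) (.lf 3 0)))) (.sx 3 14592 (.sy 3 12992 (.sx 3 14464 (.sy 0 12960 (.lf 0 0) (.cv (.q 134 34))) (.sy 3 12960 (.cv (.q 179 46)) (.lf 3 0))) (.cv (.q 134 34)))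 (.sy 3 12992 (.sx 3 14720 (.sy 3 12960 (.sx 3 14656 (.lf 3 0) (.sy 3 12944 (.sx 3 14688 (.sy 3 12936 (.lf 3 0) (.cv (.q 97 41))) (.cv (.q 97 41))) (.cv (.q 97 41)))) (.cv (.q 97 41))) (.lf 0 0)) (.lf 0 0)))) (.sy 3 12928 (.sx 3 15104 (.sy 3 12864 (.sx 3 14976 (.sy 3 12832 (.lf 0 0) (.sx 3 14912 (.sy 3 12848 (.lf 0 0) (.lf 3 0)) (.sy 3 12848 (.sx 3 14944 (.lf 0 0) (.lf 3 0)) (.sx 3 14944 (.sy 3 12856 (.lf 3 0) (.lf 3 0)) (.sy 3 12856 (.lf 3 0) (.cv (.q 97 41))))))) (.sy 0 12832 (.cv (.q 93 23)) (.sx 0 15040 (.sy 0 12848 (.cv (.q 93 23)) (.cv (.q 97 41))) (.cv (.q 93 23))))) (.sx 3 14976 (.sy 3 12896 (.sx 3 14912 (.lf 3 0) (.cv (.q 97 41))) (.cv (.q 97 41))) (.lf 0 0))) (.sy 3 12864 (.lf 3 0) (.lf 0 0))) (.lf 0 0))) (.sx 0 14848 (.lf 0 0) (.lf 0 0))) (.sy 0 13056 (.sx 0 15872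 (.lf 0 0) (.lf 0 0)) (.sx 0 15872 (.sy 0 13184 (.lf 0 0) (.sx 0 15616 (.cv (.q 142 29)) (.sy 0 13248 (.cv (.q 142 29)) (.lf 0 0)))) (.sy 0 13184 (.sx 0 16128 (.cv (.q 142 29)) (.sy 0 13120 (.cv (.q 142 29)) (.cv (.q 131 32)))) (.sx 0 16128 (.sy 0 13248 (.lf 0 0) (.cv (.q 131 32))) (.cv (.q 131 32)))))))

def tb31s_12 : Tr := (.sx 16 12288 (.sy 11 13312 (.sx 11 10240 (.cv (.q 130 33)) (.sy 11 12800 (.sx 11 11264 (.sy 0 12544 (.cv (.q 134 34)) (.cv (.q 130 33))) (.sy 11 12544 (.sx 11 11776 (.cv (.q 134 34)) (.sy 11 12416 (.sx 11 12032 (.sy 10 12352 (.sx 10 11904 (.cv (.q 134 34)) (.sy 10 12320 (.sx 10 11968 (.lf 1 0) (.sy 10 12304 (.lf 1 0) (.sx 10 12000 (.lf 1 0) (.sy 10 12312 (.lf 1 0) (.lf 10 0))))) (.cv (.q 134 34)))) (.cv (.q 134 34))) (.sy 11 12352 (.sx 11 12160 (.sy 11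 12320 (.lf 11 0) (.sx 11 12096 (.sy 8 12336 (.sx 8 12064 (.sy 8 12328 (.lf 8 0) (.cv (.q 134 34))) (.lf 3 0)) (.cv (.q 134 34))) (.sy 11 12336 (.lf 11 0) (.sx 11 12128 (.sy 11 12344 (.lf 11 0) (.cv (.q 134 34))) (.lf 0 0))))) (.lf 10 1)) (.sx 0 12160 (.sy 0 12384 (.sx 0 12096 (.cv (.q 134 34)) (.cv (.q 78 46))) (.cv (.q 134 34))) (.lf 0 1)))) (.cv (.q 134 34)))) (.cv (.q 134 34)))) (.cv (.q 130 33)))) (.sx 0 10240 (.sy 0 13824 (.cv (.q 130 33)) (.cv (.q 126 32))) (.cv (.q 130 33)))) (.sy 16 13312 (.sx 16 14336 (.sy 10 12800 tb31s_8 (.sx 9 13312 (.sy 0 13056 (.cv (.q 134 34)) (.cv (.q 130 33))) (.sy 9 13056 (.sx 9 13824 (.cv (.q 134 34)) (.sy 9 12928 (.sx 9 14080 (.sy 7 12864 (.sx 7 13952 (.sy 3 12832 (.lf 3 0) (.cv (.q 134 34))) (.sy 7 12832 (.lf 7 0) (.lf 7 0))) (.cv (.q 134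 34))) (.sy 9 12864 (.sx 1 14208 (.sy 1 12832 (.sx 1 14144 (.cv (.q 179 46)) (.lf 1 0)) (.lf 1 0)) (.sy 1 12832 (.lf 1 0) (.lf 1 0))) (.sx 9 14208 (.sy 1 12896 (.lf 1 0) (.cv (.q 134 34))) (.sy 9 12896 (.lf 9 0) (.lf 9 0))))) (.cv (.q 134 34)))) (.cv (.q 130 33))))) (.sy 16 12800 (.sx 16 15360 (.sy 16 12544 (.lf 16 0) (.sx 16 14848 (.sy 16 12672 (.lf 16 0) tb31s_9) (.lf 16 0))) (.sy 9 12544 (.cv (.q 127 32)) (.lf 9 0))) tb31s_11)) (.sx 0 14336 (.cv (.q 130 33)) (.sy 0 13824 (.sx 0 15360 (.cv (.q 130 33)) (.sy 0 13568 (.sx 0 15872 (.sy 0 13440 (.sx 0 15616 (.cv (.q 130 33)) (.cv (.q 131 32))) (.cv (.q 131 32))) (.cv (.q 131 32))) (.cv (.q 131 32)))) (.cv (.q 131 32))))))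

def tb31s_13 : Tr := (.sy 17 12288 (.sx 17 8192 (.sy 16 10240 tb31s_1 (.sx 0 4096 (.sy 0 11264 (.sx 0 2048 (.cv (.q 130 33)) (.sy 0 10752 (.sx 0 3072 (.sy 0 10496 (.sx 0 2560 (.sy 0 10368 (.cv (.q 129 32)) (.cv (.q 130 33))) (.cv (.q 134 34))) (.cv (.q 130 33))) (.sy 0 10496 (.cv (.q 134 34)) (.sx 0 3584 (.sy 0 10624 (.cv (.q 119 30)) (.cv (.q 130 33))) (.cv (.q 134 34))))) (.cv (.q 130 33)))) (.sx 0 2048 (.cv (.q 126 32)) (.cv (.q 126 33)))) (.sy 0 11264 (.sx 0 6144 (.sy 0 10752 (.sx 0 5120 (.sy 0 10496 (.cv (.q 122 34)) (.sx 0 4608 (.cv (.q 134 34)) (.sy 0 10624 (.cv (.q 137 30)) (.cv (.q 126 33))))) (.sy 0 10496 (.sx 0 5632 (.cv (.q 122 34)) (.sy 0 10368 (.cv (.q 127 32)) (.cv (.q 126 33)))) (.cv (.q 126 33)))) (.cv (.q 126 33))) (.cv (.q 126 33))) (.sx 0 6144 (.cv (.q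 130 33)) (.cv (.q 130 32)))))) tb31s_3) (.sx 16 8192 tb31s_7 (.sy 16 14336 tb31s_12 (.sx 1 12288 (.sy 1 15360 (.sx 1 10240 (.sy 1 14848 (.cv (.q 126 32)) (.sx 1 9216 (.sy 1 15104 (.sx 1 8704 (.lf 0 0) (.sy 1 14976 (.cv (.q 126 32)) (.lf 1 0))) (.cv (.q 122 31))) (.sy 1 15104 (.cv (.q 126 32)) (.sx 1 9728 (.sy 1 15232 (.lf 1 0) (.cv (.q 131 32))) (.cv (.q 131 32)))))) (.cv (.q 126 32))) (.sx 0 10240 (.sy 0 15872 (.sx 0 9216 (.sy 0 15616 (.sx 0 8704 (.sy 0 15488 (.sx 0 8448 (.sy 0 15424 (.cv (.q 122 31)) (.cv (.q 131 32))) (.cv (.q 131 32))) (.cv (.q 131 32))) (.cv (.q 131 32))) (.cv (.q 131 32))) (.cv (.q 131 32))) (.cv (.q 129 33))) (.sy 0 15872 (.sx 0 11264 (.cv (.q 131 32)) (.sy 0 15616 (.cv (.q 131 32)) (.sx 0 11776 (.cv (.q 131 32)) (.sy 0 15744 (.cv (.q 131 32)) (.cv (.q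 128 33)))))) (.cv (.q 128 33))))) (.sy 0 15360 (.cv (.q 130 33)) (.sx 0 14336 (.sy 0 15872 (.cv (.q 126 32)) (.cv (.q 128 33))) (.cv (.q 126 32))))))))

/-- root tree for the class (3, 1). -/
def tb31 : Tr := (.sy 17 8192 (.cv (.q 128 32)) tb31s_13)

end Pool.Agent.H222R3.EW
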