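import Pool.Agent.H222R3.EW.CoreA
import Pool.Agent.H222R3.EW.CoreB

/-! The weighted norm in terms of the integer `X² - 14 Y²`. -/

set_option autoImplicit false

namespace Pool.Agent.H222R3.EW

/-- `|M| (c/2)^{v₂(M)}`. -/
noncomputable def g (c : ℝ) (M : ℤ) : ℝ := |(M : ℝ)| * (c / 2) ^ (padicValInt 2 M)

lemma g_zero (c : ℝ) : g c 0 = 0 := by simp [g]

lemma g_mul (c : ℝ) (M N : ℤ) (hM : M ≠ 0) (hN : N ≠ 0) : g c (M * N) = g c M * g c N := by
  unfold g
  rw [padicValInt.mul hM hN, pow_add]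
  push_cast
  rw [abs_mul]
  ring

lemma g_mul' (c : ℝ) (M N : ℤ) (hM : M ≠ 0) : g c (M * N) = g c M * g c N := by
  by_cases hN : N = 0
  · subst hN; rw [mul_zero, g_zero, mul_zero]
  · exact g_mul c M N hM hN

lemma g_nonneg (c : ℝ) (hc : 0 ≤ c) (M : ℤ) : 0 ≤ g c M := by unfold g; positivity

lemma g_pos (c : ℝ) (hc : 0 < c) (M : ℤ) (hM : M ≠ 0) : 0 < g c M := by
  unfold g
  have : (0 : ℝ) < |(M : ℝ)| := abs_pos.2 (by exact_mod_cast hM)
  positivity

lemma g_neg (c : ℝ) (M : ℤ) : g c (-M) = g c M := by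
  unfold g
  have : padicValInt 2 (-M) = padicValInt 2 M := by unfold padicValInt; rw [Int.natAbs_neg]
  rw [this]; push_cast; rw [abs_neg]

lemma pv_eq (M : ℤ) (w : ℕ) (h1 : (2 : ℤ) ^ w ∣ M) (h2 : ¬ (2 : ℤ) ^ (w + 1) ∣ M) :
    padicValInt 2 M = w := by
  have : Fact (Nat.Prime 2) := ⟨Nat.prime_two⟩
  have hM : M ≠ 0 := by rintro rfl; exact h2 (dvd_zero _)
  have a1 := (padicValInt_dvd_iff (p := 2) w M).1 (by exact_mod_cast h1)
  have a2 : ¬ (w + 1 ≤ padicValInt 2 M) := fun h =>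
    h2 (by exact_mod_cast (padicValInt_dvd_iff (p := 2) (w + 1) M).2 (Or.inr h))
  rcases a1 with a1 | a1
  · exact absurd a1 hM
  · omega

lemma pv_le (M : ℤ) (_hM : M ≠ 0) (w : ℕ) (h : w ≤ padicValInt 2 M) : (2 : ℤ) ^ w ∣ M := by
  have : Fact (Nat.Prime 2) := ⟨Nat.prime_two⟩
  exact_mod_cast (padicValInt_dvd_iff (p := 2) w M).2 (Or.inr h)

lemma pv_lt (M : ℤ) (hM : M ≠ 0) : ¬ (2 : ℤ) ^ (padicValInt 2 M + 1) ∣ M := by
  have : Fact (Nat.Prime 2) := ⟨Nat.prime_two⟩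
  intro h
  have := (padicValInt_dvd_iff (p := 2) (padicValInt 2 M + 1) M).1 (by exact_mod_cast h)
  rcases this with h | h
  · exact hM h
  · omega

lemma norm_ne_zero (X Y : ℤ) (h : X ^ 2 - 14 * Y ^ 2 = 0) : X = 0 ∧ Y = 0 := by
  have key : ∀ m : ℕ, ∀ X Y : ℤ, X.natAbs + Y.natAbs ≤ m → X ^ 2 - 14 * Y ^ 2 = 0 →
      X = 0 ∧ Y = 0 := by
    intro m
    induction m with
    | zero => intro X Y hm _; omega
    | succ m ih =>
      intro X Y hm h
      have hX : X % 2 = 0 := by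
        rcases Int.emod_two_eq_zero_or_one X with h' | h'
        · exact h'
        · exfalso
          obtain ⟨k, hk⟩ : ∃ k, X = 2 * k + 1 := ⟨X / 2, by omega⟩
          rw [hk] at h
          have : 2 * (2 * k ^ 2 + 2 * k - 7 * Y ^ 2) = -1 := by linarith
          omega
      obtain ⟨a, ha⟩ : ∃ a, X = 2 * a := ⟨X / 2, by omega⟩
      have hY : Y % 2 = 0 := by
        rcases Int.emod_two_eq_zero_or_one Y with h' | h'
        · exact h'
        · exfalso
          obtain ⟨k, hk⟩ : ∃ k, Y = 2 * k + 1 := ⟨Y / 2, by omega⟩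
          rw [hk, ha] at h
          have : 2 * (a ^ 2 - 14 * k ^ 2 - 14 * k) = 7 := by linarith
          omega
      obtain ⟨b, hb⟩ : ∃ b, Y = 2 * b := ⟨Y / 2, by omega⟩
      by_cases h0 : X = 0 ∧ Y = 0
      · exact h0
      · have h1 : a ^ 2 - 14 * b ^ 2 = 0 := by
          rw [ha, hb] at h; linarith
        have := ih a b (by omega) h1
        omega
  exact key _ X Y le_rfl h

/-- divisibility of the coordinates by powers of the prime above `2`. -/
lemma half (k : ℕ) : ∀ A B : ℤ, ((4 : ℤ) ^ k ∣ A ^ 2 - 14 * B ^ 2 → (2 : ℤ) ^ k ∣ A ∧ (2 : ℤ) ^ k ∣ B) ∧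
    (2 * (4 : ℤ) ^ k ∣ A ^ 2 - 14 * B ^ 2 → (2 : ℤ) ^ (k + 1) ∣ A ∧ (2 : ℤ) ^ k ∣ B) := by
  induction k with
  | zero =>
    intro A B
    constructor
    · intro _; exact ⟨by simp, by simp⟩
    · intro h
      simp only [pow_zero, mul_one, zero_add, pow_one] at h ⊢
      refine ⟨?_, one_dvd _⟩
      obtain ⟨c, hc⟩ := h
      rcases Int.emod_two_eq_zero_or_one A with h' | h'
      · omega
      · exfalso
        obtain ⟨k, hk⟩ : ∃ k, A = 2 * k + 1 := ⟨A / 2, by omega⟩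
        rw [hk] at hc
        have : 2 * (2 * k ^ 2 + 2 * k - 7 * B ^ 2 - c) = -1 := by linarith
        omega
  | succ k ih =>
    intro A B
    have main : (4 : ℤ) ∣ A ^ 2 - 14 * B ^ 2 → ∃ a b, A = 2 * a ∧ B = 2 * b := by
      rintro ⟨c, hc⟩
      have hA : A % 2 = 0 := by
        rcases Int.emod_two_eq_zero_or_one A with h' | h'
        · exact h'
        · exfalso
          obtain ⟨k, hk⟩ : ∃ k, A = 2 * k + 1 := ⟨A / 2, by omega⟩
          rw [hk] at hc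
          have : 2 * (2 * k ^ 2 + 2 * k - 7 * B ^ 2 - 2 * c) = -1 := by linarith
          omega
      obtain ⟨a, ha⟩ : ∃ a, A = 2 * a := ⟨A / 2, by omega⟩
      have hB : B % 2 = 0 := by
        rcases Int.emod_two_eq_zero_or_one B with h' | h'
        · exact h'
        · exfalso
          obtain ⟨k, hk⟩ : ∃ k, B = 2 * k + 1 := ⟨B / 2, by omega⟩
          rw [hk, ha] at hc
          have : 2 * (a ^ 2 - 14 * k ^ 2 - 14 * k - c) = 7 := by linarith
          omega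
      exact ⟨a, B / 2, ha, by omega⟩
    constructor
    · intro h
      obtain ⟨a, b, ha, hb⟩ := main ((Dvd.intro_left _ (by rw [pow_succ]) : (4 : ℤ) ∣ 4 ^ (k + 1)).trans h)
      have h1 : (4 : ℤ) ^ k ∣ a ^ 2 - 14 * b ^ 2 := by
        have : (4 : ℤ) * 4 ^ k ∣ 4 * (a ^ 2 - 14 * b ^ 2) := by
          have e : (4 : ℤ) * (a ^ 2 - 14 * b ^ 2) = A ^ 2 - 14 * B ^ 2 := by rw [ha, hb]; ring
          rw [e, ← pow_succ']; exact h
        exact (mul_dvd_mul_iff_left (by norm_num)).1 this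
      obtain ⟨h2, h3⟩ := (ih a b).1 h1
      rw [ha, hb, pow_succ']
      exact ⟨mul_dvd_mul_left 2 h2, mul_dvd_mul_left 2 h3⟩
    · intro h
      have h4 : (4 : ℤ) ∣ 2 * 4 ^ (k + 1) := ⟨2 * 4 ^ k, by rw [pow_succ]; ring⟩
      obtain ⟨a, b, ha, hb⟩ := main (h4.trans h)
      have h1 : 2 * (4 : ℤ) ^ k ∣ a ^ 2 - 14 * b ^ 2 := by
        have : (4 : ℤ) * (2 * 4 ^ k) ∣ 4 * (a ^ 2 - 14 * b ^ 2) := by
          have e : (4 : ℤ) * (a ^ 2 - 14 * b ^ 2) = A ^ 2 - 14 * B ^ 2 := by rw [ha, hb]; ring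
          have e2 : (4 : ℤ) * (2 * 4 ^ k) = 2 * 4 ^ (k + 1) := by rw [pow_succ]; ring
          rw [e, e2]; exact h
        exact (mul_dvd_mul_iff_left (by norm_num)).1 this
      obtain ⟨h2, h3⟩ := (ih a b).2 h1
      constructor
      · rw [ha, pow_succ']; exact mul_dvd_mul_left 2 h2
      · rw [hb, pow_succ']; exact mul_dvd_mul_left 2 h3

/-- thresholds versus valuation. -/
lemma thb_val (X Y : ℤ) : (THB X Y : ℝ) * (28 / 25 : ℝ) ^ padicValInt 2 (X ^ 2 - 14 * Y ^ 2)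
    ≤ (16384 : ℝ) ^ 2 := by
  unfold THB
  by_cases a : X % 2 = 1
  · rw [if_pos a]
    obtain ⟨k, hk⟩ : ∃ k, X = 2 * k + 1 := ⟨X / 2, by omega⟩
    have : padicValInt 2 (X ^ 2 - 14 * Y ^ 2) = 0 := by
      apply pv_eq
      · simp
      · rintro ⟨c, hc⟩
        rw [hk] at hc
        norm_num at hc
        have : 2 * (2 * k ^ 2 + 2 * k - 7 * Y ^ 2 - c) = -1 := by linarith
        omega
    rw [this]; norm_num
  · rw [if_neg a]
    obtain ⟨x, hx⟩ : ∃ x, X = 2 * x := ⟨X / 2, by omega⟩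
    by_cases b : Y % 2 = 1
    · rw [if_pos b]
      obtain ⟨k, hk⟩ : ∃ k, Y = 2 * k + 1 := ⟨Y / 2, by omega⟩
      have : padicValInt 2 (X ^ 2 - 14 * Y ^ 2) = 1 := by
        apply pv_eq
        · exact ⟨2 * x ^ 2 - 7 * (2 * k + 1) ^ 2, by rw [hx, hk]; ring⟩
        · rintro ⟨c, hc⟩
          rw [hk, hx] at hc
          norm_num at hc
          have : 2 * (x ^ 2 - 14 * k ^ 2 - 14 * k - c) = 7 := by linarith
          omega
      rw [this]; norm_num
    · rw [if_neg b]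
      obtain ⟨y, hy⟩ : ∃ y, Y = 2 * y := ⟨Y / 2, by omega⟩
      by_cases d : X % 4 = 2
      · rw [if_pos d]
        obtain ⟨k, hk⟩ : ∃ k, X = 4 * k + 2 := ⟨X / 4, by omega⟩
        have : padicValInt 2 (X ^ 2 - 14 * Y ^ 2) = 2 := by
          apply pv_eq
          · exact ⟨(2 * k + 1) ^ 2 - 14 * y ^ 2, by rw [hk, hy]; ring⟩
          · rintro ⟨c, hc⟩
            rw [hk, hy] at hc
            norm_num at hc
            have : 2 * (2 * k ^ 2 + 2 * k - 7 * y ^ 2 - c) = -1 := by linarith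
            omega
        rw [this]; norm_num
      · rw [if_neg d]
        obtain ⟨x, hx⟩ : ∃ x, X = 4 * x := ⟨X / 4, by omega⟩
        by_cases e : Y % 4 = 2
        · rw [if_pos e]
          obtain ⟨k, hk⟩ : ∃ k, Y = 4 * k + 2 := ⟨Y / 4, by omega⟩
          have : padicValInt 2 (X ^ 2 - 14 * Y ^ 2) = 3 := by
            apply pv_eq
            · exact ⟨2 * x ^ 2 - 7 * (2 * k + 1) ^ 2, by rw [hx, hk]; ring⟩
            · rintro ⟨c, hc⟩
              rw [hk, hx] at hc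
              norm_num at hc
              have : 2 * (x ^ 2 - 14 * k ^ 2 - 14 * k - c) = 7 := by linarith
              omega
          rw [this]; norm_num
        · rw [if_neg e]
          obtain ⟨y, hy⟩ : ∃ y, Y = 4 * y := ⟨Y / 4, by omega⟩
          by_cases f : X % 8 = 4
          · rw [if_pos f]
            obtain ⟨k, hk⟩ : ∃ k, X = 8 * k + 4 := ⟨X / 8, by omega⟩
            have : padicValInt 2 (X ^ 2 - 14 * Y ^ 2) = 4 := by
              apply pv_eq
              · exact ⟨(2 * k + 1) ^ 2 - 14 * y ^ 2, by rw [hk, hy]; ring⟩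
              · rintro ⟨c, hc⟩
                rw [hk, hy] at hc
                norm_num at hc
                have : 2 * (2 * k ^ 2 + 2 * k - 7 * y ^ 2 - c) = -1 := by linarith
                omega
            rw [this]; norm_num
          · rw [if_neg f]
            norm_num

/-- odd denominators, `n ≡ 1 mod 8`. -/
lemma good_odd8 (c : ℝ) (hc0 : 0 < c) (hc1 : c ≤ 56 / 25) (n : ℤ) (hn : 0 < n) (hn8 : n % 8 = 1)
    (A B : ℤ) : ∃ q0 q1 : ℤ, g c ((A - n * q0) ^ 2 - 14 * (B - n * q1) ^ 2) < (n : ℝ) ^ 2 := by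
  by_contra hcon
  push Not at hcon
  have hbad : Bad THB n A B := by
    intro q0 q1
    have h := hcon q0 q1
    set X := A - n * q0
    set Y := B - n * q1
    set M := X ^ 2 - 14 * Y ^ 2 with hM
    unfold g at h
    have hv := thb_val X Y
    rw [← hM] at hv
    have hpow : (c / 2) ^ padicValInt 2 M ≤ (28 / 25 : ℝ) ^ padicValInt 2 M :=
      pow_le_pow_left₀ (by positivity) (by linarith) _
    have h2 : (n : ℝ) ^ 2 ≤ |(M : ℝ)| * (28 / 25 : ℝ) ^ padicValInt 2 M :=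
      h.trans (mul_le_mul_of_nonneg_left hpow (abs_nonneg _))
    have h3 : (THB X Y : ℝ) * (n : ℝ) ^ 2 ≤ (16384 : ℝ) ^ 2 * |(M : ℝ)| := by
      calc (THB X Y : ℝ) * (n : ℝ) ^ 2
          ≤ (THB X Y : ℝ) * (|(M : ℝ)| * (28 / 25 : ℝ) ^ padicValInt 2 M) :=
            mul_le_mul_of_nonneg_left h2 (Nat.cast_nonneg _)
        _ = ((THB X Y : ℝ) * (28 / 25 : ℝ) ^ padicValInt 2 M) * |(M : ℝ)| := by ring
        _ ≤ (16384 : ℝ) ^ 2 * |(M : ℝ)| := mul_le_mul_of_nonneg_right hv (abs_nonneg _)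
    have hU : (U : ℤ) = 16384 := rfl
    rw [hU]
    exact_mod_cast h3
  obtain ⟨⟨a, ha⟩, ⟨b, hb⟩⟩ := coreB n hn hn8 A B hbad
  have := hcon a b
  rw [ha, hb] at this
  have e : (n * a - n * a) ^ 2 - 14 * (n * b - n * b) ^ 2 = (0 : ℤ) := by ring
  rw [e, g_zero] at this
  have hn' : (0 : ℝ) < n := by exact_mod_cast hn
  have : (0 : ℝ) < (n : ℝ) ^ 2 := by positivity
  linarith

lemma g_odd (c : ℝ) (n : ℤ) (hn : n % 2 = 1) : g c (n ^ 2) = (n : ℝ) ^ 2 := by
  unfold g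
  have : padicValInt 2 (n ^ 2) = 0 := by
    apply pv_eq
    · simp
    · rintro ⟨k, hk⟩
      obtain ⟨m, hm⟩ : ∃ m, n = 2 * m + 1 := ⟨n / 2, by omega⟩
      rw [hm] at hk
      have : 2 * (2 * m ^ 2 + 2 * m - k) = -1 := by
        norm_num at hk; linarith
      omega
  rw [this]
  push_cast
  rw [pow_zero, mul_one, abs_of_nonneg (by positivity)]

lemma good_odd (c : ℝ) (hc0 : 0 < c) (hc1 : c ≤ 56 / 25) (n : ℤ) (hn : 0 < n) (hn2 : n % 2 = 1)
    (A B : ℤ) : ∃ q0 q1 : ℤ, g c ((A - n * q0) ^ 2 - 14 * (B - n * q1) ^ 2) < (n : ℝ) ^ 2 := by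
  have h8 : (n * n) % 8 = 1 := by
    have : n % 8 = 1 ∨ n % 8 = 3 ∨ n % 8 = 5 ∨ n % 8 = 7 := by omega
    rcases this with h | h | h | h <;> simp [Int.mul_emod, h]
  obtain ⟨q0, q1, h⟩ := good_odd8 c hc0 hc1 (n * n) (by positivity) h8 (n * A) (n * B)
  refine ⟨q0, q1, ?_⟩
  have e : (n * A - n * n * q0) ^ 2 - 14 * (n * B - n * n * q1) ^ 2
      = n ^ 2 * ((A - n * q0) ^ 2 - 14 * (B - n * q1) ^ 2) := by ring
  rw [e, g_mul' c _ _ (by positivity), g_odd c n hn2] at h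
  push_cast at h
  have hn' : (0 : ℝ) < n := by exact_mod_cast hn
  have h2 : (0 : ℝ) < (n : ℝ) ^ 2 := by positivity
  have h3 : ((n : ℝ) * n) ^ 2 = (n : ℝ) ^ 2 * (n : ℝ) ^ 2 := by ring
  rw [h3] at h
  exact lt_of_mul_lt_mul_left h h2.le

/-- the valuation does not change under translation for points that are not `2`-integral. -/
lemma val_trans (n A B : ℤ) (hn : n ≠ 0) (h : padicValInt 2 (A ^ 2 - 14 * B ^ 2) < 2 * padicValInt 2 n)
    (h0 : A ^ 2 - 14 * B ^ 2 ≠ 0) (q0 q1 : ℤ) :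
    padicValInt 2 ((A - n * q0) ^ 2 - 14 * (B - n * q1) ^ 2) = padicValInt 2 (A ^ 2 - 14 * B ^ 2) := by
  set w := padicValInt 2 (A ^ 2 - 14 * B ^ 2) with hw
  set e := padicValInt 2 n with he
  have hM := pv_le _ h0 w (by rw [hw])
  have hM2 : ¬ (2 : ℤ) ^ (w + 1) ∣ A ^ 2 - 14 * B ^ 2 := by rw [hw]; exact pv_lt _ h0
  have hne := pv_le n hn e (by rw [he])
  obtain ⟨n1, hn1⟩ := hne
  -- the difference
  have hdiff : (2 : ℤ) ^ (w + 1) ∣ ((A - n * q0) ^ 2 - 14 * (B - n * q1) ^ 2) - (A ^ 2 - 14 * B ^ 2) := by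
    have e1 : ((A - n * q0) ^ 2 - 14 * (B - n * q1) ^ 2) - (A ^ 2 - 14 * B ^ 2)
        = n ^ 2 * (q0 ^ 2 - 14 * q1 ^ 2) - 2 * n * A * q0 + 28 * n * B * q1 := by ring
    rw [e1]
    have d1 : (2 : ℤ) ^ (w + 1) ∣ n ^ 2 * (q0 ^ 2 - 14 * q1 ^ 2) := by
      apply Dvd.dvd.mul_right
      rw [hn1, mul_pow, ← pow_mul]
      apply Dvd.dvd.mul_right
      exact pow_dvd_pow 2 (by omega)
    rcases Nat.even_or_odd' w with ⟨k, hk | hk⟩
    · obtain ⟨⟨a, ha⟩, ⟨b, hb⟩⟩ := (half k A B).1 (by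
        have : (4 : ℤ) ^ k = 2 ^ w := by rw [hk, pow_mul]; norm_num
        rw [this]; exact hM)
      have d2 : (2 : ℤ) ^ (w + 1) ∣ 2 * n * A * q0 := by
        have : 2 * n * A * q0 = 2 ^ (1 + e + k) * (n1 * a * q0) := by
          rw [hn1, ha, pow_add, pow_add]; ring
        rw [this]
        exact Dvd.dvd.mul_right (pow_dvd_pow 2 (by omega)) _
      have d3 : (2 : ℤ) ^ (w + 1) ∣ 28 * n * B * q1 := by
        have : 28 * n * B * q1 = 2 ^ (2 + e + k) * (7 * n1 * b * q1) := by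
          rw [hn1, hb, pow_add, pow_add]; ring
        rw [this]
        exact Dvd.dvd.mul_right (pow_dvd_pow 2 (by omega)) _
      exact (d1.sub d2).add d3
    · obtain ⟨⟨a, ha⟩, ⟨b, hb⟩⟩ := (half k A B).2 (by
        have : 2 * (4 : ℤ) ^ k = 2 ^ w := by rw [hk, pow_succ, pow_mul]; norm_num; ring
        rw [this]; exact hM)
      have d2 : (2 : ℤ) ^ (w + 1) ∣ 2 * n * A * q0 := by
        have : 2 * n * A * q0 = 2 ^ (1 + e + (k + 1)) * (n1 * a * q0) := by
          rw [hn1, ha, pow_add, pow_add]; ring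
        rw [this]
        exact Dvd.dvd.mul_right (pow_dvd_pow 2 (by omega)) _
      have d3 : (2 : ℤ) ^ (w + 1) ∣ 28 * n * B * q1 := by
        have : 28 * n * B * q1 = 2 ^ (2 + e + k) * (7 * n1 * b * q1) := by
          rw [hn1, hb, pow_add, pow_add]; ring
        rw [this]
        exact Dvd.dvd.mul_right (pow_dvd_pow 2 (by omega)) _
      exact (d1.sub d2).add d3
  apply pv_eq
  · have h1 : (2 : ℤ) ^ w ∣ ((A - n * q0) ^ 2 - 14 * (B - n * q1) ^ 2) - (A ^ 2 - 14 * B ^ 2) :=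
      (pow_dvd_pow 2 (Nat.le_succ w)).trans hdiff
    have := h1.add hM
    simpa using this
  · intro hc
    apply hM2
    have := hc.sub hdiff
    simpa using this

/-- Euclidean property in integer form. -/
theorem good (c : ℝ) (hc0 : Real.sqrt 5 < c) (hc1 : c ≤ 56 / 25) (n : ℤ) (hn : 0 < n) (A B : ℤ) :
    ∃ q0 q1 : ℤ, g c ((A - n * q0) ^ 2 - 14 * (B - n * q1) ^ 2) < g c (n ^ 2) := by
  have hcpos : 0 < c := lt_of_le_of_lt (Real.sqrt_nonneg 5) hc0
  have hc5 : 5 < c ^ 2 := by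
    have h1 : Real.sqrt 5 ^ 2 = 5 := Real.sq_sqrt (by norm_num)
    have h2 := Real.sqrt_nonneg 5
    nlinarith
  have hc2 : (1.118 : ℝ) * 2 < c := by
    by_contra hh
    push Not at hh
    nlinarith
  have hnn : (n : ℤ) ≠ 0 := hn.ne'
  have hnr : (0 : ℝ) < n := by exact_mod_cast hn
  have : Fact (Nat.Prime 2) := ⟨Nat.prime_two⟩
  have hpvn : padicValInt 2 (n ^ 2) = 2 * padicValInt 2 n := by
    rw [sq, padicValInt.mul hnn hnn]; ring
  by_cases h0 : A ^ 2 - 14 * B ^ 2 = 0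
  · refine ⟨0, 0, ?_⟩
    have e : (A - n * 0) ^ 2 - 14 * (B - n * 0) ^ 2 = A ^ 2 - 14 * B ^ 2 := by ring
    rw [e, h0, g_zero]
    exact g_pos c hcpos _ (by positivity)
  by_cases hw : padicValInt 2 (A ^ 2 - 14 * B ^ 2) < 2 * padicValInt 2 n
  · -- not integral at 2
    set w := padicValInt 2 (A ^ 2 - 14 * B ^ 2) with hwdef
    have hgn : g c (n ^ 2) = (n : ℝ) ^ 2 * (c / 2) ^ (2 * padicValInt 2 n) := by
      unfold g; rw [hpvn]; push_cast; rw [abs_of_nonneg (by positivity)]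
    have hgM : ∀ q0 q1 : ℤ, g c ((A - n * q0) ^ 2 - 14 * (B - n * q1) ^ 2)
        = |(((A - n * q0) ^ 2 - 14 * (B - n * q1) ^ 2 : ℤ) : ℝ)| * (c / 2) ^ w := by
      intro q0 q1
      unfold g
      rw [val_trans n A B hnn hw h0 q0 q1]
    have hc21 : (1 : ℝ) < c / 2 := by linarith
    by_cases hbad : Bad (fun _ _ => 300110839) n A B
    · obtain ⟨a, b, ha, hb⟩ := coreA n hn A B hbad
      -- choose q with 2(A - n q0) = 3 n, 2 (B - n q1) = n
      refine ⟨a - 1, b, ?_⟩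
      have e1 : 2 * (A - n * (a - 1)) = 3 * n := by linear_combination ha
      have e2 : 2 * (B - n * b) = n := by linear_combination hb
      have e3 : 4 * ((A - n * (a - 1)) ^ 2 - 14 * (B - n * b) ^ 2) = -5 * n ^ 2 := by
        have : 4 * ((A - n * (a - 1)) ^ 2 - 14 * (B - n * b) ^ 2)
          = (2 * (A - n * (a - 1))) ^ 2 - 14 * (2 * (B - n * b)) ^ 2 := by ring
        rw [this, e1, e2]; ring
      have hwv : w = padicValInt 2 ((A - n * (a - 1)) ^ 2 - 14 * (B - n * b) ^ 2) :=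
        (val_trans n A B hnn hw h0 _ _).symm
      set M := (A - n * (a - 1)) ^ 2 - 14 * (B - n * b) ^ 2 with hM
      have hM0 : M ≠ 0 := by
        intro hM0
        rw [hM0] at e3
        have : n ^ 2 > 0 := by positivity
        omega
      have hval : w + 2 ≤ 2 * padicValInt 2 n := by
        have h5 : padicValInt 2 (4 * M) = 2 + w := by
          rw [padicValInt.mul (by norm_num) hM0, ← hwv]
          have : padicValInt 2 4 = 2 := pv_eq 4 2 (by norm_num) (by norm_num)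
          rw [this]
        have h6 : padicValInt 2 (-5 * n ^ 2) = 2 * padicValInt 2 n := by
          rw [padicValInt.mul (by norm_num) (by positivity), hpvn]
          have : padicValInt 2 (-5) = 0 := pv_eq (-5) 0 (by norm_num) (by norm_num)
          rw [this, zero_add]
        rw [e3, h6] at h5
        omega
      rw [hgM, hgn, ← hM]
      have hMr : |(M : ℝ)| = 5 / 4 * (n : ℝ) ^ 2 := by
        have : (4 : ℝ) * M = -5 * (n : ℝ) ^ 2 := by exact_mod_cast e3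
        have h7 : (M : ℝ) = -(5 / 4 * (n : ℝ) ^ 2) := by linarith
        rw [h7, abs_neg, abs_of_nonneg (by positivity)]
      rw [hMr]
      obtain ⟨d, hd⟩ : ∃ d, 2 * padicValInt 2 n = w + 2 + d := ⟨_, (Nat.add_sub_cancel' hval).symm⟩
      rw [hd, pow_add, pow_add]
      have p1 : (0 : ℝ) < (c / 2) ^ w := by positivity
      have p2 : (1 : ℝ) ≤ (c / 2) ^ d := one_le_pow₀ hc21.le
      have p3 : (5 / 4 : ℝ) < (c / 2) ^ 2 := by
        rw [div_pow]; linarith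
      calc 5 / 4 * (n : ℝ) ^ 2 * (c / 2) ^ w < (c / 2) ^ 2 * (n : ℝ) ^ 2 * (c / 2) ^ w := by
            apply mul_lt_mul_of_pos_right _ p1
            exact mul_lt_mul_of_pos_right p3 (by positivity)
        _ ≤ (c / 2) ^ 2 * (n : ℝ) ^ 2 * (c / 2) ^ w * (c / 2) ^ d :=
            le_mul_of_one_le_right (by positivity) p2
        _ = (n : ℝ) ^ 2 * ((c / 2) ^ w * (c / 2) ^ 2 * (c / 2) ^ d) := by ring
    · unfold Bad at hbad
      push Not at hbad
      obtain ⟨q0, q1, hq⟩ := hbad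
      refine ⟨q0, q1, ?_⟩
      rw [hgM, hgn]
      set M := (A - n * q0) ^ 2 - 14 * (B - n * q1) ^ 2 with hM
      have hU : (U : ℤ) = 16384 := rfl
      rw [hU] at hq
      have hq' : (16384 : ℝ) ^ 2 * |(M : ℝ)| < 300110839 * (n : ℝ) ^ 2 := by exact_mod_cast hq
      have h1 : |(M : ℝ)| < (c / 2) * (n : ℝ) ^ 2 := by
        have : (0 : ℝ) < (n : ℝ) ^ 2 := by positivity
        nlinarith
      obtain ⟨d, hd⟩ : ∃ d, 2 * padicValInt 2 n = w + 1 + d := ⟨2 * padicValInt 2 n - (w + 1), by omega⟩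
      rw [hd, pow_add, pow_add, pow_one]
      have p1 : (0 : ℝ) < (c / 2) ^ w := by positivity
      have p2 : (1 : ℝ) ≤ (c / 2) ^ d := one_le_pow₀ hc21.le
      calc |(M : ℝ)| * (c / 2) ^ w < (c / 2) * (n : ℝ) ^ 2 * (c / 2) ^ w :=
            mul_lt_mul_of_pos_right h1 p1
        _ ≤ (c / 2) * (n : ℝ) ^ 2 * (c / 2) ^ w * (c / 2) ^ d :=
            le_mul_of_one_le_right (by positivity) p2
        _ = (n : ℝ) ^ 2 * ((c / 2) ^ w * (c / 2) * (c / 2) ^ d) := by ring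
  · -- integral at 2
    push Not at hw
    set e := padicValInt 2 n with he
    have h4 : (4 : ℤ) ^ e ∣ A ^ 2 - 14 * B ^ 2 := by
      have : (4 : ℤ) ^ e = 2 ^ (2 * e) := by rw [pow_mul]; norm_num
      rw [this]
      exact pv_le _ h0 _ hw
    obtain ⟨⟨a, ha⟩, ⟨b, hb⟩⟩ := (half e A B).1 h4
    obtain ⟨n1, hn1⟩ := pv_le n hnn e (by rw [he])
    have hn1odd : n1 % 2 = 1 := by
      by_contra hh
      have : n1 % 2 = 0 := by omega
      obtain ⟨m, hm⟩ : ∃ m, n1 = 2 * m := ⟨n1 / 2, by omega⟩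
      apply pv_lt n hnn
      rw [← he]
      exact ⟨m, by rw [pow_succ]; rw [hm] at hn1; linear_combination hn1⟩
    have h2e : (0 : ℤ) < 2 ^ e := by positivity
    have hn1pos : 0 < n1 := by
      by_contra hh
      push Not at hh
      have : n ≤ 0 := by rw [hn1]; exact mul_nonpos_of_nonneg_of_nonpos h2e.le hh
      omega
    obtain ⟨q0, q1, hq⟩ := good_odd c hcpos hc1 n1 hn1pos hn1odd a b
    refine ⟨q0, q1, ?_⟩
    have e1 : (A - n * q0) ^ 2 - 14 * (B - n * q1) ^ 2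
        = (2 ^ e) ^ 2 * ((a - n1 * q0) ^ 2 - 14 * (b - n1 * q1) ^ 2) := by
      rw [ha, hb]
      linear_combination (-(2 ^ e * a) * q0 * 2 + q0 ^ 2 * (n + 2 ^ e * n1) + 28 * (2 ^ e * b) * q1 - 14 * q1 ^ 2 * (n + 2 ^ e * n1)) * hn1
    have e2 : n ^ 2 = (2 ^ e) ^ 2 * n1 ^ 2 := by rw [← mul_pow, ← hn1]
    rw [e1, e2, g_mul' c _ _ (by positivity), g_mul' c _ _ (by positivity), g_odd c n1 hn1odd]
    exact mul_lt_mul_of_pos_left hq (g_pos c hcpos _ (by positivity))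

end Pool.Agent.H222R3.EW
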