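import Pool.Agent.H419R2.A1
import Pool.Agent.H222R3.EW.WNorm

/-! Weighted norms on the ring of integers of `ℚ(√14)`. -/

set_option autoImplicit false

open NumberField

namespace Pool.Agent.H222R3.EW

section defs

variable {K : Type*} [Field K] [NumberField K]

open scoped Classical in
/-- The weight of an ideal of `𝓞 K`: the multiplicative function with value `c` at the prime `p`
and value `N q` at every prime `q ≠ p` (product over the prime factorisation). -/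
noncomputable def weight (p : Ideal (𝓞 K)) (c : ℝ) (I : Ideal (𝓞 K)) : ℝ :=
  ((UniqueFactorizationMonoid.normalizedFactors I).map
    (fun q => if q = p then c else (Ideal.absNorm q : ℝ))).prod

open scoped Classical in
/-- The weighted norm `f_{p,c}` on `𝓞 K`. -/
noncomputable def wnorm (p : Ideal (𝓞 K)) (c : ℝ) (α : 𝓞 K) : ℝ :=
  if α = 0 then 0 else weight p c (Ideal.span {α})

/-- Euclidean functions in the sense of the problem. -/
structure IsEuclideanFunction (f : 𝓞 K → ℝ) : Prop where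
  nonneg : ∀ r, 0 ≤ f r
  finite : ∀ l : ℝ, 0 ≤ l → (Set.range f ∩ Set.Icc 0 l).Finite
  zero : ∀ r, f r = 0 ↔ r = 0
  div : ∀ a b : 𝓞 K, b ≠ 0 → ∃ q : 𝓞 K, f (a - b * q) < f b

/-- The Euclidean window of `p`. -/
def window (p : Ideal (𝓞 K)) : Set ℝ :=
  {c | 0 < c ∧ IsEuclideanFunction (wnorm p c)}

end defs

section

variable {K : Type*} [Field K] [NumberField K] (hK : Module.finrank ℚ K = 2) (θ : 𝓞 K)
  (hθ : θ ^ 2 = 14)

lemma sqf14 : Squarefree (14 : ℤ) := by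
  rw [Int.squarefree_natAbs.symm]
  norm_num
  decide +kernel

include hθ in
lemma theta_sq : (θ : K) ^ 2 = ((14 : ℤ) : K) := by
  have h := congrArg (algebraMap (𝓞 K) K) hθ
  rw [map_pow, map_ofNat] at h
  rw [h]
  norm_num

include hK hθ in
lemma coords (α : 𝓞 K) : ∃ a b : ℤ, α = a + b * θ := by
  have hns := H419R2.not_sq_of_squarefree sqf14 (by norm_num)
  have hx := theta_sq θ hθ
  obtain ⟨p, q, hpq⟩ := H419R2.exists_coords hns hK hx (α : K)
  have hint : IsIntegral ℤ ((p : K) + (q : K) * (θ : K)) := by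
    rw [← hpq]; exact RingOfIntegers.isIntegral_coe α
  have key : ∃ a b : ℤ, (a : ℚ) = p ∧ (b : ℚ) = q := by
    by_cases hq : q = 0
    · subst hq
      simp only [Rat.cast_zero, zero_mul, add_zero] at hint
      have hp : IsIntegral ℤ p := by
        have : IsIntegral ℤ (algebraMap ℚ K p) := by simpa using hint
        exact (isIntegral_algebraMap_iff (algebraMap ℚ K).injective).mp this
      obtain ⟨n, hn⟩ := IsIntegrallyClosed.isIntegral_iff.mp hp
      exact ⟨n, 0, by simpa using hn, by simp⟩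
    · obtain ⟨⟨a, ha⟩, ⟨b, hb⟩⟩ := H419R2.two_int_of_integral hns hx hq hint
      have h4 : ((14 : ℤ) : ℚ) * (2 * q) ^ 2 = ((a ^ 2 - 4 * b : ℤ) : ℚ) := by
        push_cast
        rw [ha, hb]; push_cast; ring
      obtain ⟨c, hc⟩ := H419R2.int_of_squarefree_mul_sq sqf14 h4
      have h5 : 14 * c ^ 2 = a ^ 2 - 4 * b := by
        rw [← hc] at h4
        exact_mod_cast h4
      have ha2 : a % 2 = 0 := by
        rcases Int.emod_two_eq_zero_or_one a with h | h
        · exact h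
        · exfalso
          obtain ⟨k, hk⟩ : ∃ k, a = 2 * k + 1 := ⟨a / 2, by omega⟩
          rw [hk] at h5
          have : 2 * (7 * c ^ 2 - 2 * k ^ 2 - 2 * k + 2 * b) = 1 := by linarith
          omega
      obtain ⟨k, hk⟩ : ∃ k, a = 2 * k := ⟨a / 2, by omega⟩
      have hc2 : c % 2 = 0 := by
        rcases Int.emod_two_eq_zero_or_one c with h | h
        · exact h
        · exfalso
          obtain ⟨l, hl⟩ : ∃ l, c = 2 * l + 1 := ⟨c / 2, by omega⟩
          rw [hk, hl] at h5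
          have : 2 * (14 * l ^ 2 + 14 * l - k ^ 2 + b) = -7 := by linarith
          omega
      obtain ⟨l, hl⟩ : ∃ l, c = 2 * l := ⟨c / 2, by omega⟩
      refine ⟨k, l, ?_, ?_⟩
      · rw [hk] at ha; push_cast at ha; linarith
      · rw [hl] at hc; push_cast at hc; linarith
  obtain ⟨a, b, ha, hb⟩ := key
  refine ⟨a, b, ?_⟩
  apply RingOfIntegers.ext
  rw [hpq, ← ha, ← hb]
  push_cast
  simp

include hθ in
lemma coords_zero (a b : ℤ) (h : (a : 𝓞 K) + b * θ = 0) : a = 0 ∧ b = 0 := by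
  have h1 : (((a ^ 2 - 14 * b ^ 2 : ℤ)) : 𝓞 K) = 0 := by
    have : (((a ^ 2 - 14 * b ^ 2 : ℤ)) : 𝓞 K) = (a + b * θ) * (a - b * θ) := by
      push_cast
      linear_combination (b : 𝓞 K) ^ 2 * hθ
    rw [this, h, zero_mul]
  have h2 : a ^ 2 - 14 * b ^ 2 = 0 := by exact_mod_cast h1
  exact norm_ne_zero a b h2

/-- the lift of `θ`. -/
noncomputable def lft : QuadraticAlgebra ℤ 14 0 →ₐ[ℤ] 𝓞 K :=
  QuadraticAlgebra.lift ⟨θ, by rw [← sq, hθ]; simp [Algebra.smul_def]⟩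

lemma lft_apply (z : QuadraticAlgebra ℤ 14 0) : lft θ hθ z = (z.re : 𝓞 K) + z.im * θ := by
  simp [lft, QuadraticAlgebra.lift, Algebra.smul_def]

include hK in
lemma lft_bij : Function.Bijective (lft θ hθ) := by
  constructor
  · rw [injective_iff_map_eq_zero]
    intro z hz
    rw [lft_apply] at hz
    obtain ⟨h1, h2⟩ := coords_zero θ hθ z.re z.im hz
    ext
    · exact h1
    · exact h2
  · intro α
    obtain ⟨a, b, h⟩ := coords hK θ hθ α
    exact ⟨⟨a, b⟩, by rw [lft_apply, h]⟩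

include hK hθ in
lemma norm_coords (a b : ℤ) : Algebra.norm ℤ ((a : 𝓞 K) + b * θ) = a ^ 2 - 14 * b ^ 2 := by
  have e : QuadraticAlgebra ℤ 14 0 ≃ₐ[ℤ] 𝓞 K := AlgEquiv.ofBijective (lft θ hθ) (lft_bij hK θ hθ)
  have h1 : Algebra.norm ℤ ((AlgEquiv.ofBijective (lft θ hθ) (lft_bij hK θ hθ))
      (⟨a, b⟩ : QuadraticAlgebra ℤ 14 0)) = Algebra.norm ℤ (⟨a, b⟩ : QuadraticAlgebra ℤ 14 0) :=
    Algebra.norm_eq_of_algEquiv _ _
  have h2 : (AlgEquiv.ofBijective (lft θ hθ) (lft_bij hK θ hθ))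
      (⟨a, b⟩ : QuadraticAlgebra ℤ 14 0) = (a : 𝓞 K) + b * θ := lft_apply θ hθ ⟨a, b⟩
  rw [h2] at h1
  rw [h1, Algebra.norm_apply]
  have h3 : LinearMap.det (DistribSMul.toLinearMap ℤ (QuadraticAlgebra ℤ 14 0)
      (⟨a, b⟩ : QuadraticAlgebra ℤ 14 0)) = QuadraticAlgebra.norm (⟨a, b⟩ : QuadraticAlgebra ℤ 14 0) :=
    QuadraticAlgebra.det_toLinearMap_eq_norm _
  have h4 : (Algebra.lmul ℤ (QuadraticAlgebra ℤ 14 0)) (⟨a, b⟩ : QuadraticAlgebra ℤ 14 0)
      = DistribSMul.toLinearMap ℤ (QuadraticAlgebra ℤ 14 0)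
        (⟨a, b⟩ : QuadraticAlgebra ℤ 14 0) := by
    ext <;> simp
  rw [h4, h3]
  simp [QuadraticAlgebra.norm]
  ring

include hK hθ in
lemma absNorm_coords (a b : ℤ) :
    Ideal.absNorm (Ideal.span {(a : 𝓞 K) + b * θ}) = (a ^ 2 - 14 * b ^ 2).natAbs := by
  rw [Ideal.absNorm_span_singleton, norm_coords hK θ hθ]

include hθ in
lemma p_eq : Ideal.span ({2, θ} : Set (𝓞 K)) = Ideal.span {((4 : ℤ) : 𝓞 K) + (1 : ℤ) * θ} := by
  apply le_antisymm
  · rw [Ideal.span_le]
    rintro x (rfl | rfl)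
    · rw [SetLike.mem_coe, Ideal.mem_span_singleton]
      refine ⟨4 - θ, ?_⟩
      push_cast
      linear_combination hθ
    · rw [SetLike.mem_coe, Ideal.mem_span_singleton]
      refine ⟨-7 + 2 * x, ?_⟩
      push_cast
      linear_combination (-2 : 𝓞 K) * hθ
  · rw [Ideal.span_le]
    rintro x rfl
    rw [SetLike.mem_coe, Ideal.mem_span_pair]
    exact ⟨2, 1, by push_cast; ring⟩

include hK hθ in
lemma absNorm_p : Ideal.absNorm (Ideal.span ({2, θ} : Set (𝓞 K))) = 2 := by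
  rw [p_eq θ hθ, absNorm_coords hK θ hθ]
  norm_num

include hK hθ in
lemma p_prime : (Ideal.span ({2, θ} : Set (𝓞 K))).IsPrime := by
  apply Ideal.isPrime_of_irreducible_absNorm
  rw [absNorm_p hK θ hθ]
  exact Nat.prime_two.prime.irreducible

include hK hθ in
lemma odd_norm (q : Ideal (𝓞 K)) (hq : q.IsPrime) (hq0 : q ≠ ⊥)
    (hne : q ≠ Ideal.span ({2, θ} : Set (𝓞 K))) : Ideal.absNorm q % 2 = 1 := by
  by_contra hodd
  have heven : 2 ∣ Ideal.absNorm q := by omega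
  have : Finite (𝓞 K ⧸ q) := Ideal.finiteQuotientOfFreeOfNeBot q hq0
  have hcard : Nat.card (𝓞 K ⧸ q) = Ideal.absNorm q := by
    rw [Ideal.absNorm_apply, Submodule.cardQuot_apply]
  have : Fact (Nat.Prime 2) := ⟨Nat.prime_two⟩
  obtain ⟨x, hx⟩ := exists_prime_addOrderOf_dvd_card' (G := 𝓞 K ⧸ q) 2 (by rw [hcard]; exact heven)
  have hx2 : (2 : 𝓞 K ⧸ q) * x = 0 := by
    have := addOrderOf_nsmul_eq_zero x
    rw [hx] at this
    simpa [two_mul, two_nsmul] using this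
  have hx0 : x ≠ 0 := by
    intro h
    rw [h, addOrderOf_zero] at hx
    omega
  have hdom : IsDomain (𝓞 K ⧸ q) := Ideal.Quotient.isDomain q
  have h2 : (2 : 𝓞 K ⧸ q) = 0 := by
    rcases mul_eq_zero.1 hx2 with h | h
    · exact h
    · exact absurd h hx0
  have h2q : (2 : 𝓞 K) ∈ q := by
    rw [← Ideal.Quotient.eq_zero_iff_mem, map_ofNat]
    exact h2
  have hθq : θ ∈ q := by
    apply hq.mem_of_pow_mem 2
    rw [hθ]
    have : (14 : 𝓞 K) = 7 * 2 := by norm_num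
    rw [this]
    exact q.mul_mem_left _ h2q
  have hle : Ideal.span ({2, θ} : Set (𝓞 K)) ≤ q := by
    rw [Ideal.span_le]
    rintro y (rfl | rfl)
    · exact h2q
    · exact hθq
  have hp0 : Ideal.span ({2, θ} : Set (𝓞 K)) ≠ ⊥ := by
    intro h
    have := absNorm_p hK θ hθ
    rw [h, Ideal.absNorm_bot] at this
    omega
  have hmax : (Ideal.span ({2, θ} : Set (𝓞 K))).IsMaximal :=
    (p_prime hK θ hθ).isMaximal hp0
  exact hne (hmax.eq_of_le hq.ne_top hle).symm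

lemma g_one (c : ℝ) : g c 1 = 1 := by
  unfold g
  have : padicValInt 2 1 = 0 := pv_eq 1 0 (by norm_num) (by norm_num)
  rw [this]; simp

include hK hθ in
lemma g_factor (c : ℝ) (q : Ideal (𝓞 K)) (hq : q.IsPrime) (hq0 : q ≠ ⊥) :
    (if q = Ideal.span ({2, θ} : Set (𝓞 K)) then c else (Ideal.absNorm q : ℝ))
      = g c (Ideal.absNorm q : ℤ) := by
  by_cases h : q = Ideal.span ({2, θ} : Set (𝓞 K))
  · rw [if_pos h, h, absNorm_p hK θ hθ]
    unfold g
    have : padicValInt 2 ((2 : ℕ) : ℤ) = 1 := pv_eq _ 1 (by norm_num) (by norm_num)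
    rw [this]
    push_cast
    rw [abs_of_pos (by norm_num)]
    ring
  · rw [if_neg h]
    have ho := odd_norm hK θ hθ q hq hq0 h
    unfold g
    have : padicValInt 2 ((Ideal.absNorm q : ℕ) : ℤ) = 0 := pv_eq _ 0 (by norm_num) (by
      rw [zero_add, pow_one]; omega)
    rw [this]
    push_cast
    rw [pow_zero, mul_one, abs_of_nonneg (Nat.cast_nonneg _)]

include hK hθ in
lemma prod_factor (c : ℝ) (s : Multiset (Ideal (𝓞 K))) (hs : ∀ q ∈ s, q.IsPrime ∧ q ≠ ⊥) :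
    (s.map (fun q => if q = Ideal.span ({2, θ} : Set (𝓞 K)) then c else (Ideal.absNorm q : ℝ))).prod
      = g c (Ideal.absNorm s.prod : ℤ) := by
  induction s using Multiset.induction_on with
  | empty =>
    simp only [Multiset.map_zero, Multiset.prod_zero]
    rw [map_one]
    exact (g_one c).symm
  | cons q s ih =>
    rw [Multiset.map_cons, Multiset.prod_cons, Multiset.prod_cons, ih (fun x hx =>
      hs x (Multiset.mem_cons_of_mem hx)), map_mul]
    obtain ⟨h1, h2⟩ := hs q (Multiset.mem_cons_self q s)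
    rw [g_factor hK θ hθ c q h1 h2]
    push_cast
    rw [g_mul' c _ _ (by
      have : Ideal.absNorm q ≠ 0 := by
        rw [Ne, Ideal.absNorm_eq_zero_iff]; exact h2
      exact_mod_cast this)]

include hK hθ in
/-- The weighted norm of `a + bθ` is `|M| (c/2)^{v₂(M)}`, `M = a² - 14 b²`. -/
lemma wnorm_coords (c : ℝ) (a b : ℤ) :
    wnorm (Ideal.span ({2, θ} : Set (𝓞 K))) c ((a : 𝓞 K) + b * θ) = g c (a ^ 2 - 14 * b ^ 2) := by
  unfold wnorm
  by_cases h : (a : 𝓞 K) + b * θ = 0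
  · rw [if_pos h]
    obtain ⟨h1, h2⟩ := coords_zero θ hθ a b h
    rw [h1, h2]
    norm_num
    exact (g_zero c).symm
  · rw [if_neg h]
    have hI : Ideal.span {(a : 𝓞 K) + b * θ} ≠ ⊥ := by
      rw [Ne, Ideal.span_singleton_eq_bot]; exact h
    unfold weight
    have hfac : ∀ q ∈ UniqueFactorizationMonoid.normalizedFactors
        (Ideal.span {(a : 𝓞 K) + b * θ}), q.IsPrime ∧ q ≠ ⊥ := by
      intro q hq
      have hp := UniqueFactorizationMonoid.prime_of_normalized_factor q hq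
      exact ⟨Ideal.isPrime_of_prime hp, hp.ne_zero⟩
    have h1 := prod_factor hK θ hθ c _ hfac
    rw [Ideal.prod_normalizedFactors_eq_self hI, absNorm_coords hK θ hθ] at h1
    have h2 : g c (((a ^ 2 - 14 * b ^ 2).natAbs : ℕ) : ℤ) = g c (a ^ 2 - 14 * b ^ 2) := by
      rcases Int.natAbs_eq (a ^ 2 - 14 * b ^ 2) with h3 | h3
      · rw [← h3]
      · have : (((a ^ 2 - 14 * b ^ 2).natAbs : ℕ) : ℤ) = -(a ^ 2 - 14 * b ^ 2) := by
          linarith
        rw [this, g_neg]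
    rw [← h2, ← h1]

include hK hθ in
/-- For `c > √5` at most `56/25` the weighted norm is a Euclidean function. -/
theorem euclid (c : ℝ) (hc0 : Real.sqrt 5 < c) (hc1 : c ≤ 56 / 25) :
    IsEuclideanFunction (wnorm (Ideal.span ({2, θ} : Set (𝓞 K))) c) := by
  have hcpos : 0 < c := lt_of_le_of_lt (Real.sqrt_nonneg 5) hc0
  have hc2 : (1 : ℝ) ≤ c / 2 := by
    have h1 : Real.sqrt 5 ^ 2 = 5 := Real.sq_sqrt (by norm_num)
    have h2 := Real.sqrt_nonneg 5
    by_contra hh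
    push Not at hh
    nlinarith
  constructor
  · intro r
    obtain ⟨a, b, rfl⟩ := coords hK θ hθ r
    rw [wnorm_coords hK θ hθ]
    exact g_nonneg c hcpos.le _
  · intro l hl
    apply Set.Finite.subset (Set.Finite.image (fun M : ℤ => g c M)
      (Set.finite_Icc (-(⌊l⌋)) (⌊l⌋)))
    rintro y ⟨⟨r, rfl⟩, hy⟩
    obtain ⟨a, b, rfl⟩ := coords hK θ hθ r
    rw [wnorm_coords hK θ hθ] at hy ⊢
    refine ⟨a ^ 2 - 14 * b ^ 2, ?_, rfl⟩
    have h1 : |((a ^ 2 - 14 * b ^ 2 : ℤ) : ℝ)| ≤ l := by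
      refine le_trans ?_ hy.2
      unfold g
      exact le_mul_of_one_le_right (abs_nonneg _) (one_le_pow₀ hc2)
    rw [← Int.cast_abs] at h1
    have h2 := Int.le_floor.2 h1
    rw [Set.mem_Icc]
    exact abs_le.1 h2
  · intro r
    obtain ⟨a, b, rfl⟩ := coords hK θ hθ r
    rw [wnorm_coords hK θ hθ]
    constructor
    · intro h
      by_contra hne
      have : a ^ 2 - 14 * b ^ 2 ≠ 0 := by
        intro h0
        obtain ⟨h1, h2⟩ := norm_ne_zero a b h0
        apply hne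
        rw [h1, h2]; simp
      exact (g_pos c hcpos _ this).ne' h
    · intro h
      obtain ⟨h1, h2⟩ := coords_zero θ hθ a b h
      rw [h1, h2]
      norm_num
      exact g_zero c
  · intro a b hb
    obtain ⟨a0, a1, rfl⟩ := coords hK θ hθ a
    obtain ⟨b0, b1, rfl⟩ := coords hK θ hθ b
    set N : ℤ := b0 ^ 2 - 14 * b1 ^ 2 with hN
    have hN0 : N ≠ 0 := by
      intro h0
      obtain ⟨h1, h2⟩ := norm_ne_zero b0 b1 h0
      apply hb
      rw [h1, h2]; simp
    -- (a0 + a1 θ)(b0 - b1 θ) = A + B θ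
    set A : ℤ := a0 * b0 - 14 * a1 * b1 with hA
    set B : ℤ := a1 * b0 - a0 * b1 with hB
    obtain ⟨q0, q1, hq⟩ := good c hc0 hc1 |N| (abs_pos.2 hN0) A B
    -- sign
    obtain ⟨s, hs1, hs2⟩ : ∃ s : ℤ, s * s = 1 ∧ N * s = |N| := by
      rcases abs_cases N with ⟨h, _⟩ | ⟨h, _⟩
      · exact ⟨1, by norm_num, by rw [h]; ring⟩
      · exact ⟨-1, by norm_num, by rw [h]; ring⟩
    refine ⟨((s * q0 : ℤ) : 𝓞 K) + ((s * q1 : ℤ) : 𝓞 K) * θ, ?_⟩
    have e1 : (a0 : 𝓞 K) + a1 * θ - (b0 + b1 * θ) * (((s * q0 : ℤ) : 𝓞 K) + ((s * q1 : ℤ) : 𝓞 K) * θ)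
        = ((a0 - b0 * (s * q0) - 14 * b1 * (s * q1) : ℤ) : 𝓞 K)
          + ((a1 - b0 * (s * q1) - b1 * (s * q0) : ℤ) : 𝓞 K) * θ := by
      push_cast
      linear_combination (-(b1 : 𝓞 K) * (s * q1)) * hθ
    rw [e1, wnorm_coords hK θ hθ, wnorm_coords hK θ hθ, ← hN]
    set M : ℤ := (a0 - b0 * (s * q0) - 14 * b1 * (s * q1)) ^ 2
      - 14 * (a1 - b0 * (s * q1) - b1 * (s * q0)) ^ 2 with hM
    have e2 : (A - |N| * q0) ^ 2 - 14 * (B - |N| * q1) ^ 2 = N * M := by
      rw [← hs2, hM, hA, hB, hN]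
      ring
    have e3 : |N| ^ 2 = N * N := by rw [sq_abs]; ring
    rw [e2, e3, g_mul' c N M hN0, g_mul' c N N hN0] at hq
    exact lt_of_mul_lt_mul_left hq (g_nonneg c hcpos.le N)

end

end Pool.Agent.H222R3.EW
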