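import Pool.Agent.H222R3.EW.Sound

/-! Main dynamical argument. -/

set_option autoImplicit false

namespace Pool.Agent.H222R3.EW

lemma allr_sound (f : ℕ → Bool) : ∀ (c lo e : ℕ), allr f c lo = true → lo ≤ e → e < lo + c →
    f e = true := by
  intro c
  induction c with
  | zero => intro lo e _ h1 h2; omega
  | succ c ih =>
    intro lo e h h1 h2
    simp only [allr, Bool.and_eq_true] at h
    rcases Nat.lt_or_ge lo e with h3 | h3
    · exact ih (lo + 1) e h.2 (by omega) (by omega)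
    · have : e = lo := by omega
      rw [this]; exact h.1

lemma rng_sound (f : ℕ → Bool) (c1 c2 e : ℕ) (h : rng f c1 c2 = true) (h1 : c1 / U ≤ e)
    (h2 : e ≤ c2 / U) : f e = true := by
  unfold rng at h
  exact allr_sound f _ _ e h h1 (by omega)

section

variable {th : ℕ → ℕ → ℕ → ℕ} {TH : ℤ → ℤ → ℕ} {n : ℤ} {rt : ℕ → ℕ → Tr} {K : ℕ}

lemma chk_exists (hn : 0 < n) (hc : Comp th TH n) (A B : ℤ) (hbad : Bad TH n A B)
    (r0 r1 : ℕ) (hcl : Cl 3 r0 r1 A B) :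
    ∀ (t : Tr) (a0 a1 b0 b1 : ℕ), chk th rt K t a0 a1 b0 b1 r0 r1 = true →
      Box n A B a0 a1 b0 b1 → ∃ rk co, At n A B rk co t a0 a1 b0 b1 := by
  intro t
  induction t with
  | cv c =>
    intro a0 a1 b0 b1 h hb
    exact (cchk_sound hn hc A B a0 a1 b0 b1 hb hbad c r0 r1 3 hcl h).elim
  | lf rk co =>
    intro a0 a1 b0 b1 h hb
    exact ⟨rk, co, rfl, rfl, hb⟩
  | sx m mid l r ihl ihr =>
    intro a0 a1 b0 b1 h hb
    simp only [chk, Bool.and_eq_true] at h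
    obtain ⟨x0, x1, y0, y1⟩ := hb
    rcases le_total ((U : ℤ) * (4 * A + n)) ((mid : ℤ) * (4 * n)) with hm | hm
    · obtain ⟨rk, co, h'⟩ := ihl a0 mid b0 b1 h.1 ⟨x0, hm, y0, y1⟩
      exact ⟨rk, co, ⟨x0, x1, y0, y1⟩, Or.inl h'⟩
    · obtain ⟨rk, co, h'⟩ := ihr mid a1 b0 b1 h.2 ⟨hm, x1, y0, y1⟩
      exact ⟨rk, co, ⟨x0, x1, y0, y1⟩, Or.inr h'⟩
  | sy m mid l r ihl ihr =>
    intro a0 a1 b0 b1 h hb
    simp only [chk, Bool.and_eq_true] at h
    obtain ⟨x0, x1, y0, y1⟩ := hb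
    rcases le_total ((U : ℤ) * (4 * B + n)) ((mid : ℤ) * (4 * n)) with hm | hm
    · obtain ⟨rk, co, h'⟩ := ihl a0 a1 b0 mid h.1 ⟨x0, x1, y0, hm⟩
      exact ⟨rk, co, ⟨x0, x1, y0, y1⟩, Or.inl h'⟩
    · obtain ⟨rk, co, h'⟩ := ihr a0 a1 mid b1 h.2 ⟨x0, x1, hm, y1⟩
      exact ⟨rk, co, ⟨x0, x1, y0, y1⟩, Or.inr h'⟩

lemma chk_leaf (A B : ℤ) (r0 r1 rk co : ℕ) :
    ∀ (t : Tr) (a0 a1 b0 b1 : ℕ), chk th rt K t a0 a1 b0 b1 r0 r1 = true →
      At n A B rk co t a0 a1 b0 b1 → ∃ a0 a1 b0 b1 : ℕ, Box n A B a0 a1 b0 b1 ∧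
        cok K co a0 a1 b0 b1 = true ∧
        rng (fun e0 => rng (fun e1 =>
          qry rk co a0 a1 b0 b1 (e0 * U) (e1 * U)
            (rt ((3 * r0 + 2 + 3 * e0) % 4) ((r1 + 1 + e1) % 2)) 0 U 0 U)
            (4 * a0 + 15 * b0 + U / 2) (4 * a1 + 15 * b1 + U / 2))
          (15 * a0 + 56 * b0 + U / 2) (15 * a1 + 56 * b1 + U / 2) = true := by
  intro t
  induction t with
  | cv c => intro a0 a1 b0 b1 _ h; exact h.elim
  | lf rk' co' =>
    intro a0 a1 b0 b1 h h'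
    obtain ⟨h1, h2, h3⟩ := h'
    subst h1; subst h2
    simp only [chk, Bool.and_eq_true] at h
    exact ⟨a0, a1, b0, b1, h3, h.1, h.2⟩
  | sx m mid l r ihl ihr =>
    intro a0 a1 b0 b1 h h'
    simp only [chk, Bool.and_eq_true] at h
    rcases h'.2 with h'' | h''
    · exact ihl _ _ _ _ h.1 h''
    · exact ihr _ _ _ _ h.2 h''
  | sy m mid l r ihl ihr =>
    intro a0 a1 b0 b1 h h'
    simp only [chk, Bool.and_eq_true] at h
    rcases h'.2 with h'' | h''
    · exact ihl _ _ _ _ h.1 h''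
    · exact ihr _ _ _ _ h.2 h''

/-- the fundamental domain -/
def Dom (n A B : ℤ) : Prop := 0 ≤ 4 * A + n ∧ 4 * A + n < 4 * n ∧ 0 ≤ 4 * B + n ∧ 4 * B + n < 4 * n

/-- class indices. -/
def c0 (A : ℤ) : ℕ := (A % 4).toNat
def c1 (B : ℤ) : ℕ := (B % 2).toNat

lemma cl_self (A B : ℤ) : Cl 3 (c0 A) (c1 B) A B := by
  left
  unfold c0 c1
  refine ⟨rfl, ?_, ?_⟩ <;> omega

/-- the step: successor relation of leaves. -/
lemma step (hn : 0 < n) (hn8 : n % 8 = 1)
    (hlok : ∀ i k, i < 4 → k < 2 → lok (rt i k) = true)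
    (hchk : ∀ i k, i < 4 → k < 2 → chk th rt K (rt i k) 0 U 0 U i k = true)
    (A B A' B' t0 t1 : ℤ) (hD : Dom n A B) (hD' : Dom n A' B')
    (hA : A' = 15 * A + 56 * B - n * t0) (hB : B' = 4 * A + 15 * B - n * t1)
    (rk co rk' co' : ℕ) (h : At n A B rk co (rt (c0 A) (c1 B)) 0 U 0 U)
    (h' : At n A' B' rk' co' (rt (c0 A') (c1 B')) 0 U 0 U) :
    rk' < rk ∨ (rk' = rk ∧ co' = co ∧ 0 < co) := by
  have hc0 : c0 A < 4 := by unfold c0; omega
  have hc1 : c1 B < 2 := by unfold c1; omega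
  obtain ⟨a0, a1, b0, b1, hb, _, hq⟩ := chk_leaf A B (c0 A) (c1 B) rk co _ _ _ _ _
    (hchk _ _ hc0 hc1) h
  obtain ⟨d0, d1, d2, d3⟩ := hD
  obtain ⟨d0', d1', d2', d3'⟩ := hD'
  -- t0 and t1 ranges
  have ht0 : -18 ≤ t0 := by
    by_contra hh
    push Not at hh
    have : t0 ≤ -19 := by omega
    nlinarith
  have ht1 : -5 ≤ t1 := by
    by_contra hh
    push Not at hh
    have : t1 ≤ -6 := by omega
    nlinarith
  obtain ⟨e0, he0⟩ : ∃ e0 : ℕ, (e0 : ℤ) = t0 + 18 := ⟨(t0 + 18).toNat, by omega⟩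
  obtain ⟨e1, he1⟩ : ∃ e1 : ℕ, (e1 : ℤ) = t1 + 5 := ⟨(t1 + 5).toNat, by omega⟩
  have hA2 : A' = 15 * A + 56 * B - n * ((e0 : ℤ) - 18) := by rw [hA, he0]; ring
  have hB2 : B' = 4 * A + 15 * B - n * ((e1 : ℤ) - 5) := by rw [hB, he1]; ring
  obtain ⟨x0, x1, y0, y1⟩ := hb
  have hU : (U : ℤ) = 16384 := rfl
  have hU2 : ((U / 2 : ℕ) : ℤ) = 8192 := rfl
  have hUpos : 0 < U := by decide
  have hn4 : 0 < 4 * n := by linarith
  -- bounds for e0
  have r1 : (15 * a0 + 56 * b0 + U / 2) / U ≤ e0 := by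
    have : 15 * a0 + 56 * b0 + U / 2 < (e0 + 1) * U := by
      have hz : ((15 * a0 + 56 * b0 + U / 2 : ℕ) : ℤ) * (4 * n) < (((e0 + 1) * U : ℕ) : ℤ) * (4 * n) := by
        simp only [Nat.cast_add, Nat.cast_mul, hU2, hU, Nat.cast_ofNat, Nat.cast_one]
        rw [hU] at x0 y0
        have : (16384 : ℤ) * (4 * A' + n) < 16384 * (4 * n) := by linarith
        rw [hA2] at this
        linarith
      exact_mod_cast lt_of_mul_lt_mul_right hz hn4.le
    exact Nat.le_of_lt_succ ((Nat.div_lt_iff_lt_mul hUpos).2 this)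
  have r2 : e0 ≤ (15 * a1 + 56 * b1 + U / 2) / U := by
    have : e0 * U ≤ 15 * a1 + 56 * b1 + U / 2 := by
      have hz : ((e0 * U : ℕ) : ℤ) * (4 * n) ≤ ((15 * a1 + 56 * b1 + U / 2 : ℕ) : ℤ) * (4 * n) := by
        simp only [Nat.cast_add, Nat.cast_mul, hU2, hU, Nat.cast_ofNat]
        rw [hU] at x1 y1
        have : (0 : ℤ) ≤ 16384 * (4 * A' + n) := by linarith
        rw [hA2] at this
        linarith
      exact_mod_cast le_of_mul_le_mul_right hz hn4
    exact (Nat.le_div_iff_mul_le hUpos).2 this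
  have r3 : (4 * a0 + 15 * b0 + U / 2) / U ≤ e1 := by
    have : 4 * a0 + 15 * b0 + U / 2 < (e1 + 1) * U := by
      have hz : ((4 * a0 + 15 * b0 + U / 2 : ℕ) : ℤ) * (4 * n) < (((e1 + 1) * U : ℕ) : ℤ) * (4 * n) := by
        simp only [Nat.cast_add, Nat.cast_mul, hU2, hU, Nat.cast_ofNat, Nat.cast_one]
        rw [hU] at x0 y0
        have : (16384 : ℤ) * (4 * B' + n) < 16384 * (4 * n) := by linarith
        rw [hB2] at this
        linarith
      exact_mod_cast lt_of_mul_lt_mul_right hz hn4.le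
    exact Nat.le_of_lt_succ ((Nat.div_lt_iff_lt_mul hUpos).2 this)
  have r4 : e1 ≤ (4 * a1 + 15 * b1 + U / 2) / U := by
    have : e1 * U ≤ 4 * a1 + 15 * b1 + U / 2 := by
      have hz : ((e1 * U : ℕ) : ℤ) * (4 * n) ≤ ((4 * a1 + 15 * b1 + U / 2 : ℕ) : ℤ) * (4 * n) := by
        simp only [Nat.cast_add, Nat.cast_mul, hU2, hU, Nat.cast_ofNat]
        rw [hU] at x1 y1
        have : (0 : ℤ) ≤ 16384 * (4 * B' + n) := by linarith
        rw [hB2] at this
        linarith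
      exact_mod_cast le_of_mul_le_mul_right hz hn4
    exact (Nat.le_div_iff_mul_le hUpos).2 this
  have hq1 := rng_sound _ _ _ e0 hq r1 r2
  have hq2 := rng_sound _ _ _ e1 hq1 r3 r4
  -- classes
  obtain ⟨m, hm⟩ : ∃ m, n = 8 * m + 1 := ⟨n / 8, by omega⟩
  have k0 : c0 A' = (3 * c0 A + 2 + 3 * e0) % 4 := by
    have h1 : A' % 4 = (3 * A + 2 + 3 * e0) % 4 := by
      have : A' = 3 * A + 2 + 3 * e0 + 4 * (3 * A + 14 * B - 2 * m * ((e0 : ℤ) - 18) - e0 + 4) := by
        rw [hA2, hm]; ring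
      omega
    unfold c0
    have h2 : ((A % 4).toNat : ℤ) = A % 4 := by omega
    have h3 : (((3 * (A % 4).toNat + 2 + 3 * e0) % 4 : ℕ) : ℤ) = A' % 4 := by
      rw [h1]; push_cast; rw [h2]; omega
    omega
  have k1 : c1 B' = (c1 B + 1 + e1) % 2 := by
    have h1 : B' % 2 = (B + 1 + e1) % 2 := by
      have : B' = B + 1 + e1 + 2 * (2 * A + 7 * B - 4 * m * ((e1 : ℤ) - 5) - e1 + 2) := by
        rw [hB2, hm]; ring
      omega
    unfold c1
    have h2 : ((B % 2).toNat : ℤ) = B % 2 := by omega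
    have h3 : ((((B % 2).toNat + 1 + e1) % 2 : ℕ) : ℤ) = B' % 2 := by
      rw [h1]; push_cast; rw [h2]; omega
    omega
  rw [k0, k1] at h'
  exact qry_sound n A B A' B' hn rk co a0 a1 b0 b1 e0 e1 ⟨x0, x1, y0, y1⟩ hA2 hB2 rk' co' _ 0 U 0 U
    (hlok _ _ (Nat.mod_lt _ (by norm_num)) (Nat.mod_lt _ (by norm_num))) hq2 h'

end

/-- integer recurrences under the unit -/
lemma grow (x : ℕ → ℤ) (hrec : ∀ k, x (k + 2) = 30 * x (k + 1) - x k) (h0 : x 1 ≠ 0)
    (h1 : |x 0| ≤ |x 1|) : ∀ k : ℕ, |x k| ≤ |x (k + 1)| ∧ (k : ℤ) + 1 ≤ |x (k + 1)| := by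
  intro k
  induction k with
  | zero =>
    refine ⟨h1, ?_⟩
    have h2 : 0 < |x 1| := abs_pos.2 h0
    show ((0 : ℕ) : ℤ) + 1 ≤ |x 1|
    push_cast
    omega
  | succ k ih =>
    obtain ⟨i1, i2⟩ := ih
    have : 29 * |x (k + 1)| ≤ |x (k + 2)| := by
      rw [hrec k]
      have h2 : |30 * x (k + 1)| ≤ |30 * x (k + 1) - x k| + |x k| := by
        have := abs_add_le (30 * x (k + 1) - x k) (x k)
        simpa using this
      rw [abs_mul] at h2
      norm_num at h2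
      linarith
    push_cast
    constructor
    · have := abs_nonneg (x (k + 1)); linarith
    · linarith

lemma bounded_zero : ∀ (m : ℕ) (x y : ℕ → ℤ), (∀ k, x (k + 1) = 15 * x k + 56 * y k) →
    (∀ k, y (k + 1) = 4 * x k + 15 * y k) → (∃ C : ℤ, ∀ k, |x k| ≤ C) → |x 0| ≤ m →
    x 0 = 0 ∧ y 0 = 0 := by
  intro m
  induction m with
  | zero =>
    intro x y hx hy hC h0
    obtain ⟨C, hC⟩ := hC
    have hx0 : x 0 = 0 := by
      have : |x 0| ≤ 0 := by exact_mod_cast h0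
      exact abs_eq_zero.1 (le_antisymm this (abs_nonneg _))
    refine ⟨hx0, ?_⟩
    by_contra hy0
    have hx1 : x 1 ≠ 0 := by
      rw [hx 0, hx0]; intro h; apply hy0; omega
    have hrec : ∀ k, x (k + 2) = 30 * x (k + 1) - x k := by
      intro k
      have e1 := hx (k + 1); have e2 := hy k; have e3 := hx k
      rw [e1, e2]
      linarith
    have := (grow x hrec hx1 (by rw [hx0]; simp) C.toNat).2
    have h2 := hC (C.toNat + 1)
    have h3 : (0 : ℤ) ≤ C := (abs_nonneg _).trans (hC 0)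
    have h4 : (C.toNat : ℤ) = C := Int.toNat_of_nonneg h3
    omega
  | succ m ih =>
    intro x y hx hy hC h0
    have back : ∀ k, x (k + 1) = 0 ∧ y (k + 1) = 0 → x k = 0 ∧ y k = 0 := by
      intro k h
      have e1 := hx k; have e2 := hy k
      rw [h.1] at e1; rw [h.2] at e2
      constructor
      · linarith
      · linarith
    have shift : |x 1| ≤ m → x 0 = 0 ∧ y 0 = 0 := by
      intro h1
      apply back 0
      obtain ⟨C, hC⟩ := hC
      exact ih (fun k => x (k + 1)) (fun k => y (k + 1)) (fun k => hx (k + 1)) (fun k => hy (k + 1))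
        ⟨C, fun k => hC (k + 1)⟩ h1
    by_cases hx1 : x 1 = 0
    · apply shift; rw [hx1]; simp
    · by_cases hle : |x 0| ≤ |x 1|
      · exfalso
        obtain ⟨C, hC⟩ := hC
        have hrec : ∀ k, x (k + 2) = 30 * x (k + 1) - x k := by
          intro k
          have e1 := hx (k + 1); have e2 := hy k; have e3 := hx k
          rw [e1, e2]
          linarith
        have := (grow x hrec hx1 hle C.toNat).2
        have h2 := hC (C.toNat + 1)
        have h3 : (0 : ℤ) ≤ C := (abs_nonneg _).trans (hC 0)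
        have h4 : (C.toNat : ℤ) = C := Int.toNat_of_nonneg h3
        omega
      · apply shift
        push Not at hle
        push_cast at h0
        omega

/-- next point of the orbit. -/
def nxt (n : ℤ) (P : ℤ × ℤ) : ℤ × ℤ :=
  (15 * P.1 + 56 * P.2 - n * ((60 * P.1 + 224 * P.2 + n) / (4 * n)),
   4 * P.1 + 15 * P.2 - n * ((16 * P.1 + 60 * P.2 + n) / (4 * n)))

lemma nxt_dom (n : ℤ) (hn : 0 < n) (P : ℤ × ℤ) : Dom n (nxt n P).1 (nxt n P).2 := by
  unfold nxt Dom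
  simp only
  have h4 : 0 < 4 * n := by linarith
  have a1 := Int.emod_nonneg (60 * P.1 + 224 * P.2 + n) h4.ne'
  have a2 := Int.emod_lt_of_pos (60 * P.1 + 224 * P.2 + n) h4
  have a3 := Int.emod_add_mul_ediv (60 * P.1 + 224 * P.2 + n) (4 * n)
  have b1 := Int.emod_nonneg (16 * P.1 + 60 * P.2 + n) h4.ne'
  have b2 := Int.emod_lt_of_pos (16 * P.1 + 60 * P.2 + n) h4
  have b3 := Int.emod_add_mul_ediv (16 * P.1 + 60 * P.2 + n) (4 * n)
  refine ⟨?_, ?_, ?_, ?_⟩ <;> linarith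

lemma nxt_dvd (n : ℤ) (P : ℤ × ℤ) (h : n ∣ (nxt n P).1 ∧ n ∣ (nxt n P).2) :
    n ∣ P.1 ∧ n ∣ P.2 := by
  unfold nxt at h
  simp only at h
  obtain ⟨⟨a, ha⟩, ⟨b, hb⟩⟩ := h
  constructor
  · refine ⟨15 * (a + (60 * P.1 + 224 * P.2 + n) / (4 * n)) - 56 * (b + (16 * P.1 + 60 * P.2 + n) / (4 * n)), ?_⟩
    linear_combination 15 * ha - 56 * hb
  · refine ⟨-4 * (a + (60 * P.1 + 224 * P.2 + n) / (4 * n)) + 15 * (b + (16 * P.1 + 60 * P.2 + n) / (4 * n)), ?_⟩
    linear_combination -4 * ha + 15 * hb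

/-- invariance of thresholds. -/
def Inv (TH : ℤ → ℤ → ℕ) : Prop := ∀ X Y : ℤ, TH (15 * X + 56 * Y) (4 * X + 15 * Y) = TH X Y

lemma bad_step {TH : ℤ → ℤ → ℕ} (hI : Inv TH) (n A B t0 t1 : ℤ) (h : Bad TH n A B) :
    Bad TH n (15 * A + 56 * B - n * t0) (4 * A + 15 * B - n * t1) := by
  intro q0 q1
  have h1 := h (15 * (q0 + t0) - 56 * (q1 + t1)) (-4 * (q0 + t0) + 15 * (q1 + t1))
  set X := A - n * (15 * (q0 + t0) - 56 * (q1 + t1)) with hX
  set Y := B - n * (-4 * (q0 + t0) + 15 * (q1 + t1)) with hY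
  have e1 : 15 * A + 56 * B - n * t0 - n * q0 = 15 * X + 56 * Y := by rw [hX, hY]; ring
  have e2 : 4 * A + 15 * B - n * t1 - n * q1 = 4 * X + 15 * Y := by rw [hX, hY]; ring
  rw [e1, e2, hI]
  have e3 : (15 * X + 56 * Y) ^ 2 - 14 * (4 * X + 15 * Y) ^ 2 = X ^ 2 - 14 * Y ^ 2 := by ring
  rw [e3]
  exact h1

lemma bad_trans {TH : ℤ → ℤ → ℕ} (n A B t0 t1 : ℤ) (h : Bad TH n A B) :
    Bad TH n (A - n * t0) (B - n * t1) := by
  intro q0 q1
  have h1 := h (q0 + t0) (q1 + t1)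
  have e1 : A - n * t0 - n * q0 = A - n * (q0 + t0) := by ring
  have e2 : B - n * t1 - n * q1 = B - n * (q1 + t1) := by ring
  rw [e1, e2]
  exact h1

/-- if all iterates stay in the core box around `(1/2,1/2)` the point is `(1/2,1/2)`. -/
lemma core1 (n : ℤ) (hn : 0 < n) (P : ℤ × ℤ)
    (h : ∀ k : ℕ, 64 * |2 * ((nxt n)^[k] P).1 - n| ≤ n ∧ 64 * |2 * ((nxt n)^[k] P).2 - n| ≤ n) :
    2 * P.1 = n ∧ 2 * P.2 = n := by
  set x : ℕ → ℤ := fun k => 2 * ((nxt n)^[k] P).1 - n with hx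
  set y : ℕ → ℤ := fun k => 2 * ((nxt n)^[k] P).2 - n with hy
  have hbx : ∀ k, 64 * |x k| ≤ n := fun k => (h k).1
  have hby : ∀ k, 64 * |y k| ≤ n := fun k => (h k).2
  have hstep : ∀ k, x (k + 1) = 15 * x k + 56 * y k ∧ y (k + 1) = 4 * x k + 15 * y k := by
    intro k
    have e : (nxt n)^[k + 1] P = nxt n ((nxt n)^[k] P) := Function.iterate_succ_apply' _ _ _
    set R := (nxt n)^[k] P with hR
    have b0 := hbx k; have b1 := hby k; have b2 := hbx (k + 1); have b3 := hby (k + 1)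
    have x1 : x (k + 1) = 15 * x k + 56 * y k + n * (70 - 2 * ((60 * R.1 + 224 * R.2 + n) / (4 * n))) := by
      simp only [hx, hy, e, ← hR, nxt]
      ring
    have y1 : y (k + 1) = 4 * x k + 15 * y k + n * (18 - 2 * ((16 * R.1 + 60 * R.2 + n) / (4 * n))) := by
      simp only [hx, hy, e, ← hR, nxt]
      ring
    generalize (60 * R.1 + 224 * R.2 + n) / (4 * n) = s at x1
    generalize (16 * R.1 + 60 * R.2 + n) / (4 * n) = t at y1
    have c0 := abs_le.1 (show |x k| ≤ |x k| from le_rfl)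
    have c1 := abs_le.1 (show |y k| ≤ |y k| from le_rfl)
    have c2 := abs_le.1 (show |x (k + 1)| ≤ |x (k + 1)| from le_rfl)
    have c3 := abs_le.1 (show |y (k + 1)| ≤ |y (k + 1)| from le_rfl)
    have hs : s = 35 := by
      by_contra hne
      rcases lt_or_gt_of_ne hne with hlt | hgt
      · have : 2 ≤ 70 - 2 * s := by omega
        nlinarith
      · have : 70 - 2 * s ≤ -2 := by omega
        nlinarith
    have ht : t = 9 := by
      by_contra hne
      rcases lt_or_gt_of_ne hne with hlt | hgt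
      · have : 2 ≤ 18 - 2 * t := by omega
        nlinarith
      · have : 18 - 2 * t ≤ -2 := by omega
        nlinarith
    rw [hs] at x1; rw [ht] at y1
    constructor
    · rw [x1]; ring
    · rw [y1]; ring
  have hz := bounded_zero (|x 0|).toNat x y (fun k => (hstep k).1) (fun k => (hstep k).2)
    ⟨n, fun k => by have := hbx k; have := abs_nonneg (x k); linarith⟩
    (by rw [Int.toNat_of_nonneg (abs_nonneg _)])
  have h1 : 2 * P.1 - n = 0 := hz.1
  have h2 : 2 * P.2 - n = 0 := hz.2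
  exact ⟨by linarith, by linarith⟩

lemma core2 (n : ℤ) (hn : 0 < n) (P : ℤ × ℤ)
    (h : ∀ k : ℕ, 128 * |((nxt n)^[k] P).1| ≤ n ∧ 128 * |((nxt n)^[k] P).2| ≤ n) :
    P.1 = 0 ∧ P.2 = 0 := by
  set x : ℕ → ℤ := fun k => ((nxt n)^[k] P).1 with hx
  set y : ℕ → ℤ := fun k => ((nxt n)^[k] P).2 with hy
  have hbx : ∀ k, 128 * |x k| ≤ n := fun k => (h k).1
  have hby : ∀ k, 128 * |y k| ≤ n := fun k => (h k).2
  have hstep : ∀ k, x (k + 1) = 15 * x k + 56 * y k ∧ y (k + 1) = 4 * x k + 15 * y k := by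
    intro k
    have e : (nxt n)^[k + 1] P = nxt n ((nxt n)^[k] P) := Function.iterate_succ_apply' _ _ _
    set R := (nxt n)^[k] P with hR
    have b0 := hbx k; have b1 := hby k; have b2 := hbx (k + 1); have b3 := hby (k + 1)
    have x1 : x (k + 1) = 15 * x k + 56 * y k + n * (- ((60 * R.1 + 224 * R.2 + n) / (4 * n))) := by
      simp only [hx, hy, e, ← hR, nxt]
      ring
    have y1 : y (k + 1) = 4 * x k + 15 * y k + n * (- ((16 * R.1 + 60 * R.2 + n) / (4 * n))) := by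
      simp only [hx, hy, e, ← hR, nxt]
      ring
    generalize (60 * R.1 + 224 * R.2 + n) / (4 * n) = s at x1
    generalize (16 * R.1 + 60 * R.2 + n) / (4 * n) = t at y1
    have c0 := abs_le.1 (show |x k| ≤ |x k| from le_rfl)
    have c1 := abs_le.1 (show |y k| ≤ |y k| from le_rfl)
    have c2 := abs_le.1 (show |x (k + 1)| ≤ |x (k + 1)| from le_rfl)
    have c3 := abs_le.1 (show |y (k + 1)| ≤ |y (k + 1)| from le_rfl)
    have hs : s = 0 := by
      by_contra hne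
      rcases lt_or_gt_of_ne hne with hlt | hgt
      · have : 1 ≤ -s := by omega
        nlinarith
      · have : -s ≤ -1 := by omega
        nlinarith
    have ht : t = 0 := by
      by_contra hne
      rcases lt_or_gt_of_ne hne with hlt | hgt
      · have : 1 ≤ -t := by omega
        nlinarith
      · have : -t ≤ -1 := by omega
        nlinarith
    rw [hs] at x1; rw [ht] at y1
    constructor
    · rw [x1]; ring
    · rw [y1]; ring
  exact bounded_zero (|x 0|).toNat x y (fun k => (hstep k).1) (fun k => (hstep k).2)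
    ⟨n, fun k => by have := hbx k; have := abs_nonneg (x k); linarith⟩
    (by rw [Int.toNat_of_nonneg (abs_nonneg _)])

lemma cok_sound (n A B : ℤ) (hn : 0 < n) (co a0 a1 b0 b1 : ℕ) (h : cok 128 co a0 a1 b0 b1 = true)
    (hco : 0 < co) (hb : Box n A B a0 a1 b0 b1) :
    (co = 1 ∧ 64 * |2 * A - n| ≤ n ∧ 64 * |2 * B - n| ≤ n) ∨
    (co = 2 ∧ 128 * |A| ≤ n ∧ 128 * |B| ≤ n) := by
  obtain ⟨x0, x1, y0, y1⟩ := hb
  have hU : (U : ℤ) = 16384 := rfl
  rw [hU] at x0 x1 y0 y1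
  by_cases h1 : co = 1
  · subst h1
    left
    have e : cok 128 1 a0 a1 b0 b1 = (Nat.ble 12160 a0 && (Nat.ble a1 12416 &&
      (Nat.ble 12160 b0 && Nat.ble b1 12416))) := rfl
    rw [e] at h
    simp only [Bool.and_eq_true] at h
    obtain ⟨h1, h2, h3, h4⟩ := h
    have h1 := Nat.le_of_ble_eq_true h1
    have h2 := Nat.le_of_ble_eq_true h2
    have h3 := Nat.le_of_ble_eq_true h3
    have h4 := Nat.le_of_ble_eq_true h4
    have h1 : (12160 : ℤ) ≤ a0 := by exact_mod_cast h1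
    have h2 : (a1 : ℤ) ≤ 12416 := by exact_mod_cast h2
    have h3 : (12160 : ℤ) ≤ b0 := by exact_mod_cast h3
    have h4 : (b1 : ℤ) ≤ 12416 := by exact_mod_cast h4
    refine ⟨rfl, ?_, ?_⟩
    · have : |2 * A - n| = |64 * (2 * A - n)| / 64 := by rw [abs_mul]; norm_num
      have k : |64 * (2 * A - n)| ≤ n := by
        rw [abs_le]; constructor <;> nlinarith
      rw [abs_mul] at k
      norm_num at k
      exact k
    · have k : |64 * (2 * B - n)| ≤ n := by
        rw [abs_le]; constructor <;> nlinarith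
      rw [abs_mul] at k
      norm_num at k
      exact k
  · by_cases h2 : co = 2
    · subst h2
      right
      have e : cok 128 2 a0 a1 b0 b1 = (Nat.ble 3968 a0 && (Nat.ble a1 4224 &&
        (Nat.ble 3968 b0 && Nat.ble b1 4224))) := rfl
      rw [e] at h
      simp only [Bool.and_eq_true] at h
      obtain ⟨h1, h2, h3, h4⟩ := h
      have h1 := Nat.le_of_ble_eq_true h1
      have h2 := Nat.le_of_ble_eq_true h2
      have h3 := Nat.le_of_ble_eq_true h3
      have h4 := Nat.le_of_ble_eq_true h4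
      have h1 : (3968 : ℤ) ≤ a0 := by exact_mod_cast h1
      have h2 : (a1 : ℤ) ≤ 4224 := by exact_mod_cast h2
      have h3 : (3968 : ℤ) ≤ b0 := by exact_mod_cast h3
      have h4 : (b1 : ℤ) ≤ 4224 := by exact_mod_cast h4
      refine ⟨rfl, ?_, ?_⟩
      · have k : |128 * A| ≤ n := by
          rw [abs_le]; constructor <;> nlinarith
        rw [abs_mul] at k
        norm_num at k
        exact k
      · have k : |128 * B| ≤ n := by
          rw [abs_le]; constructor <;> nlinarith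
        rw [abs_mul] at k
        norm_num at k
        exact k
    · exfalso
      unfold cok at h
      have e0 : Nat.beq co 0 = false := Bool.eq_false_iff.2 fun hh =>
        hco.ne' (Nat.eq_of_beq_eq_true hh)
      have e1 : Nat.beq co 1 = false := Bool.eq_false_iff.2 fun hh => h1 (Nat.eq_of_beq_eq_true hh)
      have e2 : Nat.beq co 2 = false := Bool.eq_false_iff.2 fun hh => h2 (Nat.eq_of_beq_eq_true hh)
      rw [e0, e1, e2] at h
      simp at h

/-- main theorem of the dynamical argument. -/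
theorem main_orbit {th : ℕ → ℕ → ℕ → ℕ} {TH : ℤ → ℤ → ℕ} {n : ℤ} {rt : ℕ → ℕ → Tr}
    (hn : 0 < n) (hn8 : n % 8 = 1) (hc : Comp th TH n) (hI : Inv TH)
    (hlok : ∀ i k, i < 4 → k < 2 → lok (rt i k) = true)
    (hchk : ∀ i k, i < 4 → k < 2 → chk th rt 128 (rt i k) 0 U 0 U i k = true)
    (A B : ℤ) (hbad : Bad TH n A B) : n ∣ A ∧ n ∣ B := by
  have hnxt : ∀ P : ℤ × ℤ, Bad TH n P.1 P.2 → Bad TH n (nxt n P).1 (nxt n P).2 := fun P hP =>
    bad_step hI n P.1 P.2 _ _ hP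
  have hex : ∀ P : ℤ × ℤ, Dom n P.1 P.2 → Bad TH n P.1 P.2 →
      ∃ rk co, At n P.1 P.2 rk co (rt (c0 P.1) (c1 P.2)) 0 U 0 U := by
    intro P hD hP
    have h0 : c0 P.1 < 4 := by unfold c0; omega
    have h1 : c1 P.2 < 2 := by unfold c1; omega
    apply chk_exists hn hc P.1 P.2 hP (c0 P.1) (c1 P.2) (cl_self _ _) _ _ _ _ _ (hchk _ _ h0 h1)
    obtain ⟨d0, d1, d2, d3⟩ := hD
    have hU : (U : ℤ) = 16384 := rfl
    unfold Box
    rw [hU]
    refine ⟨?_, ?_, ?_, ?_⟩ <;> push_cast <;> linarith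
  have key : ∀ rk : ℕ, ∀ P : ℤ × ℤ, Dom n P.1 P.2 → Bad TH n P.1 P.2 →
      ∀ co, At n P.1 P.2 rk co (rt (c0 P.1) (c1 P.2)) 0 U 0 U → n ∣ P.1 ∧ n ∣ P.2 := by
    intro rk
    induction rk using Nat.strong_induction_on with
    | _ rk ih =>
      intro P hD hP co hAt
      by_contra hcon
      have stp : ∀ R : ℤ × ℤ, Dom n R.1 R.2 → Bad TH n R.1 R.2 →
          At n R.1 R.2 rk co (rt (c0 R.1) (c1 R.2)) 0 U 0 U → ¬ (n ∣ R.1 ∧ n ∣ R.2) →
          0 < co ∧ Dom n (nxt n R).1 (nxt n R).2 ∧ Bad TH n (nxt n R).1 (nxt n R).2 ∧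
          At n (nxt n R).1 (nxt n R).2 rk co (rt (c0 (nxt n R).1) (c1 (nxt n R).2)) 0 U 0 U ∧
          ¬ (n ∣ (nxt n R).1 ∧ n ∣ (nxt n R).2) := by
        intro R hRD hRb hRA hRn
        have hD' := nxt_dom n hn R
        have hB' := hnxt R hRb
        obtain ⟨rk', co', hA'⟩ := hex (nxt n R) hD' hB'
        have hs := step hn hn8 hlok hchk R.1 R.2 (nxt n R).1 (nxt n R).2 _ _ hRD hD' rfl rfl
          rk co rk' co' hRA hA'
        rcases hs with hs | ⟨h1, h2, h3⟩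
        · exact absurd (nxt_dvd n R (ih rk' hs (nxt n R) hD' hB' co' hA')) hRn
        · subst h1; subst h2
          exact ⟨h3, hD', hB', hA', fun hh => hRn (nxt_dvd n R hh)⟩
      have all : ∀ k : ℕ, Dom n ((nxt n)^[k] P).1 ((nxt n)^[k] P).2 ∧
          Bad TH n ((nxt n)^[k] P).1 ((nxt n)^[k] P).2 ∧
          At n ((nxt n)^[k] P).1 ((nxt n)^[k] P).2 rk co
            (rt (c0 ((nxt n)^[k] P).1) (c1 ((nxt n)^[k] P).2)) 0 U 0 U ∧
          ¬ (n ∣ ((nxt n)^[k] P).1 ∧ n ∣ ((nxt n)^[k] P).2) := by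
        intro k
        induction k with
        | zero => exact ⟨hD, hP, hAt, hcon⟩
        | succ k ihk =>
          rw [Function.iterate_succ_apply']
          obtain ⟨i1, i2, i3, i4⟩ := ihk
          obtain ⟨_, j1, j2, j3, j4⟩ := stp _ i1 i2 i3 i4
          exact ⟨j1, j2, j3, j4⟩
      have hco := (stp P hD hP hAt hcon).1
      have inc : ∀ k : ℕ, (co = 1 ∧ 64 * |2 * ((nxt n)^[k] P).1 - n| ≤ n ∧
          64 * |2 * ((nxt n)^[k] P).2 - n| ≤ n) ∨
          (co = 2 ∧ 128 * |((nxt n)^[k] P).1| ≤ n ∧ 128 * |((nxt n)^[k] P).2| ≤ n) := by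
        intro k
        obtain ⟨i1, i2, i3, i4⟩ := all k
        have h0 : c0 ((nxt n)^[k] P).1 < 4 := by unfold c0; omega
        have h1 : c1 ((nxt n)^[k] P).2 < 2 := by unfold c1; omega
        obtain ⟨a0, a1, b0, b1, hb, hck, _⟩ := chk_leaf _ _ _ _ rk co _ _ _ _ _
          (hchk _ _ h0 h1) i3
        exact cok_sound n _ _ hn co a0 a1 b0 b1 hck hco hb
      rcases inc 0 with ⟨hc1, _⟩ | ⟨hc2, _⟩
      · have := core1 n hn P (fun k => by
          rcases inc k with ⟨_, h⟩ | ⟨h, _⟩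
          · exact h
          · omega)
        omega
      · have := core2 n hn P (fun k => by
          rcases inc k with ⟨h, _⟩ | ⟨_, h⟩
          · omega
          · exact h)
        apply hcon
        rw [this.1, this.2]
        exact ⟨dvd_zero _, dvd_zero _⟩
  -- reduce to the domain
  have hP1 := hnxt (A, B) hbad
  have hD1 := nxt_dom n hn (A, B)
  obtain ⟨rk, co, h⟩ := hex _ hD1 hP1
  exact nxt_dvd n (A, B) (key rk _ hD1 hP1 co h)

end Pool.Agent.H222R3.EW
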