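import Pool.Agent.H222R3.EW.Tree

/-! Soundness of the checks. -/

set_option autoImplicit false

namespace Pool.Agent.H222R3.EW

/-- the point `(A/n, B/n)` (shifted by `1/4`) lies in the box, in units `1/U`. -/
def Box (n A B : ℤ) (a0 a1 b0 b1 : ℕ) : Prop :=
  (a0 : ℤ) * (4 * n) ≤ U * (4 * A + n) ∧ U * (4 * A + n) ≤ (a1 : ℤ) * (4 * n) ∧
  (b0 : ℤ) * (4 * n) ≤ U * (4 * B + n) ∧ U * (4 * B + n) ≤ (b1 : ℤ) * (4 * n)

/-- all translates are bad with respect to the thresholds `TH`. -/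
def Bad (TH : ℤ → ℤ → ℕ) (n A B : ℤ) : Prop :=
  ∀ q0 q1 : ℤ, (TH (A - n * q0) (B - n * q1) : ℤ) * n ^ 2 ≤
    (U : ℤ) ^ 2 * |(A - n * q0) ^ 2 - 14 * (B - n * q1) ^ 2|

/-- class of a point -/
def Cl (j r0 r1 : ℕ) (A B : ℤ) : Prop :=
  (j = 3 ∧ (A - r0) % 4 = 0 ∧ (B - r1) % 2 = 0) ∨
  (j = 4 ∧ (A - r0) % 4 = 0 ∧ (B - r1) % 4 = 0) ∨
  (j = 5 ∧ (A - r0) % 8 = 0 ∧ (B - r1) % 4 = 0)

lemma dist_bounds (n X : ℤ) (hn : 0 < n) (x0 x1 c : ℕ)
    (h0 : n * ((x0 : ℤ) - c) ≤ U * X) (h1 : U * X ≤ n * ((x1 : ℤ) - c)) :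
    |U * X| ≤ n * far x0 x1 c ∧ n * near x0 x1 c ≤ |U * X| := by
  have had : ∀ x c : ℕ, ((adist x c : ℕ) : ℤ) = |(x : ℤ) - c| := by
    intro x c
    unfold adist
    rcases le_total x c with h | h
    · rw [abs_of_nonpos (by omega)]
      push_cast
      omega
    · rw [abs_of_nonneg (by omega)]
      push_cast
      omega
  constructor
  · unfold far
    have e : ((Nat.max (adist x0 c) (adist x1 c) : ℕ) : ℤ)
        = max (|(x0 : ℤ) - c|) (|(x1 : ℤ) - c|) := by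
      rw [← had, ← had]
      exact Nat.cast_max _ _
    rw [e, abs_le]
    have m0 := le_max_left (|(x0 : ℤ) - c|) (|(x1 : ℤ) - c|)
    have m1 := le_max_right (|(x0 : ℤ) - c|) (|(x1 : ℤ) - c|)
    have a0 := neg_abs_le ((x0 : ℤ) - c)
    have a1 := le_abs_self ((x1 : ℤ) - c)
    constructor
    · have : -(max (|(x0 : ℤ) - c|) (|(x1 : ℤ) - c|)) ≤ (x0 : ℤ) - c := by linarith
      nlinarith
    · have : (x1 : ℤ) - c ≤ max (|(x0 : ℤ) - c|) (|(x1 : ℤ) - c|) := by linarith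
      nlinarith
  · unfold near
    by_cases h : (Nat.ble x0 c && Nat.ble c x1) = true
    · rw [h]
      simp only [cond_true, Nat.cast_zero, mul_zero]
      exact abs_nonneg _
    · have h' : (Nat.ble x0 c && Nat.ble c x1) = false := Bool.eq_false_iff.2 h
      rw [h']
      simp only [cond_false]
      have e : ((Nat.min (adist x0 c) (adist x1 c) : ℕ) : ℤ)
          = min (|(x0 : ℤ) - c|) (|(x1 : ℤ) - c|) := by
        rw [← had, ← had]
        exact Nat.cast_min _ _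
      rw [e]
      rw [Bool.and_eq_false_iff] at h'
      rcases h' with h' | h'
      · have hc : c < x0 := by
          by_contra hc
          push Not at hc
          have := Nat.ble_eq_true_of_le hc
          rw [this] at h'
          exact absurd h' (by simp)
        have hp : (0 : ℤ) < (x0 : ℤ) - c := by
          have : (c : ℤ) < x0 := by exact_mod_cast hc
          linarith
        have m0 := min_le_left (|(x0 : ℤ) - c|) (|(x1 : ℤ) - c|)
        rw [abs_of_pos hp] at m0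
        have hx : n * ((x0 : ℤ) - c) ≤ |U * X| := h0.trans (le_abs_self _)
        refine le_trans ?_ hx
        apply mul_le_mul_of_nonneg_left _ hn.le
        rw [abs_of_pos hp]
        exact m0
      · have hc : x1 < c := by
          by_contra hc
          push Not at hc
          have := Nat.ble_eq_true_of_le hc
          rw [this] at h'
          exact absurd h' (by simp)
        have hp : (x1 : ℤ) - c < 0 := by
          have : (x1 : ℤ) < c := by exact_mod_cast hc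
          linarith
        have m1 := min_le_right (|(x0 : ℤ) - c|) (|(x1 : ℤ) - c|)
        have hx : n * (-((x1 : ℤ) - c)) ≤ |U * X| := by
          have : n * (-((x1 : ℤ) - c)) ≤ -(U * X) := by linarith
          exact this.trans (neg_le_abs _)
        refine le_trans ?_ hx
        apply mul_le_mul_of_nonneg_left _ hn.le
        rw [← abs_of_neg hp]
        exact m1

lemma tst_sound (n X Y : ℤ) (hn : 0 < n) (M0 m0 M1 m1 t : ℕ)
    (hX : |U * X| ≤ n * M0) (hX' : n * m0 ≤ |U * X|)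
    (hY : |U * Y| ≤ n * M1) (hY' : n * m1 ≤ |U * Y|)
    (h : tst M0 m0 M1 m1 t = true) :
    (U : ℤ) ^ 2 * |X ^ 2 - 14 * Y ^ 2| < t * n ^ 2 := by
  unfold tst at h
  rw [Bool.and_eq_true] at h
  obtain ⟨h1, h2⟩ := h
  have h1' : M0 * M0 < 14 * (m1 * m1) + t := by
    have := Nat.le_of_ble_eq_true h1
    omega
  have h2' : 14 * (M1 * M1) < m0 * m0 + t := by
    have := Nat.le_of_ble_eq_true h2
    omega
  have h1z : (M0 : ℤ) * M0 < 14 * (m1 * m1) + t := by exact_mod_cast h1'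
  have h2z : 14 * ((M1 : ℤ) * M1) < m0 * m0 + t := by exact_mod_cast h2'
  have hM0 : (0 : ℤ) ≤ M0 := Int.natCast_nonneg _
  have hM1 : (0 : ℤ) ≤ M1 := Int.natCast_nonneg _
  have hm0 : (0 : ℤ) ≤ m0 := Int.natCast_nonneg _
  have hm1 : (0 : ℤ) ≤ m1 := Int.natCast_nonneg _
  have sX : (U * X) ^ 2 ≤ (n * M0) ^ 2 := by
    rw [← sq_abs]
    exact pow_le_pow_left₀ (abs_nonneg _) hX 2
  have sX' : (n * m0) ^ 2 ≤ (U * X) ^ 2 := by
    rw [← sq_abs (U * X)]
    exact pow_le_pow_left₀ (by positivity) hX' 2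
  have sY : (U * Y) ^ 2 ≤ (n * M1) ^ 2 := by
    rw [← sq_abs]
    exact pow_le_pow_left₀ (abs_nonneg _) hY 2
  have sY' : (n * m1) ^ 2 ≤ (U * Y) ^ 2 := by
    rw [← sq_abs (U * Y)]
    exact pow_le_pow_left₀ (by positivity) hY' 2
  have hn2 : 0 < n ^ 2 := by positivity
  have e : (U : ℤ) ^ 2 * |X ^ 2 - 14 * Y ^ 2| = |(U * X) ^ 2 - 14 * (U * Y) ^ 2| := by
    have : (U * X : ℤ) ^ 2 - 14 * (U * Y) ^ 2 = (U : ℤ) ^ 2 * (X ^ 2 - 14 * Y ^ 2) := by ring
    rw [this, abs_mul, abs_of_nonneg (by positivity : (0 : ℤ) ≤ (U : ℤ) ^ 2)]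
  rw [e, abs_lt]
  have k1 : n ^ 2 * ((M0 : ℤ) * M0) < n ^ 2 * (14 * (m1 * m1) + t) :=
    mul_lt_mul_of_pos_left h1z hn2
  have k2 : n ^ 2 * (14 * ((M1 : ℤ) * M1)) < n ^ 2 * (m0 * m0 + t) :=
    mul_lt_mul_of_pos_left h2z hn2
  constructor
  · nlinarith
  · nlinarith

lemma qcover (n A B : ℤ) (hn : 0 < n) (a0 a1 b0 b1 Q0 Q1 t : ℕ)
    (hbox : Box n A B a0 a1 b0 b1)
    (h : tst (far (a0 + 128 * U) (a1 + 128 * U) (U * Q0 + U / 4))
          (near (a0 + 128 * U) (a1 + 128 * U) (U * Q0 + U / 4))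
          (far (b0 + 32 * U) (b1 + 32 * U) (U * Q1 + U / 4))
          (near (b0 + 32 * U) (b1 + 32 * U) (U * Q1 + U / 4)) t = true) :
    (U : ℤ) ^ 2 * |(A - n * ((Q0 : ℤ) - 128)) ^ 2 - 14 * (B - n * ((Q1 : ℤ) - 32)) ^ 2|
      < t * n ^ 2 := by
  obtain ⟨x0, x1, y0, y1⟩ := hbox
  have hU : (U : ℤ) = 16384 := rfl
  have hU4 : ((U / 4 : ℕ) : ℤ) = 4096 := rfl
  rw [hU] at x0 x1 y0 y1
  have k1 : ((a0 + 128 * U : ℕ) : ℤ) = a0 + 128 * 16384 := by push_cast; rw [hU]; norm_num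
  have k2 : ((a1 + 128 * U : ℕ) : ℤ) = a1 + 128 * 16384 := by push_cast; rw [hU]; norm_num
  have k3 : ((b0 + 32 * U : ℕ) : ℤ) = b0 + 32 * 16384 := by push_cast; rw [hU]; norm_num
  have k4 : ((b1 + 32 * U : ℕ) : ℤ) = b1 + 32 * 16384 := by push_cast; rw [hU]; norm_num
  have k5 : ((U * Q0 + U / 4 : ℕ) : ℤ) = 16384 * Q0 + 4096 := by
    rw [Nat.cast_add, Nat.cast_mul, hU, hU4]
  have k6 : ((U * Q1 + U / 4 : ℕ) : ℤ) = 16384 * Q1 + 4096 := by
    rw [Nat.cast_add, Nat.cast_mul, hU, hU4]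
  have c1 := dist_bounds n (A - n * ((Q0 : ℤ) - 128)) hn (a0 + 128 * U) (a1 + 128 * U)
    (U * Q0 + U / 4) (by rw [k1, k5, hU]; linarith)
    (by rw [k2, k5, hU]; linarith)
  have c2 := dist_bounds n (B - n * ((Q1 : ℤ) - 32)) hn (b0 + 32 * U) (b1 + 32 * U)
    (U * Q1 + U / 4) (by rw [k3, k6, hU]; linarith)
    (by rw [k4, k6, hU]; linarith)
  exact tst_sound n _ _ hn _ _ _ _ _ c1.1 c1.2 c2.1 c2.2 h

section

variable (th : ℕ → ℕ → ℕ → ℕ) (TH : ℤ → ℤ → ℕ) (n : ℤ)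

/-- compatibility of the thresholds. -/
def Comp : Prop := ∀ (j r0 r1 Q0 Q1 : ℕ) (A B : ℤ), Cl j r0 r1 A B →
  th j ((r0 + 7 * Q0) % 8) ((r1 + 3 * Q1) % 4) ≤
    TH (A - n * ((Q0 : ℤ) - 128)) (B - n * ((Q1 : ℤ) - 32))

variable {th TH n}

lemma cchk_sound (hn : 0 < n) (hc : Comp th TH n) (A B : ℤ) (a0 a1 b0 b1 : ℕ)
    (hbox : Box n A B a0 a1 b0 b1) (hbad : Bad TH n A B) :
    ∀ (c : CT) (r0 r1 j : ℕ), Cl j r0 r1 A B → cchk th a0 a1 b0 b1 c r0 r1 j = true → False := by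
  intro c
  induction c with
  | q Q0 Q1 =>
    intro r0 r1 j hcl h
    have h1 := qcover n A B hn a0 a1 b0 b1 Q0 Q1 _ hbox h
    have h2 := hbad ((Q0 : ℤ) - 128) ((Q1 : ℤ) - 32)
    have h3 := hc j r0 r1 Q0 Q1 A B hcl
    have h3' : ((th j ((r0 + 7 * Q0) % 8) ((r1 + 3 * Q1) % 4) : ℕ) : ℤ) ≤
      (TH (A - n * ((Q0 : ℤ) - 128)) (B - n * ((Q1 : ℤ) - 32)) : ℤ) := by exact_mod_cast h3
    have hn2 : 0 < n ^ 2 := by positivity
    nlinarith
  | s l r ihl ihr =>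
    intro r0 r1 j hcl h
    unfold cchk at h
    by_cases h3 : j = 3
    · subst h3
      have e : Nat.beq 3 3 = true := rfl
      rw [e, cond_true, Bool.and_eq_true] at h
      rcases hcl with ⟨_, ha, hb⟩ | ⟨h', _⟩ | ⟨h', _⟩
      · have : (B - r1) % 4 = 0 ∨ (B - ((r1 + 2 : ℕ) : ℤ)) % 4 = 0 := by
          push_cast; omega
        rcases this with hb' | hb'
        · exact ihl r0 r1 4 (Or.inr (Or.inl ⟨rfl, ha, hb'⟩)) h.1
        · exact ihr r0 (r1 + 2) 4 (Or.inr (Or.inl ⟨rfl, ha, hb'⟩)) h.2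
      · exact absurd h' (by norm_num)
      · exact absurd h' (by norm_num)
    · have e : Nat.beq j 3 = false := by
        by_contra hh
        have : Nat.beq j 3 = true := by simpa using hh
        exact h3 (Nat.eq_of_beq_eq_true this)
      rw [e, cond_false] at h
      by_cases h4 : j = 4
      · subst h4
        have e : Nat.beq 4 4 = true := rfl
        rw [e, cond_true, Bool.and_eq_true] at h
        rcases hcl with ⟨h', _⟩ | ⟨_, ha, hb⟩ | ⟨h', _⟩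
        · exact absurd h' (by norm_num)
        · have : (A - r0) % 8 = 0 ∨ (A - ((r0 + 4 : ℕ) : ℤ)) % 8 = 0 := by
            push_cast; omega
          rcases this with ha' | ha'
          · exact ihl r0 r1 5 (Or.inr (Or.inr ⟨rfl, ha', hb⟩)) h.1
          · exact ihr (r0 + 4) r1 5 (Or.inr (Or.inr ⟨rfl, ha', hb⟩)) h.2
        · exact absurd h' (by norm_num)
      · have e : Nat.beq j 4 = false := by
          by_contra hh
          have : Nat.beq j 4 = true := by simpa using hh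
          exact h4 (Nat.eq_of_beq_eq_true this)
        rw [e, cond_false] at h
        exact absurd h (by simp)

end

/-- the point lies in a leaf with rank `rk` and core index `co`. -/
def At (n A B : ℤ) (rk co : ℕ) : Tr → ℕ → ℕ → ℕ → ℕ → Prop
  | .cv _, _, _, _, _ => False
  | .lf rk' co', a0, a1, b0, b1 => rk' = rk ∧ co' = co ∧ Box n A B a0 a1 b0 b1
  | .sx _ mid l r, a0, a1, b0, b1 => Box n A B a0 a1 b0 b1 ∧
      (At n A B rk co l a0 mid b0 b1 ∨ At n A B rk co r mid a1 b0 b1)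
  | .sy _ mid l r, a0, a1, b0, b1 => Box n A B a0 a1 b0 b1 ∧
      (At n A B rk co l a0 a1 b0 mid ∨ At n A B rk co r a0 a1 mid b1)

lemma at_lab (n A B : ℤ) (rk co : ℕ) : ∀ (t : Tr) (a0 a1 b0 b1 : ℕ),
    lok t = true → At n A B rk co t a0 a1 b0 b1 → rk ≤ lab t := by
  intro t
  induction t with
  | lf rk' co' =>
    intro a0 a1 b0 b1 _ h
    exact h.1.symm.le
  | cv c => intro a0 a1 b0 b1 _ h; exact h.elim
  | sx m mid l r ihl ihr =>
    intro a0 a1 b0 b1 hl h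
    simp only [lok, Bool.and_eq_true] at hl
    obtain ⟨⟨⟨h1, h2⟩, h3⟩, h4⟩ := hl
    have h1 := Nat.le_of_ble_eq_true h1
    have h2 := Nat.le_of_ble_eq_true h2
    show rk ≤ m
    rcases h.2 with h | h
    · exact (ihl _ _ _ _ h3 h).trans h1
    · exact (ihr _ _ _ _ h4 h).trans h2
  | sy m mid l r ihl ihr =>
    intro a0 a1 b0 b1 hl h
    simp only [lok, Bool.and_eq_true] at hl
    obtain ⟨⟨⟨h1, h2⟩, h3⟩, h4⟩ := hl
    have h1 := Nat.le_of_ble_eq_true h1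
    have h2 := Nat.le_of_ble_eq_true h2
    show rk ≤ m
    rcases h.2 with h | h
    · exact (ihl _ _ _ _ h3 h).trans h1
    · exact (ihr _ _ _ _ h4 h).trans h2

lemma at_box (n A B : ℤ) (rk co : ℕ) : ∀ (t : Tr) (a0 a1 b0 b1 : ℕ),
    At n A B rk co t a0 a1 b0 b1 → Box n A B a0 a1 b0 b1 := by
  intro t
  cases t with
  | lf rk' co' => intro a0 a1 b0 b1 h; exact h.2.2
  | cv c => intro a0 a1 b0 b1 h; exact h.elim
  | sx m mid l r => intro a0 a1 b0 b1 h; exact h.1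
  | sy m mid l r => intro a0 a1 b0 b1 h; exact h.1

lemma le_of_mul_le (n : ℤ) (hn : 0 < n) (x y : ℕ) (h : (x : ℤ) * (4 * n) ≤ y * (4 * n)) :
    Nat.ble x y = true := by
  have : (x : ℤ) ≤ y := le_of_mul_le_mul_right h (by linarith)
  exact Nat.ble_eq_true_of_le (by exact_mod_cast this)

lemma meet_true (n A B A' B' : ℤ) (hn : 0 < n) (a0 a1 b0 b1 e0 e1 u0 u1 v0 v1 : ℕ)
    (hb : Box n A B a0 a1 b0 b1) (hb' : Box n A' B' u0 u1 v0 v1)
    (hA : A' = 15 * A + 56 * B - n * ((e0 : ℤ) - 18))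
    (hB : B' = 4 * A + 15 * B - n * ((e1 : ℤ) - 5)) :
    meet a0 a1 b0 b1 (e0 * U) (e1 * U) u0 u1 v0 v1 = true := by
  obtain ⟨x0, x1, y0, y1⟩ := hb
  obtain ⟨x0', x1', y0', y1'⟩ := hb'
  have hU : (U : ℤ) = 16384 := rfl
  have hU2 : ((U / 2 : ℕ) : ℤ) = 8192 := rfl
  rw [hU] at x0 x1 y0 y1 x0' x1' y0' y1'
  have hs : (16384 : ℤ) * (4 * A' + n) = 15 * (16384 * (4 * A + n)) + 56 * (16384 * (4 * B + n))
      + 8192 * (4 * n) - (e0 : ℤ) * 16384 * (4 * n) := by rw [hA]; ring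
  have ht : (16384 : ℤ) * (4 * B' + n) = 4 * (16384 * (4 * A + n)) + 15 * (16384 * (4 * B + n))
      + 8192 * (4 * n) - (e1 : ℤ) * 16384 * (4 * n) := by rw [hB]; ring
  rw [hs] at x0' x1'
  rw [ht] at y0' y1'
  generalize (16384 : ℤ) * (4 * A + n) = s at *
  generalize (16384 : ℤ) * (4 * B + n) = t at *
  have hN : 0 < 4 * n := by linarith
  generalize hNN : 4 * n = N at *
  unfold meet
  simp only [Bool.and_eq_true]
  refine ⟨?_, ?_, ?_, ?_, ?_, ?_, ?_, ?_⟩ <;>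
  · apply le_of_mul_le n hn
    simp only [Nat.cast_add, Nat.cast_mul, hU2, hU, Nat.cast_ofNat]
    rw [hNN]
    linarith

lemma qry_sound (n A B A' B' : ℤ) (hn : 0 < n) (rk co a0 a1 b0 b1 e0 e1 : ℕ)
    (hb : Box n A B a0 a1 b0 b1)
    (hA : A' = 15 * A + 56 * B - n * ((e0 : ℤ) - 18))
    (hB : B' = 4 * A + 15 * B - n * ((e1 : ℤ) - 5)) (rk' co' : ℕ) :
    ∀ (t : Tr) (u0 u1 v0 v1 : ℕ), lok t = true →
    qry rk co a0 a1 b0 b1 (e0 * U) (e1 * U) t u0 u1 v0 v1 = true →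
    At n A' B' rk' co' t u0 u1 v0 v1 → rk' < rk ∨ (rk' = rk ∧ co' = co ∧ 0 < co) := by
  intro t
  induction t with
  | cv c => intro u0 u1 v0 v1 _ _ h; exact h.elim
  | lf rk'' co'' =>
    intro u0 u1 v0 v1 _ hq h
    obtain ⟨h1, h2, h3⟩ := h
    subst h1; subst h2
    have hm := meet_true n A B A' B' hn a0 a1 b0 b1 e0 e1 u0 u1 v0 v1 hb h3 hA hB
    simp only [qry, hm, Bool.not_true, Bool.or_false, Bool.or_eq_true, Bool.and_eq_true] at hq
    rcases hq with hq | ⟨hq1, hq2, hq3⟩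
    · left
      have := Nat.le_of_ble_eq_true hq
      omega
    · right
      refine ⟨Nat.eq_of_beq_eq_true hq1, Nat.eq_of_beq_eq_true hq2, ?_⟩
      have := Nat.le_of_ble_eq_true hq3
      omega
  | sx m mid l r ihl ihr =>
    intro u0 u1 v0 v1 hl hq h
    have hlab := at_lab n A' B' rk' co' _ _ _ _ _ hl h
    simp only [lok, Bool.and_eq_true] at hl
    obtain ⟨⟨⟨h1, h2⟩, h3⟩, h4⟩ := hl
    have hm := meet_true n A B A' B' hn a0 a1 b0 b1 e0 e1 u0 u1 v0 v1 hb h.1 hA hB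
    simp only [qry, hm, Bool.not_true, Bool.false_or, Bool.or_eq_true, Bool.and_eq_true] at hq
    rcases hq with hq | ⟨hq1, hq2⟩
    · left
      have h5 := Nat.le_of_ble_eq_true hq
      have h6 : rk' ≤ m := hlab
      omega
    · rcases h.2 with h | h
      · exact ihl _ _ _ _ h3 hq1 h
      · exact ihr _ _ _ _ h4 hq2 h
  | sy m mid l r ihl ihr =>
    intro u0 u1 v0 v1 hl hq h
    have hlab := at_lab n A' B' rk' co' _ _ _ _ _ hl h
    simp only [lok, Bool.and_eq_true] at hl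
    obtain ⟨⟨⟨h1, h2⟩, h3⟩, h4⟩ := hl
    have hm := meet_true n A B A' B' hn a0 a1 b0 b1 e0 e1 u0 u1 v0 v1 hb h.1 hA hB
    simp only [qry, hm, Bool.not_true, Bool.false_or, Bool.or_eq_true, Bool.and_eq_true] at hq
    rcases hq with hq | ⟨hq1, hq2⟩
    · left
      have h5 := Nat.le_of_ble_eq_true hq
      have h6 : rk' ≤ m := hlab
      omega
    · rcases h.2 with h | h
      · exact ihl _ _ _ _ h3 hq1 h
      · exact ihr _ _ _ _ h4 hq2 h

end Pool.Agent.H222R3.EW
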