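import Mathlib

/-! Finite certificates for minima of weighted norms on `ℤ[√14]`: data types and checks. -/

set_option autoImplicit false

namespace Pool.Agent.H222R3.EW

/-- Cover certificates for a box: one lattice point, or a refinement of the class. -/
inductive CT
  | q (Q0 Q1 : Nat)
  | s (l r : CT)

/-- Subdivision trees. -/
inductive Tr
  | lf (rk co : Nat)
  | cv (c : CT)
  | sx (m mid : Nat) (l r : Tr)
  | sy (m mid : Nat) (l r : Tr)

/-- the unit of length: `1/U`. -/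
def U : Nat := 16384

/-- distance of natural numbers -/
def adist (x c : Nat) : Nat := (x - c) + (c - x)

/-- largest distance from `c` on `[x0,x1]` -/
def far (x0 x1 c : Nat) : Nat := Nat.max (adist x0 c) (adist x1 c)

/-- smallest distance from `c` on `[x0,x1]` (lower bound) -/
def near (x0 x1 c : Nat) : Nat :=
  bif Nat.ble x0 c && Nat.ble c x1 then 0 else Nat.min (adist x0 c) (adist x1 c)

/-- test that `|N| < t` on the box. -/
def tst (M0 m0 M1 m1 t : Nat) : Bool :=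
  Nat.blt (M0 * M0) (14 * (m1 * m1) + t) && Nat.blt (14 * (M1 * M1)) (m0 * m0 + t)

/-- check of a cover certificate. -/
def cchk (th : Nat → Nat → Nat → Nat) (a0 a1 b0 b1 : Nat) : CT → Nat → Nat → Nat → Bool
  | .q Q0 Q1, r0, r1, j =>
      tst (far (a0 + 128 * U) (a1 + 128 * U) (U * Q0 + U / 4))
          (near (a0 + 128 * U) (a1 + 128 * U) (U * Q0 + U / 4))
          (far (b0 + 32 * U) (b1 + 32 * U) (U * Q1 + U / 4))
          (near (b0 + 32 * U) (b1 + 32 * U) (U * Q1 + U / 4))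
          (th j ((r0 + 7 * Q0) % 8) ((r1 + 3 * Q1) % 4))
  | .s l r, r0, r1, j =>
      bif Nat.beq j 3 then cchk th a0 a1 b0 b1 l r0 r1 4 && cchk th a0 a1 b0 b1 r r0 (r1 + 2) 4
      else bif Nat.beq j 4 then
        cchk th a0 a1 b0 b1 l r0 r1 5 && cchk th a0 a1 b0 b1 r (r0 + 4) r1 5
      else false

/-- label of a tree: bound for the ranks of its leaves. -/
def lab : Tr → Nat
  | .lf rk _ => rk
  | .cv _ => 0
  | .sx m _ _ _ => m
  | .sy m _ _ _ => m

/-- labels are consistent -/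
def lok : Tr → Bool
  | .lf _ _ => true
  | .cv _ => true
  | .sx m _ l r => Nat.ble (lab l) m && Nat.ble (lab r) m && lok l && lok r
  | .sy m _ l r => Nat.ble (lab l) m && Nat.ble (lab r) m && lok l && lok r

/-- the image of the leaf box `[a0,a1]×[b0,b1]` meets the box `[u0,u1]×[v0,v1]` translated. -/
def meet (a0 a1 b0 b1 E0 E1 u0 u1 v0 v1 : Nat) : Bool :=
  Nat.ble (15 * a0 + 56 * b0 + U / 2) (u1 + E0) &&
  (Nat.ble (u0 + E0) (15 * a1 + 56 * b1 + U / 2) &&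
  (Nat.ble (4 * a0 + 15 * b0 + U / 2) (v1 + E1) &&
  (Nat.ble (v0 + E1) (4 * a1 + 15 * b1 + U / 2) &&
  (Nat.ble (15 * (u0 + E0) + 56 * (U / 2)) (a1 + 56 * (v1 + E1) + 15 * (U / 2)) &&
  (Nat.ble (a0 + 56 * (v0 + E1) + 15 * (U / 2)) (15 * (u1 + E0) + 56 * (U / 2)) &&
  (Nat.ble (15 * (v0 + E1) + 4 * (U / 2)) (b1 + 4 * (u1 + E0) + 15 * (U / 2)) &&
   Nat.ble (b0 + 4 * (u0 + E0) + 15 * (U / 2)) (15 * (v1 + E1) + 4 * (U / 2))))))))

/-- every leaf met by the image has smaller rank, or equal rank and the same core index. -/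
def qry (rk co a0 a1 b0 b1 E0 E1 : Nat) : Tr → Nat → Nat → Nat → Nat → Bool
  | .cv _, _, _, _, _ => true
  | .lf rk' co', u0, u1, v0, v1 =>
      Nat.blt rk' rk || ((Nat.beq rk' rk && (Nat.beq co' co && Nat.blt 0 co)) ||
        !(meet a0 a1 b0 b1 E0 E1 u0 u1 v0 v1))
  | .sx m mid l r, u0, u1, v0, v1 =>
      Nat.blt m rk || (!(meet a0 a1 b0 b1 E0 E1 u0 u1 v0 v1) ||
        (qry rk co a0 a1 b0 b1 E0 E1 l u0 mid v0 v1 &&
         qry rk co a0 a1 b0 b1 E0 E1 r mid u1 v0 v1))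
  | .sy m mid l r, u0, u1, v0, v1 =>
      Nat.blt m rk || (!(meet a0 a1 b0 b1 E0 E1 u0 u1 v0 v1) ||
        (qry rk co a0 a1 b0 b1 E0 E1 l u0 u1 v0 mid &&
         qry rk co a0 a1 b0 b1 E0 E1 r u0 u1 mid v1))

/-- `f` holds at `lo, …, lo + cnt - 1`. -/
def allr (f : Nat → Bool) : Nat → Nat → Bool
  | 0, _ => true
  | c + 1, lo => f lo && allr f c (lo + 1)

/-- `f e` for all `e` with `c1 / U ≤ e ≤ c2 / U`. -/
def rng (f : Nat → Bool) (c1 c2 : Nat) : Bool :=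
  allr f (c2 / U + 1 - c1 / U) (c1 / U)

/-- core boxes. -/
def cok (K : Nat) (co a0 a1 b0 b1 : Nat) : Bool :=
  bif Nat.beq co 0 then true
  else bif Nat.beq co 1 then
    Nat.ble (3 * (U / 4) - K) a0 && (Nat.ble a1 (3 * (U / 4) + K) &&
    (Nat.ble (3 * (U / 4) - K) b0 && Nat.ble b1 (3 * (U / 4) + K)))
  else bif Nat.beq co 2 then
    Nat.ble (U / 4 - K) a0 && (Nat.ble a1 (U / 4 + K) &&
    (Nat.ble (U / 4 - K) b0 && Nat.ble b1 (U / 4 + K)))
  else false

/-- main check. -/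
def chk (th : Nat → Nat → Nat → Nat) (rt : Nat → Nat → Tr) (K : Nat) :
    Tr → Nat → Nat → Nat → Nat → Nat → Nat → Bool
  | .cv c, a0, a1, b0, b1, r0, r1 => cchk th a0 a1 b0 b1 c r0 r1 3
  | .lf rk co, a0, a1, b0, b1, r0, r1 =>
      cok K co a0 a1 b0 b1 &&
      rng (fun e0 => rng (fun e1 =>
        qry rk co a0 a1 b0 b1 (e0 * U) (e1 * U)
          (rt ((3 * r0 + 2 + 3 * e0) % 4) ((r1 + 1 + e1) % 2)) 0 U 0 U)
          (4 * a0 + 15 * b0 + U / 2) (4 * a1 + 15 * b1 + U / 2))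
        (15 * a0 + 56 * b0 + U / 2) (15 * a1 + 56 * b1 + U / 2)
  | .sx _ mid l r, a0, a1, b0, b1, r0, r1 =>
      chk th rt K l a0 mid b0 b1 r0 r1 && chk th rt K r mid a1 b0 b1 r0 r1
  | .sy _ mid l r, a0, a1, b0, b1, r0, r1 =>
      chk th rt K l a0 a1 b0 mid r0 r1 && chk th rt K r a0 a1 mid b1 r0 r1

end Pool.Agent.H222R3.EW
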