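import Pool.Agent.H222R3.EW.Field

/-! An upper bound for the Euclidean window of the prime above `2` of `ℤ[√14]`: an explicit
point whose orbit under the unit `15 + 4√14` has `22` elements. -/

set_option autoImplicit false

open NumberField

namespace Pool.Agent.H222R3.EW

/-- The denominator of the point. -/
def n22 : ℤ := 4092238385644493

/-- The numerators of the points of the orbit. -/
def orb22 : List (ℤ × ℤ) :=
    [(4092237812625914, 1499270639011672),
    (2114379476485087, 2027865364878299),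
    (2047809082903794, 2045352908314396),
    (2028555611605831, 2041384485530679),
    (1517521866248234, 1904844258583072),
    (2574716519396259, 1904844258583072),
    (2063682774038662, 2041384485530679),
    (2044429302740699, 2045352908314396),
    (1977858909159406, 2027865364878299),
    (573018579, 1499270639011672),
    (2114396667042457, 2027869949026931),
    (2048323653587736, 2045490432773356),
    (2043975541566721, 2045505635150847),
    (1979605194390992, 2028341222729152),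
    (52842891140137, 1513393647700811),
    (3697919925457611, 2451084351850248),
    (394318460186882, 2451084351850248),
    (4039395494504356, 1513393647700811),
    (2112633191253501, 2028341222729152),
    (2048262844077772, 2045505635150847),
    (2043914732056757, 2045490432773356),
    (1977841718602036, 2027869949026931)]

/-- Here `m = |M| / 2^v`, `a = |M| 1129^v`, `b = n² 1000^v`. -/
def okv : ℕ → ℕ → ℕ → ℕ → Bool
  | 0, _, a, b => Nat.ble b a
  | f + 1, m, a, b => Nat.ble b a || (Nat.beq (m % 2) 0 && okv f (m / 2) (a * 1129) (b * 1000))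

lemma okv_sound (f : ℕ) : ∀ m a b : ℕ, okv f m a b = true →
    ∃ v : ℕ, 2 ^ v ∣ m ∧ b * 1000 ^ v ≤ a * 1129 ^ v := by
  induction f with
  | zero =>
    intro m a b h
    exact ⟨0, by simp, by simpa using Nat.le_of_ble_eq_true h⟩
  | succ f ih =>
    intro m a b h
    rw [okv, Bool.or_eq_true, Bool.and_eq_true] at h
    rcases h with h | ⟨h1, h2⟩
    · exact ⟨0, by simp, by simpa using Nat.le_of_ble_eq_true h⟩
    · obtain ⟨v, hv1, hv2⟩ := ih _ _ _ h2
      have h3 : m % 2 = 0 := Nat.eq_of_beq_eq_true h1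
      refine ⟨v + 1, ?_, ?_⟩
      · obtain ⟨k, hk⟩ := hv1
        refine ⟨k, ?_⟩
        have : m = 2 * (m / 2) := by omega
        rw [this, hk, pow_succ]; ring
      · calc b * 1000 ^ (v + 1) = b * 1000 * 1000 ^ v := by ring
          _ ≤ a * 1129 * 1129 ^ v := hv2
          _ = a * 1129 ^ (v + 1) := by ring

/-- The finite check. -/
def chk22 : Bool :=
  orb22.all fun p => (List.range 8).all fun i => (List.range 4).all fun j =>
    okv 20 ((p.1 + n22 * ((i : ℤ) - 4)) ^ 2 - 14 * (p.2 + n22 * ((j : ℤ) - 2)) ^ 2).natAbs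
      ((p.1 + n22 * ((i : ℤ) - 4)) ^ 2 - 14 * (p.2 + n22 * ((j : ℤ) - 2)) ^ 2).natAbs
      (n22 ^ 2).natAbs

/-- The points have coordinates in `[0, n)`, and the list is closed under the unit and its
inverse. -/
def cls22 : Bool :=
  orb22.all fun p => (decide (0 ≤ p.1) && decide (p.1 < n22) && decide (0 ≤ p.2) &&
    decide (p.2 < n22)) &&
    (orb22.any fun r => decide ((15 * p.1 + 56 * p.2 - r.1) % n22 = 0) &&
      decide ((4 * p.1 + 15 * p.2 - r.2) % n22 = 0)) &&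
    (orb22.any fun r => decide ((15 * p.1 - 56 * p.2 - r.1) % n22 = 0) &&
      decide ((-4 * p.1 + 15 * p.2 - r.2) % n22 = 0))

lemma chk22_true : chk22 = true := by decide +kernel

lemma cls22_true : cls22 = true := by decide +kernel

lemma cls22_spec (p : ℤ × ℤ) (hp : p ∈ orb22) :
    (0 ≤ p.1 ∧ p.1 < n22 ∧ 0 ≤ p.2 ∧ p.2 < n22) ∧
    (∃ r ∈ orb22, n22 ∣ 15 * p.1 + 56 * p.2 - r.1 ∧ n22 ∣ 4 * p.1 + 15 * p.2 - r.2) ∧
    (∃ r ∈ orb22, n22 ∣ 15 * p.1 - 56 * p.2 - r.1 ∧ n22 ∣ -4 * p.1 + 15 * p.2 - r.2) := by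
  have h := List.all_eq_true.1 cls22_true p hp
  simp only [Bool.and_eq_true, decide_eq_true_eq, List.any_eq_true] at h
  obtain ⟨⟨⟨⟨⟨h1, h2⟩, h3⟩, h4⟩, r, hr, h5, h6⟩, s, hs, h7, h8⟩ := h
  exact ⟨⟨h1, h2, h3, h4⟩, ⟨r, hr, Int.dvd_of_emod_eq_zero h5, Int.dvd_of_emod_eq_zero h6⟩,
    ⟨s, hs, Int.dvd_of_emod_eq_zero h7, Int.dvd_of_emod_eq_zero h8⟩⟩

lemma chk22_spec (p : ℤ × ℤ) (hp : p ∈ orb22) (q0 q1 : ℤ) (h0 : -4 ≤ q0) (h1 : q0 ≤ 3)
    (h2 : -2 ≤ q1) (h3 : q1 ≤ 1) :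
    ∃ v : ℕ, 2 ^ v ∣ ((p.1 + n22 * q0) ^ 2 - 14 * (p.2 + n22 * q1) ^ 2).natAbs ∧
      (n22 ^ 2).natAbs * 1000 ^ v ≤
        ((p.1 + n22 * q0) ^ 2 - 14 * (p.2 + n22 * q1) ^ 2).natAbs * 1129 ^ v := by
  have h := List.all_eq_true.1 chk22_true p hp
  have h' := List.all_eq_true.1 h (q0 + 4).toNat (by rw [List.mem_range]; omega)
  have h'' := List.all_eq_true.1 h' (q1 + 2).toNat (by rw [List.mem_range]; omega)
  have e0 : (((q0 + 4).toNat : ℕ) : ℤ) - 4 = q0 := by omega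
  have e1 : (((q1 + 2).toNat : ℕ) : ℤ) - 2 = q1 := by omega
  rw [e0, e1] at h''
  exact okv_sound _ _ _ _ h''

/-- The descent under the unit `15 + 4√14`. -/
lemma lower22 : ∀ m : ℕ, ∀ X Y : ℤ, (X ^ 2 + 14 * Y ^ 2).toNat ≤ m →
    (∃ p ∈ orb22, n22 ∣ X - p.1 ∧ n22 ∣ Y - p.2) →
    ∃ v : ℕ, (2 : ℤ) ^ v ∣ X ^ 2 - 14 * Y ^ 2 ∧
      n22 ^ 2 * 1000 ^ v ≤ |X ^ 2 - 14 * Y ^ 2| * 1129 ^ v := by
  intro m
  induction m with
  | zero =>
    intro X Y hm hp
    exfalso
    have hS : X ^ 2 + 14 * Y ^ 2 ≤ 0 := by omega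
    have hX : X = 0 := by nlinarith [sq_nonneg X, sq_nonneg Y]
    have hY : Y = 0 := by nlinarith [sq_nonneg X, sq_nonneg Y]
    obtain ⟨p, hp, h1, h2⟩ := hp
    have hz : orb22.all (fun p => decide (p.1 ≠ 0)) = true := by decide +kernel
    have hz1 := List.all_eq_true.1 hz p hp
    rw [decide_eq_true_eq] at hz1
    obtain ⟨h3, h4, _, _⟩ := (cls22_spec p hp).1
    rw [hX] at h1
    obtain ⟨k, hk⟩ := h1
    have hn : (0 : ℤ) < n22 := by decide
    have : k = 0 := by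
      by_contra hk0
      rcases lt_or_gt_of_ne hk0 with h | h
      · have : k ≤ -1 := by omega
        nlinarith
      · nlinarith
    rw [this] at hk
    omega
  | succ m ih =>
    intro X Y hm hp
    by_cases hbig : n22 ^ 2 ≤ |X ^ 2 - 14 * Y ^ 2|
    · exact ⟨0, by simp, by simpa using hbig⟩
    push Not at hbig
    obtain ⟨p, hpm, ⟨q0, hq0⟩, ⟨q1, hq1⟩⟩ := hp
    obtain ⟨⟨b1, b2, b3, b4⟩, ⟨r, hr, hr1, hr2⟩, ⟨s, hs, hs1, hs2⟩⟩ := cls22_spec p hpm
    have hn : (0 : ℤ) < n22 := by decide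
    by_cases hS : X ^ 2 + 14 * Y ^ 2 ≤ 15 * |X ^ 2 - 14 * Y ^ 2|
    · have hS2 : X ^ 2 + 14 * Y ^ 2 < 15 * n22 ^ 2 := by linarith
      have eX : X = p.1 + n22 * q0 := by linarith
      have eY : Y = p.2 + n22 * q1 := by linarith
      have hX2 : X ^ 2 < (4 * n22) ^ 2 := by nlinarith [sq_nonneg Y]
      have hX3 := abs_lt_of_sq_lt_sq hX2 (by positivity)
      rw [abs_lt] at hX3
      have hY2 : Y ^ 2 < (2 * n22) ^ 2 := by nlinarith [sq_nonneg X]
      have hY3 := abs_lt_of_sq_lt_sq hY2 (by positivity)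
      rw [abs_lt] at hY3
      have c1 : -4 ≤ q0 := by
        by_contra hh
        push Not at hh
        have : q0 ≤ -5 := by omega
        nlinarith
      have c2 : q0 ≤ 3 := by
        by_contra hh
        push Not at hh
        have : 4 ≤ q0 := by omega
        nlinarith
      have c3 : -2 ≤ q1 := by
        by_contra hh
        push Not at hh
        have : q1 ≤ -3 := by omega
        nlinarith
      have c4 : q1 ≤ 1 := by
        by_contra hh
        push Not at hh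
        have : 2 ≤ q1 := by omega
        nlinarith
      obtain ⟨v, hv1, hv2⟩ := chk22_spec p hpm q0 q1 c1 c2 c3 c4
      rw [← eX, ← eY] at hv1 hv2
      refine ⟨v, ?_, ?_⟩
      · have h5 := Int.natCast_dvd.2 hv1
        exact_mod_cast h5
      · have h5 : (((n22 ^ 2).natAbs * 1000 ^ v : ℕ) : ℤ) ≤
            (((X ^ 2 - 14 * Y ^ 2).natAbs * 1129 ^ v : ℕ) : ℤ) := by exact_mod_cast hv2
        push_cast at h5
        rw [abs_of_nonneg (by positivity : (0 : ℤ) ≤ n22 ^ 2)] at h5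
        exact h5
    · push Not at hS
      have key : 448 * (X ^ 2 + 14 * Y ^ 2) < 3360 * |X * Y| := by
        by_contra hh
        push Not at hh
        have e1 : 56 * |X * Y| ^ 2 = (X ^ 2 + 14 * Y ^ 2) ^ 2 - |X ^ 2 - 14 * Y ^ 2| ^ 2 := by
          rw [sq_abs, sq_abs]; ring
        have h0 := abs_nonneg (X * Y)
        have h1 := abs_nonneg (X ^ 2 - 14 * Y ^ 2)
        have h2 : 15 * |X * Y| ≤ 2 * (X ^ 2 + 14 * Y ^ 2) := by linarith
        have h3 : (15 * |X * Y|) ^ 2 ≤ (2 * (X ^ 2 + 14 * Y ^ 2)) ^ 2 :=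
          pow_le_pow_left₀ (by positivity) h2 2
        have h4 : (15 * |X ^ 2 - 14 * Y ^ 2|) ^ 2 < (X ^ 2 + 14 * Y ^ 2) ^ 2 :=
          pow_lt_pow_left₀ hS (by positivity) (by norm_num)
        nlinarith
      have hSnn : 0 ≤ X ^ 2 + 14 * Y ^ 2 := by positivity
      rcases le_total (X * Y) 0 with hXY | hXY
      · rw [abs_of_nonpos hXY] at key
        have hlt : (15 * X + 56 * Y) ^ 2 + 14 * (4 * X + 15 * Y) ^ 2 < X ^ 2 + 14 * Y ^ 2 := by
          nlinarith
        obtain ⟨v, hv1, hv2⟩ := ih (15 * X + 56 * Y) (4 * X + 15 * Y) (by omega)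
          ⟨r, hr, by
            obtain ⟨k, hk⟩ := hr1
            exact ⟨k + 15 * q0 + 56 * q1, by linear_combination hk + 15 * hq0 + 56 * hq1⟩, by
            obtain ⟨k, hk⟩ := hr2
            exact ⟨k + 4 * q0 + 15 * q1, by linear_combination hk + 4 * hq0 + 15 * hq1⟩⟩
        have e : (15 * X + 56 * Y) ^ 2 - 14 * (4 * X + 15 * Y) ^ 2 = X ^ 2 - 14 * Y ^ 2 := by ring
        rw [e] at hv1 hv2
        exact ⟨v, hv1, hv2⟩
      · rw [abs_of_nonneg hXY] at key
        have hlt : (15 * X - 56 * Y) ^ 2 + 14 * (-4 * X + 15 * Y) ^ 2 < X ^ 2 + 14 * Y ^ 2 := by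
          nlinarith
        obtain ⟨v, hv1, hv2⟩ := ih (15 * X - 56 * Y) (-4 * X + 15 * Y) (by omega)
          ⟨s, hs, by
            obtain ⟨k, hk⟩ := hs1
            exact ⟨k + 15 * q0 - 56 * q1, by linear_combination hk + 15 * hq0 - 56 * hq1⟩, by
            obtain ⟨k, hk⟩ := hs2
            exact ⟨k - 4 * q0 + 15 * q1, by linear_combination hk - 4 * hq0 + 15 * hq1⟩⟩
        have e : (15 * X - 56 * Y) ^ 2 - 14 * (-4 * X + 15 * Y) ^ 2 = X ^ 2 - 14 * Y ^ 2 := by ring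
        rw [e] at hv1 hv2
        exact ⟨v, hv1, hv2⟩

lemma g_lower (c : ℝ) (hc : 1129 / 500 ≤ c) (M N : ℤ) (hN : 0 < N) (v : ℕ) (h1 : (2 : ℤ) ^ v ∣ M)
    (h2 : N * 1000 ^ v ≤ |M| * 1129 ^ v) : (N : ℝ) ≤ g c M := by
  have hM : M ≠ 0 := by
    rintro rfl
    rw [abs_zero, zero_mul] at h2
    have : 0 < N * 1000 ^ v := by positivity
    omega
  have hv : v ≤ padicValInt 2 M := by
    by_contra hh
    push Not at hh
    exact pv_lt M hM ((pow_dvd_pow 2 (by omega)).trans h1)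
  unfold g
  have hc2 : (1129 / 1000 : ℝ) ≤ c / 2 := by linarith
  have h3 : (1129 / 1000 : ℝ) ^ v ≤ (c / 2) ^ padicValInt 2 M :=
    calc (1129 / 1000 : ℝ) ^ v ≤ (c / 2) ^ v := pow_le_pow_left₀ (by norm_num) hc2 v
      _ ≤ (c / 2) ^ padicValInt 2 M := pow_le_pow_right₀ (by linarith) hv
  have h4 : (N : ℝ) * 1000 ^ v ≤ |(M : ℝ)| * 1129 ^ v := by exact_mod_cast h2
  have h5 : (N : ℝ) ≤ |(M : ℝ)| * (1129 / 1000) ^ v := by
    rw [div_pow, mul_div_assoc', le_div_iff₀ (by positivity)]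
    exact h4
  exact h5.trans (mul_le_mul_of_nonneg_left h3 (abs_nonneg _))

variable {K : Type*} [Field K] [NumberField K] (hK : Module.finrank ℚ K = 2) (θ : 𝓞 K)
  (hθ : θ ^ 2 = 14)

include hK hθ in
/-- For `c ≥ 1129/500` the weighted norm is not a Euclidean function. -/
theorem not_euclid (c : ℝ) (hc : 1129 / 500 ≤ c) :
    ¬ IsEuclideanFunction (wnorm (Ideal.span ({2, θ} : Set (𝓞 K))) c) := by
  intro h
  have hb : ((n22 : ℤ) : 𝓞 K) + ((0 : ℤ) : 𝓞 K) * θ ≠ 0 := by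
    intro h0
    exact absurd (coords_zero θ hθ n22 0 h0).1 (by decide)
  obtain ⟨q, hq⟩ := h.div (((4092237812625914 : ℤ) : 𝓞 K) + ((1499270639011672 : ℤ) : 𝓞 K) * θ)
    _ hb
  obtain ⟨q0, q1, rfl⟩ := coords hK θ hθ q
  have e1 : ((4092237812625914 : ℤ) : 𝓞 K) + ((1499270639011672 : ℤ) : 𝓞 K) * θ
      - (((n22 : ℤ) : 𝓞 K) + ((0 : ℤ) : 𝓞 K) * θ) * ((q0 : 𝓞 K) + (q1 : 𝓞 K) * θ)
      = ((4092237812625914 - n22 * q0 : ℤ) : 𝓞 K)
        + ((1499270639011672 - n22 * q1 : ℤ) : 𝓞 K) * θ := by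
    push_cast
    ring
  rw [e1, wnorm_coords hK θ hθ, wnorm_coords hK θ hθ] at hq
  have e2 : n22 ^ 2 - 14 * 0 ^ 2 = n22 ^ 2 := by ring
  rw [e2, g_odd c n22 (by decide)] at hq
  obtain ⟨v, hv1, hv2⟩ := lower22 _ (4092237812625914 - n22 * q0) (1499270639011672 - n22 * q1)
    le_rfl ⟨(4092237812625914, 1499270639011672), by unfold orb22; simp, ⟨-q0, by ring⟩, ⟨-q1, by ring⟩⟩
  have h3 := g_lower c hc _ (n22 ^ 2) (by decide) v hv1 hv2
  push_cast at h3
  exact absurd hq (not_lt.2 h3)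

end Pool.Agent.H222R3.EW
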